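import Pool.Agent.ThQ.Main

/-! # Module Orth: passage to arbitrary quadratic spaces and to the quotient by the center -/

namespace ThQ
open Matrix Module

/-- the property that is proved for the isometry group -/
def TP (G : Type*) [Group G] : Prop :=
  ∃ x ∈ commutator G, ∀ g ∈ commutator G, ∃ z ∈ commutator G, (∀ y : G, z * y = y * z) ∧
    ∃ r ∈ commutator G, ∃ r' ∈ commutator G, g = z * (r * x * r⁻¹ * (r' * x * r'⁻¹))

theorem comm_map {G H : Type*} [Group G] [Group H] (e : G →* H) {x : G} (hx : x ∈ commutator G) :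
    e x ∈ commutator H := by
  have h1 : (commutator G).map e ≤ commutator H := by
    rw [commutator_def, commutator_def, Subgroup.map_commutator]
    exact Subgroup.commutator_mono le_top le_top
  exact h1 ⟨x, hx, rfl⟩

theorem TP.transport {G H : Type*} [Group G] [Group H] (e : G ≃* H) (h : TP G) : TP H := by
  obtain ⟨x, hx, h⟩ := h
  refine ⟨e x, comm_map e.toMonoidHom hx, fun g hg => ?_⟩
  obtain ⟨z, hz, hzc, r, hr, r', hr', hg'⟩ := h (e.symm g) (comm_map e.symm.toMonoidHom hg)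
  refine ⟨e z, comm_map e.toMonoidHom hz, fun y => ?_, e r, comm_map e.toMonoidHom hr, e r',
    comm_map e.toMonoidHom hr', ?_⟩
  · have h1 := congrArg e (hzc (e.symm y))
    rwa [map_mul, map_mul, MulEquiv.apply_symm_apply] at h1
  · have h1 := congrArg e hg'
    rw [MulEquiv.apply_symm_apply] at h1
    rw [h1]
    simp only [map_mul, map_inv]

/-- the conclusion for the quotient by the center -/
theorem TP.quot {G : Type*} [Group G] (h : TP G) :
    ∃ a : commutator G ⧸ Subgroup.center (commutator G),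
      ∀ g : commutator G ⧸ Subgroup.center (commutator G),
        ∃ b c : commutator G ⧸ Subgroup.center (commutator G), IsConj a b ∧ IsConj a c ∧ b * c = g := by
  obtain ⟨x, hx, h⟩ := h
  refine ⟨QuotientGroup.mk (⟨x, hx⟩ : commutator G), fun g => ?_⟩
  obtain ⟨⟨g, hg⟩, rfl⟩ := QuotientGroup.mk_surjective g
  obtain ⟨z, hz, hzc, r, hr, r', hr', hg'⟩ := h g hg
  set X : commutator G := ⟨x, hx⟩ with hX
  set R : commutator G := ⟨r, hr⟩ with hR
  set R' : commutator G := ⟨r', hr'⟩ with hR'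
  refine ⟨QuotientGroup.mk (R * X * R⁻¹), QuotientGroup.mk (R' * X * R'⁻¹), ?_, ?_, ?_⟩
  · rw [isConj_iff]
    exact ⟨QuotientGroup.mk R, rfl⟩
  · rw [isConj_iff]
    exact ⟨QuotientGroup.mk R', rfl⟩
  · have hzc' : (⟨z, hz⟩ : commutator G) ∈ Subgroup.center (commutator G) := by
      rw [Subgroup.mem_center_iff]
      intro y
      exact Subtype.ext (hzc y).symm
    have e : (⟨g, hg⟩ : commutator G) = R * X * R⁻¹ * (R' * X * R'⁻¹) * ⟨z, hz⟩ := by
      apply Subtype.ext
      show g = r * x * r⁻¹ * (r' * x * r'⁻¹) * z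
      rw [hg', hzc]
    rw [← QuotientGroup.mk_mul]
    refine QuotientGroup.eq.2 ?_
    rw [e, inv_mul_cancel_left]
    exact hzc'

variable {K V : Type*} [Field K] [AddCommGroup V] [Module K V]

/-- isometric spaces have isomorphic isometry groups -/
def IG.congr {V' : Type*} [AddCommGroup V'] [Module K V'] {q : QF K V} {q' : QF K V'}
    (Φ : V ≃ₗ[K] V') (h : ∀ x, q'.Q (Φ x) = q.Q x) : IG q ≃* IG q' where
  toFun g := ⟨Φ.symm.trans ((g : V ≃ₗ[K] V).trans Φ), fun x => by
    show q'.Q (Φ ((g : V ≃ₗ[K] V) (Φ.symm x))) = q'.Q x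
    rw [h, g.2, ← h, Φ.apply_symm_apply]⟩
  invFun g := ⟨Φ.trans ((g : V' ≃ₗ[K] V').trans Φ.symm), fun x => by
    show q.Q (Φ.symm ((g : V' ≃ₗ[K] V') (Φ x))) = q.Q x
    rw [← h, Φ.apply_symm_apply, g.2, h]⟩
  left_inv g := by
    apply Subtype.ext
    apply LinearEquiv.ext
    intro x
    show Φ.symm (Φ ((g : V ≃ₗ[K] V) (Φ.symm (Φ x)))) = (g : V ≃ₗ[K] V) x
    rw [Φ.symm_apply_apply, Φ.symm_apply_apply]
  right_inv g := by
    apply Subtype.ext
    apply LinearEquiv.ext
    intro x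
    show Φ (Φ.symm ((g : V' ≃ₗ[K] V') (Φ (Φ.symm x)))) = (g : V' ≃ₗ[K] V') x
    rw [Φ.apply_symm_apply, Φ.apply_symm_apply]
  map_mul' g g' := by
    apply Subtype.ext
    apply LinearEquiv.ext
    intro x
    show Φ ((g : V ≃ₗ[K] V) ((g' : V ≃ₗ[K] V) (Φ.symm x))) =
      Φ ((g : V ≃ₗ[K] V) (Φ.symm (Φ ((g' : V ≃ₗ[K] V) (Φ.symm x)))))
    rw [Φ.symm_apply_apply]

/-- restriction to a subspace -/
def QF.restr (q : QF K V) (D : Submodule K V) : QF K D where
  h x := (q.h x).comp D.subtype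
  Q x := q.Q x
  symm x y := q.symm x y
  add x y := q.add x y
  smul c x := q.smul c x

/-- a hyperbolic system identifies `V` with `V0` -/
theorem to_V0 [FiniteDimensional K V] (q : QF K V) {k : ℕ} {w w' : Fin k → V}
    (h : q.Hyp ⊤ w w') : ∃ Φ : V0 K (q.Dp ⊤ w w') k ≃ₗ[K] V,
      ∀ x, q.Q (Φ x) = (q0 (q.restr (q.Dp ⊤ w w')) k).Q x := by
  let φ : V0 K (q.Dp ⊤ w w') k →ₗ[K] V :=
    { toFun := fun v => (∑ i, v.1 i • w i) + (v.2.1 : V) + ∑ i, v.2.2 i • w' i
      map_add' := fun v v' => by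
        simp only [Prod.fst_add, Prod.snd_add, Pi.add_apply, add_smul, Finset.sum_add_distrib,
          Submodule.coe_add]
        abel
      map_smul' := fun c v => by
        simp only [Prod.smul_fst, Prod.smul_snd, Pi.smul_apply, smul_eq_mul, mul_smul,
          Submodule.coe_smul, RingHom.id_apply, smul_add, Finset.smul_sum] }
  have hφ : ∀ v, φ v = (∑ i, v.1 i • w i) + (v.2.1 : V) + ∑ i, v.2.2 i • w' i := fun v => rfl
  have hD := fun (y : q.Dp ⊤ w w') => ((q.mem_Dp).1 y.2).2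
  -- coordinates
  have c1 : ∀ v i, q.h (w' i) (φ v) = v.1 i := fun v i => by
    rw [hφ, map_add, map_add, map_sum, map_sum]
    simp only [map_smul, h.dual, h.iso', (hD v.2.1 i).2, smul_eq_mul, mul_zero, mul_ite, mul_one,
      Finset.sum_const_zero, add_zero]
    rw [Finset.sum_ite_eq Finset.univ i]
    simp
  have c2 : ∀ v i, q.h (w i) (φ v) = v.2.2 i := fun v i => by
    rw [hφ, map_add, map_add, map_sum, map_sum]
    simp only [map_smul, h.iso, q.symm (w' _) (w i), h.dual, (hD v.2.1 i).1, smul_eq_mul, mul_zero,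
      mul_ite, mul_one, Finset.sum_const_zero, zero_add]
    rw [Finset.sum_ite_eq' Finset.univ i]
    simp
  have hinj : Function.Injective φ := by
    rw [← LinearMap.ker_eq_bot, LinearMap.ker_eq_bot']
    intro v hv
    have e1 : v.1 = 0 := by
      funext i
      rw [← c1 v i, hv, map_zero]
      rfl
    have e2 : v.2.2 = 0 := by
      funext i
      rw [← c2 v i, hv, map_zero]
      rfl
    have e3 : (v.2.1 : V) = 0 := by
      rw [hφ, e1, e2] at hv
      simpa using hv
    exact Prod.ext e1 (Prod.ext (Subtype.ext e3) e2)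
  have hfr : finrank K (V0 K (q.Dp ⊤ w w') k) = finrank K V := by
    rw [V0_finrank, ← finrank_top K V, Dp_finrank q h, Fintype.card_fin]
  let Φ : V0 K (q.Dp ⊤ w w') k ≃ₗ[K] V := LinearEquiv.ofInjectiveOfFinrankEq φ hinj hfr
  refine ⟨Φ, fun v => ?_⟩
  show q.Q (φ v) = v.1 ⬝ᵥ v.2.2 + q.Q v.2.1
  have s1 : (∑ i, v.1 i • w i) ∈ Submodule.span K (Set.range w) :=
    Submodule.sum_mem _ fun i _ => Submodule.smul_mem _ _ (Submodule.subset_span ⟨i, rfl⟩)
  have s2 : (∑ i, v.2.2 i • w' i) ∈ Submodule.span K (Set.range w') :=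
    Submodule.sum_mem _ fun i _ => Submodule.smul_mem _ _ (Submodule.subset_span ⟨i, rfl⟩)
  rw [hφ, q.add, q.add, span_Q q h s1, span_Q' q h s2, span_Dp q s1 v.2.1.2]
  have e4 : q.h ((∑ i, v.1 i • w i) + (v.2.1 : V)) (∑ i, v.2.2 i • w' i) = v.1 ⬝ᵥ v.2.2 := by
    rw [q.symm (∑ i, v.2.2 i • w' i), map_add, span_Dp' q s2 v.2.1.2, add_zero, q.symm (∑ i, v.1 i • w i),
      map_sum]
    have e5 : ∀ i, q.h (∑ j, v.1 j • w j) (w' i) = v.1 i := fun i => by
      rw [q.symm (w' i), map_sum]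
      simp only [map_smul, h.dual, smul_eq_mul, mul_ite, mul_one, mul_zero]
      rw [Finset.sum_ite_eq Finset.univ i]
      simp
    simp only [map_smul, e5, smul_eq_mul, dotProduct]
    exact Finset.sum_congr rfl fun i _ => mul_comm _ _
  rw [e4]
  ring

/-- the structure `QF` of a quadratic form -/
def ofQ (Q : QuadraticForm K V) : QF K V where
  h x := QuadraticMap.polarBilin Q x
  Q x := Q x
  symm x y := QuadraticMap.polar_comm Q y x
  add x y := by
    show Q (x + y) = Q x + Q y + QuadraticMap.polar Q x y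
    rw [QuadraticMap.polar]
    ring
  smul c x := by
    rw [QuadraticMap.map_smul, smul_eq_mul]
    ring

/-- The main theorem for quadratic forms. -/
theorem main_Q [Finite K] [Finite V] (h3 : ∃ c : K, c ≠ 0 ∧ c ≠ 1) (q : QF K V) (hq : q.ND ⊤)
    {m : ℕ} (hm : 4 ≤ m) (hV : finrank K V = 2 * m) : TP (IG q) := by
  have : FiniteDimensional K V := Module.Finite.of_finite
  obtain ⟨k, rfl⟩ : ∃ k, m = k + 1 := ⟨m - 1, by omega⟩
  have hf : finrank K (⊤ : Submodule K V) = 2 * k + 2 := by rw [finrank_top, hV]; ring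
  obtain ⟨w, w', h⟩ := hyp_ex q hq hf
  obtain ⟨Φ, hΦ⟩ := to_V0 q h
  have hD : (q.restr (q.Dp ⊤ w w')).ND ⊤ := by
    intro x _ hx
    have h1 := Dp_ND q hq h x.1 x.2 (fun y hy => hx ⟨y, hy⟩ trivial)
    exact Subtype.ext h1
  have hD2 : finrank K (q.Dp ⊤ w w') = 2 := by
    have := Dp_finrank q h
    rw [hf, Fintype.card_fin] at this
    omega
  have h1 : TP (IG (q0 (q.restr (q.Dp ⊤ w w')) k)) :=
    main_V0 h3 (by omega) (q.restr (q.Dp ⊤ w w')) hD hD2
  exact h1.transport (IG.congr Φ hΦ)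

end ThQ
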