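import Pool.Agent.ThQ.Spq

/-! # Module Hyps: facts on hyperbolic systems -/

namespace ThQ
open Module

variable {K V : Type*} [Field K] [AddCommGroup V] [Module K V] (q : QF K V)
variable {U : Submodule K V} {ι : Type*} [Fintype ι] [DecidableEq ι] {w w' : ι → V}

/-- vectors of `span w` are singular -/
theorem span_Q (h : q.Hyp U w w') {y : V} (hy : y ∈ Submodule.span K (Set.range w)) : q.Q y = 0 := by
  have key : q.Q y = 0 ∧ ∀ i, q.h (w i) y = 0 := by
    induction hy using Submodule.span_induction with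
    | mem x hx => obtain ⟨i, rfl⟩ := hx; exact ⟨h.sing i, fun j => h.iso j i⟩
    | zero => exact ⟨q.Q_zero, fun j => map_zero _⟩
    | add x y hx hy ihx ihy =>
      refine ⟨?_, fun j => by rw [map_add, ihx.2, ihy.2, add_zero]⟩
      have hxy : q.h x y = 0 := by
        clear ihx
        induction hx using Submodule.span_induction with
        | mem x hx => obtain ⟨i, rfl⟩ := hx; exact ihy.2 i
        | zero => rw [q.zero_left]
        | add a b _ _ iha ihb => rw [q.add_left, iha, ihb, add_zero]
        | smul c a _ iha => rw [q.smul_left, iha, mul_zero]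
      rw [q.add, ihx.1, ihy.1, hxy, add_zero, add_zero]
    | smul c x hx ihx =>
      exact ⟨by rw [q.smul, ihx.1, mul_zero], fun j => by rw [map_smul, ihx.2, smul_zero]⟩
  exact key.1

theorem span_Q' (h : q.Hyp U w w') {y : V} (hy : y ∈ Submodule.span K (Set.range w')) :
    q.Q y = 0 := by
  have key : q.Q y = 0 ∧ ∀ i, q.h (w' i) y = 0 := by
    induction hy using Submodule.span_induction with
    | mem x hx => obtain ⟨i, rfl⟩ := hx; exact ⟨h.sing' i, fun j => h.iso' j i⟩
    | zero => exact ⟨q.Q_zero, fun j => map_zero _⟩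
    | add x y hx hy ihx ihy =>
      refine ⟨?_, fun j => by rw [map_add, ihx.2, ihy.2, add_zero]⟩
      have hxy : q.h x y = 0 := by
        clear ihx
        induction hx using Submodule.span_induction with
        | mem x hx => obtain ⟨i, rfl⟩ := hx; exact ihy.2 i
        | zero => rw [q.zero_left]
        | add a b _ _ iha ihb => rw [q.add_left, iha, ihb, add_zero]
        | smul c a _ iha => rw [q.smul_left, iha, mul_zero]
      rw [q.add, ihx.1, ihy.1, hxy, add_zero, add_zero]
    | smul c x hx ihx =>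
      exact ⟨by rw [q.smul, ihx.1, mul_zero], fun j => by rw [map_smul, ihx.2, smul_zero]⟩
  exact key.1

theorem span_mem (h : q.Hyp U w w') {y : V} (hy : y ∈ Submodule.span K (Set.range w)) : y ∈ U := by
  refine (Submodule.span_le (p := U)).2 ?_ hy
  rintro _ ⟨i, rfl⟩
  exact h.mem i

theorem span_mem' (h : q.Hyp U w w') {y : V} (hy : y ∈ Submodule.span K (Set.range w')) : y ∈ U := by
  refine (Submodule.span_le (p := U)).2 ?_ hy
  rintro _ ⟨i, rfl⟩
  exact h.mem' i

/-- vectors of `span w` are orthogonal to `Dp` -/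
theorem span_Dp {y x : V} (hy : y ∈ Submodule.span K (Set.range w)) (hx : x ∈ q.Dp U w w') :
    q.h y x = 0 := by
  induction hy using Submodule.span_induction with
  | mem z hz => obtain ⟨i, rfl⟩ := hz; exact ((q.mem_Dp.1 hx).2 i).1
  | zero => rw [q.zero_left]
  | add a b _ _ iha ihb => rw [q.add_left, iha, ihb, add_zero]
  | smul c a _ iha => rw [q.smul_left, iha, mul_zero]

theorem span_Dp' {y x : V} (hy : y ∈ Submodule.span K (Set.range w')) (hx : x ∈ q.Dp U w w') :
    q.h y x = 0 := by
  induction hy using Submodule.span_induction with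
  | mem z hz => obtain ⟨i, rfl⟩ := hz; exact ((q.mem_Dp.1 hx).2 i).2
  | zero => rw [q.zero_left]
  | add a b _ _ iha ihb => rw [q.add_left, iha, ihb, add_zero]
  | smul c a _ iha => rw [q.smul_left, iha, mul_zero]

/-- `y = ∑ h (w' i) x • w i`, `y' = ∑ h (w i) x • w' i` -/
theorem Dp_dec (h : q.Hyp U w w') {x : V} (hx : x ∈ U) : ∃ y ∈ Submodule.span K (Set.range w),
    ∃ y' ∈ Submodule.span K (Set.range w'), x - y - y' ∈ q.Dp U w w' := by
  have hy : ∑ i, q.h (w' i) x • w i ∈ Submodule.span K (Set.range w) :=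
    Submodule.sum_mem _ fun i _ => Submodule.smul_mem _ _ (Submodule.subset_span ⟨i, rfl⟩)
  have hy' : ∑ i, q.h (w i) x • w' i ∈ Submodule.span K (Set.range w') :=
    Submodule.sum_mem _ fun i _ => Submodule.smul_mem _ _ (Submodule.subset_span ⟨i, rfl⟩)
  refine ⟨_, hy, _, hy', ?_⟩
  rw [q.mem_Dp]
  refine ⟨U.sub_mem (U.sub_mem hx (span_mem q h hy)) (span_mem' q h hy'), fun j => ⟨?_, ?_⟩⟩
  · rw [map_sub, map_sub, map_sum, map_sum]
    simp only [map_smul, smul_eq_mul, h.iso, mul_zero, Finset.sum_const_zero, sub_zero]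
    rw [Finset.sum_eq_single j, q.symm (w' j) (w j), h.dual, if_pos rfl, mul_one, sub_self]
    · intro b _ hb
      rw [q.symm (w' b) (w j), h.dual, if_neg hb, mul_zero]
    · simp
  · rw [map_sub, map_sub, map_sum, map_sum]
    simp only [map_smul, smul_eq_mul, h.iso', mul_zero, Finset.sum_const_zero, sub_zero]
    rw [Finset.sum_eq_single j, h.dual, if_pos rfl, mul_one, sub_self]
    · intro b _ hb
      rw [h.dual, if_neg hb.symm, mul_zero]
    · simp

/-- from `Dp_dec` -/
theorem Dp_ND (hU : q.ND U) (h : q.Hyp U w w') : q.ND (q.Dp U w w') := by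
  intro x hx hxy
  refine hU x (q.mem_Dp.1 hx).1 fun z hz => ?_
  obtain ⟨y, hy, y', hy', hd⟩ := Dp_dec q h hz
  have h1 := hxy _ hd
  rw [map_sub, map_sub, ← q.symm x y, ← q.symm x y', span_Dp q hy hx, span_Dp' q hy' hx, sub_zero,
    sub_zero] at h1
  exact h1

/-- rank formula for the map `x ↦ (h (w i) x, h (w' i) x)` from `U` onto `(ι → K) × (ι → K)`, its kernel is `Dp` -/
theorem Dp_finrank [FiniteDimensional K V] (h : q.Hyp U w w') :
    finrank K U = 2 * Fintype.card ι + finrank K (q.Dp U w w') := by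
  let φ : U →ₗ[K] (ι → K) × (ι → K) :=
    ((LinearMap.pi fun i => q.h (w i)).prod (LinearMap.pi fun i => q.h (w' i))).comp U.subtype
  have hφ : ∀ x : U, φ x = (fun i => q.h (w i) x.1, fun i => q.h (w' i) x.1) := fun x => rfl
  have hsurj : Function.Surjective φ := by
    rintro ⟨c, d⟩
    refine ⟨⟨∑ i, d i • w i + ∑ i, c i • w' i, U.add_mem (U.sum_mem fun i _ => U.smul_mem _ (h.mem i))
      (U.sum_mem fun i _ => U.smul_mem _ (h.mem' i))⟩, ?_⟩
    rw [hφ]
    refine Prod.ext (funext fun j => ?_) (funext fun j => ?_)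
    · show q.h (w j) (∑ i, d i • w i + ∑ i, c i • w' i) = c j
      rw [map_add, map_sum, map_sum]
      simp only [map_smul, smul_eq_mul, h.iso, mul_zero, Finset.sum_const_zero, zero_add]
      rw [Finset.sum_eq_single j, q.symm (w' j) (w j), h.dual, if_pos rfl, mul_one]
      · intro b _ hb
        rw [q.symm (w' b) (w j), h.dual, if_neg hb, mul_zero]
      · simp
    · show q.h (w' j) (∑ i, d i • w i + ∑ i, c i • w' i) = d j
      rw [map_add, map_sum, map_sum]
      simp only [map_smul, smul_eq_mul, h.iso', mul_zero, Finset.sum_const_zero, add_zero]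
      rw [Finset.sum_eq_single j, h.dual, if_pos rfl, mul_one]
      · intro b _ hb
        rw [h.dual, if_neg hb.symm, mul_zero]
      · simp
  have hle : q.Dp U w w' ≤ U := inf_le_left
  have hker : LinearMap.ker φ = (q.Dp U w w').comap U.subtype := by
    ext x
    rw [LinearMap.mem_ker, hφ, Submodule.mem_comap, Submodule.subtype_apply, q.mem_Dp,
      Prod.mk_eq_zero]
    constructor
    · exact fun hh => ⟨x.2, fun i => ⟨congrFun hh.1 i, congrFun hh.2 i⟩⟩
    · exact fun hh => ⟨funext fun i => (hh.2 i).1, funext fun i => (hh.2 i).2⟩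
  have h1 := φ.finrank_range_add_finrank_ker
  rw [LinearMap.range_eq_top.2 hsurj, finrank_top, hker,
    (Submodule.comapSubtypeEquivOfLe hle).finrank_eq, Module.finrank_prod,
    Module.finrank_pi] at h1
  omega

/-- The middle block is an isometry: `Q x = Q (x + y) = Q (G (x + y)) = Q (s x + y') = Q (s x)` as `y`, `y'` are
singular and orthogonal to `x`, `s x`. -/
theorem mid_iso (h : q.Hyp U w w') {G s : V →ₗ[K] V} (hG : q.Iso U G) (hs : q.Mid U G w w' s) :
    q.Iso (q.Dp U w w') s := by
  refine ⟨fun x hx => (hs x hx).1, fun x hx => ?_⟩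
  obtain ⟨h1, y, hy, y', hy', he⟩ := hs x hx
  have h2 : q.Q (G (x + y)) = q.Q (x + y) :=
    hG.2 _ (U.add_mem (q.mem_Dp.1 hx).1 (span_mem q h hy))
  rw [he, q.add, q.add, span_Q q h hy, span_Q' q h hy', ← q.symm (s x) y', ← q.symm x y,
    span_Dp' q hy' h1, span_Dp q hy hx] at h2
  simpa using h2

end ThQ
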