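import Pool.Agent.ThQ.Spq

/-! # Module RkA: the rank of `G - 1` and reflections -/

namespace ThQ
open Module

variable {K V : Type*} [Field K] [AddCommGroup V] [Module K V] (q : QF K V)
variable {U : Submodule K V} {G : V →ₗ[K] V}

theorem rk_congr {G' : V →ₗ[K] V} (h : ∀ x ∈ U, G x = G' x) : rk U G = rk U G' := by
  have e : U.map (G - LinearMap.id) = U.map (G' - LinearMap.id) := by
    apply le_antisymm
    · rintro _ ⟨x, hx, rfl⟩
      exact ⟨x, hx, by simp [h x hx]⟩
    · rintro _ ⟨x, hx, rfl⟩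
      exact ⟨x, hx, by simp [h x hx]⟩
  rw [rk, rk, e]

private theorem RkA_rn [FiniteDimensional K V] (f : V →ₗ[K] V) (M : Submodule K V) :
    finrank K M = finrank K (M.map f) + finrank K (M ⊓ LinearMap.ker f : Submodule K V) := by
  have h1 := LinearMap.finrank_range_add_finrank_ker (f.domRestrict M)
  have h2 : LinearMap.range (f.domRestrict M) = M.map f := by
    ext y
    constructor
    · rintro ⟨x, rfl⟩
      exact ⟨x, x.2, rfl⟩
    · rintro ⟨x, hx, rfl⟩
      exact ⟨⟨x, hx⟩, rfl⟩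
  have h3 : (LinearMap.ker (f.domRestrict M)).map M.subtype = M ⊓ LinearMap.ker f := by
    ext y
    constructor
    · rintro ⟨x, hx, rfl⟩
      exact ⟨x.2, hx⟩
    · rintro ⟨hy, hy2⟩
      exact ⟨⟨y, hy⟩, hy2, rfl⟩
  have h4 := (Submodule.equivSubtypeMap M (LinearMap.ker (f.domRestrict M))).finrank_eq
  rw [h3] at h4
  rw [← h1, h2, h4]

/-- rank formula on `U` -/
theorem rk_ker [FiniteDimensional K V] :
    finrank K U = rk U G + finrank K (U ⊓ LinearMap.ker (G - LinearMap.id) : Submodule K V) := by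
  exact RkA_rn _ _

theorem rk_le [FiniteDimensional K V] : rk U G ≤ finrank K U := by
  rw [rk_ker (U := U) (G := G)]
  exact Nat.le_add_right _ _

private theorem RkA_memf {x : V} :
    x ∈ (U ⊓ LinearMap.ker (G - LinearMap.id) : Submodule K V) ↔ x ∈ U ∧ G x = x := by
  rw [Submodule.mem_inf, LinearMap.mem_ker, LinearMap.sub_apply, LinearMap.id_apply, sub_eq_zero]

/-- the dimension grows by one -/
private theorem RkA_sup [FiniteDimensional K V] {A B : Submodule K V} {z : V} (hz : z ∈ A)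
    (hB : B ≤ A) (hzB : z ∉ B) (h : ∀ x ∈ A, ∃ c : K, x - c • z ∈ B) :
    finrank K A = finrank K B + 1 := by
  have h1 : A = B ⊔ Submodule.span K {z} := by
    apply le_antisymm
    · intro x hx
      obtain ⟨c, hc⟩ := h x hx
      rw [Submodule.mem_sup]
      exact ⟨_, hc, c • z, Submodule.smul_mem _ _ (Submodule.mem_span_singleton_self z), by abel⟩
    · refine sup_le hB ?_
      rw [Submodule.span_singleton_le_iff_mem]
      exact hz
  have h2 : B ⊓ Submodule.span K {z} = ⊥ := by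
    rw [eq_bot_iff]
    rintro x ⟨hx, hx2⟩
    obtain ⟨c, rfl⟩ := Submodule.mem_span_singleton.1 hx2
    by_cases hc : c = 0
    · rw [hc, zero_smul]
      exact Submodule.zero_mem _
    · exfalso
      apply hzB
      have := B.smul_mem c⁻¹ hx
      rwa [smul_smul, inv_mul_cancel₀ hc, one_smul] at this
  have hz0 : z ≠ 0 := fun h0 => hzB (h0 ▸ B.zero_mem)
  have h3 := Submodule.finrank_sup_add_finrank_inf_eq B (Submodule.span K {z})
  rw [h2, finrank_bot, ← h1, finrank_span_singleton hz0] at h3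
  omega

/-- The orthogonal complement in a nondegenerate `U` of a subspace `N` of `U` has the complementary dimension
(the map `U → Dual N`, `x ↦ h x` is onto by `riesz`: extend the functionals to `V`). -/
theorem perp_dim [FiniteDimensional K V] (hU : q.ND U) {N : Submodule K V} (hN : N ≤ U)
    {M : Submodule K V} (hM : ∀ x, x ∈ M ↔ x ∈ U ∧ ∀ y ∈ N, q.h y x = 0) :
    finrank K U = finrank K N + finrank K M := by
  let φ : U →ₗ[K] (N →ₗ[K] K) :=
    { toFun := fun x => (q.h x).domRestrict N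
      map_add' := fun x y => by
        ext z
        exact q.add_left _ _ _
      map_smul' := fun c x => by
        ext z
        exact q.smul_left _ _ _ }
  have h1 := LinearMap.finrank_range_add_finrank_ker φ
  have h2 : LinearMap.range φ = ⊤ := by
    rw [eq_top_iff]
    intro ψ _
    obtain ⟨g, hg⟩ := LinearMap.exists_extend ψ
    obtain ⟨b, hb, hb2⟩ := riesz q hU g
    refine ⟨⟨b, hb⟩, ?_⟩
    ext z
    show q.h b z = ψ z
    rw [← hb2 z (hN z.2), ← hg]
    rfl
  have h3 : (LinearMap.ker φ).map U.subtype = M := by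
    ext y
    rw [hM]
    constructor
    · rintro ⟨x, hx, rfl⟩
      refine ⟨x.2, fun y hy => ?_⟩
      have h5 : φ x ⟨y, hy⟩ = 0 := by
        rw [LinearMap.mem_ker.1 hx]
        rfl
      rw [q.symm]
      exact h5
    · rintro ⟨hy, hy2⟩
      refine ⟨⟨y, hy⟩, ?_, rfl⟩
      show φ ⟨y, hy⟩ = 0
      ext z
      show q.h y z = 0
      rw [q.symm]
      exact hy2 z z.2
  have h4 := (Submodule.equivSubtypeMap U (LinearMap.ker φ)).finrank_eq
  rw [h3] at h4
  rw [h2, finrank_top, h4] at h1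
  have h5 : finrank K (N →ₗ[K] K) = finrank K N := Subspace.dual_finrank_eq
  rw [← h1, h5]

/-- `(G - 1) U` is the orthogonal complement in `U` of the fixed vectors: `h ((G - 1) x) y = h (G x) y - h x y =
h (G x) (G y) - h x y = 0` for `G y = y`; the dimensions agree by `perp_dim` and `rk_ker`. -/
theorem mem_im [FiniteDimensional K V] (hU : q.ND U) (hG : q.Iso U G) (u : V) :
    (∃ x ∈ U, G x - x = u) ↔ u ∈ U ∧ ∀ y ∈ U, G y = y → q.h y u = 0 := by
  have hfor : ∀ x ∈ U, G x - x ∈ U ∧ ∀ y ∈ U, G y = y → q.h y (G x - x) = 0 := by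
    intro x hx
    refine ⟨U.sub_mem (hG.1 x hx) hx, fun y hy hGy => ?_⟩
    have h1 := hG.h hy hx
    rw [hGy] at h1
    rw [map_sub, h1, sub_self]
  obtain ⟨P, hP⟩ : ∃ P : Submodule K V, ∀ x, x ∈ P ↔ x ∈ U ∧
      ∀ y ∈ (U ⊓ LinearMap.ker (G - LinearMap.id) : Submodule K V), q.h y x = 0 := by
    refine ⟨U ⊓ ⨅ y : (U ⊓ LinearMap.ker (G - LinearMap.id) : Submodule K V),
      LinearMap.ker (q.h y), fun x => ?_⟩
    rw [Submodule.mem_inf, Submodule.mem_iInf]
    exact and_congr_right fun _ => ⟨fun h y hy => h ⟨y, hy⟩, fun h y => h y y.2⟩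
  have h1 := perp_dim q hU (N := U ⊓ LinearMap.ker (G - LinearMap.id)) inf_le_left hP
  have h2 := rk_ker (U := U) (G := G)
  have hle : U.map (G - LinearMap.id) ≤ P := by
    rintro _ ⟨x, hx, rfl⟩
    rw [hP]
    have h3 := hfor x hx
    refine ⟨h3.1, fun y hy => ?_⟩
    obtain ⟨hy1, hy2⟩ := RkA_memf.1 hy
    exact h3.2 y hy1 hy2
  have heq : U.map (G - LinearMap.id) = P := by
    refine Submodule.eq_of_le_of_finrank_eq hle ?_
    rw [rk] at h2
    omega
  constructor
  · rintro ⟨x, hx, rfl⟩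
    exact hfor x hx
  · rintro ⟨hu, hu2⟩
    have h4 : u ∈ P := by
      rw [hP]
      refine ⟨hu, fun y hy => ?_⟩
      obtain ⟨hy1, hy2⟩ := RkA_memf.1 hy
      exact hu2 y hy1 hy2
    rw [← heq] at h4
    obtain ⟨x, hx, hxu⟩ := h4
    exact ⟨x, hx, hxu⟩

/-- A reflection changes the rank of `G - 1` by one.  `G' = refl f ∘ G` fixes `y` iff `G y = refl f y`, that is
`G y - y = - (h f y / Q f) • f`.
First case `f = G x - x` with `x ∈ U`: the fixed vectors of `G'` in `U` are the vectors `k - λ x` with `G k = k`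
and any `λ`: if `G' y = y`, put `λ = h f y / Q f`; then `k = y + λ x` is fixed by `G`.  Conversely for
`y = k - λ x`: `h f k = 0` (`mem_im`) and `h f x = h (G x) x - 2 Q x = - Q (G x - x) = - Q f`, so
`h f y / Q f = λ`.  As `G x ≠ x`, the dimension of the fixed space grows by one, and the rank decreases by one.
Second case `f ∉ (G - 1) U`: `G' y = y` implies `h f y = 0` and `G y = y`, so the new fixed space is the set of the
fixed vectors of `G` orthogonal to `f`, not all are (`mem_im`); its dimension is smaller by one. -/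
theorem par_refl [FiniteDimensional K V] (hU : q.ND U) (hG : q.Iso U G) {f : V} (hf : f ∈ U)
    (h0 : q.Q f ≠ 0) :
    rk U (q.refl f ∘ₗ G) = rk U G + 1 ∨ rk U G = rk U (q.refl f ∘ₗ G) + 1 := by
  have hk := rk_ker (U := U) (G := G)
  have hk' := rk_ker (U := U) (G := q.refl f ∘ₗ G)
  -- `refl f (G y) = y` iff `G y = refl f y`
  have hiff : ∀ y, (q.refl f ∘ₗ G) y = y ↔ G y = y - (q.h f y * (q.Q f)⁻¹) • f := by
    intro y
    rw [LinearMap.comp_apply, ← q.refl_apply]
    constructor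
    · intro h
      rw [← refl_refl q h0 (G y), h]
    · intro h
      rw [h, refl_refl q h0]
  by_cases hc : ∃ x ∈ U, G x - x = f
  · right
    obtain ⟨x, hx, hxf⟩ := hc
    have hfk : ∀ k ∈ U, G k = k → q.h f k = 0 := by
      intro k hk hGk
      have h1 := ((mem_im q hU hG f).1 ⟨x, hx, hxf⟩).2 k hk hGk
      rw [q.symm]
      exact h1
    have hGx : G x = x + f := by rw [← hxf]; abel
    have hfx : q.h f x = - q.Q f := by
      have h1 := hG.2 x hx
      rw [hGx, q.add, q.symm f x] at h1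
      linear_combination h1
    have hxF : (q.refl f ∘ₗ G) x = x := by
      rw [hiff, hfx, hGx, neg_mul, mul_inv_cancel₀ h0, neg_smul, one_smul]
      abel
    have h2 : finrank K (U ⊓ LinearMap.ker (q.refl f ∘ₗ G - LinearMap.id) : Submodule K V) =
        finrank K (U ⊓ LinearMap.ker (G - LinearMap.id) : Submodule K V) + 1 := by
      refine RkA_sup (z := x) (RkA_memf.2 ⟨hx, hxF⟩) ?_ ?_ ?_
      · intro k hk
        obtain ⟨hk1, hk2⟩ := RkA_memf.1 hk
        refine RkA_memf.2 ⟨hk1, ?_⟩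
        rw [hiff, hk2, hfk k hk1 hk2, zero_mul, zero_smul, sub_zero]
      · intro hx3
        have h3 := (RkA_memf.1 hx3).2
        rw [h3, sub_self] at hxf
        rw [← hxf, q.Q_zero] at h0
        exact h0 rfl
      · intro y hy
        obtain ⟨hy1, hy2⟩ := RkA_memf.1 hy
        rw [hiff] at hy2
        refine ⟨-(q.h f y * (q.Q f)⁻¹), RkA_memf.2 ⟨?_, ?_⟩⟩
        · exact U.sub_mem hy1 (U.smul_mem _ hx)
        · rw [map_sub, map_smul, hy2, hGx]
          module
    omega
  · left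
    obtain ⟨y0, hy0, hGy0, hy0f⟩ : ∃ y0 ∈ U, G y0 = y0 ∧ q.h y0 f ≠ 0 := by
      by_contra hcon
      push Not at hcon
      exact hc ((mem_im q hU hG f).2 ⟨hf, hcon⟩)
    have hfix : ∀ y ∈ U, (q.refl f ∘ₗ G) y = y → G y = y ∧ q.h f y = 0 := by
      intro y hy hy2
      rw [hiff] at hy2
      by_cases hl : q.h f y = 0
      · rw [hl, zero_mul, zero_smul, sub_zero] at hy2
        exact ⟨hy2, hl⟩
      · exfalso
        apply hc
        have hl2 : q.h f y * (q.Q f)⁻¹ ≠ 0 := mul_ne_zero hl (inv_ne_zero h0)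
        refine ⟨(-(q.h f y * (q.Q f)⁻¹)⁻¹) • y, U.smul_mem _ hy, ?_⟩
        rw [map_smul, hy2, smul_sub, smul_smul, neg_mul, inv_mul_cancel₀ hl2]
        module
    have h2 : finrank K (U ⊓ LinearMap.ker (G - LinearMap.id) : Submodule K V) =
        finrank K (U ⊓ LinearMap.ker (q.refl f ∘ₗ G - LinearMap.id) : Submodule K V) + 1 := by
      have hy0f' : q.h f y0 ≠ 0 := by
        rw [q.symm]
        exact hy0f
      refine RkA_sup (z := y0) (RkA_memf.2 ⟨hy0, hGy0⟩) ?_ ?_ ?_
      · intro k hk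
        obtain ⟨hk1, hk2⟩ := RkA_memf.1 hk
        exact RkA_memf.2 ⟨hk1, (hfix k hk1 hk2).1⟩
      · intro hx3
        obtain ⟨h3, h4⟩ := RkA_memf.1 hx3
        exact hy0f' (hfix _ h3 h4).2
      · intro y hy
        obtain ⟨hy1, hy2⟩ := RkA_memf.1 hy
        refine ⟨q.h f y * (q.h f y0)⁻¹, RkA_memf.2 ⟨U.sub_mem hy1 (U.smul_mem _ hy0), ?_⟩⟩
        rw [hiff, map_sub, map_smul, hy2, hGy0, map_sub, map_smul, smul_eq_mul, mul_assoc,
          inv_mul_cancel₀ hy0f', mul_one, sub_self, zero_mul, zero_smul, sub_zero]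
    omega

theorem par_refl' [FiniteDimensional K V] (hU : q.ND U) (hG : q.Iso U G) {f : V} (hf : f ∈ U)
    (h0 : q.Q f ≠ 0) : rk U (q.refl f ∘ₗ G) % 2 = (rk U G + 1) % 2 := by
  have h := par_refl q hU hG hf h0
  omega

/-- `G' G - 1 = G' (G G' - 1) G'⁻¹` on `U` -/
theorem rk_comm [FiniteDimensional K V] (hU : q.ND U) {G' : V →ₗ[K] V} (hG : q.Iso U G)
    (hG' : q.Iso U G') : rk U (G ∘ₗ G') = rk U (G' ∘ₗ G) := by
  have h1 := RkA_rn G' (U.map (G ∘ₗ G' - LinearMap.id))
  have h2 : (U.map (G ∘ₗ G' - LinearMap.id)).map G' = U.map (G' ∘ₗ G - LinearMap.id) := by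
    apply le_antisymm
    · rintro _ ⟨_, ⟨x, hx, rfl⟩, rfl⟩
      refine ⟨G' x, hG'.1 x hx, ?_⟩
      simp only [LinearMap.sub_apply, LinearMap.comp_apply, LinearMap.id_apply, map_sub]
    · rintro _ ⟨y, hy, rfl⟩
      obtain ⟨x, hx, rfl⟩ := iso_surj q hU hG' hy
      refine ⟨_, ⟨x, hx, rfl⟩, ?_⟩
      simp only [LinearMap.sub_apply, LinearMap.comp_apply, LinearMap.id_apply, map_sub]
  have h3 : (U.map (G ∘ₗ G' - LinearMap.id) ⊓ LinearMap.ker G' : Submodule K V) = ⊥ := by
    rw [eq_bot_iff]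
    rintro x ⟨⟨y, hy, hyx⟩, hx⟩
    rw [Submodule.mem_bot]
    refine iso_inj q hU hG' ?_ hx
    rw [← hyx, LinearMap.sub_apply, LinearMap.comp_apply, LinearMap.id_apply]
    exact U.sub_mem (hG.1 _ (hG'.1 _ hy)) hy
  rw [h2, h3, finrank_bot, add_zero] at h1
  exact h1

/-- An isometry with `rk = 1` is a reflection: `(G - 1) U = K f`, `G x = x + φ x • f` on `U`.
`Q (G x) = Q x` gives `φ x * h f x + φ x ^ 2 * Q f = 0`.  If `Q f = 0`: `φ x h f x = 0` for all `x ∈ U`, so
`φ = 0` or `h f = 0` on `U` (a vector space is not the union of two proper subspaces), both impossible.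
So `Q f ≠ 0` and for every `x ∈ U` either `φ x = 0` or `φ x = - h f x / Q f`.  The functional `φ + h f / Q f`
vanishes outside the proper subspace `ker φ` and therefore everywhere on `U` (if `φ x = 0` take `x1` with `φ x1 ≠ 0`,
then `φ (x + x1) ≠ 0`). -/
theorem rk_one_refl [FiniteDimensional K V] (hU : q.ND U) (hG : q.Iso U G) (h1 : rk U G = 1) :
    ∃ f ∈ U, q.Q f ≠ 0 ∧ ∀ x ∈ U, G x = q.refl f x := by
  rw [rk] at h1
  obtain ⟨⟨f, x0, hx0, hf⟩, hf0, hspan⟩ := finrank_eq_one_iff'.1 h1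
  have hf' : G x0 - x0 = f := hf
  have hfU : f ∈ U := by
    rw [← hf']
    exact U.sub_mem (hG.1 _ hx0) hx0
  have hfne : f ≠ 0 := fun h => hf0 (Subtype.ext h)
  have hc : ∀ x ∈ U, ∃ c : K, G x = x + c • f := by
    intro x hx
    obtain ⟨c, hc⟩ := hspan ⟨G x - x, x, hx, rfl⟩
    refine ⟨c, ?_⟩
    have h2 : c • f = G x - x := congrArg Subtype.val hc
    rw [h2]
    abel
  have hq : ∀ x ∈ U, ∀ c : K, G x = x + c • f → c * (c * q.Q f + q.h x f) = 0 := by
    intro x hx c hx2
    have h2 := hG.2 x hx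
    rw [hx2, q.add, q.smul, map_smul, smul_eq_mul] at h2
    linear_combination h2
  have hx0' : q.Q f + q.h x0 f = 0 := by
    have h2 := hq x0 hx0 1 (by rw [one_smul, ← hf']; abel)
    rwa [one_mul, one_mul] at h2
  have hfix : ∀ x ∈ U, G x = x → q.h x f = 0 := by
    intro x hx hGx
    have h2 := hq (x + x0) (U.add_mem hx hx0) 1 (by rw [map_add, hGx, one_smul, ← hf']; abel)
    rw [one_mul, one_mul, q.add_left] at h2
    linear_combination h2 - hx0'
  have hQ : q.Q f ≠ 0 := by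
    intro hQ0
    apply hfne
    refine hU f hfU fun z hz => ?_
    obtain ⟨c, hcz⟩ := hc z hz
    have h2 := hq z hz c hcz
    rw [hQ0, mul_zero, zero_add] at h2
    rw [q.symm]
    rcases mul_eq_zero.1 h2 with h3 | h3
    · rw [h3, zero_smul, add_zero] at hcz
      exact hfix z hz hcz
    · exact h3
  refine ⟨f, hfU, hQ, fun x hx => ?_⟩
  obtain ⟨c, hcx⟩ := hc x hx
  rw [q.refl_apply]
  by_cases h3 : c = 0
  · rw [h3, zero_smul, add_zero] at hcx
    rw [hcx, q.symm, hfix x hx hcx, zero_mul, zero_smul, sub_zero]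
  · have h4 := (mul_eq_zero.1 (hq x hx c hcx)).resolve_left h3
    have h5 : q.h f x * (q.Q f)⁻¹ = -c := by
      rw [q.symm x f]
      have h6 : q.h x f = -c * q.Q f := by linear_combination h4
      rw [h6, mul_assoc, mul_inv_cancel₀ hQ, mul_one]
    rw [hcx, h5]
    module

end ThQ
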