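import Pool.Agent.ThQ.BlkA
import Pool.Agent.ThQ.Hyps
import Pool.Agent.ThQ.RkA

/-! # Module BlkB: adding a block -/

namespace ThQ
open Matrix Module

variable {K V : Type*} [Field K] [AddCommGroup V] [Module K V] (q : QF K V)
variable {U : Submodule K V} {G : V →ₗ[K] V} {c : K} {w1 w2 : V}

private theorem hyp_comp {ι κ : Type*} [DecidableEq ι] [DecidableEq κ] {w w' : ι → V}
    (h : q.Hyp U w w') (e : κ → ι) (he : Function.Injective e) : q.Hyp U (w ∘ e) (w' ∘ e) where
  mem i := h.mem (e i)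
  mem' i := h.mem' (e i)
  sing i := h.sing (e i)
  sing' i := h.sing' (e i)
  iso i j := h.iso (e i) (e j)
  iso' i j := h.iso' (e i) (e j)
  dual i j := by
    show q.h (w' (e i)) (w (e j)) = _
    rw [h.dual]
    by_cases hij : i = j
    · rw [if_pos hij, if_pos (congrArg e hij)]
    · rw [if_neg hij, if_neg (fun hh => hij (he hh))]

private theorem dp_comp {ι κ : Type*} {w w' : ι → V} (e : κ → ι) (he : Function.Surjective e) :
    q.Dp U (w ∘ e) (w' ∘ e) = q.Dp U w w' := by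
  ext x
  rw [q.mem_Dp, q.mem_Dp]
  constructor
  · rintro ⟨hx, h⟩
    refine ⟨hx, fun i => ?_⟩
    obtain ⟨k, rfl⟩ := he i
    exact h k
  · rintro ⟨hx, h⟩
    exact ⟨hx, fun k => h (e k)⟩

private theorem mid_comp {ι κ : Type*} {w w' : ι → V} {s : V →ₗ[K] V} (e : κ → ι)
    (he : Function.Surjective e) (h : q.Mid U G w w' s) : q.Mid U G (w ∘ e) (w' ∘ e) s := by
  unfold QF.Mid at h ⊢
  rw [dp_comp q e he, he.range_comp, he.range_comp]
  exact h

theorem sys1_reindex {ι ι' : Type*} [DecidableEq ι] [DecidableEq ι'] (e : ι ≃ ι') {a : Matrix ι ι K}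
    (h : q.Sys1 U G a) : q.Sys1 U G (Matrix.reindex e e a) := by
  obtain ⟨w, w', h1, h2, h3⟩ := h
  exact ⟨w ∘ e.symm, w' ∘ e.symm, hyp_comp q h1 _ e.symm.injective, fun i j => h2 _ _,
    mid_comp q _ e.symm.surjective h3⟩

section Add

variable {ι : Type*} [DecidableEq ι] {v v' : ι → V}

/-- the new system -/
private def nW (w1 w2 : V) {ι : Type*} (v : ι → V) : Fin 2 ⊕ ι → V := Sum.elim ![w1, w2] v

private theorem add_hyp (hG : q.Iso U G) (hE : q.Exc U G c) (hb : Blk q U G w1 w2)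
    (h : q.Hyp (cmp4 q U G w1 w2) v v') :
    q.Hyp U (nW w1 w2 v) (nW (w2 - G w2) (G w1 - w1) v') := by
  obtain ⟨a1, a2, a3, a4, a5, a6⟩ := blk_h q hG hE hb
  have b1 : q.h (G w1) w1 = 0 := by rw [q.symm, a1]
  have b2 : q.h (G w2) w1 = -1 := by rw [q.symm, a2]
  have b3 : q.h (G w2) w2 = 0 := by rw [q.symm, a3]
  have b4 : q.h (G w2) (G w1) = 0 := by rw [q.symm, a4]
  have b5 : q.h w2 w1 = 0 := by rw [q.symm, hb.o]
  have b6 : q.h (G w1) w2 = 1 := by rw [q.symm, hb.d]
  have k1 := q.h_self_zero hb.s1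
  have k2 := q.h_self_zero hb.s2
  have k3 := q.h_self_zero a5
  have k4 := q.h_self_zero a6
  have hGw1 := hG.1 _ hb.m1
  have hGw2 := hG.1 _ hb.m2
  have hm := fun i => (mem_cmp4 q).1 (h.mem i)
  have hm' := fun i => (mem_cmp4 q).1 (h.mem' i)
  have hv1 : ∀ i, q.h w1 (v i) = 0 := fun i => (hm i).2.1
  have hv2 : ∀ i, q.h w2 (v i) = 0 := fun i => (hm i).2.2.1
  have hv3 : ∀ i, q.h (G w1) (v i) = 0 := fun i => (hm i).2.2.2.1
  have hv4 : ∀ i, q.h (G w2) (v i) = 0 := fun i => (hm i).2.2.2.2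
  have hv1' : ∀ i, q.h w1 (v' i) = 0 := fun i => (hm' i).2.1
  have hv2' : ∀ i, q.h w2 (v' i) = 0 := fun i => (hm' i).2.2.1
  have hv3' : ∀ i, q.h (G w1) (v' i) = 0 := fun i => (hm' i).2.2.2.1
  have hv4' : ∀ i, q.h (G w2) (v' i) = 0 := fun i => (hm' i).2.2.2.2
  refine ⟨?_, ?_, ?_, ?_, ?_, ?_, ?_⟩
  · rintro (i | i)
    · fin_cases i
      · exact hb.m1
      · exact hb.m2
    · exact (hm i).1
  · rintro (i | i)
    · fin_cases i
      · exact U.sub_mem hb.m2 hGw2
      · exact U.sub_mem hGw1 hb.m1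
    · exact (hm' i).1
  · rintro (i | i)
    · fin_cases i
      · exact hb.s1
      · exact hb.s2
    · exact h.sing i
  · rintro (i | i)
    · fin_cases i
      · show q.Q (w2 - G w2) = 0
        rw [q.Q_sub, hb.s2, a6, a3]; ring
      · show q.Q (G w1 - w1) = 0
        rw [q.Q_sub, hb.s1, a5, b1]; ring
    · exact h.sing' i
  · rintro (i | i) (j | j)
    · fin_cases i <;> fin_cases j
      · exact k1
      · exact hb.o
      · exact b5
      · exact k2
    · fin_cases i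
      · exact hv1 j
      · exact hv2 j
    · fin_cases j
      · show q.h (v i) w1 = 0
        rw [q.symm]; exact hv1 i
      · show q.h (v i) w2 = 0
        rw [q.symm]; exact hv2 i
    · exact h.iso i j
  · rintro (i | i) (j | j)
    · fin_cases i <;> fin_cases j
      · show q.h (w2 - G w2) (w2 - G w2) = 0
        simp only [q.sub_left, map_sub, k2, k4, a3, b3]; ring
      · show q.h (w2 - G w2) (G w1 - w1) = 0
        simp only [q.sub_left, map_sub, hb.d, b5, b4, b2]; ring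
      · show q.h (G w1 - w1) (w2 - G w2) = 0
        simp only [q.sub_left, map_sub, b6, hb.o, a4, a2]; ring
      · show q.h (G w1 - w1) (G w1 - w1) = 0
        simp only [q.sub_left, map_sub, k1, k3, a1, b1]; ring
    · fin_cases i
      · show q.h (w2 - G w2) (v' j) = 0
        rw [q.sub_left, hv2', hv4', sub_zero]
      · show q.h (G w1 - w1) (v' j) = 0
        rw [q.sub_left, hv1', hv3', sub_zero]
    · fin_cases j
      · show q.h (v' i) (w2 - G w2) = 0
        rw [q.symm, q.sub_left, hv2', hv4', sub_zero]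
      · show q.h (v' i) (G w1 - w1) = 0
        rw [q.symm, q.sub_left, hv1', hv3', sub_zero]
    · exact h.iso' i j
  · rintro (i | i) (j | j)
    · fin_cases i <;> fin_cases j
      · show q.h (w2 - G w2) w1 = _
        rw [q.sub_left, b5, b2]; simp
      · show q.h (w2 - G w2) w2 = _
        rw [q.sub_left, k2, b3]; simp
      · show q.h (G w1 - w1) w1 = _
        rw [q.sub_left, b1, k1]; simp
      · show q.h (G w1 - w1) w2 = _
        rw [q.sub_left, b6, hb.o]; simp
    · rw [if_neg (by simp)]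
      fin_cases i
      · show q.h (w2 - G w2) (v j) = 0
        rw [q.sub_left, hv2, hv4, sub_zero]
      · show q.h (G w1 - w1) (v j) = 0
        rw [q.sub_left, hv1, hv3, sub_zero]
    · rw [if_neg (by simp)]
      fin_cases j
      · show q.h (v' i) w1 = 0
        rw [q.symm]; exact hv1' i
      · show q.h (v' i) w2 = 0
        rw [q.symm]; exact hv2' i
    · show q.h (v' i) (v j) = _
      rw [h.dual]
      simp only [Sum.inr.injEq]

private theorem add_ent (hU : q.ND U) (hG : q.Iso U G) (hE : q.Exc U G c) (hb : Blk q U G w1 w2)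
    (h : q.Hyp (cmp4 q U G w1 w2) v v') (i j : Fin 2 ⊕ ι) :
    q.h (nW (w2 - G w2) (G w1 - w1) v' i) (G (nW w1 w2 v j)) =
      (fromBlocks 1 0 0 (Matrix.of fun i j => q.h (v' i) (G (v j))) :
        Matrix (Fin 2 ⊕ ι) (Fin 2 ⊕ ι) K) i j := by
  obtain ⟨a1, a2, a3, a4, a5, a6⟩ := blk_h q hG hE hb
  have b1 : q.h (G w1) w1 = 0 := by rw [q.symm, a1]
  have b2 : q.h (G w2) w1 = -1 := by rw [q.symm, a2]
  have b3 : q.h (G w2) w2 = 0 := by rw [q.symm, a3]
  have b4 : q.h (G w2) (G w1) = 0 := by rw [q.symm, a4]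
  have k3 := q.h_self_zero a5
  have k4 := q.h_self_zero a6
  have hm := fun i => (mem_cmp4 q).1 ((blk_iso q hU hG hE hb).1 _ (h.mem i))
  have hm' := fun i => (mem_cmp4 q).1 (h.mem' i)
  rcases i with i | i <;> rcases j with j | j
  · fin_cases i <;> fin_cases j
    · show q.h (w2 - G w2) (G w1) = _
      rw [q.sub_left, hb.d, b4]; simp
    · show q.h (w2 - G w2) (G w2) = _
      rw [q.sub_left, a3, k4]; simp
    · show q.h (G w1 - w1) (G w1) = _
      rw [q.sub_left, k3, a1]; simp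
    · show q.h (G w1 - w1) (G w2) = _
      rw [q.sub_left, a4, a2]; simp
  · fin_cases i
    · show q.h (w2 - G w2) (G (v j)) = 0
      rw [q.sub_left, (hm j).2.2.1, (hm j).2.2.2.2, sub_zero]
    · show q.h (G w1 - w1) (G (v j)) = 0
      rw [q.sub_left, (hm j).2.1, (hm j).2.2.2.1, sub_zero]
  · fin_cases j
    · show q.h (v' i) (G w1) = 0
      rw [q.symm]; exact (hm' i).2.2.2.1
    · show q.h (v' i) (G w2) = 0
      rw [q.symm]; exact (hm' i).2.2.2.2
  · rfl

omit [DecidableEq ι] in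
private theorem add_dp : q.Dp U (nW w1 w2 v) (nW (w2 - G w2) (G w1 - w1) v') =
    q.Dp (cmp4 q U G w1 w2) v v' := by
  ext x
  rw [q.mem_Dp, q.mem_Dp, mem_cmp4]
  constructor
  · rintro ⟨hx, h⟩
    have e1 := h (Sum.inl 0)
    have e2 := h (Sum.inl 1)
    have e3 : q.h w1 x = 0 := e1.1
    have e4 : q.h w2 x = 0 := e2.1
    have e5 : q.h (w2 - G w2) x = 0 := e1.2
    have e6 : q.h (G w1 - w1) x = 0 := e2.2
    rw [q.sub_left, e4, zero_sub, neg_eq_zero] at e5
    rw [q.sub_left, e3, sub_zero] at e6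
    exact ⟨⟨hx, e3, e4, e6, e5⟩, fun i => h (Sum.inr i)⟩
  · rintro ⟨⟨hx, e3, e4, e6, e5⟩, h⟩
    refine ⟨hx, ?_⟩
    rintro (i | i)
    · fin_cases i
      · refine ⟨e3, ?_⟩
        show q.h (w2 - G w2) x = 0
        rw [q.sub_left, e4, e5, sub_zero]
      · refine ⟨e4, ?_⟩
        show q.h (G w1 - w1) x = 0
        rw [q.sub_left, e3, e6, sub_zero]
    · exact h i

omit [DecidableEq ι] in
private theorem add_mid {s : V →ₗ[K] V} (h : q.Mid (cmp4 q U G w1 w2) G v v' s) :
    q.Mid U G (nW w1 w2 v) (nW (w2 - G w2) (G w1 - w1) v') s := by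
  unfold QF.Mid at h ⊢
  rw [add_dp]
  intro x hx
  obtain ⟨h1, y, hy, y', hy', he⟩ := h x hx
  refine ⟨h1, y, Submodule.span_mono ?_ hy, y', Submodule.span_mono ?_ hy', he⟩
  · rintro _ ⟨i, rfl⟩
    exact ⟨Sum.inr i, rfl⟩
  · rintro _ ⟨i, rfl⟩
    exact ⟨Sum.inr i, rfl⟩

end Add

private def idx {n : ℕ} : Fin (n + 2) → Fin 2 ⊕ Fin n :=
  Fin.cases (Sum.inl 0) (Fin.cases (Sum.inl 1) fun i => Sum.inr i)

private theorem idx_inj {n : ℕ} : Function.Injective (idx (n := n)) := by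
  intro i j
  refine Fin.cases ?_ (fun i => ?_) i <;> refine Fin.cases ?_ (fun j => ?_) j
  · exact fun _ => rfl
  · refine Fin.cases ?_ (fun j => ?_) j
    · intro h
      have h' : (Sum.inl 0 : Fin 2 ⊕ Fin n) = Sum.inl 1 := h
      simp at h'
    · intro h
      have h' : (Sum.inl 0 : Fin 2 ⊕ Fin n) = Sum.inr j := h
      simp at h'
  · refine Fin.cases ?_ (fun i => ?_) i
    · intro h
      have h' : (Sum.inl 1 : Fin 2 ⊕ Fin n) = Sum.inl 0 := h
      simp at h'
    · intro h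
      have h' : (Sum.inr i : Fin 2 ⊕ Fin n) = Sum.inl 0 := h
      simp at h'
  · refine Fin.cases ?_ (fun i => ?_) i <;> refine Fin.cases ?_ (fun j => ?_) j
    · exact fun _ => rfl
    · intro h
      have h' : (Sum.inl 1 : Fin 2 ⊕ Fin n) = Sum.inr j := h
      simp at h'
    · intro h
      have h' : (Sum.inr i : Fin 2 ⊕ Fin n) = Sum.inl 1 := h
      simp at h'
    · intro h
      have h' : (Sum.inr i : Fin 2 ⊕ Fin n) = Sum.inr j := h
      rw [Sum.inr.injEq] at h'
      rw [h']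

private theorem idx_surj {n : ℕ} : Function.Surjective (idx (n := n)) := by
  rintro (i | i)
  · fin_cases i
    · exact ⟨0, rfl⟩
    · exact ⟨1, rfl⟩
  · exact ⟨i.succ.succ, rfl⟩

/-- The new system: `w1, w2, v` and `w2 - G w2, G w1 - w1, v'` (use `blk_h`); the entries of the new block: `1` on the
diagonal (`h (w2 - G w2) (G w1) = 1`, `h (G w1 - w1) (G w2) = 1`), the other new ones vanish, since `G (v j)`, `v' i` are
orthogonal to `w1`, `w2`, `G w1`, `G w2` (`blk_iso`).  The new `Dp` is equal to the old one (`x ⊥ w1, w2, w2 - G w2,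
G w1 - w1` iff `x ⊥ w1, w2, G w1, G w2`), and `Mid` holds with the same `s`, `y`, `y'`. -/
theorem blk_tri (hU : q.ND U) (hG : q.Iso U G) (hE : q.Exc U G c) (hb : Blk q U G w1 w2) {n : ℕ}
    {l : Fin n → K} {ε : ℕ} (h : q.Tri (cmp4 q U G w1 w2) G n l ε) :
    q.Tri U G (n + 2) (Fin.cons 1 (Fin.cons 1 l : Fin (n + 1) → K)) ε := by
  obtain ⟨v, v', s, h1, h2, h3, h4, h5⟩ := h
  refine ⟨nW w1 w2 v ∘ idx, nW (w2 - G w2) (G w1 - w1) v' ∘ idx, s,
    hyp_comp q (add_hyp q hG hE hb h1) _ idx_inj, ?_, ?_, mid_comp q _ idx_surj (add_mid q h4), ?_⟩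
  · intro i j hji
    show q.h (nW (w2 - G w2) (G w1 - w1) v' (idx i)) (G (nW w1 w2 v (idx j))) = 0
    rw [add_ent q hU hG hE hb h1]
    revert hji
    refine Fin.cases ?_ (fun i => ?_) i
    · intro hji; exact absurd hji (Fin.not_lt_zero _)
    · refine Fin.cases ?_ (fun i => ?_) i <;> refine Fin.cases ?_ (fun j => ?_) j
      · intro _
        show (fromBlocks 1 0 0 (Matrix.of fun i j => q.h (v' i) (G (v j))) :
          Matrix (Fin 2 ⊕ Fin n) (Fin 2 ⊕ Fin n) K) (Sum.inl 1) (Sum.inl 0) = 0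
        simp
      · intro hji
        rw [Fin.succ_lt_succ_iff] at hji
        exact absurd hji (Fin.not_lt_zero _)
      · intro _
        rfl
      · refine Fin.cases ?_ (fun j => ?_) j
        · intro _
          rfl
        · intro hji
          rw [Fin.succ_lt_succ_iff, Fin.succ_lt_succ_iff] at hji
          exact h2 i j hji
  · intro i
    show q.h (nW (w2 - G w2) (G w1 - w1) v' (idx i)) (G (nW w1 w2 v (idx i))) = _
    rw [add_ent q hU hG hE hb h1]
    refine Fin.cases ?_ (fun i => ?_) i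
    · show (fromBlocks 1 0 0 (Matrix.of fun i j => q.h (v' i) (G (v j))) :
          Matrix (Fin 2 ⊕ Fin n) (Fin 2 ⊕ Fin n) K) (Sum.inl 0) (Sum.inl 0) = 1
      simp
    · refine Fin.cases ?_ (fun i => ?_) i
      · show (fromBlocks 1 0 0 (Matrix.of fun i j => q.h (v' i) (G (v j))) :
          Matrix (Fin 2 ⊕ Fin n) (Fin 2 ⊕ Fin n) K) (Sum.inl 1) (Sum.inl 1) = 1
        simp
      · exact h3 i
  · rw [dp_comp q _ idx_surj, add_dp]
    exact h5

/-- as `blk_tri` -/
theorem blk_sys1 (hU : q.ND U) (hG : q.Iso U G) (hE : q.Exc U G c) (hb : Blk q U G w1 w2)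
    {ι : Type*} [DecidableEq ι] {a : Matrix ι ι K} (h : q.Sys1 (cmp4 q U G w1 w2) G a) :
    q.Sys1 U G (fromBlocks 1 0 0 a : Matrix (Fin 2 ⊕ ι) (Fin 2 ⊕ ι) K) := by
  obtain ⟨v, v', h1, h2, h3⟩ := h
  refine ⟨nW w1 w2 v, nW (w2 - G w2) (G w1 - w1) v', add_hyp q hG hE hb h1, fun i j => ?_,
    add_mid q h3⟩
  have ha : (Matrix.of fun i j => q.h (v' i) (G (v j))) = a := by
    ext i j
    exact h2 i j
  rw [add_ent q hU hG hE hb h1, ha]

/-- `U` is the direct sum of the block `P` and of `C = cmp4`, both are invariant under `G - 1` (`exc_sq` for `P`), so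
`rk U G = rk P G + rk C G`.  If `c ≠ 2`: `(G - 1) ^ 2 = (c - 2) G` on `P`, so `G - 1` is injective on `P` and
`rk P G = 4`.  If `c = 2`: `(G - 1) P` is spanned by the independent vectors `G w1 - w1`, `G w2 - w2` (`(G - 1) ^ 2 = 0`),
`rk P G = 2`. -/
theorem blk_par [FiniteDimensional K V] (hU : q.ND U) (hG : q.Iso U G) (hE : q.Exc U G c)
    (hb : Blk q U G w1 w2) : rk U G % 2 = rk (cmp4 q U G w1 w2) G % 2 := by
  obtain ⟨a1, a2, a3, a4, a5, a6⟩ := blk_h q hG hE hb
  have b1 : q.h (G w1) w1 = 0 := by rw [q.symm, a1]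
  have b2 : q.h (G w2) w1 = -1 := by rw [q.symm, a2]
  have b3 : q.h (G w2) w2 = 0 := by rw [q.symm, a3]
  have b4 : q.h (G w2) (G w1) = 0 := by rw [q.symm, a4]
  have b5 : q.h w2 w1 = 0 := by rw [q.symm, hb.o]
  have b6 : q.h (G w1) w2 = 1 := by rw [q.symm, hb.d]
  have k1 := q.h_self_zero hb.s1
  have k2 := q.h_self_zero hb.s2
  have k3 := q.h_self_zero a5
  have k4 := q.h_self_zero a6
  have hGw1 := hG.1 _ hb.m1
  have hGw2 := hG.1 _ hb.m2
  set C := cmp4 q U G w1 w2 with hC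
  let ψ : (K × K) × (K × K) →ₗ[K] V :=
    ((LinearMap.toSpanSingleton K V w1).coprod (LinearMap.toSpanSingleton K V w2)).coprod
      ((LinearMap.toSpanSingleton K V (G w1)).coprod (LinearMap.toSpanSingleton K V (G w2)))
  have hψ : ∀ z : (K × K) × (K × K), ψ z = z.1.1 • w1 + z.1.2 • w2 + (z.2.1 • G w1 + z.2.2 • G w2) :=
    fun z => by simp [ψ]
  have e1 : ∀ z, q.h w1 (ψ z) = -z.2.2 := fun z => by
    rw [hψ]; simp only [map_add, map_smul, smul_eq_mul, k1, hb.o, a1, a2]; ring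
  have e2 : ∀ z, q.h w2 (ψ z) = z.2.1 := fun z => by
    rw [hψ]; simp only [map_add, map_smul, smul_eq_mul, k2, b5, hb.d, a3]; ring
  have e3 : ∀ z, q.h (G w1) (ψ z) = z.1.2 := fun z => by
    rw [hψ]; simp only [map_add, map_smul, smul_eq_mul, k3, b1, b6, a4]; ring
  have e4 : ∀ z, q.h (G w2) (ψ z) = -z.1.1 := fun z => by
    rw [hψ]; simp only [map_add, map_smul, smul_eq_mul, k4, b2, b3, b4]; ring
  have hψ0 : ∀ z, q.h w1 (ψ z) = 0 → q.h w2 (ψ z) = 0 → q.h (G w1) (ψ z) = 0 →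
      q.h (G w2) (ψ z) = 0 → z = 0 := by
    intro z h1 h2 h3 h4
    rw [e1, neg_eq_zero] at h1
    rw [e2] at h2
    rw [e3] at h3
    rw [e4, neg_eq_zero] at h4
    exact Prod.ext (Prod.ext h4 h3) (Prod.ext h2 h1)
  have hψi : Function.Injective ψ := by
    rw [← LinearMap.ker_eq_bot, LinearMap.ker_eq_bot']
    intro z hz
    apply hψ0 <;> rw [hz, map_zero]
  have hψU : ∀ z, ψ z ∈ U := fun z => by
    rw [hψ]
    exact U.add_mem (U.add_mem (U.smul_mem _ hb.m1) (U.smul_mem _ hb.m2))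
      (U.add_mem (U.smul_mem _ hGw1) (U.smul_mem _ hGw2))
  let M : (K × K) × (K × K) →ₗ[K] (K × K) × (K × K) :=
    (-(LinearMap.snd K (K × K) (K × K)) - LinearMap.fst K (K × K) (K × K)).prod
      (LinearMap.fst K (K × K) (K × K) + (c - 1) • LinearMap.snd K (K × K) (K × K))
  have hM : ∀ z, M z = (-z.2 - z.1, z.1 + (c - 1) • z.2) := fun z => rfl
  have hGψ : ∀ z, G (ψ z) - ψ z = ψ (M z) := by
    intro z
    rw [hM, hψ, hψ]
    simp only [map_add, map_smul, exc_sq q hU hG hE hb.m1, exc_sq q hU hG hE hb.m2, Prod.fst_sub,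
      Prod.snd_sub, Prod.fst_neg, Prod.snd_neg, Prod.fst_add, Prod.snd_add, Prod.smul_fst,
      Prod.smul_snd, smul_eq_mul]
    module
  -- decomposition
  have hsup : U.map (G - LinearMap.id) = (LinearMap.range (ψ ∘ₗ M)) ⊔ C.map (G - LinearMap.id) := by
    apply le_antisymm
    · rintro _ ⟨x, hx, rfl⟩
      have hd := blk_dec q hG hE hb hx
      obtain ⟨r, hr⟩ : ∃ r, r = x - ((-q.h (G w2) x) • w1 + q.h (G w1) x • w2 + q.h w2 x • G w1 +
        (-q.h w1 x) • G w2) := ⟨_, rfl⟩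
      rw [← hr] at hd
      have hx' : x = ψ ((-q.h (G w2) x, q.h (G w1) x), (q.h w2 x, -q.h w1 x)) + r := by
        rw [hr, hψ]
        dsimp only
        abel
      rw [hx', map_add]
      refine Submodule.add_mem_sup ?_ ⟨r, hd, rfl⟩
      refine ⟨((-q.h (G w2) x, q.h (G w1) x), (q.h w2 x, -q.h w1 x)), ?_⟩
      rw [LinearMap.comp_apply, ← hGψ]
      rfl
    · refine sup_le ?_ (Submodule.map_mono fun x hx => ((mem_cmp4 q).1 hx).1)
      rintro _ ⟨z, rfl⟩
      refine ⟨ψ z, hψU z, ?_⟩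
      rw [LinearMap.comp_apply, ← hGψ]
      rfl
  have hdisj : (LinearMap.range (ψ ∘ₗ M)) ⊓ C.map (G - LinearMap.id) = ⊥ := by
    rw [eq_bot_iff]
    rintro _ ⟨⟨z, rfl⟩, ⟨r, hr, hr2⟩⟩
    have hr3 : (G - LinearMap.id : V →ₗ[K] V) r ∈ C := C.sub_mem ((blk_iso q hU hG hE hb).1 r hr) hr
    rw [hr2, LinearMap.comp_apply] at hr3
    obtain ⟨-, f1, f2, f3, f4⟩ := (mem_cmp4 q).1 hr3
    have := hψ0 _ f1 f2 f3 f4
    rw [Submodule.mem_bot, LinearMap.comp_apply, this, map_zero]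
  have hrk : rk U G = finrank K (LinearMap.range (ψ ∘ₗ M)) + rk C G := by
    have h1 := Submodule.finrank_sup_add_finrank_inf_eq (LinearMap.range (ψ ∘ₗ M))
      (C.map (G - LinearMap.id))
    rw [hdisj, finrank_bot, add_zero, ← hsup] at h1
    exact h1
  have hr1 : finrank K (LinearMap.range (ψ ∘ₗ M)) = finrank K (LinearMap.range M) := by
    rw [LinearMap.range_comp]
    exact (Submodule.equivMapOfInjective ψ hψi (LinearMap.range M)).finrank_eq.symm
  have hev : finrank K (LinearMap.range M) % 2 = 0 := by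
    by_cases hc : c = 2
    · let θ : K × K →ₗ[K] (K × K) × (K × K) :=
        (-(LinearMap.id : K × K →ₗ[K] K × K)).prod LinearMap.id
      have hθ : ∀ z, θ z = (-z, z) := fun z => rfl
      have hrange : LinearMap.range M = LinearMap.range θ := by
        apply le_antisymm
        · rintro _ ⟨z, rfl⟩
          refine ⟨z.1 + z.2, ?_⟩
          rw [hθ, hM, hc]
          refine Prod.ext ?_ ?_
          · show -(z.1 + z.2) = -z.2 - z.1
            abel
          · show z.1 + z.2 = z.1 + ((2 : K) - 1) • z.2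
            rw [show (2 : K) - 1 = 1 by norm_num, one_smul]
        · rintro _ ⟨z, rfl⟩
          refine ⟨(z, 0), ?_⟩
          rw [hθ, hM]
          refine Prod.ext ?_ ?_
          · show -(0 : K × K) - z = -z
            abel
          · show z + (c - 1) • (0 : K × K) = z
            rw [smul_zero, add_zero]
      have hθi : Function.Injective θ := by
        intro a b hab
        exact congrArg Prod.snd hab
      rw [hrange, LinearMap.finrank_range_of_inj hθi, Module.finrank_prod, finrank_self]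
    · have hMi : Function.Injective M := by
        rw [← LinearMap.ker_eq_bot, LinearMap.ker_eq_bot']
        intro z hz
        rw [hM] at hz
        have h1 : -z.2 - z.1 = 0 := congrArg Prod.fst hz
        have h2 : z.1 + (c - 1) • z.2 = 0 := congrArg Prod.snd hz
        have h3 : (c - 2) • z.2 = 0 := by
          have : (c - 2) • z.2 = (-z.2 - z.1) + (z.1 + (c - 1) • z.2) := by module
          rw [this, h1, h2, add_zero]
        have h4 : z.2 = 0 := (smul_eq_zero.1 h3).resolve_left (sub_ne_zero.2 hc)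
        rw [h4, neg_zero, zero_sub, neg_eq_zero] at h1
        exact Prod.ext h1 h4
      rw [LinearMap.finrank_range_of_inj hMi, Module.finrank_prod, Module.finrank_prod, finrank_self]
  rw [hrk, hr1]
  omega

/-- `U` is the block.  System: `w = w1`, `w' = w2 - G w2` (`h w' w = 1`, `h w' (G w) = 1`).  `Dp` is the set of the
`α • (w1 - G w1) + β • w2` (for `x = α w1 + β w2 + γ G w1 + δ G w2`, `blk_dec` with `cmp4 = 0`: `h w1 x = - δ`,
`h w' x = α + γ` if `δ = 0`).  Middle block `1`: `G ((w1 - G w1) + (c - 2) • w1) = w1 - G w1` (`exc_sq`) and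
`G w2 = w2 - (w2 - G w2)`. -/
theorem blk_base [FiniteDimensional K V] (hU : q.ND U) (hG : q.Iso U G) (hE : q.Exc U G c)
    (hb : Blk q U G w1 w2) (h4 : finrank K U = 4) : q.Sys1 U G (1 : Matrix (Fin 1) (Fin 1) K) := by
  obtain ⟨a1, a2, a3, a4, a5, a6⟩ := blk_h q hG hE hb
  have b2 : q.h (G w2) w1 = -1 := by rw [q.symm, a2]
  have b4 : q.h (G w2) (G w1) = 0 := by rw [q.symm, a4]
  have b5 : q.h w2 w1 = 0 := by rw [q.symm, hb.o]
  have hGw2 := hG.1 _ hb.m2
  have hfr := blk_finrank q hG hE hb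
  have hC : cmp4 q U G w1 w2 = ⊥ := by
    apply Submodule.finrank_eq_zero.1
    omega
  have hQ : q.Q (w2 - G w2) = 0 := by
    rw [q.Q_sub, hb.s2, a6, a3]; ring
  refine ⟨fun _ => w1, fun _ => w2 - G w2, ⟨fun _ => hb.m1, fun _ => U.sub_mem hb.m2 hGw2,
    fun _ => hb.s1, fun _ => hQ, fun _ _ => q.h_self_zero hb.s1, fun _ _ => q.h_self_zero hQ,
    fun i j => ?_⟩, fun i j => ?_, ?_⟩
  · rw [if_pos (Subsingleton.elim _ _), q.sub_left, b5, b2]; ring
  · rw [Subsingleton.elim i j, Matrix.one_apply_eq, q.sub_left, hb.d, b4, sub_zero]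
  · intro x hx
    refine ⟨hx, ?_⟩
    obtain ⟨hxU, hx1⟩ := q.mem_Dp.1 hx
    obtain ⟨f1, f2⟩ := hx1 0
    have hd := blk_dec q hG hE hb hxU
    rw [hC, Submodule.mem_bot, sub_eq_zero] at hd
    have f3 : q.h (G w2) x = q.h w2 x := by
      rw [q.sub_left] at f2
      exact (sub_eq_zero.1 f2).symm
    rw [f1, f3] at hd
    obtain ⟨τ, hτ⟩ : ∃ τ, τ = q.h w2 x := ⟨_, rfl⟩
    obtain ⟨β, hβ⟩ : ∃ β, β = q.h (G w1) x := ⟨_, rfl⟩
    rw [← hτ, ← hβ] at hd
    refine ⟨(τ * (2 - c)) • w1, Submodule.smul_mem _ _ (Submodule.subset_span ⟨0, rfl⟩),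
      (-β) • (w2 - G w2), Submodule.smul_mem _ _ (Submodule.subset_span ⟨0, rfl⟩), ?_⟩
    rw [LinearMap.id_apply, hd]
    simp only [map_add, map_smul, exc_sq q hU hG hE hb.m1]
    module

end ThQ
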