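import Pool.Agent.ThQ.Hyps

/-! # Module StepI: the basic step -/

namespace ThQ
open Module

variable {K V : Type*} [Field K] [AddCommGroup V] [Module K V] (q : QF K V)
variable {U : Submodule K V} {G : V →ₗ[K] V} {w : V}

/-- see `Pool/Agent/ThU/StepI.lean` (`iso_g1` for Hermitian forms); here the condition is on `Q`:
`Q (G x - β G w) = Q (G x) - β h (G x) (G w) + β^2 Q (G w) = Q x - β h x w + 0` and `h w x = 0`. -/
theorem iso_g1 (hG : q.Iso U G) (hw : w ∈ U) (h0 : q.Q w = 0) (hz : q.h w (G w) ≠ 0) :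
    q.Iso (q.perp2 U w (G w)) (q.g1 G w) := by
  have hGw : G w ∈ U := hG.1 w hw
  refine ⟨fun x hx => ?_, fun x hx => ?_⟩
  · rw [q.mem_perp2] at hx ⊢
    obtain ⟨h1, h2, h3⟩ := hx
    refine ⟨?_, ?_, ?_⟩
    · rw [q.g1_apply]
      exact U.sub_mem (hG.1 x h1) (U.smul_mem _ hGw)
    · rw [q.g1_apply, map_sub, map_smul, smul_eq_mul, mul_assoc, inv_mul_cancel₀ hz, mul_one,
        sub_self]
    · rw [q.g1_apply, map_sub, map_smul, smul_eq_mul, hG.h hw h1, hG.h hw hw, h2,
        q.h_self_zero h0, mul_zero, sub_zero]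
  · rw [q.mem_perp2] at hx
    obtain ⟨h1, h2, h3⟩ := hx
    rw [q.g1_apply, q.Q_sub, q.smul, hG.2 w hw, hG.2 x h1, h0, map_smul, smul_eq_mul, hG.h h1 hw,
      q.symm w x, h2]
    ring

/-- `x ↦ x - h e x • w` -/
noncomputable def tau (w e : V) : V →ₗ[K] V := LinearMap.id - (q.h e).smulRight w

theorem tau_apply (w e x : V) : tau q w e x = x - q.h e x • w := by
  simp [tau]

/-- the new vector -/
noncomputable def newv (G : V →ₗ[K] V) (w e : V) : V := (q.h w (G w))⁻¹ • G w - q.Q e • w + e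

/-- basic facts -/
private theorem StepI_facts {n : ℕ} {v v' : Fin n → V} {x : V} (hx : x ∈ q.Dp (q.perp2 U w (G w)) v v') :
    x ∈ U ∧ q.h w x = 0 ∧ q.h (G w) x = 0 ∧ (∀ i, q.h (v i) x = 0) ∧ ∀ i, q.h (v' i) x = 0 := by
  obtain ⟨h1, h2⟩ := q.mem_Dp.1 hx
  obtain ⟨h3, h4, h5⟩ := q.mem_perp2.1 h1
  exact ⟨h3, h4, h5, fun i => (h2 i).1, fun i => (h2 i).2⟩

private theorem StepI_hyp (hG : q.Iso U G) (hw : w ∈ U) (h0 : q.Q w = 0) (hz : q.h w (G w) ≠ 0)
    {n : ℕ} {v v' : Fin n → V} (hv : q.Hyp (q.perp2 U w (G w)) v v') {e : V}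
    (he : e ∈ q.Dp (q.perp2 U w (G w)) v v') :
    q.Hyp U (Fin.cons w v : Fin (n + 1) → V) (Fin.cons (newv q G w e) v' : Fin (n + 1) → V) := by
  obtain ⟨eU, e1, e2, e3, e4⟩ := StepI_facts q he
  have hGw : G w ∈ U := hG.1 w hw
  have hww : q.h w w = 0 := q.h_self_zero h0
  have hQG : q.Q (G w) = 0 := by rw [hG.2 w hw, h0]
  have hGG : q.h (G w) (G w) = 0 := q.h_self_zero hQG
  have hGw' : q.h (G w) w = q.h w (G w) := q.symm _ _
  have hew : q.h e w = 0 := by rw [q.symm w e, e1]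
  have m := fun i => (q.mem_perp2).1 (hv.mem i)
  have m' := fun i => (q.mem_perp2).1 (hv.mem' i)
  have s1 : ∀ i, q.h (v i) w = 0 := fun i => by rw [q.symm w, (m i).2.1]
  have s2 : ∀ i, q.h (v i) (G w) = 0 := fun i => by rw [q.symm (G w), (m i).2.2]
  have s1' : ∀ i, q.h (v' i) w = 0 := fun i => by rw [q.symm w, (m' i).2.1]
  have s2' : ∀ i, q.h (v' i) (G w) = 0 := fun i => by rw [q.symm (G w), (m' i).2.2]
  refine ⟨?_, ?_, ?_, ?_, ?_, ?_, ?_⟩
  · intro i
    refine Fin.cases ?_ (fun i => ?_) i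
    · exact hw
    · exact (m i).1
  · intro i
    refine Fin.cases ?_ (fun i => ?_) i
    · exact U.add_mem (U.sub_mem (U.smul_mem _ hGw) (U.smul_mem _ hw)) eU
    · exact (m' i).1
  · intro i
    refine Fin.cases ?_ (fun i => ?_) i
    · exact h0
    · exact hv.sing i
  · intro i
    refine Fin.cases ?_ (fun i => ?_) i
    · rw [Fin.cons_zero, newv, q.add, q.Q_sub, q.smul, q.smul, hQG, h0, q.sub_left, q.smul_left,
        q.smul_left, q.smul_left, map_smul, e1, e2, hGw', smul_eq_mul]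
      field_simp
      ring
    · exact hv.sing' i
  · intro i j
    refine Fin.cases ?_ (fun i => ?_) i <;> refine Fin.cases ?_ (fun j => ?_) j
    · exact hww
    · exact (m j).2.1
    · exact s1 i
    · exact hv.iso i j
  · have hn : q.Q (newv q G w e) = 0 := by
      rw [newv, q.add, q.Q_sub, q.smul, q.smul, hQG, h0, q.sub_left, q.smul_left,
        q.smul_left, q.smul_left, map_smul, e1, e2, hGw', smul_eq_mul]
      field_simp
      ring
    have hn2 : ∀ j, q.h (newv q G w e) (v' j) = 0 := by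
      intro j
      rw [newv, q.add_left, q.sub_left, q.smul_left, q.smul_left, (m' j).2.1, (m' j).2.2,
        q.symm (v' j) e, e4 j]
      ring
    intro i j
    refine Fin.cases ?_ (fun i => ?_) i <;> refine Fin.cases ?_ (fun j => ?_) j
    · exact q.h_self_zero hn
    · exact hn2 j
    · rw [q.symm, Fin.cons_zero, Fin.cons_succ]
      exact hn2 i
    · exact hv.iso' i j
  · intro i j
    refine Fin.cases ?_ (fun i => ?_) i <;> refine Fin.cases ?_ (fun j => ?_) j
    · rw [Fin.cons_zero, Fin.cons_zero, if_pos rfl, newv, q.add_left, q.sub_left, q.smul_left,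
        q.smul_left, hww, hGw', hew, inv_mul_cancel₀ hz]
      ring
    · rw [Fin.cons_zero, Fin.cons_succ, if_neg (Fin.succ_ne_zero j).symm, newv, q.add_left,
        q.sub_left, q.smul_left, q.smul_left, (m j).2.1, (m j).2.2, q.symm (v j) e, e3 j]
      ring
    · rw [Fin.cons_zero, Fin.cons_succ, if_neg (Fin.succ_ne_zero i)]
      exact s1' i
    · simp only [Fin.cons_succ, Fin.succ_inj]
      exact hv.dual i j

private theorem StepI_toD (_hG : q.Iso U G) (hw : w ∈ U) (h0 : q.Q w = 0) (hz : q.h w (G w) ≠ 0)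
    {n : ℕ} {v v' : Fin n → V} (hv : q.Hyp (q.perp2 U w (G w)) v v') {e : V}
    (he : e ∈ q.Dp (q.perp2 U w (G w)) v v') {x : V}
    (hx : x ∈ q.Dp (q.perp2 U w (G w)) v v') :
    tau q w e x ∈ q.Dp U (Fin.cons w v : Fin (n + 1) → V)
      (Fin.cons (newv q G w e) v' : Fin (n + 1) → V) := by
  obtain ⟨eU, e1, e2, e3, e4⟩ := StepI_facts q he
  obtain ⟨xU, x1, x2, x3, x4⟩ := StepI_facts q hx
  have hww : q.h w w = 0 := q.h_self_zero h0
  have hGw' : q.h (G w) w = q.h w (G w) := q.symm _ _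
  have hew : q.h e w = 0 := by rw [q.symm w e, e1]
  have m := fun i => (q.mem_perp2).1 (hv.mem i)
  have m' := fun i => (q.mem_perp2).1 (hv.mem' i)
  have s1 : ∀ i, q.h (v i) w = 0 := fun i => by rw [q.symm w, (m i).2.1]
  have s1' : ∀ i, q.h (v' i) w = 0 := fun i => by rw [q.symm w, (m' i).2.1]
  rw [q.mem_Dp, tau_apply]
  refine ⟨U.sub_mem xU (U.smul_mem _ hw), fun i => ?_⟩
  refine Fin.cases ?_ (fun i => ?_) i
  · rw [Fin.cons_zero, Fin.cons_zero, map_sub, map_smul, hww, x1, smul_eq_mul, map_sub, map_smul,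
      newv, q.add_left, q.sub_left, q.smul_left, q.smul_left, x1, x2, q.add_left, q.sub_left,
      q.smul_left, q.smul_left, hww, hGw', hew, smul_eq_mul, inv_mul_cancel₀ hz]
    constructor <;> ring
  · rw [Fin.cons_succ, Fin.cons_succ, map_sub, map_smul, s1 i, x3 i, map_sub, map_smul, s1' i,
      x4 i, smul_eq_mul]
    constructor <;> ring

private theorem StepI_ofD (_hG : q.Iso U G) (hw : w ∈ U) (h0 : q.Q w = 0) (hz : q.h w (G w) ≠ 0)
    {n : ℕ} {v v' : Fin n → V} (hv : q.Hyp (q.perp2 U w (G w)) v v') {e : V}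
    (he : e ∈ q.Dp (q.perp2 U w (G w)) v v') {x : V}
    (hx : x ∈ q.Dp U (Fin.cons w v : Fin (n + 1) → V)
      (Fin.cons (newv q G w e) v' : Fin (n + 1) → V)) :
    tau q w (-e) x ∈ q.Dp (q.perp2 U w (G w)) v v' := by
  obtain ⟨eU, e1, e2, e3, e4⟩ := StepI_facts q he
  have hww : q.h w w = 0 := q.h_self_zero h0
  have hGw' : q.h (G w) w = q.h w (G w) := q.symm _ _
  have m := fun i => (q.mem_perp2).1 (hv.mem i)
  have m' := fun i => (q.mem_perp2).1 (hv.mem' i)
  have s1 : ∀ i, q.h (v i) w = 0 := fun i => by rw [q.symm w, (m i).2.1]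
  have s1' : ∀ i, q.h (v' i) w = 0 := fun i => by rw [q.symm w, (m' i).2.1]
  obtain ⟨xU, hx2⟩ := q.mem_Dp.1 hx
  have x1 : q.h w x = 0 := (hx2 0).1
  have x2 : q.h (newv q G w e) x = 0 := (hx2 0).2
  have x3 : ∀ i, q.h (v i) x = 0 := fun i => (hx2 i.succ).1
  have x4 : ∀ i, q.h (v' i) x = 0 := fun i => (hx2 i.succ).2
  rw [newv, q.add_left, q.sub_left, q.smul_left, q.smul_left, x1, mul_zero, sub_zero] at x2
  rw [q.mem_Dp, q.mem_perp2, tau_apply]
  refine ⟨⟨U.sub_mem xU (U.smul_mem _ hw), ?_, ?_⟩, fun i => ⟨?_, ?_⟩⟩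
  · rw [map_sub, map_smul, x1, hww, smul_zero, sub_zero]
  · rw [map_sub, map_smul, smul_eq_mul, hGw', q.neg_left]
    have h3 : q.h (G w) x + q.h e x * q.h w (G w) = 0 := by
      have h4 : q.h w (G w) * ((q.h w (G w))⁻¹ * q.h (G w) x + q.h e x) = 0 := by
        rw [x2, mul_zero]
      rw [mul_add, ← mul_assoc, mul_inv_cancel₀ hz, one_mul] at h4
      linear_combination h4
    linear_combination h3
  · rw [map_sub, map_smul, x3 i, s1 i, smul_zero, sub_zero]
  · rw [map_sub, map_smul, x4 i, s1' i, smul_zero, sub_zero]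

private theorem StepI_tt {e : V} (he : q.h e w = 0) (x : V) :
    tau q w e (tau q w (-e) x) = x ∧ tau q w (-e) (tau q w e x) = x := by
  have h1 : ∀ y, tau q w (-e) y = y + q.h e y • w := fun y => by
    rw [tau_apply, q.neg_left, neg_smul, sub_neg_eq_add]
  refine ⟨?_, ?_⟩
  · rw [tau_apply, h1, map_add, map_smul, he, smul_zero, add_zero, add_sub_cancel_right]
  · rw [h1, tau_apply, map_sub, map_smul, he, smul_zero, sub_zero, sub_add_cancel]

/-- The step: `z = h w (G w) ≠ 0`, `U1 = perp2 U w (G w)`, `g1` the induced isometry of `U1`, and a system `v`, `v'`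
of `U1` with the middle block `s` of `g1` on `D1 = Dp U1 v v'`, and `e ∈ D1`, `Q e ≠ 0`.  Put
`w' = z⁻¹ G w - Q e w + e`.  (Here `h w e = h (G w) e = 0`.)
* `w, v`, `w', v'` is a hyperbolic system: `h w' w = 1`, `Q w' = - Q e + Q e = 0`, the `v i`, `v' i` are
orthogonal to `w`, `G w`, `e`.
* `h w' (G w) = - Q e z`.
* `h (v' i) (G w) = 0`, `h (v' i) (G (v j)) = h (v' i) (g1 (v j))` as `G x = g1 x + β • G w`.
* The new `D` is `{tau w e x | x ∈ D1}`: `tau w e x` is orthogonal to `w`, `v i`, `v' i` and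
`h w' (x - h e x • w) = h e x - h e x = 0`; conversely for `x` in the new `D` the vector
`tau w (-e) x = x + h e x • w` is in `D1` (it is orthogonal to `w`, `v`, `v'`, and
`0 = h w' x = z⁻¹ h (G w) x + h e x`, so it is orthogonal to `G w`); `tau w e` and `tau w (-e)` are inverse to each
other as `h e w = 0`.
* Middle block: let `x ∈ D1`, `g1 (x + y) = s x + y'` with `y ∈ span v`, `y' ∈ span v'`.  Then
`G (x + y) = s x + y' + β • G w`.  With a suitable multiple of `w` (`G (c • w) = c • G w`) we may replace `β` by any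
`β'`; and `tau w e x` differs from `x` by a multiple of `w`.  `G w = z • (w' + Q e • w - e)`, so for `γ = β' z`:
`G (tau w e x + y + c • w) = s x - γ • e + γ Q e • w + y' + γ • w'`.  Choose `γ = h e (s x) / Q e`: then
`s x - γ • e = refl e (s x)` and `h e (refl e (s x)) = - h e (s x) = - γ Q e`, so that
`refl e (s x) + γ Q e • w = tau w e (refl e (s x))`.
* The rank: `tau w e` maps `D1` bijectively to the new `D`, and conjugates `refl e ∘ s` to the new middle block. -/
theorem stepI (hG : q.Iso U G) (hw : w ∈ U) (h0 : q.Q w = 0) (hz : q.h w (G w) ≠ 0) {n : ℕ}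
    {v v' : Fin n → V} (hv : q.Hyp (q.perp2 U w (G w)) v v') {s : V →ₗ[K] V}
    (hs : q.Mid (q.perp2 U w (G w)) (q.g1 G w) v v' s) {e : V}
    (he : e ∈ q.Dp (q.perp2 U w (G w)) v v') (hQ : q.Q e ≠ 0) :
    q.Hyp U (Fin.cons w v : Fin (n + 1) → V) (Fin.cons (newv q G w e) v' : Fin (n + 1) → V) ∧
    q.h (newv q G w e) (G w) = -(q.Q e * q.h w (G w)) ∧
    (∀ i, q.h (v' i) (G w) = 0) ∧
    (∀ i j, q.h (v' i) (G (v j)) = q.h (v' i) (q.g1 G w (v j))) ∧
    q.Mid U G (Fin.cons w v : Fin (n + 1) → V) (Fin.cons (newv q G w e) v' : Fin (n + 1) → V)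
      (tau q w e ∘ₗ q.refl e ∘ₗ s ∘ₗ tau q w (-e)) ∧
    rk (q.Dp U (Fin.cons w v : Fin (n + 1) → V) (Fin.cons (newv q G w e) v' : Fin (n + 1) → V))
      (tau q w e ∘ₗ q.refl e ∘ₗ s ∘ₗ tau q w (-e)) =
      rk (q.Dp (q.perp2 U w (G w)) v v') (q.refl e ∘ₗ s) := by
  obtain ⟨eU, e1, e2, e3, e4⟩ := StepI_facts q he
  have hQG : q.Q (G w) = 0 := by rw [hG.2 w hw, h0]
  have hew : q.h e w = 0 := by rw [q.symm w e, e1]
  have heG : q.h e (G w) = 0 := by rw [q.symm (G w) e, e2]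
  have m' := fun i => (q.mem_perp2).1 (hv.mem' i)
  have s2' : ∀ i, q.h (v' i) (G w) = 0 := fun i => by rw [q.symm (G w), (m' i).2.2]
  have hrs : ∀ x ∈ q.Dp (q.perp2 U w (G w)) v v', q.refl e (s x) ∈ q.Dp (q.perp2 U w (G w)) v v' := by
    intro x hx
    rw [q.refl_apply]
    exact Submodule.sub_mem _ (hs x hx).1 (Submodule.smul_mem _ _ he)
  refine ⟨StepI_hyp q hG hw h0 hz hv he, ?_, s2', ?_, ?_, ?_⟩
  · rw [newv, q.add_left, q.sub_left, q.smul_left, q.smul_left, q.h_self_zero hQG, heG]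
    ring
  · intro i j
    rw [q.g1_apply, map_sub, map_smul, s2' i, smul_zero, sub_zero]
  · intro X hX
    have hx := StepI_ofD q hG hw h0 hz hv he hX
    obtain ⟨x, hxdef⟩ : ∃ x, x = tau q w (-e) X := ⟨_, rfl⟩
    rw [← hxdef] at hx
    have hXx : X = x - q.h e x • w := by
      rw [← tau_apply, hxdef, (StepI_tt q hew X).1]
    obtain ⟨hsx, y0, hy0, y0', hy0', hgy⟩ := hs x hx
    have hcomp : (tau q w e ∘ₗ q.refl e ∘ₗ s ∘ₗ tau q w (-e)) X = tau q w e (q.refl e (s x)) := by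
      rw [hxdef]
      rfl
    refine ⟨?_, ?_⟩
    · rw [hcomp]
      exact StepI_toD q hG hw h0 hz hv he (hrs x hx)
    obtain ⟨γ, hγ⟩ : ∃ γ, γ = q.h e (s x) * (q.Q e)⁻¹ := ⟨_, rfl⟩
    obtain ⟨β, hβ⟩ : ∃ β, β = q.h w (G (x + y0)) * (q.h w (G w))⁻¹ := ⟨_, rfl⟩
    have hGx : G (x + y0) = s x + y0' + β • G w := by
      rw [q.g1_apply, ← hβ] at hgy
      rw [← hgy]
      abel
    have hγQ : γ * q.Q e = q.h e (s x) := by
      rw [hγ, mul_assoc, inv_mul_cancel₀ hQ, mul_one]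
    have hsub : Submodule.span K (Set.range v) ≤
        Submodule.span K (Set.range (Fin.cons w v : Fin (n + 1) → V)) := by
      refine Submodule.span_mono ?_
      rintro _ ⟨i, rfl⟩
      exact ⟨i.succ, Fin.cons_succ _ _ _⟩
    have hsub' : Submodule.span K (Set.range v') ≤
        Submodule.span K (Set.range (Fin.cons (newv q G w e) v' : Fin (n + 1) → V)) := by
      refine Submodule.span_mono ?_
      rintro _ ⟨i, rfl⟩
      exact ⟨i.succ, Fin.cons_succ _ _ _⟩
    have hw1 : w ∈ Submodule.span K (Set.range (Fin.cons w v : Fin (n + 1) → V)) :=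
      Submodule.subset_span ⟨0, Fin.cons_zero _ _⟩
    have hw1' : newv q G w e ∈
        Submodule.span K (Set.range (Fin.cons (newv q G w e) v' : Fin (n + 1) → V)) :=
      Submodule.subset_span ⟨0, Fin.cons_zero _ _⟩
    refine ⟨y0 + (γ * (q.h w (G w))⁻¹ - β + q.h e x) • w,
      Submodule.add_mem _ (hsub hy0) (Submodule.smul_mem _ _ hw1),
      y0' + γ • newv q G w e,
      Submodule.add_mem _ (hsub' hy0') (Submodule.smul_mem _ _ hw1'), ?_⟩
    rw [hcomp, tau_apply, q.refl_apply, ← hγ, map_sub, map_smul, smul_eq_mul, q.h_self, hXx]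
    have h1 : x - q.h e x • w + (y0 + (γ * (q.h w (G w))⁻¹ - β + q.h e x) • w) =
        (x + y0) + (γ * (q.h w (G w))⁻¹ - β) • w := by
      module
    rw [h1, map_add, map_smul, hGx, newv]
    have h2 : (q.h e (s x) - γ * (2 * q.Q e)) = - (γ * q.Q e) := by
      rw [← hγQ]
      ring
    rw [h2]
    module
  · have hmap : (q.Dp U (Fin.cons w v : Fin (n + 1) → V)
        (Fin.cons (newv q G w e) v' : Fin (n + 1) → V)).map
          ((tau q w e ∘ₗ q.refl e ∘ₗ s ∘ₗ tau q w (-e)) - LinearMap.id) =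
        ((q.Dp (q.perp2 U w (G w)) v v').map (q.refl e ∘ₗ s - LinearMap.id)).map (tau q w e) := by
      apply le_antisymm
      · rintro _ ⟨X, hX, rfl⟩
        refine ⟨_, ⟨tau q w (-e) X, StepI_ofD q hG hw h0 hz hv he hX, rfl⟩, ?_⟩
        simp only [LinearMap.sub_apply, LinearMap.comp_apply, LinearMap.id_apply, map_sub]
        rw [(StepI_tt q hew X).1]
      · rintro _ ⟨_, ⟨x, hx, rfl⟩, rfl⟩
        refine ⟨tau q w e x, StepI_toD q hG hw h0 hz hv he hx, ?_⟩
        simp only [LinearMap.sub_apply, LinearMap.comp_apply, LinearMap.id_apply, map_sub]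
        rw [(StepI_tt q hew x).2]
    have hinj : Function.Injective (tau q w e) := by
      intro a b hab
      have h1 := congrArg (tau q w (-e)) hab
      rwa [(StepI_tt q hew a).2, (StepI_tt q hew b).2] at h1
    rw [rk, rk, hmap]
    exact (Submodule.equivMapOfInjective _ hinj _).finrank_eq.symm

end ThQ
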