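import Pool.Agent.ThQ.Hyps

/-! # Module StepII: the step with a singular eigenvector -/

namespace ThQ
open Module

variable {K V : Type*} [Field K] [AddCommGroup V] [Module K V] (q : QF K V)
variable {U : Submodule K V} {G : V →ₗ[K] V} {w w' : V}

private theorem StepII_perp (hG : q.Iso U G) (hw : w ∈ U) {c : K} (hc : c ≠ 0) (he : G w = c • w)
    {x : V} (hx : x ∈ U) (h : q.h w x = 0) : q.h w (G x) = 0 := by
  have h1 := hG.h hw hx
  rw [he, q.smul_left, h] at h1
  exact (mul_eq_zero.1 h1).resolve_left hc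

/-- see `Pool/Agent/ThU/StepII.lean`; `Q (G x - β w) = Q (G x) - β h (G x) w + 0` and `h w (G x) = 0` -/
theorem iso_g2 (hG : q.Iso U G) (hw : w ∈ U) (hw' : w' ∈ U) (h0 : q.Q w = 0) (h0' : q.Q w' = 0)
    (h1 : q.h w' w = 1) {c : K} (hc : c ≠ 0) (he : G w = c • w) :
    q.Iso (q.perp2 U w w') (q.g2 G w w') := by
  constructor
  · intro x hx
    rw [q.mem_perp2] at hx ⊢
    have h2 := StepII_perp q hG hw hc he hx.1 hx.2.1
    refine ⟨?_, ?_, ?_⟩
    · rw [q.g2_apply]
      exact U.sub_mem (hG.1 x hx.1) (U.smul_mem _ hw)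
    · rw [q.g2_apply, map_sub, map_smul, q.h_self_zero h0, h2, smul_zero, sub_zero]
    · rw [q.g2_apply, map_sub, map_smul, h1, smul_eq_mul, mul_one, sub_self]
  · intro x hx
    rw [q.mem_perp2] at hx
    have h2 := StepII_perp q hG hw hc he hx.1 hx.2.1
    rw [q.g2_apply, q.Q_sub, q.smul, h0, map_smul, q.symm w (G x), h2, hG.2 x hx.1, smul_zero,
      mul_zero, add_zero, sub_zero]

private theorem StepII_Dp {n : ℕ} (v v' : Fin n → V) :
    q.Dp U (Fin.cons w v : Fin (n + 1) → V) (Fin.cons w' v' : Fin (n + 1) → V) =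
      q.Dp (q.perp2 U w w') v v' := by
  ext x
  rw [q.mem_Dp, q.mem_Dp, q.mem_perp2, Fin.forall_fin_succ]
  simp only [Fin.cons_zero, Fin.cons_succ]
  tauto

/-- see `tri_g2` in `Pool/Agent/ThU/StepII.lean`.  The new system is `Fin.cons w v`, `Fin.cons w' v'`, the new `Dp` is
equal to the old one, the same `s`: if `g2 (x + y) = s x + y'`, then `G (x + y) = s x + y' + β • w`, so
`G (x + (y - (β / c) • w)) = s x + y'`. -/
theorem tri_g2 (hG : q.Iso U G) (hw : w ∈ U) (hw' : w' ∈ U) (h0 : q.Q w = 0) (h0' : q.Q w' = 0)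
    (h1 : q.h w' w = 1) {c : K} (hc : c ≠ 0) (he : G w = c • w) {n : ℕ} {l : Fin n → K} {ε : ℕ}
    (h : q.Tri (q.perp2 U w w') (q.g2 G w w') n l ε) :
    q.Tri U G (n + 1) (Fin.cons c l) ε := by
  obtain ⟨v, v', s, hh, htri, hdia, hmid, hrk⟩ := h
  have hv := fun i => (q.mem_perp2).1 (hh.mem i)
  have hv' := fun i => (q.mem_perp2).1 (hh.mem' i)
  have sw : ∀ {x y : V}, q.h x y = 0 → q.h y x = 0 := fun {x y} hxy => by rw [q.symm x y, hxy]
  have key : ∀ i j, q.h (v' i) (G (v j)) = q.h (v' i) (q.g2 G w w' (v j)) := by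
    intro i j
    rw [q.g2_apply, map_sub, map_smul, sw (hv' i).2.1, smul_zero, sub_zero]
  refine ⟨Fin.cons w v, Fin.cons w' v', s, ⟨?_, ?_, ?_, ?_, ?_, ?_, ?_⟩, ?_, ?_, ?_, ?_⟩
  · intro i
    refine Fin.cases ?_ (fun i => ?_) i
    · exact hw
    · exact (hv i).1
  · intro i
    refine Fin.cases ?_ (fun i => ?_) i
    · exact hw'
    · exact (hv' i).1
  · intro i
    refine Fin.cases ?_ (fun i => ?_) i
    · exact h0
    · exact hh.sing i
  · intro i
    refine Fin.cases ?_ (fun i => ?_) i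
    · exact h0'
    · exact hh.sing' i
  · intro i j
    refine Fin.cases ?_ (fun i => ?_) i <;> refine Fin.cases ?_ (fun j => ?_) j
    · exact q.h_self_zero h0
    · exact (hv j).2.1
    · exact sw (hv i).2.1
    · exact hh.iso i j
  · intro i j
    refine Fin.cases ?_ (fun i => ?_) i <;> refine Fin.cases ?_ (fun j => ?_) j
    · exact q.h_self_zero h0'
    · exact (hv' j).2.2
    · exact sw (hv' i).2.2
    · exact hh.iso' i j
  · intro i j
    refine Fin.cases ?_ (fun i => ?_) i <;> refine Fin.cases ?_ (fun j => ?_) j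
    · rw [if_pos rfl]
      exact h1
    · rw [if_neg (Fin.succ_ne_zero j).symm]
      exact (hv j).2.2
    · rw [if_neg (Fin.succ_ne_zero i)]
      exact sw (hv' i).2.1
    · have h2 := hh.dual i j
      simp only [Fin.cons_succ, Fin.succ_inj]
      exact h2
  · intro i j
    refine Fin.cases ?_ (fun i => ?_) i <;> refine Fin.cases ?_ (fun j => ?_) j
    · intro hij
      exact absurd hij (lt_irrefl _)
    · intro hij
      exact absurd hij (Fin.not_lt_zero _)
    · intro _
      rw [Fin.cons_zero, Fin.cons_succ, he, map_smul, sw (hv' i).2.1, smul_zero]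
    · intro hij
      rw [Fin.cons_succ, Fin.cons_succ, key]
      exact htri i j (Fin.succ_lt_succ_iff.1 hij)
  · intro i
    refine Fin.cases ?_ (fun i => ?_) i
    · rw [Fin.cons_zero, Fin.cons_zero, Fin.cons_zero, he, map_smul, h1, smul_eq_mul, mul_one]
    · rw [Fin.cons_succ, Fin.cons_succ, Fin.cons_succ, key]
      exact hdia i
  · intro x hx
    rw [StepII_Dp] at hx ⊢
    obtain ⟨hs, y, hy, y', hy', hxy⟩ := hmid x hx
    refine ⟨hs, y - (q.h w' (G (x + y)) / c) • w, ?_, y', ?_, ?_⟩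
    · refine Submodule.sub_mem _ (Submodule.span_mono ?_ hy)
        (Submodule.smul_mem _ _ (Submodule.subset_span ⟨0, rfl⟩))
      rintro _ ⟨i, rfl⟩
      exact ⟨i.succ, rfl⟩
    · refine Submodule.span_mono ?_ hy'
      rintro _ ⟨i, rfl⟩
      exact ⟨i.succ, rfl⟩
    · rw [q.g2_apply, sub_eq_iff_eq_add] at hxy
      rw [← add_sub_assoc, map_sub, map_smul, he, smul_smul, div_mul_cancel₀ _ hc]
      exact sub_eq_iff_eq_add.2 hxy
  · rw [StepII_Dp]
    exact hrk

end ThQ
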