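import Pool.Agent.ThQ.RkA
import Pool.Agent.ThQ.StepI
import Pool.Agent.ThQ.StepII

/-! # Module RkB: the parity of the rank of `G - 1` in the steps -/

namespace ThQ
open Module

variable {K V : Type*} [Field K] [AddCommGroup V] [Module K V] (q : QF K V)
variable {U : Submodule K V} {G : V →ₗ[K] V} {w w' : V}

private theorem RkB_rn [FiniteDimensional K V] (f : V →ₗ[K] V) (M : Submodule K V) :
    finrank K M = finrank K (M.map f) + finrank K (M ⊓ LinearMap.ker f : Submodule K V) := by
  have h1 := LinearMap.finrank_range_add_finrank_ker (f.domRestrict M)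
  have h2 : LinearMap.range (f.domRestrict M) = M.map f := by
    ext y
    constructor
    · rintro ⟨x, rfl⟩
      exact ⟨x, x.2, rfl⟩
    · rintro ⟨x, hx, rfl⟩
      exact ⟨⟨x, hx⟩, rfl⟩
  have h3 : (LinearMap.ker (f.domRestrict M)).map M.subtype = M ⊓ LinearMap.ker f := by
    ext y
    constructor
    · rintro ⟨x, hx, rfl⟩
      exact ⟨x.2, hx⟩
    · rintro ⟨hy, hy2⟩
      exact ⟨⟨y, hy⟩, hy2, rfl⟩
  have h4 := (Submodule.equivSubtypeMap M (LinearMap.ker (f.domRestrict M))).finrank_eq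
  rw [h3] at h4
  rw [← h1, h2, h4]

private theorem RkB_sup [FiniteDimensional K V] {B : Submodule K V} {z : V} (hzB : z ∉ B) :
    finrank K (B ⊔ Submodule.span K {z} : Submodule K V) = finrank K B + 1 := by
  have h2 : B ⊓ Submodule.span K {z} = ⊥ := by
    rw [eq_bot_iff]
    rintro x ⟨hx, hx2⟩
    obtain ⟨c, rfl⟩ := Submodule.mem_span_singleton.1 hx2
    by_cases hc : c = 0
    · rw [hc, zero_smul]
      exact Submodule.zero_mem _
    · exfalso
      apply hzB
      have := B.smul_mem c⁻¹ hx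
      rwa [smul_smul, inv_mul_cancel₀ hc, one_smul] at this
  have hz0 : z ≠ 0 := fun h0 => hzB (h0 ▸ B.zero_mem)
  have h3 := Submodule.finrank_sup_add_finrank_inf_eq B (Submodule.span K {z})
  rw [h2, finrank_bot, finrank_span_singleton hz0] at h3
  omega

/-- `G w = w`, `R = perp2 U w w'`, `g = g2 G w w'` (an isometry of `R`, `iso_g2`), `r = rk R g`.
For `x ∈ R`: `G x = g x + λ x • w`, `λ x = h w' (G x)`; `G w' = w' + u + μ • w` with `u ∈ R` (`perp2_dec`; the
coefficient of `w'` is `h w (G w') = h (G w) (G w') = 1`).  From `0 = Q (G w') = Q u + μ` and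
`0 = h w' x = h (G w') (G x)`: `μ = - Q u`, `λ x = - h u (g x)`.
`(G - 1) U` is spanned by the vectors `(g x - x) + λ x • w` (`x ∈ R`) and `u + μ • w`.
Case 1: `u = g y - y` with `y ∈ R`.  Then `μ = λ y`: `λ y = - h (g y - y) (g y) = - 2 Q y + h y (g y) =
- Q (g y - y)`.  So `(G - 1) U = {(g x - x) + λ x • w | x ∈ R}`, and for `g x = x`:
`λ x = - h (g y - y) x = 0` (`mem_im` or directly).  So the dimension is `r`.
Case 2: otherwise.  The map `(x, t) ↦ (g x - x) + t • u + (λ x + t μ) • w` from `R × K` has the kernel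
`t = 0`, `g x = x`, `h u x = 0`; by `mem_im` not all fixed vectors `x` of `g` satisfy `h u x = 0`.  So the
dimension of the image is `(dim R + 1) - (dim ker - 1) = r + 2`. -/
theorem par_fix [FiniteDimensional K V] (hU : q.ND U) (hG : q.Iso U G) (hw : w ∈ U) (hw' : w' ∈ U)
    (h0 : q.Q w = 0) (h0' : q.Q w' = 0) (h1 : q.h w' w = 1) (he : G w = w) :
    rk U G % 2 = rk (q.perp2 U w w') (q.g2 G w w') % 2 := by
  have h1' : q.h w w' = 1 := by rw [q.symm w' w, h1]
  have hww : q.h w w = 0 := q.h_self_zero h0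
  have hww' : q.h w' w' = 0 := q.h_self_zero h0'
  -- the form `h w` is invariant
  have hwG : ∀ x ∈ U, q.h w (G x) = q.h w x := by
    intro x hx
    have := hG.h hw hx
    rwa [he] at this
  -- decomposition of `G w'`
  obtain ⟨μ, t, hut⟩ := perp2_dec q hw hw' h0 h0' (by rw [h1']; exact one_ne_zero) (G w')
    (hG.1 _ hw')
  have ht : t = 1 := by
    have h2 := (q.mem_perp2.1 hut).2.1
    rw [map_sub, map_sub, map_smul, map_smul, hww, hwG w' hw', h1'] at h2
    simp only [smul_eq_mul] at h2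
    linear_combination -h2
  rw [ht, one_smul] at hut
  obtain ⟨u, hu⟩ : ∃ u, u = G w' - μ • w - w' := ⟨_, rfl⟩
  rw [← hu] at hut
  have hGw' : G w' - w' = u + μ • w := by rw [hu]; abel
  obtain ⟨huU, hu1, hu2⟩ := q.mem_perp2.1 hut
  -- the map `P`
  obtain ⟨P, hP⟩ : ∃ P : V →ₗ[K] V, ∀ x, P x = x - q.h w' x • w :=
    ⟨LinearMap.id - (q.h w').smulRight w, fun x => by simp⟩
  have hPx : ∀ x, P (G x - x) = q.g2 G w w' x - (x - q.h w' x • w) := by
    intro x
    rw [hP, q.g2_apply, map_sub]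
    module
  have hPw : P w = 0 := by rw [hP, h1, one_smul, sub_self]
  have hPu : P u = u := by rw [hP, hu2, zero_smul, sub_zero]
  have hker : ∀ x, P x = 0 ↔ ∃ c : K, x = c • w := by
    intro x
    constructor
    · intro h
      rw [hP, sub_eq_zero] at h
      exact ⟨_, h⟩
    · rintro ⟨c, rfl⟩
      rw [map_smul, hPw, smul_zero]
  obtain ⟨N, hN⟩ : ∃ N, N = (q.perp2 U w w').map (q.g2 G w w' - LinearMap.id) := ⟨_, rfl⟩
  obtain ⟨M, hM⟩ : ∃ M, M = U.map (G - LinearMap.id) := ⟨_, rfl⟩
  have hMmem : ∀ x ∈ U, G x - x ∈ M := by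
    intro x hx
    rw [hM]
    exact ⟨x, hx, rfl⟩
  have hNmem : ∀ x ∈ q.perp2 U w w', q.g2 G w w' x - x ∈ N := by
    intro x hx
    rw [hN]
    exact ⟨x, hx, rfl⟩
  -- image of `M` under `P`
  have hPM : M.map P = N ⊔ Submodule.span K {u} := by
    apply le_antisymm
    · rintro _ ⟨y, hy, rfl⟩
      rw [hM] at hy
      obtain ⟨x, hx, rfl⟩ := hy
      obtain ⟨s, t, hst⟩ := perp2_dec q hw hw' h0 h0' (by rw [h1']; exact one_ne_zero) x hx
      obtain ⟨y, hy⟩ : ∃ y, y = x - s • w - t • w' := ⟨_, rfl⟩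
      rw [← hy] at hst
      have hxy : x = y + s • w + t • w' := by rw [hy]; abel
      have h3 : G x - x = (G y - y) + t • (u + μ • w) := by
        rw [hxy, map_add, map_add, map_smul, map_smul, he, ← hGw']
        module
      have h4 : P (G x - x) = (q.g2 G w w' y - y) + t • u := by
        rw [h3, map_add, hPx, map_smul, map_add, map_smul, hPw, hPu, (q.mem_perp2.1 hst).2.2]
        module
      show P (G x - x) ∈ _
      rw [h4]
      exact Submodule.add_mem_sup (hNmem y hst)
        (Submodule.smul_mem _ _ (Submodule.mem_span_singleton_self u))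
    · refine sup_le ?_ ?_
      · rw [hN]
        rintro _ ⟨x, hx, rfl⟩
        refine ⟨G x - x, hMmem x (q.mem_perp2.1 hx).1, ?_⟩
        rw [hPx, (q.mem_perp2.1 hx).2.2, zero_smul, sub_zero]
        rfl
      · rw [Submodule.span_singleton_le_iff_mem]
        refine ⟨G w' - w', hMmem w' hw', ?_⟩
        rw [hGw', map_add, map_smul, hPw, hPu, smul_zero, add_zero]
  have hrn := RkB_rn P M
  have hrk : rk U G = finrank K M := by rw [rk, hM]
  have hrk2 : rk (q.perp2 U w w') (q.g2 G w w') = finrank K N := by rw [rk, hN]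
  by_cases huN : u ∈ N
  · -- then `w` is not in `M`
    have hwM : w ∉ M := by
      intro hwM
      rw [hN] at huN
      obtain ⟨y, hy, hyu⟩ := huN
      have hyu' : q.g2 G w w' y - y = u := hyu
      obtain ⟨hyU, hy1, hy2⟩ := q.mem_perp2.1 hy
      obtain ⟨c, hc⟩ : ∃ c : K, G (w' - y) = (w' - y) + c • w := by
        refine ⟨μ - q.h w' (G y), ?_⟩
        have h3 : G w' = w' + u + μ • w := by rw [hu]; abel
        have h4 : G y = u + y + q.h w' (G y) • w := by
          rw [← hyu', q.g2_apply]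
          abel
        rw [map_sub, h3]
        nth_rw 1 [h4]
        module
      have hvU : w' - y ∈ U := U.sub_mem hw' hyU
      have hc0 : c = 0 := by
        have h3 := hG.2 (w' - y) hvU
        rw [hc, q.add, q.smul, h0, map_smul, q.sub_left, h1, q.symm w y, hy1, smul_eq_mul] at h3
        linear_combination h3
      rw [hc0, zero_smul, add_zero] at hc
      have hwx := (mem_im q hU hG w).1 (by
        rw [hM] at hwM
        obtain ⟨x, hx, hxw⟩ := hwM
        exact ⟨x, hx, hxw⟩)
      have h5 := hwx.2 (w' - y) hvU hc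
      rw [q.sub_left, h1, q.symm w y, hy1, sub_zero] at h5
      exact one_ne_zero h5
    have h6 : (M ⊓ LinearMap.ker P : Submodule K V) = ⊥ := by
      rw [eq_bot_iff]
      rintro x ⟨hx, hx2⟩
      obtain ⟨c, rfl⟩ := (hker x).1 hx2
      by_cases hc : c = 0
      · rw [hc, zero_smul]
        exact Submodule.zero_mem _
      · exfalso
        apply hwM
        have := M.smul_mem c⁻¹ hx
        rwa [smul_smul, inv_mul_cancel₀ hc, one_smul] at this
    have h7 : M.map P = N := by
      rw [hPM]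
      refine le_antisymm (sup_le le_rfl ?_) le_sup_left
      rw [Submodule.span_singleton_le_iff_mem]
      exact huN
    rw [h6, h7, finrank_bot] at hrn
    rw [hrk, hrk2, hrn, add_zero]
  · -- then `w` is in `M`
    have hwM : w ∈ M := by
      have h3 := (mem_im q hU hG w).2 ⟨hw, fun y hy hGy => by
        by_contra hyw
        obtain ⟨s, t, hst⟩ := perp2_dec q hw hw' h0 h0' (by rw [h1']; exact one_ne_zero) y hy
        obtain ⟨x, hx⟩ : ∃ x, x = y - s • w - t • w' := ⟨_, rfl⟩
        rw [← hx] at hst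
        have hyx : y = x + s • w + t • w' := by rw [hx]; abel
        obtain ⟨hxU, hx1, hx2⟩ := q.mem_perp2.1 hst
        have ht : t ≠ 0 := by
          intro ht
          apply hyw
          rw [hyx, ht, zero_smul, add_zero, q.add_left, q.smul_left, hww, q.symm w x, hx1, mul_zero,
            add_zero]
        apply huN
        have h4 : P (G y - y) = (q.g2 G w w' x - x) + t • u := by
          have h5 : G y - y = (G x - x) + t • (u + μ • w) := by
            rw [hyx, map_add, map_add, map_smul, map_smul, he, ← hGw']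
            module
          rw [h5, map_add, hPx, map_smul, map_add, map_smul, hPw, hPu, hx2]
          module
        rw [hGy, sub_self, map_zero] at h4
        have h6 : u = -t⁻¹ • (q.g2 G w w' x - x) := by
          have h7 : q.g2 G w w' x - x = -(t • u) := eq_neg_of_add_eq_zero_left h4.symm
          rw [h7, smul_neg, neg_smul, neg_neg, smul_smul, inv_mul_cancel₀ ht, one_smul]
        rw [h6]
        exact N.smul_mem _ (hNmem x hst)⟩
      obtain ⟨x, hx, hxw⟩ := h3
      rw [← hxw]
      exact hMmem x hx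
    have hw0 : w ≠ 0 := by
      intro h
      rw [h, map_zero] at h1
      exact zero_ne_one h1
    have h6 : (M ⊓ LinearMap.ker P : Submodule K V) = Submodule.span K {w} := by
      apply le_antisymm
      · rintro x ⟨hx, hx2⟩
        obtain ⟨c, rfl⟩ := (hker x).1 hx2
        exact Submodule.smul_mem _ _ (Submodule.mem_span_singleton_self w)
      · rw [Submodule.span_singleton_le_iff_mem]
        exact ⟨hwM, (hker w).2 ⟨1, (one_smul _ _).symm⟩⟩
    rw [h6, hPM, RkB_sup huN, finrank_span_singleton hw0] at hrn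
    rw [hrk, hrk2, hrn]
    omega

/-- `z = h w (G w) ≠ 0`.  `f = w - G w`, `Q f = - z`, `G' = refl f ∘ G` fixes `w` (`refl_swap`).  With
`w' = z⁻¹ • G w`: `perp2 U w w' = perp2 U w (G w)` and `g2 G' w w' = g1 G w` on it (`refl f` fixes
`g1 G w x` and maps `G w` to `w`).  `par_refl'`, `par_fix`, `rk_congr`. -/
theorem par_g1 [FiniteDimensional K V] (hU : q.ND U) (hG : q.Iso U G) (hw : w ∈ U)
    (h0 : q.Q w = 0) (hz : q.h w (G w) ≠ 0) :
    rk U G % 2 = (rk (q.perp2 U w (G w)) (q.g1 G w) + 1) % 2 := by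
  have hGw : G w ∈ U := hG.1 w hw
  have hQG : q.Q (G w) = 0 := by rw [hG.2 w hw, h0]
  have hww : q.h w w = 0 := q.h_self_zero h0
  have hGG : q.h (G w) (G w) = 0 := q.h_self_zero hQG
  have hfU : w - G w ∈ U := U.sub_mem hw hGw
  have hQf : q.Q (w - G w) ≠ 0 := by
    rw [q.Q_sub, h0, hQG, zero_add, zero_sub]
    exact neg_ne_zero.2 hz
  have hsw : q.refl (w - G w) w = G w := refl_swap q h0 hQG hz
  have hsw2 : q.refl (w - G w) (G w) = w := by
    have h2 := refl_refl q hQf w
    rwa [hsw] at h2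
  have hG' : q.Iso U (q.refl (w - G w) ∘ₗ G) := iso_comp q (refl_iso q hfU hQf) hG
  have hp := par_refl' q hU hG hfU hQf
  have hpf := par_fix q hU hG' hw (w' := (q.h w (G w))⁻¹ • G w) (U.smul_mem _ hGw) h0
    (by rw [q.smul, hQG, mul_zero])
    (by rw [q.smul_left, q.symm w (G w), inv_mul_cancel₀ hz])
    (by rw [LinearMap.comp_apply, hsw2])
  have hperp : q.perp2 U w ((q.h w (G w))⁻¹ • G w) = q.perp2 U w (G w) := by
    ext x
    rw [q.mem_perp2, q.mem_perp2, q.smul_left]
    refine and_congr_right fun _ => and_congr_right fun _ => ?_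
    rw [mul_eq_zero]
    exact ⟨fun h => h.resolve_left (inv_ne_zero hz), fun h => Or.inr h⟩
  rw [hperp] at hpf
  have hcong : rk (q.perp2 U w (G w)) (q.g2 (q.refl (w - G w) ∘ₗ G) w ((q.h w (G w))⁻¹ • G w)) =
      rk (q.perp2 U w (G w)) (q.g1 G w) := by
    refine rk_congr fun x hx => ?_
    have hg := (iso_g1 q hG hw h0 hz).1 x hx
    obtain ⟨hgU, hg1, hg2⟩ := q.mem_perp2.1 hg
    obtain ⟨β, hGx⟩ : ∃ β : K, G x = q.g1 G w x + β • G w := by
      refine ⟨q.h w (G x) * (q.h w (G w))⁻¹, ?_⟩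
      rw [q.g1_apply]
      abel
    have h2 : (q.refl (w - G w) ∘ₗ G) x = q.g1 G w x + β • w := by
      rw [LinearMap.comp_apply, hGx, map_add, map_smul, hsw2, refl_fix]
      rw [q.sub_left, hg1, hg2, sub_zero]
    rw [q.g2_apply, h2, map_add, map_smul, q.smul_left, q.smul_left, hg2, q.symm w (G w),
      inv_mul_cancel₀ hz, mul_zero, zero_add, smul_eq_mul, mul_one, add_sub_cancel_right]
  rw [hcong] at hpf
  omega

/-- `G' = refl (w - c • w') ∘ refl (w - w') ∘ G` fixes `w`: `refl (w - w') w = w'` and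
`refl (w - c • w') (c • w') = w`.  `g2 G' w w' = g2 G w w'` on `perp2 U w w'` (the reflections fix
`g2 G w w' x` and map `w` to `c⁻¹ • w`).  `par_refl'` twice, `par_fix`, `rk_congr`. -/
theorem par_g2 [FiniteDimensional K V] (hU : q.ND U) (hG : q.Iso U G) (hw : w ∈ U) (hw' : w' ∈ U)
    (h0 : q.Q w = 0) (h0' : q.Q w' = 0) (h1 : q.h w' w = 1) {c : K} (hc : c ≠ 0) (he : G w = c • w) :
    rk U G % 2 = rk (q.perp2 U w w') (q.g2 G w w') % 2 := by
  have h1' : q.h w w' = 1 := by rw [q.symm w' w, h1]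
  have hf1 : w - w' ∈ U := U.sub_mem hw hw'
  have hf2 : w - c • w' ∈ U := U.sub_mem hw (U.smul_mem _ hw')
  have hcw : q.Q (c • w') = 0 := by rw [q.smul, h0', mul_zero]
  have hcw2 : q.h w (c • w') ≠ 0 := by
    rw [map_smul, h1', smul_eq_mul, mul_one]
    exact hc
  have hQ1 : q.Q (w - w') ≠ 0 := by
    rw [q.Q_sub, h0, h0', h1', zero_add, zero_sub]
    exact neg_ne_zero.2 one_ne_zero
  have hQ2 : q.Q (w - c • w') ≠ 0 := by
    rw [q.Q_sub, h0, hcw, zero_add, zero_sub]
    exact neg_ne_zero.2 hcw2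
  have hs1 : q.refl (w - w') w = w' := refl_swap q h0 h0' (by rw [h1']; exact one_ne_zero)
  have hs2 : q.refl (w - c • w') w = c • w' := refl_swap q h0 hcw hcw2
  have hs3 : q.refl (w - c • w') (c • w') = w := by
    have h2 := refl_refl q hQ2 w
    rwa [hs2] at h2
  have hs4 : q.refl (w - c • w') w' = c⁻¹ • w := by
    have h2 : q.refl (w - c • w') (c⁻¹ • (c • w')) = c⁻¹ • w := by rw [map_smul, hs3]
    rwa [smul_smul, inv_mul_cancel₀ hc, one_smul] at h2
  have hG1 : q.Iso U (q.refl (w - w') ∘ₗ G) := iso_comp q (refl_iso q hf1 hQ1) hG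
  have hG2 : q.Iso U (q.refl (w - c • w') ∘ₗ (q.refl (w - w') ∘ₗ G)) :=
    iso_comp q (refl_iso q hf2 hQ2) hG1
  have hp1 := par_refl' q hU hG hf1 hQ1
  have hp2 := par_refl' q hU hG1 hf2 hQ2
  have hpf := par_fix q hU hG2 hw hw' h0 h0' h1 (by
    rw [LinearMap.comp_apply, LinearMap.comp_apply, he, map_smul, hs1, hs3])
  have hcong : rk (q.perp2 U w w') (q.g2 (q.refl (w - c • w') ∘ₗ (q.refl (w - w') ∘ₗ G)) w w') =
      rk (q.perp2 U w w') (q.g2 G w w') := by
    refine rk_congr fun x hx => ?_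
    have hg := (iso_g2 q hG hw hw' h0 h0' h1 hc he).1 x hx
    obtain ⟨hgU, hg1, hg2⟩ := q.mem_perp2.1 hg
    obtain ⟨β, hGx⟩ : ∃ β : K, G x = q.g2 G w w' x + β • w := by
      refine ⟨q.h w' (G x), ?_⟩
      rw [q.g2_apply]
      abel
    have h2 : (q.refl (w - c • w') ∘ₗ (q.refl (w - w') ∘ₗ G)) x =
        q.g2 G w w' x + (β * c⁻¹) • w := by
      rw [LinearMap.comp_apply, LinearMap.comp_apply, hGx, map_add, map_smul, hs1,
        refl_fix q (x := q.g2 G w w' x) (f := w - w'), map_add, map_smul, hs4, refl_fix, smul_smul]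
      · rw [q.sub_left, q.smul_left, hg1, hg2, mul_zero, sub_zero]
      · rw [q.sub_left, hg1, hg2, sub_zero]
    rw [q.g2_apply, h2, map_add, map_smul, hg2, h1, zero_add, smul_eq_mul, mul_one,
      add_sub_cancel_right]
  rw [hcong] at hpf
  omega

end ThQ
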