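import Pool.Agent.ThQ.TriS
import Pool.Agent.ThQ.BlkB
import Pool.Agent.ThQ.RkB

/-! # Module TriEx: every isometry has a triangular system -/

namespace ThQ
open Matrix Module

variable {K V : Type*} [Field K] [AddCommGroup V] [Module K V] (q : QF K V)

private theorem tri_mod {U : Submodule K V} {G : V →ₗ[K] V} {n : ℕ} {l : Fin n → K} {ε ε' : ℕ}
    (h : q.Tri U G n l ε) (he : ε' % 2 = ε % 2) : q.Tri U G n l ε' := by
  obtain ⟨w, w', s, h1, h2, h3, h4, h5⟩ := h
  exact ⟨w, w', s, h1, h2, h3, h4, h5.trans he.symm⟩

/-- Strong induction on `n`.  `n = 0`: the empty system, `Dp = U`, `s = G`.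
`n ≥ 1` (write `n = n' + 1`):
Case 1: there is a singular `w ∈ U` with `h w (G w) ≠ 0`: the induction hypothesis for `perp2 U w (G w)`, `g1 G w`
(`perp2_ND`, `perp2_finrank`, `iso_g1`), `tri_g1` with `l0 = 1`, `par_g1`.
Case 2: `h w (G w) = 0` for all singular `w ∈ U`, and there is a singular `w ≠ 0` with `G w = c • w` (`c ≠ 0` by
`iso_inj`): partner `w'`; the induction hypothesis for `perp2 U w w'`, `g2 G w w'`; `tri_g2`, `par_g2`.
Case 3: `h w (G w) = 0` for all singular `w ∈ U`, no singular `w ≠ 0` is an eigenvector.  There is a singular `w ≠ 0`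
(`sing_ex`); `w`, `G w` are independent, so `sym_exc` gives `Exc U G c`; `blk_ex` gives a block `w1 = w`, `w2`.  If
`n = 1` (`finrank U = 4`): `blk_base` gives `Sys1 U G (1 : Matrix (Fin 1) (Fin 1) K)`, that is `Tri U G 1 1 0` (the rank of
`id - id` is `0`), and `rk U G` is even (`blk_par`; `cmp4` has dimension `0`).  If `n ≥ 2`: the induction
hypothesis for `cmp4 q U G w1 w2` (dimension `2 (n - 2) + 2`) and `G`; `blk_tri`, `blk_par`. -/
theorem tri_ex [Finite K] [FiniteDimensional K V] (n : ℕ) (U : Submodule K V) (G : V →ₗ[K] V)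
    (hU : q.ND U) (hf : finrank K U = 2 * n + 2) (hG : q.Iso U G) :
    ∃ l : Fin n → K, (∀ i, l i ≠ 0) ∧ q.Tri U G n l (rk U G) := by
  induction n using Nat.strong_induction_on generalizing U G with
  | _ n ih =>
    rcases n with _ | n
    · refine ⟨Fin.elim0, fun i => i.elim0, Fin.elim0, Fin.elim0, G, ⟨fun i => i.elim0, fun i => i.elim0,
        fun i => i.elim0, fun i => i.elim0, fun i => i.elim0, fun i => i.elim0, fun i => i.elim0⟩,
        fun i => i.elim0, fun i => i.elim0, ?_, ?_⟩
      · intro x hx
        refine ⟨(q.mem_Dp).2 ⟨hG.1 _ ((q.mem_Dp).1 hx).1, fun i => i.elim0⟩, 0, Submodule.zero_mem _, 0,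
          Submodule.zero_mem _, ?_⟩
        rw [add_zero, add_zero]
      · have : q.Dp U (Fin.elim0 : Fin 0 → V) Fin.elim0 = U := by
          ext x
          rw [q.mem_Dp]
          exact ⟨fun h => h.1, fun h => ⟨h, fun i => i.elim0⟩⟩
        rw [this]
    · by_cases c1 : ∃ w ∈ U, q.Q w = 0 ∧ q.h w (G w) ≠ 0
      · obtain ⟨w, hw, h0, hz⟩ := c1
        have hQ : q.Q (G w) = 0 := by rw [hG.2 w hw, h0]
        have hND := perp2_ND q hU hw (hG.1 w hw) h0 hQ hz
        have hfr := perp2_finrank q hw (hG.1 w hw) h0 hQ hz
        obtain ⟨l, hl, ht⟩ := ih n (Nat.lt_succ_self n) (q.perp2 U w (G w)) (q.g1 G w) hND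
          (by omega) (iso_g1 q hG hw h0 hz)
        refine ⟨Fin.cons 1 l, ?_, ?_⟩
        · intro i
          refine Fin.cases ?_ (fun i => ?_) i
          · rw [Fin.cons_zero]
            exact one_ne_zero
          · rw [Fin.cons_succ]
            exact hl i
        · exact tri_mod q (tri_g1 q hU hG hw h0 hz hf ht one_ne_zero) (par_g1 q hU hG hw h0 hz)
      · have hz : ∀ w ∈ U, q.Q w = 0 → q.h w (G w) = 0 := by
          intro w hw h0
          by_contra h
          exact c1 ⟨w, hw, h0, h⟩
        by_cases c2 : ∃ w ∈ U, q.Q w = 0 ∧ w ≠ 0 ∧ ∃ c : K, G w = c • w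
        · obtain ⟨w, hw, h0, hn, c, hc⟩ := c2
          have hc0 : c ≠ 0 := by
            rintro rfl
            rw [zero_smul] at hc
            exact hn (iso_inj q hU hG hw hc)
          obtain ⟨w', hw', h0', h1⟩ := partner q hU hw h0 hn
          have hab : q.h w w' ≠ 0 := by
            rw [← q.symm w w', h1]
            exact one_ne_zero
          have hND := perp2_ND q hU hw hw' h0 h0' hab
          have hfr := perp2_finrank q hw hw' h0 h0' hab
          obtain ⟨l, hl, ht⟩ := ih n (Nat.lt_succ_self n) (q.perp2 U w w') (q.g2 G w w') hND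
            (by omega) (iso_g2 q hG hw hw' h0 h0' h1 hc0 hc)
          refine ⟨Fin.cons c l, ?_, ?_⟩
          · intro i
            refine Fin.cases ?_ (fun i => ?_) i
            · rw [Fin.cons_zero]
              exact hc0
            · rw [Fin.cons_succ]
              exact hl i
          · exact tri_mod q (tri_g2 q hG hw hw' h0 h0' h1 hc0 hc ht)
              (par_g2 q hU hG hw hw' h0 h0' h1 hc0 hc)
        · obtain ⟨w, hw, hn, h0⟩ := sing_ex q (U := U) (by omega)
          have hne : ∀ t : K, G w ≠ t • w := fun t ht => c2 ⟨w, hw, h0, hn, t, ht⟩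
          have hi : ∀ s t : K, s • w + t • G w = 0 → s = 0 ∧ t = 0 := by
            intro s t hst
            have ht : t = 0 := by
              by_contra ht
              apply hne (t⁻¹ * -s)
              have h3 : t • G w = (-s) • w := by
                rw [neg_smul]
                exact eq_neg_of_add_eq_zero_right hst
              rw [← smul_smul, ← h3, smul_smul, inv_mul_cancel₀ ht, one_smul]
            rw [ht, zero_smul, add_zero] at hst
            exact ⟨(smul_eq_zero.mp hst).resolve_right hn, ht⟩
          obtain ⟨c, hE⟩ := sym_exc q hU hG hz hw (hG.1 w hw) h0 (by rw [hG.2 w hw, h0])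
            (hz w hw h0) hi
          obtain ⟨w2, hb⟩ := blk_ex q hU hG hE hw h0 hne
          have hfr := blk_finrank q hG hE hb
          have hpar := blk_par q hU hG hE hb
          rcases n with _ | n
          · obtain ⟨v, v', hyp, hent, hmid⟩ := blk_base q hU hG hE hb hf
            refine ⟨fun _ => 1, fun _ => one_ne_zero, v, v', LinearMap.id, hyp, ?_, ?_, hmid, ?_⟩
            · intro i j hij
              exact absurd hij (by omega)
            · intro i
              rw [hent, Matrix.one_apply_eq]
            · have h3 : rk (cmp4 q U G w w2) G ≤ finrank K (cmp4 q U G w w2) := rk_le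
              have h4 : rk (q.Dp U v v') (LinearMap.id : V →ₗ[K] V) = 0 := by
                have : (q.Dp U v v').map ((LinearMap.id : V →ₗ[K] V) - LinearMap.id) = ⊥ := by
                  rw [sub_self]
                  exact Submodule.map_zero _
                rw [rk, this, finrank_bot]
              omega
          · obtain ⟨l, hl, ht⟩ := ih n (by omega) (cmp4 q U G w w2) G (blk_ND q hU hG hE hb)
              (by omega) (blk_iso q hU hG hE hb)
            refine ⟨Fin.cons 1 (Fin.cons 1 l : Fin (n + 1) → K), ?_, ?_⟩
            · intro i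
              refine Fin.cases ?_ (fun i => ?_) i
              · rw [Fin.cons_zero]
                exact one_ne_zero
              · rw [Fin.cons_succ]
                refine Fin.cases ?_ (fun i => ?_) i
                · rw [Fin.cons_zero]
                  exact one_ne_zero
                · rw [Fin.cons_succ]
                  exact hl i
            · exact tri_mod q (blk_tri q hU hG hE hb ht) hpar

/-- `tri_ex` for the identity -/
theorem hyp_ex [Finite K] [FiniteDimensional K V] {n : ℕ} {U : Submodule K V}
    (hU : q.ND U) (hf : finrank K U = 2 * n + 2) : ∃ w w' : Fin n → V, q.Hyp U w w' := by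
  obtain ⟨l, -, w, w', s, h, -⟩ := tri_ex q n U LinearMap.id hU hf (iso_id q)
  exact ⟨w, w', h⟩

end ThQ
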