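import Pool.Agent.ThQ.AdjA
import Pool.Agent.ThQ.TriEx

/-! # Module AdjB: the isometry group modulo commutators -/

namespace ThQ
open Matrix Module

variable {K D : Type*} [Field K] [AddCommGroup D] [Module K D] {k : ℕ}

/-- `tri_ex` for `g` (`q0_ND`, `V0_finrank`) and `frame`: a conjugate of `g` is in standard position with a triangular block `a` with nonzero
diagonal, hence invertible (`Matrix.det_of_upperTriangular`), and some `s`; `ldu`, `low_comm`, `up_comm`, `mL_HH`; `oD s ∈ HH`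
(take `s⁻¹`); `HH_normal`. -/
theorem all_HH [Finite K] [Finite D] (hk : 3 ≤ k) (qD : QF K D) (hD : qD.ND ⊤)
    (hD2 : finrank K D = 2) {B : (Matrix (Fin k) (Fin k) K)ˣ} (hB : SeedQ B)
    (g : IG (q0 qD k)) : g ∈ HH qD k := by
  have : FiniteDimensional K D := Module.Finite.of_finite
  have hf : finrank K (⊤ : Submodule K (V0 K D k)) = 2 * k + 2 := by
    rw [finrank_top, V0_finrank, hD2]
  obtain ⟨l, hl0, w, w', s, hw, h1, h2, h3, -⟩ := tri_ex (q0 qD k) k ⊤
    ((g : V0 K D k ≃ₗ[K] V0 K D k) : V0 K D k →ₗ[K] V0 K D k) (q0_ND qD hD) hf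
    ⟨fun _ _ => trivial, fun x _ => g.2 x⟩
  obtain ⟨P, s', hP, -⟩ := frame qD hD g (s := s)
    (a := Matrix.of fun i j => (q0 qD k).h (w' i) ((g : V0 K D k ≃ₗ[K] V0 K D k) (w j))) hw h3
    (fun i j => rfl)
  set a : Matrix (Fin k) (Fin k) K :=
    Matrix.of fun i j => (q0 qD k).h (w' i) ((g : V0 K D k ≃ₗ[K] V0 K D k) (w j)) with ha
  have htri : a.BlockTriangular id := fun i j hij => h1 i j hij
  have hdet : IsUnit a.det := by
    rw [Matrix.det_of_isUpperTriangular htri, isUnit_iff_ne_zero]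
    refine Finset.prod_ne_zero_iff.2 fun i _ => ?_
    have : a i i = l i := h2 i
    rw [this]
    exact hl0 i
  obtain ⟨n, hn, v, hv, u, -, hg⟩ := ldu qD hP hdet
  have hoD : oD qD k s' ∈ HH qD k := by
    rw [mem_HH]
    refine ⟨s'⁻¹, ?_⟩
    rw [← map_mul, mul_inv_cancel, map_one]
    exact Subgroup.one_mem _
  have hmem : P⁻¹ * g * P ∈ HH qD k := by
    rw [hg]
    refine Subgroup.mul_mem _ (Subgroup.mul_mem _ (Subgroup.mul_mem _ ?_ ?_) hoD) ?_
    · exact comm_le_HH qD (low_comm qD hB hn)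
    · exact mL_HH hk qD hD hD2 u
    · exact comm_le_HH qD (up_comm qD hB hv)
  have h4 := (HH_normal (k := k) qD).conj_mem _ hmem P
  have h5 : P * (P⁻¹ * g * P) * P⁻¹ = g := by group
  rwa [h5] at h4

/-- conjugates of `mL B` are conjugates under the commutator subgroup: `r * oD s` instead of `r` (`oD_mL`) -/
theorem adj [Finite K] [Finite D] (hk : 3 ≤ k) (qD : QF K D) (hD : qD.ND ⊤)
    (hD2 : finrank K D = 2) {B : (Matrix (Fin k) (Fin k) K)ˣ} (hB : SeedQ B)
    (r : IG (q0 qD k)) : ∃ r0 ∈ commutator (IG (q0 qD k)),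
      r * mL qD k B * r⁻¹ = r0 * mL qD k B * r0⁻¹ := by
  obtain ⟨s, hs⟩ := all_HH hk qD hD hD2 hB r
  refine ⟨r * oD qD k s, hs, ?_⟩
  have h1 := oD_mL qD s B
  symm
  rw [mul_assoc r (oD qD k s), h1, _root_.mul_inv_rev]
  group

end ThQ
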