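import Pool.Agent.ThQ.Spq

/-! # Module Sing: singular vectors -/

namespace ThQ
open Module

variable {K V : Type*} [Field K] [AddCommGroup V] [Module K V] (q : QF K V)
variable {U : Submodule K V}

/-- Chevalley-Warning: take three independent vectors `u i` of `U` (a basis of a 3-dimensional subspace); the
polynomial `∑ x_i^2 Q (u i) + ∑_{i<j} x_i x_j h (u i) (u j)` in three variables has degree at most two and the zero
`0`, so by `char_dvd_card_solutions` it has a nontrivial zero. -/
theorem sing_ex [Finite K] [FiniteDimensional K V] (h3 : 3 ≤ finrank K U) :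
    ∃ w ∈ U, w ≠ 0 ∧ q.Q w = 0 := by
  classical
  cases nonempty_fintype K
  obtain ⟨u, hu⟩ := exists_linearIndependent_of_le_finrank h3
  let v : Fin 3 → V := fun i => (u i).1
  have hv : LinearIndependent K v := hu.map' U.subtype (Submodule.ker_subtype U)
  let f : MvPolynomial (Fin 3) K :=
    MvPolynomial.C (q.Q (v 0)) * (MvPolynomial.X 0 * MvPolynomial.X 0) +
    MvPolynomial.C (q.Q (v 1)) * (MvPolynomial.X 1 * MvPolynomial.X 1) +
    MvPolynomial.C (q.Q (v 2)) * (MvPolynomial.X 2 * MvPolynomial.X 2) +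
    MvPolynomial.C (q.h (v 0) (v 1)) * (MvPolynomial.X 0 * MvPolynomial.X 1) +
    MvPolynomial.C (q.h (v 0) (v 2)) * (MvPolynomial.X 0 * MvPolynomial.X 2) +
    MvPolynomial.C (q.h (v 1) (v 2)) * (MvPolynomial.X 1 * MvPolynomial.X 2)
  have hterm : ∀ (c : K) (i j : Fin 3),
      (MvPolynomial.C c * (MvPolynomial.X i * MvPolynomial.X j) : MvPolynomial (Fin 3) K).totalDegree
        ≤ 2 := by
    intro c i j
    refine (MvPolynomial.totalDegree_mul _ _).trans ?_
    rw [MvPolynomial.totalDegree_C, zero_add]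
    refine (MvPolynomial.totalDegree_mul _ _).trans ?_
    rw [MvPolynomial.totalDegree_X, MvPolynomial.totalDegree_X]
  have hdeg : f.totalDegree ≤ 2 := by
    refine (MvPolynomial.totalDegree_add _ _).trans (max_le ?_ (hterm _ _ _))
    refine (MvPolynomial.totalDegree_add _ _).trans (max_le ?_ (hterm _ _ _))
    refine (MvPolynomial.totalDegree_add _ _).trans (max_le ?_ (hterm _ _ _))
    refine (MvPolynomial.totalDegree_add _ _).trans (max_le ?_ (hterm _ _ _))
    exact (MvPolynomial.totalDegree_add _ _).trans (max_le (hterm _ _ _) (hterm _ _ _))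
  have heval : ∀ x : Fin 3 → K, MvPolynomial.eval x f =
      q.Q (x 0 • v 0 + x 1 • v 1 + x 2 • v 2) := by
    intro x
    simp only [f, map_add, map_mul, MvPolynomial.eval_C, MvPolynomial.eval_X]
    rw [q.add, q.add, q.smul, q.smul, q.smul, q.add_left, q.smul_left, q.smul_left, q.smul_left,
      map_smul, map_smul, map_smul, smul_eq_mul, smul_eq_mul, smul_eq_mul]
    ring
  obtain ⟨p, hp⟩ := CharP.exists K
  have hdvd := char_dvd_card_solutions (K := K) (σ := Fin 3) p (f := f)
    (by rw [Fintype.card_fin]; omega)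
  have hp2 : 2 ≤ p := (CharP.char_is_prime K p).two_le
  have hcard : 2 ≤ Fintype.card {x : Fin 3 → K // MvPolynomial.eval x f = 0} := by
    refine hp2.trans (Nat.le_of_dvd ?_ hdvd)
    exact Fintype.card_pos_iff.2 ⟨⟨0, by rw [heval]; simp [q.Q_zero]⟩⟩
  obtain ⟨⟨x, hx⟩, hne⟩ := Fintype.exists_ne_of_one_lt_card (by omega : 1 < Fintype.card _)
    (⟨0, by rw [heval]; simp [q.Q_zero]⟩ : {x : Fin 3 → K // MvPolynomial.eval x f = 0})
  have hx0 : x ≠ 0 := fun h => hne (Subtype.ext h)
  refine ⟨x 0 • v 0 + x 1 • v 1 + x 2 • v 2, ?_, ?_, by rw [← heval, hx]⟩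
  · exact U.add_mem (U.add_mem (U.smul_mem _ (u 0).2) (U.smul_mem _ (u 1).2)) (U.smul_mem _ (u 2).2)
  · intro h0
    apply hx0
    have := Fintype.linearIndependent_iff.1 hv x (by rw [Fin.sum_univ_three]; exact h0)
    exact funext this

/-- A nondegenerate plane is universal. Consider on `V × K` the form `Q' (v, t) = Q v - κ t ^ 2` (with polar form
`h v v' - 2 κ t t'`) and the subspace `D × K` of dimension 3 : `sing_ex` gives `(v, t) ≠ 0`, `Q v = κ t ^ 2`.  If
`t ≠ 0`, take `t⁻¹ • v`.  If `t = 0`, then `v ∈ D` is singular and nonzero; with its partner `v'` (`partner`):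
`Q (κ • v + v') = κ`. -/
theorem univ2 [Finite K] [FiniteDimensional K V] {D : Submodule K V} (hD : q.ND D)
    (h2 : finrank K D = 2) (κ : K) : ∃ e ∈ D, q.Q e = κ := by
  let q' : QF K (V × K) :=
    { h := fun x =>
        { toFun := fun y => q.h x.1 y.1 - 2 * κ * x.2 * y.2
          map_add' := fun y z => by
            rw [Prod.fst_add, Prod.snd_add, map_add]
            ring
          map_smul' := fun c y => by
            rw [Prod.smul_fst, Prod.smul_snd, map_smul, smul_eq_mul, smul_eq_mul, smul_eq_mul,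
              RingHom.id_apply]
            ring }
      Q := fun x => q.Q x.1 - κ * x.2 ^ 2
      symm := fun x y => by
        show q.h y.1 x.1 - 2 * κ * y.2 * x.2 = q.h x.1 y.1 - 2 * κ * x.2 * y.2
        rw [q.symm x.1 y.1]
        ring
      add := fun x y => by
        show q.Q (x.1 + y.1) - κ * (x.2 + y.2) ^ 2 = q.Q x.1 - κ * x.2 ^ 2 + (q.Q y.1 - κ * y.2 ^ 2) +
          (q.h x.1 y.1 - 2 * κ * x.2 * y.2)
        rw [q.add]
        ring
      smul := fun c x => by
        show q.Q (c • x.1) - κ * (c * x.2) ^ 2 = c ^ 2 * (q.Q x.1 - κ * x.2 ^ 2)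
        rw [q.smul]
        ring }
  have hQ' : ∀ x : V × K, q'.Q x = q.Q x.1 - κ * x.2 ^ 2 := fun _ => rfl
  have h3 : 3 ≤ finrank K (D.prod (⊤ : Submodule K K)) := by
    let e : (D × K) →ₗ[K] (D.prod (⊤ : Submodule K K)) :=
      LinearMap.codRestrict _ (D.subtype.prodMap LinearMap.id) fun x =>
        Submodule.mem_prod.2 ⟨x.1.2, Submodule.mem_top⟩
    have he : Function.Injective e := by
      intro x y hxy
      have h5 : ((x.1 : V), x.2) = ((y.1 : V), y.2) := congrArg Subtype.val hxy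
      rw [Prod.mk.injEq] at h5
      exact Prod.ext (Subtype.ext h5.1) h5.2
    have h5 := LinearMap.finrank_le_finrank_of_injective he
    rwa [Module.finrank_prod, h2, finrank_self] at h5
  obtain ⟨⟨v, t⟩, hvt, hne, h0⟩ := sing_ex q' h3
  have hv : v ∈ D := (Submodule.mem_prod.1 hvt).1
  rw [hQ'] at h0
  have h0' : q.Q v = κ * t ^ 2 := sub_eq_zero.1 h0
  by_cases ht : t = 0
  · have hv0 : v ≠ 0 := by
      intro h
      apply hne
      rw [h, ht]
      rfl
    have hQv : q.Q v = 0 := by rw [h0', ht]; ring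
    obtain ⟨v', hv', hQv', hvv⟩ := partner q hD hv hQv hv0
    refine ⟨κ • v + v', D.add_mem (D.smul_mem _ hv) hv', ?_⟩
    rw [q.add, q.smul, hQv, hQv', q.smul_left, q.symm v' v, hvv]
    ring
  · refine ⟨t⁻¹ • v, D.smul_mem _ hv, ?_⟩
    rw [q.smul, h0']
    field_simp

/-- otherwise `Q = 0` on `D`, hence `h = 0` on `D` (polarization) and `D = 0` -/
theorem nonsing_ex {D : Submodule K V} (hD : q.ND D) (h : D ≠ ⊥) : ∃ e ∈ D, q.Q e ≠ 0 := by
  by_contra hcon
  push Not at hcon
  apply h
  rw [Submodule.eq_bot_iff]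
  intro x hx
  refine hD x hx fun y hy => ?_
  have h1 := q.add x y
  rw [hcon _ (D.add_mem hx hy), hcon _ hx, hcon _ hy] at h1
  linear_combination -h1

/-- Take the partner `w'` of `w`.  By `perp2_dec` it is enough to see that the vectors `r` of `perp2 U w w'` are
in the span: `r = (w - Q r • w' + r) - w + Q r • w'`, and `Q (w - Q r • w' + r) = 0`. -/
theorem span_sing (hU : q.ND U) {w : V} (hw : w ∈ U) (h0 : q.Q w = 0) (hn : w ≠ 0) {x : V}
    (hx : x ∈ U) : x ∈ Submodule.span K {u | u ∈ U ∧ q.Q u = 0} := by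
  obtain ⟨w', hw', hQ', hww⟩ := partner q hU hw h0 hn
  have hww' : q.h w w' = 1 := by rw [q.symm]; exact hww
  obtain ⟨s, t, hr⟩ := perp2_dec q hw hw' h0 hQ' (by rw [hww']; exact one_ne_zero) x hx
  set S := Submodule.span K {u | u ∈ U ∧ q.Q u = 0} with hS
  have hwS : w ∈ S := Submodule.subset_span ⟨hw, h0⟩
  have hwS' : w' ∈ S := Submodule.subset_span ⟨hw', hQ'⟩
  obtain ⟨r, hrdef⟩ : ∃ r, r = x - s • w - t • w' := ⟨_, rfl⟩
  rw [← hrdef] at hr
  obtain ⟨hrU, hr1, hr2⟩ := q.mem_perp2.1 hr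
  have hz : w - q.Q r • w' + r ∈ S := by
    refine Submodule.subset_span ⟨U.add_mem (U.sub_mem hw (U.smul_mem _ hw')) hrU, ?_⟩
    rw [q.add, q.Q_sub, q.smul, h0, hQ', map_smul, smul_eq_mul, hww', q.sub_left, q.smul_left, hr1,
      hr2]
    ring
  have hrS : r ∈ S := by
    have : r = (w - q.Q r • w' + r) - w + q.Q r • w' := by abel
    rw [this]
    exact S.add_mem (S.sub_mem hz hwS) (S.smul_mem _ hwS')
  have : x = r + s • w + t • w' := by rw [hrdef]; abel
  rw [this]
  exact S.add_mem (S.add_mem hrS (S.smul_mem _ hwS)) (S.smul_mem _ hwS')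

/-- If all singular vectors of `U` are eigenvectors of `G`, then `G` is a scalar on `U`.
Take `w ≠ 0` singular (`sing_ex`), its partner `w'` (`h w' w = 1`), `G w = l w`, `G w' = l' w'`, `l l' = 1`.  Let
`r ∈ R = perp2 U w w'`.  Then `G r ∈ R` (`h (G r) (G w) = 0` and `l ≠ 0`).  The vector `w - Q r • w' + r` is singular,
so it is mapped to `m` times itself, so `G r = m r`, `l = m` and `l' Q r = m Q r`.  So `G r = l r` for all `r ∈ R`;
there is `r ∈ R` with `Q r ≠ 0` (`nonsing_ex`, `R ≠ 0` as `finrank R = finrank U - 2`), so `l' = l`.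
Now `perp2_dec`. -/
theorem scal_of [Finite K] [FiniteDimensional K V] (hU : q.ND U) (h3 : 3 ≤ finrank K U)
    {G : V →ₗ[K] V} (hG : q.Iso U G) (h : ∀ w ∈ U, q.Q w = 0 → ∃ c : K, G w = c • w) :
    Scal U G := by
  obtain ⟨w, hw, hn, h0⟩ := sing_ex q h3
  obtain ⟨w', hw', hQ', hww⟩ := partner q hU hw h0 hn
  have hww' : q.h w w' = 1 := by rw [q.symm]; exact hww
  have hne : q.h w w' ≠ 0 := by rw [hww']; exact one_ne_zero
  obtain ⟨l, hl⟩ := h w hw h0
  obtain ⟨l', hl'⟩ := h w' hw' hQ'
  have hll : l * l' = 1 := by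
    have h1 := hG.h hw hw'
    rw [hl, hl', q.smul_left, map_smul, smul_eq_mul, hww', mul_one] at h1
    exact h1
  have hl0 : l ≠ 0 := left_ne_zero_of_mul_eq_one hll
  have hl0' : l' ≠ 0 := right_ne_zero_of_mul_eq_one hll
  have key : ∀ r ∈ q.perp2 U w w', G r = l • r ∧ l' * q.Q r = l * q.Q r := by
    intro r hr
    obtain ⟨hrU, hr1, hr2⟩ := q.mem_perp2.1 hr
    have hzU : w - q.Q r • w' + r ∈ U := U.add_mem (U.sub_mem hw (U.smul_mem _ hw')) hrU
    obtain ⟨m, hm⟩ := h (w - q.Q r • w' + r) hzU (by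
      rw [q.add, q.Q_sub, q.smul, h0, hQ', map_smul, smul_eq_mul, hww', q.sub_left, q.smul_left, hr1,
        hr2]
      ring)
    rw [map_add, map_sub, map_smul, hl, hl'] at hm
    have e1 : q.h w (G r) = 0 := by
      have h1 := hG.h hw hrU
      rw [hl, q.smul_left, hr1] at h1
      exact (mul_eq_zero.1 h1).resolve_left hl0
    have e2 : q.h w' (G r) = 0 := by
      have h1 := hG.h hw' hrU
      rw [hl', q.smul_left, hr2] at h1
      exact (mul_eq_zero.1 h1).resolve_left hl0'
    have e3 : l = m := by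
      have h1 := congrArg (q.h w') hm
      simp only [map_add, map_sub, map_smul, smul_eq_mul, hww, q.h_self_zero hQ', e2, hr2] at h1
      linear_combination h1
    have e4 : l' * q.Q r = m * q.Q r := by
      have h1 := congrArg (q.h w) hm
      simp only [map_add, map_sub, map_smul, smul_eq_mul, hww', q.h_self_zero h0, e1, hr1] at h1
      linear_combination -h1
    refine ⟨?_, by rw [e4, e3]⟩
    have h1 : q.Q r • l' • w' = m • q.Q r • w' := by rw [smul_smul, smul_smul, mul_comm, e4]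
    rw [smul_add, smul_sub, h1, ← e3] at hm
    exact add_left_cancel hm
  have hfr := perp2_finrank q hw hw' h0 hQ' hne
  have hR : q.perp2 U w w' ≠ ⊥ := by
    intro hb
    rw [hb, finrank_bot] at hfr
    omega
  obtain ⟨e, he, heQ⟩ := nonsing_ex q (perp2_ND q hU hw hw' h0 hQ' hne) hR
  have hlle : l' = l := mul_right_cancel₀ heQ (key e he).2
  refine ⟨l, fun x hx => ?_⟩
  obtain ⟨s, t, hr⟩ := perp2_dec q hw hw' h0 hQ' hne x hx
  have h1 := (key _ hr).1
  rw [map_sub, map_sub, map_smul, map_smul, hl, hl', hlle] at h1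
  have h2 : G x = l • (x - s • w - t • w') + t • l • w' + s • l • w := by rw [← h1]; abel
  rw [h2, smul_sub, smul_sub, smul_comm t l, smul_comm s l]
  abel

end ThQ
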