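import Pool.Agent.ThQ.BlkB
import Pool.Agent.ThQ.Sing

/-! # Module BlkC: the 6-dimensional block -/

namespace ThQ
open Matrix Module

variable {K V : Type*} [Field K] [AddCommGroup V] [Module K V] (q : QF K V)
variable {U : Submodule K V} {G : V →ₗ[K] V} {c : K} {w1 w2 : V}

/-- the block of the 6-dimensional exceptional isometries -/
def blk6 (c κ : K) : Matrix (Fin 2) (Fin 2) K := !![-(κ * (c + 1)), κ; -κ, -κ]

/-- `P = cmp4 q U G w1 w2` is a nondegenerate `G`-invariant plane; take `e ∈ P` with `Q e = κ` (`univ2`).  `e`, `G e` are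
independent: if `G e = l • e` then `l ^ 2 = 1` and `c κ = h e (G e) = 2 l κ`, so `c = ± 2`.  So they are a basis of `P`;
`Q (G e) = κ`, `h e (G e) = c κ`, `G (G e) = c • G e - e` (`exc_sq`).
The system: `w1`, `w2` and
`w1' = - G w2 - κ • w1 - (κ (c + 1)) • w2 + e`, `w2' = G w1 + κ • w1 - κ • w2 + G e`.
By `blk_h` (and `e`, `G e` orthogonal to the block) all conditions of `Hyp` are computed, e.g.
`Q w1' = - κ + κ = 0`, `Q w2' = - κ + κ = 0`, `h w1' w2' = κ - κ (c + 1) + c κ = 0`.
Entries: `h w1' (G w1) = - κ (c + 1)`, `h w1' (G w2) = κ`, `h w2' (G w1) = - κ`, `h w2' (G w2) = - κ`.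
`Dp = {p - h p e • w1 - h p (G e) • w2 | p ∈ P}`: for `x = α w1 + β w2 + γ G w1 + δ G w2 + p` (`blk_dec`), `x ⊥ w1, w2` gives
`γ = δ = 0` and `x ⊥ w1', w2'` gives `α = - h p e`, `β = - h p (G e)`.
Middle block `1` on the two basis vectors:
`p = e`: `x = e - (2 κ) • w1 - (c κ) • w2` satisfies `G (x + (1 + 2 κ) • w1 + (1 + c κ) • w2) = x + (- w1' + w2')`
(compute: the left side is `G e + G w1 + G w2`, and `w2' - w1' = G w1 + G w2 + (2 κ) • w1 + (c κ) • w2 + G e - e`);
`p = G e`: `x = G e - (c κ) • w1 - (2 κ) • w2` satisfies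
`G (x + (c - 1 + c κ) • w1 + (1 + 2 κ) • w2) = x + (- w1' + (c - 1) • w2')`
(the left side is `c • G e - e + (c - 1) • G w1 + G w2`). -/
theorem blk_six [Finite K] [FiniteDimensional K V] (hU : q.ND U) (hG : q.Iso U G)
    (hE : q.Exc U G c) (hb : Blk q U G w1 w2) (h6 : finrank K U = 6) (h2 : c ≠ 2) (h2' : c ≠ -2)
    {κ : K} (hκ : κ ≠ 0) : q.Sys1 U G (blk6 c κ) := by
  obtain ⟨a1, a2, a3, a4, a5, a6⟩ := blk_h q hG hE hb
  have b1 : q.h (G w1) w1 = 0 := by rw [q.symm, a1]
  have b2' : q.h (G w2) w1 = -1 := by rw [q.symm, a2]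
  have b3 : q.h (G w2) w2 = 0 := by rw [q.symm, a3]
  have b4 : q.h (G w2) (G w1) = 0 := by rw [q.symm, a4]
  have b5 : q.h w2 w1 = 0 := by rw [q.symm, hb.o]
  have b6 : q.h (G w1) w2 = 1 := by rw [q.symm, hb.d]
  have k1 := q.h_self_zero hb.s1
  have k2 := q.h_self_zero hb.s2
  have k3 := q.h_self_zero a5
  have k4 := q.h_self_zero a6
  have hGw1 := hG.1 _ hb.m1
  have hGw2 := hG.1 _ hb.m2
  have hd1 := hb.d
  have hd2 := hb.o
  have hfr := blk_finrank q hG hE hb
  have hCiso := blk_iso q hU hG hE hb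
  have hCND := blk_ND q hU hG hE hb
  have hCE : q.Exc (cmp4 q U G w1 w2) G c := blk_exc q hE
  have hC2 : finrank K (cmp4 q U G w1 w2) = 2 := by omega
  obtain ⟨e, he, heQ⟩ := univ2 q hCND hC2 κ
  have hGe := hCiso.1 e he
  obtain ⟨heU, e1, e2, e3, e4⟩ := (mem_cmp4 q).1 he
  obtain ⟨hGeU, f1, f2, f3, f4⟩ := (mem_cmp4 q).1 hGe
  have e1' : q.h e w1 = 0 := by rw [q.symm, e1]
  have e2' : q.h e w2 = 0 := by rw [q.symm, e2]
  have e3' : q.h e (G w1) = 0 := by rw [q.symm, e3]
  have e4' : q.h e (G w2) = 0 := by rw [q.symm, e4]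
  have f1' : q.h (G e) w1 = 0 := by rw [q.symm, f1]
  have f2' : q.h (G e) w2 = 0 := by rw [q.symm, f2]
  have f3' : q.h (G e) (G w1) = 0 := by rw [q.symm, f3]
  have f4' : q.h (G e) (G w2) = 0 := by rw [q.symm, f4]
  have g1 : q.h e (G e) = c * κ := by rw [hE e heU, heQ]
  have g1' : q.h (G e) e = c * κ := by rw [q.symm, g1]
  have g2 : q.Q (G e) = κ := by rw [hG.2 e heU, heQ]
  have g3 : q.h e e = 2 * κ := by rw [q.h_self, heQ]
  have g4 : q.h (G e) (G e) = 2 * κ := by rw [q.h_self, g2]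
  have hGGe : G (G e) = c • G e - e := exc_sq q hU hG hE heU
  -- independence
  have hind : ∀ s t : K, s • e + t • G e = 0 → s = 0 ∧ t = 0 := by
    intro s t hst
    have ht : t = 0 := by
      by_contra ht
      have h1 : G e = (-(t⁻¹ * s)) • e := by
        have h5 : t • G e = -(s • e) := by
          rw [eq_neg_iff_add_eq_zero, add_comm]
          exact hst
        calc G e = t⁻¹ • (t • G e) := by rw [smul_smul, inv_mul_cancel₀ ht, one_smul]
          _ = (-(t⁻¹ * s)) • e := by rw [h5, smul_neg, smul_smul, neg_smul]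
      set l := -(t⁻¹ * s) with hl
      have h6 : l ^ 2 = 1 := by
        rw [h1, q.smul, heQ] at g2
        exact mul_right_cancel₀ hκ (by rw [g2, one_mul])
      have h7 : c = 2 * l := by
        rw [h1, map_smul, smul_eq_mul, g3] at g1
        exact mul_right_cancel₀ hκ (by rw [← g1]; ring)
      have h9 : (l - 1) * (l + 1) = 0 := by linear_combination h6
      rcases mul_eq_zero.1 h9 with h8 | h8
      · exact h2 (by rw [h7, sub_eq_zero.1 h8, mul_one])
      · exact h2' (by rw [h7, eq_neg_of_add_eq_zero_left h8]; ring)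
    rw [ht, zero_smul, add_zero] at hst
    have he0 : e ≠ 0 := by
      intro h0
      rw [h0, q.Q_zero] at heQ
      exact hκ heQ.symm
    exact ⟨(smul_eq_zero.1 hst).resolve_right he0, ht⟩
  have hspan : ∀ p ∈ cmp4 q U G w1 w2, ∃ s t : K, p = s • e + t • G e := by
    intro p hp
    have hli : LinearIndependent K ![(⟨e, he⟩ : cmp4 q U G w1 w2), ⟨G e, hGe⟩] := by
      rw [LinearIndependent.pair_iff]
      intro s t hst
      exact hind s t (by simpa using congrArg Subtype.val hst)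
    have htop : Submodule.span K (Set.range ![(⟨e, he⟩ : cmp4 q U G w1 w2), ⟨G e, hGe⟩]) = ⊤ :=
      hli.span_eq_top_of_card_eq_finrank (by rw [Fintype.card_fin, hC2])
    have hp' : (⟨p, hp⟩ : cmp4 q U G w1 w2) ∈
        Submodule.span K (Set.range ![(⟨e, he⟩ : cmp4 q U G w1 w2), ⟨G e, hGe⟩]) := by
      rw [htop]; exact Submodule.mem_top
    rw [Matrix.range_cons, Matrix.range_cons, Matrix.range_empty, Set.union_empty,
      Set.singleton_union, Submodule.mem_span_pair] at hp'
    obtain ⟨s, t, hst⟩ := hp'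
    exact ⟨s, t, (congrArg Subtype.val hst).symm⟩
  obtain ⟨x1, hx1⟩ : ∃ x, x = -G w2 - κ • w1 - (κ * (c + 1)) • w2 + e := ⟨_, rfl⟩
  obtain ⟨x2, hx2⟩ : ∃ x, x = G w1 + κ • w1 - κ • w2 + G e := ⟨_, rfl⟩
  have hx1U : x1 ∈ U := by
    rw [hx1]
    exact U.add_mem (U.sub_mem (U.sub_mem (U.neg_mem hGw2) (U.smul_mem _ hb.m1))
      (U.smul_mem _ hb.m2)) heU
  have hx2U : x2 ∈ U := by
    rw [hx2]
    exact U.add_mem (U.sub_mem (U.add_mem hGw1 (U.smul_mem _ hb.m1)) (U.smul_mem _ hb.m2)) hGeU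
  have hQ1 : q.Q x1 = 0 := by
    rw [hx1]
    simp only [q.add, q.Q_sub, q.Q_neg, q.smul, map_add, map_sub, map_neg, map_smul, smul_eq_mul,
      q.add_left, q.sub_left, q.neg_left, q.smul_left, hb.s1, hb.s2, a6, heQ, b2', b3, hd2, e1, e2,
      e4]
    ring
  have hQ2 : q.Q x2 = 0 := by
    rw [hx2]
    simp only [q.add, q.Q_sub, q.Q_neg, q.smul, map_add, map_sub, map_neg, map_smul, smul_eq_mul,
      q.add_left, q.sub_left, q.neg_left, q.smul_left, hb.s1, hb.s2, a5, g2, b1, b6, hd2, f1, f2,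
      f3]
    ring
  have h12 : q.h x1 x2 = 0 := by
    rw [hx1, hx2]
    simp only [map_add, map_sub, map_neg, map_smul, smul_eq_mul,
      q.add_left, q.sub_left, q.neg_left, q.smul_left, b1, b2', b3, b4, b5, b6, a1, a2, a3, a4, k1,
      k2, k3, k4, hd1, hd2, e1, e2, e3, e4, e1', e2', e3', e4', f1, f2, f3, f4, f1', f2', f3', f4',
      g1, g1']
    ring
  have d11 : q.h x1 w1 = 1 := by
    rw [hx1]
    simp only [q.add_left, q.sub_left, q.neg_left, q.smul_left, b2', k1, b5, e1']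
    ring
  have d12 : q.h x1 w2 = 0 := by
    rw [hx1]
    simp only [q.add_left, q.sub_left, q.neg_left, q.smul_left, b3, hd2, k2, e2']
    ring
  have d21 : q.h x2 w1 = 0 := by
    rw [hx2]
    simp only [q.add_left, q.sub_left, q.neg_left, q.smul_left, b1, k1, b5, f1']
    ring
  have d22 : q.h x2 w2 = 1 := by
    rw [hx2]
    simp only [q.add_left, q.sub_left, q.neg_left, q.smul_left, b6, hd2, k2, f2']
    ring
  refine ⟨![w1, w2], ![x1, x2], ⟨?_, ?_, ?_, ?_, ?_, ?_, ?_⟩, ?_, ?_⟩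
  · intro i
    fin_cases i
    · exact hb.m1
    · exact hb.m2
  · intro i
    fin_cases i
    · exact hx1U
    · exact hx2U
  · intro i
    fin_cases i
    · exact hb.s1
    · exact hb.s2
  · intro i
    fin_cases i
    · exact hQ1
    · exact hQ2
  · intro i j
    fin_cases i <;> fin_cases j
    · exact k1
    · exact hd2
    · exact b5
    · exact k2
  · intro i j
    fin_cases i <;> fin_cases j
    · exact q.h_self_zero hQ1
    · exact h12
    · show q.h x2 x1 = 0
      rw [q.symm]; exact h12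
    · exact q.h_self_zero hQ2
  · intro i j
    fin_cases i <;> fin_cases j
    · exact d11
    · exact d12
    · exact d21
    · exact d22
  · intro i j
    fin_cases i <;> fin_cases j
    · show q.h x1 (G w1) = -(κ * (c + 1))
      rw [hx1]
      simp only [q.add_left, q.sub_left, q.neg_left, q.smul_left, b4, a1, hd1, e3']
      ring
    · show q.h x1 (G w2) = κ
      rw [hx1]
      simp only [q.add_left, q.sub_left, q.neg_left, q.smul_left, k4, a2, a3, e4']
      ring
    · show q.h x2 (G w1) = -κ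
      rw [hx2]
      simp only [q.add_left, q.sub_left, q.neg_left, q.smul_left, k3, a1, hd1, f3']
      ring
    · show q.h x2 (G w2) = -κ
      rw [hx2]
      simp only [q.add_left, q.sub_left, q.neg_left, q.smul_left, a4, a2, a3, f4']
      ring
  · intro x hx
    refine ⟨hx, ?_⟩
    obtain ⟨hxU, hxx⟩ := q.mem_Dp.1 hx
    have u1 : q.h w1 x = 0 := (hxx 0).1
    have u2 : q.h w2 x = 0 := (hxx 1).1
    have u3 : q.h x1 x = 0 := (hxx 0).2
    have u4 : q.h x2 x = 0 := (hxx 1).2
    have hdec := blk_dec q hG hE hb hxU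
    obtain ⟨s, t, hst⟩ := hspan _ hdec
    rw [u1, u2] at hst
    have hxe : x = (-q.h (G w2) x) • w1 + q.h (G w1) x • w2 + (s • e + t • G e) := by
      rw [← hst]; simp
    obtain ⟨α, hα⟩ : ∃ α, α = -q.h (G w2) x := ⟨_, rfl⟩
    obtain ⟨β, hβ⟩ : ∃ β, β = q.h (G w1) x := ⟨_, rfl⟩
    rw [← hα, ← hβ] at hxe
    have hα2 : α = -(2 * κ * s + c * κ * t) := by
      rw [hx1] at u3
      simp only [q.add_left, q.sub_left, q.neg_left, q.smul_left, u1, u2] at u3
      rw [← hα] at u3
      have : q.h e x = 2 * κ * s + c * κ * t := by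
        rw [hxe]
        simp only [map_add, map_smul, smul_eq_mul, e1', e2', g3, g1]
        ring
      rw [this] at u3
      linear_combination u3
    have hβ2 : β = -(c * κ * s + 2 * κ * t) := by
      rw [hx2] at u4
      simp only [q.add_left, q.sub_left, q.neg_left, q.smul_left, u1, u2] at u4
      rw [← hβ] at u4
      have : q.h (G e) x = c * κ * s + 2 * κ * t := by
        rw [hxe]
        simp only [map_add, map_smul, smul_eq_mul, f1', f2', g4, g1']
        ring
      rw [this] at u4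
      linear_combination u4
    refine ⟨(s * (1 + 2 * κ) + t * (c - 1 + c * κ)) • w1 + (s * (1 + c * κ) + t * (1 + 2 * κ)) • w2,
      Submodule.add_mem _ (Submodule.smul_mem _ _ (Submodule.subset_span ⟨0, rfl⟩))
        (Submodule.smul_mem _ _ (Submodule.subset_span ⟨1, rfl⟩)),
      (-s - t) • x1 + (s + t * (c - 1)) • x2,
      Submodule.add_mem _ (Submodule.smul_mem _ _ (Submodule.subset_span ⟨0, rfl⟩))
        (Submodule.smul_mem _ _ (Submodule.subset_span ⟨1, rfl⟩)), ?_⟩
    rw [LinearMap.id_apply, hxe, hα2, hβ2, hx1, hx2]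
    simp only [map_add, map_smul, hGGe]
    module

end ThQ
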