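import Pool.Agent.ThQ.BlkB
import Pool.Agent.ThQ.Sing

/-! # Module ExcP: exceptional isometries are even -/

namespace ThQ
open Module

variable {K V : Type*} [Field K] [AddCommGroup V] [Module K V] (q : QF K V)

/-- An exceptional isometry of `U ≠ 0` is not a reflection on `U`: if `G x = refl f x` for all `x ∈ U`, `f ∈ U`, then
`2 Q x - (h f x) ^ 2 / Q f = c Q x` for all `x ∈ U`; `x = f` gives `c = -2`, so `4 Q x Q f = (h f x) ^ 2`.  There is
`x ∈ U`, `x ≠ 0`, orthogonal to `f` (finrank at least 2).  If `char K ≠ 2`: such an `x` is singular, so every vector of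
`U` orthogonal to `f` is singular, and `x` is orthogonal to all these and to `f`, hence to `U` (`f` is not singular):
contradiction.  If `char K = 2`: `h f x = 0` for all `x ∈ U`, contradiction. -/
theorem exc_not_refl [FiniteDimensional K V] {U : Submodule K V} {G : V →ₗ[K] V} {c : K}
    (hU : q.ND U) (h2 : 2 ≤ finrank K U) (hG : q.Iso U G) (hE : q.Exc U G c) : rk U G ≠ 1 := by
  intro h1
  obtain ⟨f, hf, hQf, hfG⟩ := rk_one_refl q hU hG h1
  have key : ∀ x ∈ U, 2 * q.Q x - (q.h f x) ^ 2 * (q.Q f)⁻¹ = c * q.Q x := by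
    intro x hx
    have e1 := hE x hx
    rw [hfG x hx, q.refl_apply, map_sub, map_smul, q.h_self, smul_eq_mul, q.symm f x] at e1
    rw [← e1]
    ring
  have hc : c = -2 := by
    have e1 := key f hf
    rw [q.h_self] at e1
    have e2 : (2 * q.Q f) ^ 2 * (q.Q f)⁻¹ = 4 * q.Q f := by
      field_simp
      ring
    rw [e2] at e1
    have e3 : c * q.Q f = -2 * q.Q f := by rw [← e1]; ring
    exact mul_right_cancel₀ hQf e3
  have key2 : ∀ x ∈ U, 4 * q.Q x * q.Q f = (q.h f x) ^ 2 := by
    intro x hx
    have e1 := key x hx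
    rw [hc] at e1
    have e2 : (q.h f x) ^ 2 * (q.Q f)⁻¹ = 4 * q.Q x := by linear_combination -e1
    rw [← e2, mul_assoc, inv_mul_cancel₀ hQf, mul_one]
  by_cases h20 : (2 : K) = 0
  · have hall : ∀ x ∈ U, q.h f x = 0 := by
      intro x hx
      have e1 := key2 x hx
      have e2 : (4 : K) = 0 := by
        have : (4 : K) = 2 * 2 := by norm_num
        rw [this, h20, zero_mul]
      rw [e2, zero_mul, zero_mul] at e1
      exact pow_eq_zero_iff (two_ne_zero) |>.1 e1.symm
    have := hU f hf hall
    rw [this, q.Q_zero] at hQf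
    exact hQf rfl
  · have h40 : (4 : K) ≠ 0 := by
      have : (4 : K) = 2 * 2 := by norm_num
      rw [this]
      exact mul_ne_zero h20 h20
    -- a vector orthogonal to `f`
    obtain ⟨x, hx, hx0, hfx⟩ : ∃ x ∈ U, x ≠ 0 ∧ q.h f x = 0 := by
      have hker : LinearMap.ker ((q.h f).domRestrict U) ≠ ⊥ := by
        apply LinearMap.ker_ne_bot_of_finrank_lt
        rw [finrank_self]
        omega
      obtain ⟨x, hx, hx0⟩ := Submodule.exists_mem_ne_zero_of_ne_bot hker
      refine ⟨x.1, x.2, fun h0 => hx0 (Subtype.ext h0), ?_⟩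
      have := LinearMap.mem_ker.1 hx
      simpa using this
    have hsing : ∀ y ∈ U, q.h f y = 0 → q.Q y = 0 := by
      intro y hy hfy
      have e1 := key2 y hy
      rw [hfy, zero_pow two_ne_zero] at e1
      have e2 := (mul_eq_zero.1 e1).resolve_right hQf
      exact (mul_eq_zero.1 e2).resolve_left h40
    apply hx0
    apply hU x hx
    intro u hu
    have hff : q.h f f ≠ 0 := by
      rw [q.h_self]
      exact mul_ne_zero h20 hQf
    have hu' : u - (q.h f u / q.h f f) • f ∈ U := U.sub_mem hu (U.smul_mem _ hf)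
    have hfu' : q.h f (u - (q.h f u / q.h f f) • f) = 0 := by
      rw [map_sub, map_smul, smul_eq_mul, div_mul_cancel₀ _ hff, sub_self]
    have e1 := q.add x (u - (q.h f u / q.h f f) • f)
    rw [hsing _ (U.add_mem hx hu') (by rw [map_add, hfx, hfu', add_zero]), hsing _ hx hfx,
      hsing _ hu' hfu', zero_add, zero_add, map_sub, map_smul, q.symm f x, hfx, smul_zero,
      sub_zero] at e1
    exact e1.symm

private theorem ExcP_rk_zero {U : Submodule K V} {G : V →ₗ[K] V} (h : ∀ x ∈ U, G x = x) :
    rk U G = 0 := by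
  have e : U.map (G - LinearMap.id) = ⊥ := by
    rw [eq_bot_iff]
    rintro _ ⟨x, hx, rfl⟩
    simp [h x hx]
  rw [rk, e, finrank_bot]

private theorem ExcP_rk_full [FiniteDimensional K V] {U : Submodule K V} {G : V →ₗ[K] V}
    (h : ∀ x ∈ U, G x = x → x = 0) : rk U G = finrank K U := by
  have e : (U ⊓ LinearMap.ker (G - LinearMap.id) : Submodule K V) = ⊥ := by
    rw [eq_bot_iff]
    rintro x ⟨hx, hx'⟩
    have h1 : G x - x = 0 := by simpa using hx'
    exact h x hx (sub_eq_zero.1 h1)
  have h2 := rk_ker (U := U) (G := G)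
  rw [e, finrank_bot] at h2
  omega

/-- Strong induction on `n`.  If `c ≠ 2` then `G - 1` is injective on `U` (`(G - 1) ^ 2 = (c - 2) G` by `exc_sq`) and
`rk U G = finrank U`.  Let `c = 2`, so `(G - 1) ^ 2 = 0` on `U`.  `n = 0`: clear.  `n = 1`: `rk U G ≤ 2`, it is not `1`
(`exc_not_refl`).  `n ≥ 2`: if `G` is a scalar on `U`, the rank is `0` or `2 n`.  Otherwise there is a singular
`w1 ∈ U` with `G w1 ≠ t • w1` for all `t` (`scal_of`), `w2` by `blk_ex`, and `blk_par`, `blk_finrank`, `blk_ND`,
`blk_iso`, `blk_exc`. -/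
theorem par_exc [Finite K] [FiniteDimensional K V] (n : ℕ) (U : Submodule K V) (G : V →ₗ[K] V)
    (c : K) (hU : q.ND U) (hf : finrank K U = 2 * n) (hG : q.Iso U G) (hE : q.Exc U G c) :
    rk U G % 2 = 0 := by
  induction n using Nat.strong_induction_on generalizing U with
  | _ n ih =>
    by_cases hc : c = 2
    · subst hc
      rcases Nat.lt_or_ge n 2 with hn | hn
      · have h1 := rk_le (U := U) (G := G)
        rcases Nat.eq_zero_or_pos n with h0 | h0
        · rw [hf, h0] at h1
          omega
        · have h2 : n = 1 := by omega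
          have h3 := exc_not_refl q hU (by omega) hG hE
          rw [hf, h2] at h1
          omega
      · by_cases hs : Scal U G
        · obtain ⟨t, ht⟩ := hs
          by_cases ht1 : t = 1
          · rw [ExcP_rk_zero (fun x hx => by rw [ht x hx, ht1, one_smul])]
          · rw [ExcP_rk_full (fun x hx hxx => ?_), hf]
            · omega
            · rw [ht x hx] at hxx
              have h1 : (t - 1) • x = 0 := by rw [sub_smul, one_smul, hxx, sub_self]
              exact (smul_eq_zero.1 h1).resolve_left (sub_ne_zero.2 ht1)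
        · obtain ⟨w1, hw1, h0, hne⟩ : ∃ w ∈ U, q.Q w = 0 ∧ ∀ t : K, G w ≠ t • w := by
            by_contra hcon
            push Not at hcon
            exact hs (scal_of q hU (by omega) hG hcon)
          obtain ⟨w2, hb⟩ := blk_ex q hU hG hE hw1 h0 hne
          have h1 := blk_finrank q hG hE hb
          rw [blk_par q hU hG hE hb]
          exact ih (n - 2) (by omega) _ (blk_ND q hU hG hE hb) (by omega)
            (blk_iso q hU hG hE hb) (blk_exc q hE)
    · rw [ExcP_rk_full (fun x hx hxx => ?_), hf]
      · omega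
      · have h1 := exc_sq q hU hG hE hx
        rw [hxx, hxx] at h1
        have h2 : (c - 2) • x = 0 := by
          rw [sub_smul, two_smul]
          nth_rewrite 2 [h1]
          abel
        exact (smul_eq_zero.1 h2).resolve_left (sub_ne_zero.2 hc)

/-- An exceptional isometry of a plane with `c = 2` is the identity: `(G - 1) ^ 2 = 0`, so the rank of `G - 1` is not
`2`; it is even by `par_exc`. -/
theorem exc_plane [Finite K] [FiniteDimensional K V] {U : Submodule K V} {G : V →ₗ[K] V}
    (hU : q.ND U) (hf : finrank K U = 2) (hG : q.Iso U G) (hE : q.Exc U G 2) {x : V} (hx : x ∈ U) :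
    G x = x := by
  have h1 := par_exc q 1 U G 2 hU (by omega) hG hE
  have h2 := rk_le (U := U) (G := G)
  have h3 : rk U G = 0 := by
    rcases Nat.lt_or_ge (rk U G) 2 with h | h
    · omega
    · exfalso
      have h4 := rk_ker (U := U) (G := G)
      have h5 : finrank K (U ⊓ LinearMap.ker (G - LinearMap.id) : Submodule K V) = 0 := by omega
      rw [Submodule.finrank_eq_zero] at h5
      have h6 : ∀ y ∈ U, G y = y := by
        intro y hy
        have h7 := exc_sq q hU hG hE hy
        have h8 : G y - y ∈ (U ⊓ LinearMap.ker (G - LinearMap.id) : Submodule K V) := by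
          refine ⟨U.sub_mem (hG.1 y hy) hy, ?_⟩
          rw [SetLike.mem_coe, LinearMap.mem_ker, LinearMap.sub_apply, LinearMap.id_apply, map_sub,
            h7, two_smul]
          abel
        rw [h5, Submodule.mem_bot] at h8
        exact sub_eq_zero.1 h8
      have h7 := ExcP_rk_zero h6
      omega
  have h4 : U.map (G - LinearMap.id) = ⊥ := by
    rw [rk, Submodule.finrank_eq_zero] at h3
    exact h3
  have h5 : (G - LinearMap.id : V →ₗ[K] V) x ∈ U.map (G - LinearMap.id) := ⟨x, hx, rfl⟩
  rw [h4, Submodule.mem_bot, LinearMap.sub_apply, LinearMap.id_apply] at h5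
  exact sub_eq_zero.1 h5

end ThQ
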