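import Pool.Agent.ThQ.TriEx
import Pool.Agent.ThQ.ExcP
import Pool.Agent.ThQ.BlkC

/-! # Module AltC: exceptional isometries -/

namespace ThQ
open Matrix Module

variable {K V : Type*} [Field K] [AddCommGroup V] [Module K V] (q : QF K V)

private theorem exists_w1 [Finite K] [FiniteDimensional K V] {U : Submodule K V} {G : V →ₗ[K] V}
    (hU : q.ND U) (h3 : 3 ≤ finrank K U) (hG : q.Iso U G) (hn : ¬ Scal U G) :
    ∃ w ∈ U, q.Q w = 0 ∧ ∀ t : K, G w ≠ t • w := by
  by_contra h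
  apply hn
  refine scal_of q hU h3 hG fun w hw h0 => ?_
  by_contra h'
  exact h ⟨w, hw, h0, fun t ht => h' ⟨t, ht⟩⟩

private theorem ne_bot_of {U : Submodule K V} (h3 : 0 < finrank K U) : U ≠ ⊥ := by
  rintro rfl
  rw [finrank_bot] at h3
  exact absurd h3 (lt_irrefl _)

private theorem not_scal [FiniteDimensional K V] {U : Submodule K V} {G : V →ₗ[K] V} {c : K}
    (h2 : c ≠ 2) (h2' : c ≠ -2) (hU : q.ND U) (h3 : 0 < finrank K U) (hG : q.Iso U G)
    (hE : q.Exc U G c) : ¬ Scal U G := by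
  rintro ⟨l, hl⟩
  obtain ⟨h1, h4⟩ := exc_scal q hU (ne_bot_of h3) hG hE hl
  have h5 : (l - 1) * (l + 1) = 0 := by linear_combination h1
  rcases mul_eq_zero.mp h5 with h | h
  · apply h2
    rw [h4, sub_eq_zero.mp h, mul_one]
  · apply h2'
    rw [h4, eq_neg_of_add_eq_zero_left h]
    ring

private theorem blocks_reindex {m n : ℕ} (h : 2 + m = n) {U : Submodule K V} {G : V →ₗ[K] V}
    (hs : q.Sys1 U G (fromBlocks 1 0 0 1 : Matrix (Fin 2 ⊕ Fin m) (Fin 2 ⊕ Fin m) K)) :
    q.Sys1 U G (1 : Matrix (Fin n) (Fin n) K) := by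
  have h1 := sys1_reindex q (finSumFinEquiv.trans (finCongr h)) hs
  rw [fromBlocks_one, reindex_apply, submatrix_one_equiv] at h1
  exact h1

/-- Strong induction on `n`.  If `G x = x` for all `x ∈ U`: any hyperbolic system (`hyp_ex`).  Otherwise: `n ≠ 0` (`exc_plane`), `G` is
not a scalar on `U` (`exc_scal`: `2 = 2 l`, `l ^ 2 = 1`, so `(l - 1) ^ 2 = 0`), so there is a singular `w1` with
`G w1 ≠ t • w1` (`scal_of`) and a block (`blk_ex`).  `n = 1`: `blk_base`.  `n ≥ 2`: the induction hypothesis for `cmp4`,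
`blk_sys1`, `sys1_reindex` (`fromBlocks 1 0 0 1 = 1`). -/
theorem exc_two [Finite K] [FiniteDimensional K V] (n : ℕ) (U : Submodule K V) (G : V →ₗ[K] V)
    (hU : q.ND U) (hf : finrank K U = 2 * n + 2) (hG : q.Iso U G) (hE : q.Exc U G 2) :
    q.Sys1 U G (1 : Matrix (Fin n) (Fin n) K) := by
  induction n using Nat.strong_induction_on generalizing U G with
  | _ n ih =>
    by_cases h1 : ∀ x ∈ U, G x = x
    · obtain ⟨w, w', hw⟩ := hyp_ex q hU hf
      refine ⟨w, w', hw, ?_, ?_⟩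
      · intro i j
        rw [h1 _ (hw.mem j), hw.dual, Matrix.one_apply]
      · intro x hx
        refine ⟨hx, 0, Submodule.zero_mem _, 0, Submodule.zero_mem _, ?_⟩
        rw [add_zero, add_zero, h1 x ((q.mem_Dp).1 hx).1]
        rfl
    · have hn : n ≠ 0 := by
        rintro rfl
        exact h1 fun x hx => exc_plane q hU hf hG hE hx
      have hns : ¬ Scal U G := by
        rintro ⟨l, hl⟩
        obtain ⟨h3, h4⟩ := exc_scal q hU (ne_bot_of (by omega)) hG hE hl
        have h5 : (l - 1) ^ 2 = 0 := by linear_combination h3 + h4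
        have h6 : l = 1 := sub_eq_zero.mp (pow_eq_zero_iff two_ne_zero |>.mp h5)
        apply h1
        intro x hx
        rw [hl x hx, h6, one_smul]
      obtain ⟨w1, hw1, h0, hne⟩ := exists_w1 q hU (by omega) hG hns
      obtain ⟨w2, hb⟩ := blk_ex q hU hG hE hw1 h0 hne
      have hfr := blk_finrank q hG hE hb
      rcases n with _ | _ | n
      · exact absurd rfl hn
      · exact blk_base q hU hG hE hb hf
      · have h3 := ih n (by omega) (cmp4 q U G w1 w2) G (blk_ND q hU hG hE hb) (by omega)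
          (blk_iso q hU hG hE hb) (blk_exc q hE)
        exact blocks_reindex q (by omega) (blk_sys1 q hU hG hE hb h3)

/-- Induction on `j`.  `G` is not a scalar on `U` (`exc_scal`: `c = 2 l`, `l ^ 2 = 1`, so `c = ± 2`), so there is a singular `w1` with
`G w1 ≠ t • w1` (`scal_of`) and a block (`blk_ex`).  `j = 0`: `blk_base`.  `j ≥ 1`: the induction hypothesis for `cmp4`,
`blk_sys1`, `sys1_reindex`. -/
theorem exc_four [Finite K] [FiniteDimensional K V] (j : ℕ) (U : Submodule K V) (G : V →ₗ[K] V)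
    {c : K} (h2 : c ≠ 2) (h2' : c ≠ -2) (hU : q.ND U) (hf : finrank K U = 4 * j + 4)
    (hG : q.Iso U G) (hE : q.Exc U G c) : q.Sys1 U G (1 : Matrix (Fin (2 * j + 1)) (Fin (2 * j + 1)) K) := by
  induction j generalizing U G with
  | zero =>
    obtain ⟨w1, hw1, h0, hne⟩ := exists_w1 q hU (by omega) hG
      (not_scal q h2 h2' hU (by omega) hG hE)
    obtain ⟨w2, hb⟩ := blk_ex q hU hG hE hw1 h0 hne
    exact blk_base q hU hG hE hb hf
  | succ j ih =>
    obtain ⟨w1, hw1, h0, hne⟩ := exists_w1 q hU (by omega) hG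
      (not_scal q h2 h2' hU (by omega) hG hE)
    obtain ⟨w2, hb⟩ := blk_ex q hU hG hE hw1 h0 hne
    have hfr := blk_finrank q hG hE hb
    have h3 := ih (cmp4 q U G w1 w2) G (blk_ND q hU hG hE hb) (by omega)
      (blk_iso q hU hG hE hb) (blk_exc q hE)
    exact blocks_reindex q (by omega) (blk_sys1 q hU hG hE hb h3)

/-- Induction on `j`, as `exc_four`.  `j = 0`: `blk_six` and `sys1_reindex` (`Fin 2 ≃ Fin 2 ⊕ Fin 0`).  `j ≥ 1`:
`blk_sys1` gives the block matrix `1 ⊕ (blk6 ⊕ 1)` on `Fin 2 ⊕ (Fin 2 ⊕ Fin (2 * j'))`; reindex by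
`Fin 2 ⊕ (Fin 2 ⊕ Fin (2 j')) ≃ Fin 2 ⊕ (Fin 2 ⊕ Fin (2 j')) ≃ Fin 2 ⊕ Fin (2 (j' + 1))` (exchange the first two
summands, then `finSumFinEquiv` on the last two). -/
theorem exc_six [Finite K] [FiniteDimensional K V] (j : ℕ) (U : Submodule K V) (G : V →ₗ[K] V)
    {c κ : K} (h2 : c ≠ 2) (h2' : c ≠ -2) (hκ : κ ≠ 0) (hU : q.ND U)
    (hf : finrank K U = 4 * j + 6) (hG : q.Iso U G) (hE : q.Exc U G c) :
    q.Sys1 U G (fromBlocks (blk6 c κ) 0 0 1 : Matrix (Fin 2 ⊕ Fin (2 * j)) (Fin 2 ⊕ Fin (2 * j)) K) := by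
  induction j generalizing U G with
  | zero =>
    obtain ⟨w1, hw1, h0, hne⟩ := exists_w1 q hU (by omega) hG
      (not_scal q h2 h2' hU (by omega) hG hE)
    obtain ⟨w2, hb⟩ := blk_ex q hU hG hE hw1 h0 hne
    have h3 := blk_six q hU hG hE hb hf h2 h2' hκ
    have : IsEmpty (Fin (2 * 0)) := by
      rw [mul_zero]
      infer_instance
    have h4 := sys1_reindex q (Equiv.sumEmpty (Fin 2) (Fin (2 * 0))).symm h3
    convert h4 using 1
    ext (x | x) (y | y)
    · rfl
    · exact isEmptyElim y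
    · exact isEmptyElim x
    · exact isEmptyElim x
  | succ j ih =>
    obtain ⟨w1, hw1, h0, hne⟩ := exists_w1 q hU (by omega) hG
      (not_scal q h2 h2' hU (by omega) hG hE)
    obtain ⟨w2, hb⟩ := blk_ex q hU hG hE hw1 h0 hne
    have hfr := blk_finrank q hG hE hb
    have h3 := ih (cmp4 q U G w1 w2) G (blk_ND q hU hG hE hb) (by omega)
      (blk_iso q hU hG hE hb) (blk_exc q hE)
    have h4 := blk_sys1 q hU hG hE hb h3
    let φ : Fin 2 ⊕ Fin (2 * j) ≃ Fin (2 * (j + 1)) := finSumFinEquiv.trans (finCongr (by omega))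
    let e : Fin 2 ⊕ (Fin 2 ⊕ Fin (2 * j)) ≃ Fin 2 ⊕ Fin (2 * (j + 1)) :=
      (Equiv.sumAssoc (Fin 2) (Fin 2) (Fin (2 * j))).symm.trans
        ((Equiv.sumCongr (Equiv.sumComm _ _) (Equiv.refl _)).trans
          ((Equiv.sumAssoc _ _ _).trans (Equiv.sumCongr (Equiv.refl _) φ)))
    have h5 := sys1_reindex q e h4
    have h6 : (fromBlocks (1 : Matrix (Fin 2) (Fin 2) K) 0 0 (fromBlocks (blk6 c κ) 0 0
        (1 : Matrix (Fin (2 * j)) (Fin (2 * j)) K))) =
        (fromBlocks (blk6 c κ) 0 0 (1 : Matrix (Fin (2 * (j + 1))) (Fin (2 * (j + 1))) K)).submatrix e e := by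
      have e1 : ∀ x, e (Sum.inl x) = Sum.inr (φ (Sum.inl x)) := fun x => rfl
      have e2 : ∀ x, e (Sum.inr (Sum.inl x)) = Sum.inl x := fun x => rfl
      have e3 : ∀ x, e (Sum.inr (Sum.inr x)) = Sum.inr (φ (Sum.inr x)) := fun x => rfl
      ext (x | x | x) (y | y | y)
      · rw [submatrix_apply, e1, e1, fromBlocks_apply₁₁, fromBlocks_apply₂₂, one_apply, one_apply]
        simp only [EmbeddingLike.apply_eq_iff_eq, Sum.inl.injEq]
      · rw [submatrix_apply, e1, e2, fromBlocks_apply₁₂, fromBlocks_apply₂₁]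
        rfl
      · rw [submatrix_apply, e1, e3, fromBlocks_apply₁₂, fromBlocks_apply₂₂, one_apply_ne]
        · rfl
        · intro h
          exact Sum.inl_ne_inr (φ.injective h)
      · rw [submatrix_apply, e2, e1, fromBlocks_apply₂₁, fromBlocks_apply₁₂]
        rfl
      · rw [submatrix_apply, e2, e2, fromBlocks_apply₂₂, fromBlocks_apply₁₁, fromBlocks_apply₁₁]
      · rw [submatrix_apply, e2, e3, fromBlocks_apply₂₂, fromBlocks_apply₁₂, fromBlocks_apply₁₂]
        rfl
      · rw [submatrix_apply, e3, e1, fromBlocks_apply₂₁, fromBlocks_apply₂₂, one_apply_ne]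
        · rfl
        · intro h
          exact Sum.inr_ne_inl (φ.injective h)
      · rw [submatrix_apply, e3, e2, fromBlocks_apply₂₂, fromBlocks_apply₂₁, fromBlocks_apply₂₁]
        rfl
      · rw [submatrix_apply, e3, e3, fromBlocks_apply₂₂, fromBlocks_apply₂₂, fromBlocks_apply₂₂, one_apply,
          one_apply]
        simp only [EmbeddingLike.apply_eq_iff_eq, Sum.inr.injEq]
    rw [h6, reindex_apply, submatrix_submatrix] at h5
    have h7 : (e ∘ e.symm : _ → _) = id := by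
      funext x
      exact e.apply_symm_apply x
    rw [h7, submatrix_id_id] at h5
    exact h5

end ThQ
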