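import Pool.Agent.ThU.SeedB

/-! # Module Fac2: factorization for the block `a2 ⊕ 1` -/

namespace ThQ
open Matrix Polynomial Module

variable {K : Type*} [Field K]

/-- unit vectors -/
private def Fac2_E (K : Type*) [Field K] (k j : ℕ) : Fin k → K := fun i => if (i : ℕ) = j then 1 else 0

private theorem Fac2_col {k : ℕ} (M : Matrix (Fin k) (Fin k) K) (j : ℕ) (hj : j < k) (i : Fin k) :
    (M *ᵥ Fac2_E K k j) i = M i ⟨j, hj⟩ := by
  rw [Matrix.mulVec, dotProduct, Finset.sum_eq_single ⟨j, hj⟩]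
  · simp [Fac2_E]
  · intro l _ hl
    have : ¬ (l : ℕ) = j := fun h => hl (Fin.ext h)
    simp [Fac2_E, this]
  · intro h
    exact absurd (Finset.mem_univ _) h

private theorem Fac2_zero {k : ℕ} {M : Matrix (Fin k) (Fin k) K}
    (h : ∀ j < k, M *ᵥ Fac2_E K k j = 0) : M = 0 := by
  ext i j
  have h1 := congrFun (h j j.2) i
  rw [Fac2_col M j j.2 i] at h1
  exact h1

private theorem Fac2_comp {k : ℕ} {f : K[X]} (j : ℕ) (hj : j + 1 < k) :
    ThU.comp f k *ᵥ Fac2_E K k j = Fac2_E K k (j + 1) := by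
  ext i
  rw [Fac2_col _ j (by omega)]
  have h1 : ¬ j + 1 = k := by omega
  simp [ThU.comp, Fac2_E, h1]

private theorem Fac2_compl {k : ℕ} {f : K[X]} (hk : 0 < k) :
    ThU.comp f k *ᵥ Fac2_E K k (k - 1) = - ∑ l ∈ Finset.range k, f.coeff l • Fac2_E K k l := by
  ext i
  rw [Fac2_col _ (k - 1) (by omega), Pi.neg_apply, Finset.sum_apply,
    Finset.sum_eq_single (i : ℕ)]
  · have h1 : k - 1 + 1 = k := by omega
    simp [ThU.comp, Fac2_E, h1]
  · intro l _ hl
    have : ¬ (i : ℕ) = l := fun h => hl h.symm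
    simp [Fac2_E, this]
  · intro h
    exact absurd (Finset.mem_range.2 i.2) h

/-- An explicit matrix.  `k ≥ 4`, `f` monic of degree `k`, `C = comp f k` (`C e_i = e_{i+1}` for `i < k - 1`, `C e_{k-1} = - ∑ f_i e_i`),
`α δ - β γ = 1`, `δ ≠ 0`, and `A` the matrix with the columns
`A e_0 = α e_0 + γ e_1`, `A e_1 = β e_0 + δ e_1`, `A e_2 = e_2 - (β ^ 2 / δ) e_0 - β e_1`, `A e_j = e_j` for `3 ≤ j ≤ k - 2`,
`A e_{k-1} = e_{k-1} + ρ e_0` with `ρ = (f_1 (δ - 1) + f_0 γ - f_2 β) / δ`.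
Claim: `f (A C) = 0`.  Let `M = A C`, so `M e_i = A e_{i+1}` for `i < k - 1`, `M e_{k-1} = - ∑ f_i A e_i`.
`M e_0 = β e_0 + δ e_1`; `M e_1 = e_2 - (β / δ) M e_0`, so `e_2 = M (e_1 + (β / δ) e_0) = δ⁻¹ M ^ 2 e_0`; `e_j = M e_{j-1} = δ⁻¹ M ^ j e_0` for
`3 ≤ j ≤ k - 2`; `e_{k-1} = δ⁻¹ M ^ (k-1) e_0 - ρ e_0`.  Multiply `M e_{k-1} = - ∑ f_i A e_i` by `δ`; here `A e_0 = α e_0 + γ e_1`,
`A e_i = M e_{i-1}` for `i ≥ 1`, `M e_1 = δ⁻¹ M ^ 2 e_0 - (β / δ) M e_0`, `M e_{i-1} = δ⁻¹ M ^ i e_0` for `i ≥ 3`: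
`M ^ k e_0 = δ ρ M e_0 - f_0 e_0 - f_0 γ M e_0 - f_1 δ M e_0 - f_2 M ^ 2 e_0 + f_2 β M e_0 - ∑_{i ≥ 3} f_i M ^ i e_0
= - ∑ f_i M ^ i e_0`.  So `f (M) e_0 = 0`, and as all `e_j` are polynomials in `M` applied to `e_0`, `f (M) = 0`. -/
theorem fac2_expl {k : ℕ} (hk : 4 ≤ k) {f : K[X]} (hf : f.Monic) (hn : f.natDegree = k)
    {α β γ δ : K} (hd : α * δ - β * γ = 1) (hδ : δ ≠ 0) {A : Matrix (Fin k) (Fin k) K}
    (hA : ∀ i j, A i j =
      if (j : ℕ) = 0 then (if (i : ℕ) = 0 then α else if (i : ℕ) = 1 then γ else 0)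
      else if (j : ℕ) = 1 then (if (i : ℕ) = 0 then β else if (i : ℕ) = 1 then δ else 0)
      else if (j : ℕ) = 2 then (if (i : ℕ) = 0 then -(β ^ 2 / δ) else if (i : ℕ) = 1 then -β
        else if (i : ℕ) = 2 then 1 else 0)
      else (if i = j then 1 else if (i : ℕ) = 0 ∧ (j : ℕ) + 1 = k then
        (f.coeff 1 * (δ - 1) + f.coeff 0 * γ - f.coeff 2 * β) / δ else 0)) :
    aeval (A * ThU.comp f k) f = 0 := by
  obtain ⟨ρ, hρ⟩ : ∃ ρ, ρ = (f.coeff 1 * (δ - 1) + f.coeff 0 * γ - f.coeff 2 * β) / δ := ⟨_, rfl⟩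
  have hδρ : δ * ρ = f.coeff 1 * (δ - 1) + f.coeff 0 * γ - f.coeff 2 * β := by
    rw [hρ, mul_div_cancel₀ _ hδ]
  obtain ⟨c, hc⟩ : ∃ c : ℕ → K, ∀ l, c l = if l = 0 then α - 1 else if l = 1 then β else
      if l = 2 then -(β ^ 2 / δ) else if l + 1 = k then ρ else 0 := ⟨_, fun _ => rfl⟩
  obtain ⟨d, hdd⟩ : ∃ d : ℕ → K, ∀ l, d l = if l = 0 then γ else if l = 1 then δ - 1 else
      if l = 2 then -β else 0 := ⟨_, fun _ => rfl⟩
  obtain ⟨b, hb⟩ : ∃ b : ℕ → K, ∀ l, b l = if l = 0 then 1 - δ else if l = 1 then β else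
      if l + 1 = k then δ * ρ else 0 := ⟨_, fun _ => rfl⟩
  obtain ⟨E, hE⟩ : ∃ E : ℕ → Fin k → K, ∀ j, E j = Fac2_E K k j := ⟨_, fun _ => rfl⟩
  obtain ⟨M, hM⟩ : ∃ M, M = A * ThU.comp f k := ⟨_, rfl⟩
  have hAE : ∀ j < k, A *ᵥ E j = E j + c j • E 0 + d j • E 1 := by
    intro j hj
    ext i
    rw [hE, Fac2_col A j hj, hA, hc, hdd, hE, hE, ← hρ]
    simp only [Pi.add_apply, Pi.smul_apply, smul_eq_mul, Fac2_E, Fin.ext_iff]
    by_cases h0 : j = 0
    · subst h0
      by_cases hi0 : (i : ℕ) = 0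
      · simp [hi0]
      · by_cases hi1 : (i : ℕ) = 1
        · simp [hi1]
        · simp [hi0, hi1]
    · by_cases h1 : j = 1
      · subst h1
        by_cases hi0 : (i : ℕ) = 0
        · simp [hi0]
        · by_cases hi1 : (i : ℕ) = 1
          · simp [hi1]
          · simp [hi0, hi1]
      · by_cases h2 : j = 2
        · subst h2
          by_cases hi0 : (i : ℕ) = 0
          · simp [hi0]
          · by_cases hi1 : (i : ℕ) = 1
            · simp [hi1]
            · simp [hi0, hi1]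
        · by_cases hjk : j + 1 = k
          · by_cases hi0 : (i : ℕ) = 0
            · have hij : ¬ 0 = j := fun h => h0 h.symm
              simp [h0, h1, h2, hjk, hi0, hij]
            · simp [h0, h1, h2, hjk, hi0]
          · simp [h0, h1, h2, hjk]
  have hME : ∀ j, j + 1 < k → M *ᵥ E j = E (j + 1) + c (j + 1) • E 0 + d (j + 1) • E 1 := by
    intro j hj
    rw [hM, ← Matrix.mulVec_mulVec, hE j, Fac2_comp j hj, ← hE, hAE _ hj]
  have hML : M *ᵥ E (k - 1) =
      - ∑ l ∈ Finset.range k, f.coeff l • (E l + c l • E 0 + d l • E 1) := by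
    rw [hM, ← Matrix.mulVec_mulVec, hE (k - 1), Fac2_compl (by omega), Matrix.mulVec_neg,
      Matrix.mulVec_sum]
    congr 1
    refine Finset.sum_congr rfl fun l hl => ?_
    rw [Matrix.mulVec_smul, ← hE, hAE l (Finset.mem_range.1 hl)]
  have hpow : ∀ j < k, (M ^ j) *ᵥ E 0 = δ • E j + b j • E 0 := by
    intro j
    induction j with
    | zero =>
      intro _
      rw [pow_zero, Matrix.one_mulVec, hb, if_pos rfl]
      module
    | succ j ih =>
      intro hj
      rw [pow_succ', ← Matrix.mulVec_mulVec, ih (by omega), Matrix.mulVec_add, Matrix.mulVec_smul,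
        Matrix.mulVec_smul, hME j hj, hME 0 (by omega)]
      have c1 : c (0 + 1) = β := by rw [hc]; simp
      have d1 : d (0 + 1) = δ - 1 := by rw [hdd]; simp
      rw [c1, d1]
      by_cases h0 : j = 0
      · subst h0
        have b0 : b 0 = 1 - δ := by rw [hb, if_pos rfl]
        have b1 : b (0 + 1) = β := by rw [hb]; simp
        rw [c1, d1, b0, b1]
        module
      · by_cases h1 : j = 1
        · subst h1
          have b1 : b 1 = β := by rw [hb]; simp
          have b2 : b (1 + 1) = 0 := by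
            have h3 : ¬ (1 + 1 + 1 = k) := by omega
            rw [hb, if_neg (by norm_num), if_neg (by norm_num), if_neg h3]
          have c2 : c (1 + 1) = -(β ^ 2 / δ) := by rw [hc]; simp
          have d2 : d (1 + 1) = -β := by rw [hdd]; simp
          rw [c2, d2, b1, b2]
          have hββ : δ * (β ^ 2 / δ) = β ^ 2 := mul_div_cancel₀ _ hδ
          ext i
          simp only [Pi.add_apply, Pi.smul_apply, smul_eq_mul]
          linear_combination (-(E 0 i)) * hββ
        · have bj : b j = 0 := by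
            rw [hb, if_neg h0, if_neg h1, if_neg (by omega)]
          have dj : d (j + 1) = 0 := by
            rw [hdd, if_neg (by omega), if_neg (by omega), if_neg (by omega)]
          have cj1 : c (j + 1) = if j + 1 + 1 = k then ρ else 0 := by
            rw [hc, if_neg (by omega), if_neg (by omega), if_neg (by omega)]
          have bj1 : b (j + 1) = if j + 1 + 1 = k then δ * ρ else 0 := by
            rw [hb, if_neg (by omega), if_neg (by omega)]
          have cj : δ * c (j + 1) = b (j + 1) := by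
            rw [cj1, bj1]
            split_ifs
            · rfl
            · rw [mul_zero]
          rw [bj, dj, ← cj]
          module
  have hk1 : b (k - 1) = δ * ρ := by
    rw [hb, if_neg (by omega), if_neg (by omega), if_pos (by omega)]
  have hkk : (M ^ k) *ᵥ E 0 =
      -(δ • ∑ l ∈ Finset.range k, f.coeff l • (E l + c l • E 0 + d l • E 1)) +
        (δ * ρ) • (E 1 + β • E 0 + (δ - 1) • E 1) := by
    have h1 : M ^ k = M * M ^ (k - 1) := by
      rw [← pow_succ']
      congr 1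
      omega
    have c1 : c (0 + 1) = β := by rw [hc]; simp
    have d1 : d (0 + 1) = δ - 1 := by rw [hdd]; simp
    rw [h1, ← Matrix.mulVec_mulVec, hpow (k - 1) (by omega), Matrix.mulVec_add,
      Matrix.mulVec_smul, Matrix.mulVec_smul, hML, hME 0 (by omega), hk1, smul_neg, c1, d1, zero_add]
  have hfM : (aeval M f) *ᵥ E 0 = 0 := by
    rw [aeval_eq_sum_range, hn, Matrix.sum_mulVec, Finset.sum_range_succ]
    have hlc : f.coeff k = 1 := by rw [← hn]; exact hf
    have h1 : ∀ l ∈ Finset.range k, (f.coeff l • M ^ l) *ᵥ E 0 =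
        f.coeff l • (δ • E l + b l • E 0) := by
      intro l hl
      rw [Matrix.smul_mulVec, hpow l (Finset.mem_range.1 hl)]
    rw [Finset.sum_congr rfl h1, hlc, one_smul, hkk]
    have h2 : ∑ l ∈ Finset.range k, f.coeff l • (δ • E l + b l • E 0) =
        δ • ∑ l ∈ Finset.range k, f.coeff l • E l +
          (∑ l ∈ Finset.range k, f.coeff l * b l) • E 0 := by
      rw [Finset.smul_sum, Finset.sum_smul, ← Finset.sum_add_distrib]
      refine Finset.sum_congr rfl fun l _ => ?_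
      module
    have h3 : ∑ l ∈ Finset.range k, f.coeff l • (E l + c l • E 0 + d l • E 1) =
        ∑ l ∈ Finset.range k, f.coeff l • E l + (∑ l ∈ Finset.range k, f.coeff l * c l) • E 0 +
          (∑ l ∈ Finset.range k, f.coeff l * d l) • E 1 := by
      rw [Finset.sum_smul, Finset.sum_smul, ← Finset.sum_add_distrib, ← Finset.sum_add_distrib]
      refine Finset.sum_congr rfl fun l _ => ?_
      module
    obtain ⟨m, rfl⟩ : ∃ m, k = m + 4 := ⟨k - 4, by omega⟩
    have hsum : ∀ g : ℕ → K, (∀ l < m, g (l + 3) = 0) →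
        ∑ l ∈ Finset.range (m + 4), g l = g 0 + g 1 + g 2 + g (m + 3) := by
      intro g hg
      rw [Finset.sum_range_succ, Finset.sum_range_succ', Finset.sum_range_succ',
        Finset.sum_range_succ', Finset.sum_eq_zero fun l hl => hg l (Finset.mem_range.1 hl)]
      ring
    have hb3 : ∑ l ∈ Finset.range (m + 4), f.coeff l * b l =
        f.coeff 0 * (1 - δ) + f.coeff 1 * β + f.coeff (m + 3) * (δ * ρ) := by
      rw [hsum, hb, hb, hb, hb]
      · have e1 : ¬ (2 + 1 = m + 4) := by omega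
        simp [e1]
      · intro l hl
        have e1 : ¬ (l + 3 + 1 = m + 4) := by omega
        rw [hb]
        simp
        intro h
        omega
    have hc3 : ∑ l ∈ Finset.range (m + 4), f.coeff l * c l =
        f.coeff 0 * (α - 1) + f.coeff 1 * β - f.coeff 2 * (β ^ 2 / δ) + f.coeff (m + 3) * ρ := by
      rw [hsum, hc, hc, hc, hc]
      · simp
        ring
      · intro l hl
        rw [hc]
        simp
        intro h
        omega
    have hd3 : ∑ l ∈ Finset.range (m + 4), f.coeff l * d l =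
        f.coeff 0 * γ + f.coeff 1 * (δ - 1) - f.coeff 2 * β := by
      rw [hsum, hdd, hdd, hdd, hdd]
      · simp
        ring
      · intro l hl
        rw [hdd]
        simp
    rw [h2, h3, hb3, hc3, hd3]
    have hββ : δ * (β ^ 2 / δ) = β ^ 2 := mul_div_cancel₀ _ hδ
    ext i
    simp only [Pi.add_apply, Pi.smul_apply, Pi.neg_apply, Pi.zero_apply, smul_eq_mul, smul_add]
    linear_combination (-(f.coeff 0) * E 0 i) * hd + (f.coeff 2 * E 0 i) * hββ +
      (β * E 0 i + δ * E 1 i) * hδρ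
  have hall : aeval M f = 0 := by
    refine Fac2_zero fun j hj => ?_
    have h1 := hpow j hj
    have h2 : aeval M f *ᵥ (δ • E j) = 0 := by
      have h3 : δ • E j = (M ^ j) *ᵥ E 0 - b j • E 0 := by rw [h1]; abel
      have h4 : aeval M f * M ^ j = M ^ j * aeval M f := by
        have h5 : M ^ j = aeval M (X ^ j : K[X]) := by rw [map_pow, aeval_X]
        rw [h5, ← map_mul, ← map_mul, mul_comm]
      rw [h3, Matrix.mulVec_sub, Matrix.mulVec_mulVec, h4, ← Matrix.mulVec_mulVec, hfM,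
        Matrix.mulVec_zero, Matrix.mulVec_smul, hfM, smul_zero, sub_zero]
    rw [Matrix.mulVec_smul] at h2
    rw [← hE]
    exact (smul_eq_zero.1 h2).resolve_left hδ
  rw [← hM]
  exact hall

/-- `a2` has determinant `1` and `a2 - 1` is invertible, `a2 1 1 ≠ 0`.  Let `A` be the matrix of `fac2_expl` with `α = a2 0 0`, `β = a2 0 1`,
`γ = a2 1 0`, `δ = a2 1 1`, `k = 2 + j`.  As a block matrix (`finSumFinEquiv`) `A = fromBlocks a2 Y 0 1`, which is conjugate to
`fromBlocks a2 0 0 1` by `fromBlocks 1 Z 0 1`, `(a2 - 1) Z = ± Y`.  `aeval (A C) f = 0` and `aeval C f = 0` (Cayley-Hamilton or `ThU.SeedB`), so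
`T C = A C T` for an invertible `T` (`ThU.sim_irr`), `A = T C T⁻¹ C⁻¹`. -/
theorem fac2 {j k : ℕ} (hk : 4 ≤ k) (e : Fin 2 ⊕ Fin j ≃ Fin k) {f : K[X]} (hf : f.Monic)
    (hi : Irreducible f) (hn : f.natDegree = k) (h0 : f.coeff 0 ≠ 0) {a2 : Matrix (Fin 2) (Fin 2) K}
    (hd : a2.det = 1) (h1 : IsUnit (a2 - 1).det) (hδ : a2 1 1 ≠ 0) :
    ∃ S T : Matrix (Fin k) (Fin k) K, IsUnit S.det ∧ IsUnit T.det ∧
      S * Matrix.reindex e e (fromBlocks a2 0 0 1) * S⁻¹ = T * ThU.comp f k * T⁻¹ * (ThU.comp f k)⁻¹ := by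
  have hcard : k = 2 + j := by
    have h2 := Fintype.card_congr e
    rw [Fintype.card_sum, Fintype.card_fin, Fintype.card_fin, Fintype.card_fin] at h2
    exact h2.symm
  subst hcard
  have hdet : a2 0 0 * a2 1 1 - a2 0 1 * a2 1 0 = 1 := by
    rw [← hd, Matrix.det_fin_two]
  obtain ⟨A, hA⟩ : ∃ A : Matrix (Fin (2 + j)) (Fin (2 + j)) K, ∀ i l, A i l =
      if (l : ℕ) = 0 then (if (i : ℕ) = 0 then a2 0 0 else if (i : ℕ) = 1 then a2 1 0 else 0)
      else if (l : ℕ) = 1 then (if (i : ℕ) = 0 then a2 0 1 else if (i : ℕ) = 1 then a2 1 1 else 0)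
      else if (l : ℕ) = 2 then (if (i : ℕ) = 0 then -(a2 0 1 ^ 2 / a2 1 1) else
        if (i : ℕ) = 1 then -a2 0 1 else if (i : ℕ) = 2 then 1 else 0)
      else (if i = l then 1 else if (i : ℕ) = 0 ∧ (l : ℕ) + 1 = 2 + j then
        (f.coeff 1 * (a2 1 1 - 1) + f.coeff 0 * a2 1 0 - f.coeff 2 * a2 0 1) / a2 1 1 else 0) :=
    ⟨Matrix.of fun i l => _, fun _ _ => rfl⟩
  have hAC := fac2_expl hk hf hn hdet hδ hA
  have hC : aeval (ThU.comp f (2 + j)) f = 0 := by
    have h2 := fac2_expl (K := K) hk hf hn (α := 1) (β := 0) (γ := 0) (δ := 1) (by ring)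
      one_ne_zero (A := 1) (by
        intro i l
        rw [Matrix.one_apply]
        simp only [Fin.ext_iff]
        split_ifs <;> first | rfl | (exfalso; omega) | simp)
    rwa [Matrix.one_mul] at h2
  -- `C` is invertible
  have hCu : IsUnit (ThU.comp f (2 + j)).det := by
    have h2 : ThU.comp f (2 + j) * aeval (ThU.comp f (2 + j)) f.divX =
        algebraMap K _ (-(f.coeff 0)) := by
      have h3 := congrArg (aeval (ThU.comp f (2 + j))) (X_mul_divX_add f)
      rw [map_add, map_mul, aeval_X, aeval_C, hC] at h3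
      rw [map_neg]
      exact eq_neg_of_add_eq_zero_left h3
    have h4 := congrArg Matrix.det h2
    rw [Matrix.det_mul, Matrix.algebraMap_eq_diagonal, Matrix.det_diagonal] at h4
    refine isUnit_of_mul_isUnit_left (y := (aeval (ThU.comp f (2 + j)) f.divX).det) ?_
    rw [h4, isUnit_iff_ne_zero]
    simp only [Pi.algebraMap_apply, Algebra.algebraMap_self, RingHom.id_apply, Finset.prod_const]
    exact pow_ne_zero _ (neg_ne_zero.2 h0)
  obtain ⟨T, hT, hTC⟩ := ThU.sim_irr hf hi hn (by omega) hC hAC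
  -- the block form of `A`
  obtain ⟨Y, hY⟩ : ∃ Y : Matrix (Fin 2) (Fin j) K, ∀ i l,
      Y i l = A (finSumFinEquiv (Sum.inl i)) (finSumFinEquiv (Sum.inr l)) :=
    ⟨Matrix.of fun i l => _, fun _ _ => rfl⟩
  have hAb : A = (fromBlocks a2 Y 0 1).submatrix finSumFinEquiv.symm finSumFinEquiv.symm := by
    ext i l
    obtain ⟨x, rfl⟩ := (finSumFinEquiv (m := 2) (n := j)).surjective i
    obtain ⟨y, rfl⟩ := (finSumFinEquiv (m := 2) (n := j)).surjective l
    rw [Matrix.submatrix_apply, Equiv.symm_apply_apply, Equiv.symm_apply_apply]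
    rcases x with x | x <;> rcases y with y | y
    · rw [Matrix.fromBlocks_apply₁₁, hA]
      simp only [finSumFinEquiv_apply_left, Fin.val_castAdd]
      fin_cases x <;> fin_cases y <;> simp
    · rw [Matrix.fromBlocks_apply₁₂, hY]
    · rw [Matrix.fromBlocks_apply₂₁, hA]
      simp only [finSumFinEquiv_apply_left, finSumFinEquiv_apply_right, Fin.val_castAdd,
        Fin.val_natAdd, Matrix.zero_apply]
      have e0 : ¬ (2 + (x : ℕ) = 0) := by omega
      have e1 : ¬ (2 + (x : ℕ) = 1) := by omega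
      fin_cases y <;> simp [e1]
    · have vx : ((finSumFinEquiv (Sum.inr x : Fin 2 ⊕ Fin j) : Fin (2 + j)) : ℕ) = 2 + x := by simp
      have vy : ((finSumFinEquiv (Sum.inr y : Fin 2 ⊕ Fin j) : Fin (2 + j)) : ℕ) = 2 + y := by simp
      rw [Matrix.fromBlocks_apply₂₂, hA, if_neg (by rw [vy]; omega), if_neg (by rw [vy]; omega),
        Matrix.one_apply]
      by_cases hy : (y : ℕ) = 0
      · rw [if_pos (by rw [vy]; omega), if_neg (by rw [vx]; omega), if_neg (by rw [vx]; omega)]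
        by_cases hx : (x : ℕ) = 0
        · rw [if_pos (by rw [vx]; omega), if_pos (Fin.ext (by omega))]
        · rw [if_neg (by rw [vx]; omega), if_neg (fun h => hx (by rw [h, hy]))]
      · rw [if_neg (by rw [vy]; omega)]
        by_cases hxy : x = y
        · rw [if_pos (by rw [hxy]), if_pos hxy]
        · rw [if_neg (fun h => hxy (Sum.inr_injective (finSumFinEquiv.injective h))),
            if_neg (fun h => by have := h.1; rw [vx] at this; omega), if_neg hxy]
  -- conjugation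
  have h1' : IsUnit (1 - a2).det := by
    have h2 : (1 - a2) = -(a2 - 1) := by abel
    rw [h2, Matrix.det_neg]
    exact (((isUnit_one).neg).pow _).mul h1
  obtain ⟨Z, hZ⟩ : ∃ Z : Matrix (Fin 2) (Fin j) K, (1 - a2) * Z = Y :=
    ⟨(1 - a2)⁻¹ * Y, by rw [← Matrix.mul_assoc, Matrix.mul_nonsing_inv _ h1', Matrix.one_mul]⟩
  have hPP : (fromBlocks 1 Z 0 1 : Matrix (Fin 2 ⊕ Fin j) (Fin 2 ⊕ Fin j) K) *
      fromBlocks 1 (-Z) 0 1 = 1 := by
    rw [Matrix.fromBlocks_multiply]
    simp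
  have hPB : (fromBlocks 1 Z 0 1 : Matrix (Fin 2 ⊕ Fin j) (Fin 2 ⊕ Fin j) K) *
      fromBlocks a2 0 0 1 = fromBlocks a2 Y 0 1 * fromBlocks 1 Z 0 1 := by
    rw [Matrix.fromBlocks_multiply, Matrix.fromBlocks_multiply]
    have h2 : a2 * Z + Y = Z := by
      rw [← hZ, Matrix.sub_mul, Matrix.one_mul]
      abel
    simp [h2]
  obtain ⟨S, hS⟩ : ∃ S : Matrix (Fin (2 + j)) (Fin (2 + j)) K,
      S = (fromBlocks 1 Z 0 1 : Matrix (Fin 2 ⊕ Fin j) (Fin 2 ⊕ Fin j) K).submatrix
        finSumFinEquiv.symm e.symm := ⟨_, rfl⟩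
  have hSu : IsUnit S.det := by
    have h2 : S * (fromBlocks 1 (-Z) 0 1 : Matrix (Fin 2 ⊕ Fin j) (Fin 2 ⊕ Fin j) K).submatrix
        e.symm finSumFinEquiv.symm = 1 := by
      rw [hS, Matrix.submatrix_mul_equiv, hPP, Matrix.submatrix_one_equiv]
    have h3 := congrArg Matrix.det h2
    rw [Matrix.det_mul, Matrix.det_one] at h3
    exact IsUnit.of_mul_eq_one _ h3
  have hSA : S * Matrix.reindex e e (fromBlocks a2 0 0 1) = A * S := by
    rw [hS, hAb, Matrix.reindex_apply, Matrix.submatrix_mul_equiv, Matrix.submatrix_mul_equiv, hPB]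
  refine ⟨S, T, hSu, hT, ?_⟩
  rw [hSA, Matrix.mul_assoc A, Matrix.mul_nonsing_inv _ hSu, Matrix.mul_one, hTC,
    Matrix.mul_assoc (A * ThU.comp f (2 + j)), Matrix.mul_nonsing_inv _ hT, Matrix.mul_one,
    Matrix.mul_assoc, Matrix.mul_nonsing_inv _ hCu, Matrix.mul_one]

end ThQ
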