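import Pool.Agent.ThQ.Defs

/-!
# The isometry group of `V0 = K^k + D + K^k`: Levi subgroup, unipotent subgroups
-/

namespace ThQ
open Matrix Module

variable {K D : Type*} [Field K] [AddCommGroup D] [Module K D] {k : ℕ}

/-- the Levi element with the block `a` -/
def mE (a : (Matrix (Fin k) (Fin k) K)ˣ) : V0 K D k ≃ₗ[K] V0 K D k where
  toFun v := ((a : Matrix (Fin k) (Fin k) K) *ᵥ v.1, v.2.1,
    ((a⁻¹ : (Matrix (Fin k) (Fin k) K)ˣ) : Matrix (Fin k) (Fin k) K)ᵀ *ᵥ v.2.2)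
  map_add' v w := by
    simp only [Prod.fst_add, Prod.snd_add, mulVec_add, Prod.mk_add_mk]
  map_smul' c v := by
    simp only [Prod.smul_fst, Prod.smul_snd, mulVec_smul, RingHom.id_apply, Prod.smul_mk]
  invFun v := (((a⁻¹ : (Matrix (Fin k) (Fin k) K)ˣ) : Matrix (Fin k) (Fin k) K) *ᵥ v.1, v.2.1,
    (a : Matrix (Fin k) (Fin k) K)ᵀ *ᵥ v.2.2)
  left_inv v := by
    simp only [mulVec_mulVec, Units.inv_mul, one_mulVec, ← transpose_mul, transpose_one]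
  right_inv v := by
    simp only [mulVec_mulVec, Units.mul_inv, one_mulVec, ← transpose_mul, transpose_one]

theorem mE_apply (a : (Matrix (Fin k) (Fin k) K)ˣ) (v : V0 K D k) :
    mE a v = ((a : Matrix (Fin k) (Fin k) K) *ᵥ v.1, v.2.1,
      ((a⁻¹ : (Matrix (Fin k) (Fin k) K)ˣ) : Matrix (Fin k) (Fin k) K)ᵀ *ᵥ v.2.2) := rfl

theorem mE_mem (qD : QF K D) (a : (Matrix (Fin k) (Fin k) K)ˣ) : mE a ∈ IG (q0 qD k) := by
  intro v
  rw [mE_apply, q0_Q, q0_Q]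
  show ((a : Matrix (Fin k) (Fin k) K) *ᵥ v.1) ⬝ᵥ
    (((a⁻¹ : (Matrix (Fin k) (Fin k) K)ˣ) : Matrix (Fin k) (Fin k) K)ᵀ *ᵥ v.2.2) + qD.Q v.2.1 =
      v.1 ⬝ᵥ v.2.2 + qD.Q v.2.1
  rw [dotProduct_mulVec, vecMul_transpose, mulVec_mulVec, Units.inv_mul, one_mulVec]

/-- the Levi subgroup -/
def mL (qD : QF K D) (k : ℕ) : (Matrix (Fin k) (Fin k) K)ˣ →* IG (q0 qD k) where
  toFun a := ⟨mE a, mE_mem qD a⟩
  map_one' := by
    apply Subtype.ext
    apply LinearEquiv.ext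
    intro v
    show mE 1 v = v
    rw [mE_apply, inv_one, Units.val_one, transpose_one, one_mulVec, one_mulVec]
  map_mul' a b := by
    apply Subtype.ext
    apply LinearEquiv.ext
    intro v
    show mE (a * b) v = mE a (mE b v)
    rw [mE_apply, mE_apply, mE_apply, _root_.mul_inv_rev, Units.val_mul, Units.val_mul, transpose_mul,
      mulVec_mulVec, mulVec_mulVec]

theorem mL_apply (qD : QF K D) (a : (Matrix (Fin k) (Fin k) K)ˣ) (v : V0 K D k) :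
    (mL qD k a : V0 K D k ≃ₗ[K] V0 K D k) v = ((a : Matrix (Fin k) (Fin k) K) *ᵥ v.1, v.2.1,
      ((a⁻¹ : (Matrix (Fin k) (Fin k) K)ˣ) : Matrix (Fin k) (Fin k) K)ᵀ *ᵥ v.2.2) := rfl

/-- the isometry which exchanges `W` and `W'` -/
def sw (qD : QF K D) (k : ℕ) : IG (q0 qD k) :=
  ⟨{ toFun := fun v => (v.2.2, v.2.1, v.1)
     map_add' := fun v w => rfl
     map_smul' := fun c v => rfl
     invFun := fun v => (v.2.2, v.2.1, v.1)
     left_inv := fun v => rfl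
     right_inv := fun v => rfl }, fun v => by
    show v.2.2 ⬝ᵥ v.1 + qD.Q v.2.1 = v.1 ⬝ᵥ v.2.2 + qD.Q v.2.1
    rw [dotProduct_comm]⟩

theorem sw_apply (qD : QF K D) (v : V0 K D k) :
    (sw qD k : V0 K D k ≃ₗ[K] V0 K D k) v = (v.2.2, v.2.1, v.1) := rfl

/-- the isometries of `D` as isometries of `V0` -/
def oD (qD : QF K D) (k : ℕ) : IG qD →* IG (q0 qD k) where
  toFun s := ⟨LinearEquiv.prodCongr (LinearEquiv.refl K (Fin k → K))
    (LinearEquiv.prodCongr (s : D ≃ₗ[K] D) (LinearEquiv.refl K (Fin k → K))), fun v => by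
      show v.1 ⬝ᵥ v.2.2 + qD.Q ((s : D ≃ₗ[K] D) v.2.1) = v.1 ⬝ᵥ v.2.2 + qD.Q v.2.1
      rw [s.2 v.2.1]⟩
  map_one' := rfl
  map_mul' a b := rfl

theorem oD_apply (qD : QF K D) (s : IG qD) (v : V0 K D k) :
    (oD qD k s : V0 K D k ≃ₗ[K] V0 K D k) v = (v.1, (s : D ≃ₗ[K] D) v.2.1, v.2.2) := rfl

/-- the unipotent radical of the stabilizer of `W'` -/
def Nm (qD : QF K D) (k : ℕ) : Subgroup (IG (q0 qD k)) where
  carrier := {g | (∀ v, ((g : V0 K D k ≃ₗ[K] V0 K D k) v).1 = v.1) ∧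
    (∀ y x', ((g : V0 K D k ≃ₗ[K] V0 K D k) (0, y, x')).2.1 = y) ∧
    ∀ x', (g : V0 K D k ≃ₗ[K] V0 K D k) (0, 0, x') = (0, 0, x')}
  one_mem' := ⟨fun v => rfl, fun y x' => rfl, fun x' => rfl⟩
  mul_mem' := by
    rintro g g' ⟨h1, h2, h3⟩ ⟨h1', h2', h3'⟩
    refine ⟨fun v => ?_, fun y x' => ?_, fun x' => ?_⟩
    · show ((g : V0 K D k ≃ₗ[K] V0 K D k) ((g' : V0 K D k ≃ₗ[K] V0 K D k) v)).1 = v.1
      rw [h1, h1']
    · show ((g : V0 K D k ≃ₗ[K] V0 K D k) ((g' : V0 K D k ≃ₗ[K] V0 K D k) (0, y, x'))).2.1 = y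
      have e : (g' : V0 K D k ≃ₗ[K] V0 K D k) (0, y, x') =
          (0, y, ((g' : V0 K D k ≃ₗ[K] V0 K D k) (0, y, x')).2.2) :=
        Prod.ext (h1' _) (Prod.ext (h2' _ _) rfl)
      rw [e, h2]
    · show (g : V0 K D k ≃ₗ[K] V0 K D k) ((g' : V0 K D k ≃ₗ[K] V0 K D k) (0, 0, x')) = (0, 0, x')
      rw [h3', h3]
  inv_mem' := by
    rintro g ⟨h1, h2, h3⟩
    have hi : ∀ v, (g : V0 K D k ≃ₗ[K] V0 K D k) (((g⁻¹ : IG (q0 qD k)) : V0 K D k ≃ₗ[K] V0 K D k) v) = v :=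
      fun v => (g : V0 K D k ≃ₗ[K] V0 K D k).apply_symm_apply v
    have h1' : ∀ v, (((g⁻¹ : IG (q0 qD k)) : V0 K D k ≃ₗ[K] V0 K D k) v).1 = v.1 := fun v => by
      have h := h1 (((g⁻¹ : IG (q0 qD k)) : V0 K D k ≃ₗ[K] V0 K D k) v)
      rw [hi] at h
      exact h.symm
    refine ⟨h1', fun y x' => ?_, fun x' => ?_⟩
    · have e : ((g⁻¹ : IG (q0 qD k)) : V0 K D k ≃ₗ[K] V0 K D k) (0, y, x') =
          (0, (((g⁻¹ : IG (q0 qD k)) : V0 K D k ≃ₗ[K] V0 K D k) (0, y, x')).2.1,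
            (((g⁻¹ : IG (q0 qD k)) : V0 K D k ≃ₗ[K] V0 K D k) (0, y, x')).2.2) :=
        Prod.ext (h1' _) rfl
      have h := hi (0, y, x')
      rw [e] at h
      have h4 := h2 (((g⁻¹ : IG (q0 qD k)) : V0 K D k ≃ₗ[K] V0 K D k) (0, y, x')).2.1
        (((g⁻¹ : IG (q0 qD k)) : V0 K D k ≃ₗ[K] V0 K D k) (0, y, x')).2.2
      rw [h] at h4
      exact h4.symm
    · apply (g : V0 K D k ≃ₗ[K] V0 K D k).injective
      rw [hi, h3]

theorem mem_Nm {qD : QF K D} {g : IG (q0 qD k)} :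
    g ∈ Nm qD k ↔ (∀ v, ((g : V0 K D k ≃ₗ[K] V0 K D k) v).1 = v.1) ∧
    (∀ y x', ((g : V0 K D k ≃ₗ[K] V0 K D k) (0, y, x')).2.1 = y) ∧
    ∀ x', (g : V0 K D k ≃ₗ[K] V0 K D k) (0, 0, x') = (0, 0, x') := Iff.rfl

/-- the unipotent radical of the stabilizer of `W` -/
def Np (qD : QF K D) (k : ℕ) : Subgroup (IG (q0 qD k)) :=
  (Nm qD k).comap (MulAut.conj (sw qD k)).toMonoidHom

theorem mem_Np {qD : QF K D} {g : IG (q0 qD k)} :
    g ∈ Np qD k ↔ sw qD k * g * (sw qD k)⁻¹ ∈ Nm qD k := Iff.rfl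

/-- the standard hyperbolic system of `V0` -/
def e0 (K D : Type*) [Field K] [AddCommGroup D] (k : ℕ) (i : Fin k) : V0 K D k := (Pi.single i 1, 0, 0)

/-- the second half of the standard hyperbolic system of `V0` -/
def e0' (K D : Type*) [Field K] [AddCommGroup D] (k : ℕ) (i : Fin k) : V0 K D k := (0, 0, Pi.single i 1)

/-- what we need to know about the block `B` of the elements of the class -/
structure SeedQ (B : (Matrix (Fin k) (Fin k) K)ˣ) : Prop where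
  /-- `B` is a square, and the root is real up to transposition -/
  root : ∃ C d : (Matrix (Fin k) (Fin k) K)ˣ, C * C = B ∧
    (d : Matrix (Fin k) (Fin k) K) * C = (C : Matrix (Fin k) (Fin k) K)ᵀ * d
  /-- `1` is not an eigenvalue -/
  n1 : ∀ v : Fin k → K, (B : Matrix (Fin k) (Fin k) K) *ᵥ v = v → v = 0
  /-- `B` and the transpose of `B⁻¹` are disjoint -/
  syl : ∀ Z : Matrix (Fin k) (Fin k) K,
    (B : Matrix (Fin k) (Fin k) K)ᵀ * Z * (B : Matrix (Fin k) (Fin k) K) = Z → Z = 0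

end ThQ
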