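import Pool.Agent.ThQ.Witt
import Pool.Agent.ThQ.GDefs

/-! # Module Frm: passage to the standard system of `V0` -/

namespace ThQ
open Matrix Module

variable {K D : Type*} [Field K] [AddCommGroup D] [Module K D] {k : ℕ}

/-- `g` has the block `a` and the middle block `s` in the standard system -/
def Std (qD : QF K D) {k : ℕ} (g : IG (q0 qD k)) (a : Matrix (Fin k) (Fin k) K) (s : IG qD) : Prop :=
  (∀ x, ((g : V0 K D k ≃ₗ[K] V0 K D k) (x, 0, 0)).1 = a *ᵥ x) ∧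
    ∀ y, ∃ x x', (g : V0 K D k ≃ₗ[K] V0 K D k) (x, y, 0) = (0, (s : D ≃ₗ[K] D) y, x')

private theorem frm_h_e0 (qD : QF K D) (i : Fin k) (v : V0 K D k) :
    (q0 qD k).h (e0 K D k i) v = v.2.2 i := by
  rw [q0_h]
  simp [e0, qD.zero_left]

private theorem frm_h_e0' (qD : QF K D) (i : Fin k) (v : V0 K D k) :
    (q0 qD k).h (e0' K D k i) v = v.1 i := by
  rw [q0_h]
  simp [e0', qD.zero_left]

theorem q0_ND (qD : QF K D) (hD : qD.ND ⊤) : (q0 qD k).ND ⊤ := by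
  intro x _ hx
  refine Prod.ext ?_ (Prod.ext ?_ ?_)
  · funext i
    have h1 := hx (e0' K D k i) trivial
    rw [(q0 qD k).symm (e0' K D k i) x, frm_h_e0'] at h1
    exact h1
  · refine hD x.2.1 trivial fun y _ => ?_
    have h1 := hx (0, y, 0) trivial
    rw [q0_h] at h1
    simpa using h1
  · funext i
    have h1 := hx (e0 K D k i) trivial
    rw [(q0 qD k).symm (e0 K D k i) x, frm_h_e0] at h1
    exact h1

theorem V0_finrank [FiniteDimensional K D] : finrank K (V0 K D k) = 2 * k + finrank K D := by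
  show finrank K ((Fin k → K) × D × (Fin k → K)) = _
  rw [Module.finrank_prod, Module.finrank_prod, Module.finrank_fin_fun]
  ring

theorem e0_hyp (qD : QF K D) : (q0 qD k).Hyp ⊤ (e0 K D k) (e0' K D k) := by
  refine ⟨fun _ => trivial, fun _ => trivial, fun i => ?_, fun i => ?_, fun i j => ?_,
    fun i j => ?_, fun i j => ?_⟩
  · rw [q0_Q]
    simp [e0, qD.Q_zero]
  · rw [q0_Q]
    simp [e0', qD.Q_zero]
  · rw [frm_h_e0]
    simp [e0]
  · rw [frm_h_e0']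
    simp [e0']
  · rw [frm_h_e0']
    simp [e0, Pi.single_apply]

/-- `Dp ⊤ e0 e0' = {(0, y, 0)}` -/
theorem mem_Dp_e0 (qD : QF K D) (v : V0 K D k) :
    v ∈ (q0 qD k).Dp ⊤ (e0 K D k) (e0' K D k) ↔ v.1 = 0 ∧ v.2.2 = 0 := by
  rw [QF.mem_Dp]
  constructor
  · rintro ⟨-, h⟩
    refine ⟨funext fun i => ?_, funext fun i => ?_⟩
    · have h1 := (h i).2
      rwa [frm_h_e0'] at h1
    · have h1 := (h i).1
      rwa [frm_h_e0] at h1
  · rintro ⟨h1, h2⟩
    refine ⟨trivial, fun i => ?_⟩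
    rw [frm_h_e0, frm_h_e0', h1, h2]
    exact ⟨rfl, rfl⟩

/-- Let `P` be the isometry of `witt` from the standard system (`e0_hyp`) to `w`, `w'`.  `P⁻¹ * g * P` has the block `a`:
`a i j = h (w' i) (g (w j)) = h (e0' i) (P⁻¹ g P (e0 j))`, which is the coordinate `i` of `(P⁻¹ g P (e0 j)).1`.
`P` maps `Dp ⊤ e0 e0'` onto `Dp ⊤ w w'` and the spans of `e0`, `e0'` onto those of `w`, `w'`.  `s'` is the
restriction of `P⁻¹ s P` to `D` (`mem_Dp_e0`); it is an isometry by `mid_iso`, injective, so bijective.  For `y ∈ D` apply `Mid` to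
`P (0, y, 0)`. -/
theorem frame [FiniteDimensional K D] (qD : QF K D) (hD : qD.ND ⊤) (g : IG (q0 qD k))
    {w w' : Fin k → V0 K D k} {s : V0 K D k →ₗ[K] V0 K D k} (h : (q0 qD k).Hyp ⊤ w w')
    (hm : (q0 qD k).Mid ⊤ ((g : V0 K D k ≃ₗ[K] V0 K D k) : V0 K D k →ₗ[K] V0 K D k) w w' s)
    {a : Matrix (Fin k) (Fin k) K}
    (ha : ∀ i j, (q0 qD k).h (w' i) ((g : V0 K D k ≃ₗ[K] V0 K D k) (w j)) = a i j) :
    ∃ (P : IG (q0 qD k)) (s' : IG qD), Std qD (P⁻¹ * g * P) a s' ∧ (s = LinearMap.id → s' = 1) := by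
  classical
  obtain ⟨P, hP, hPw⟩ := witt (q0 qD k) (q0_ND qD hD) (e0_hyp qD) h
  have hPQ : ∀ x, (q0 qD k).Q (P x) = (q0 qD k).Q x := hP
  have hPh : ∀ x y, (q0 qD k).h (P x) (P y) = (q0 qD k).h x y := fun x y =>
    (show (q0 qD k).Iso ⊤ (P : V0 K D k →ₗ[K] V0 K D k) from
      ⟨fun _ _ => trivial, fun x _ => hP x⟩).h (x := x) (y := y) trivial trivial
  -- the embedding of `D`
  let j : D →ₗ[K] V0 K D k := LinearMap.inr K (Fin k → K) (D × (Fin k → K)) ∘ₗ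
    LinearMap.inl K D (Fin k → K)
  have hj : ∀ y, j y = (0, y, 0) := fun y => rfl
  have hjQ : ∀ y, (q0 qD k).Q (j y) = qD.Q y := by
    intro y
    rw [hj, q0_Q]
    simp
  have hjD : ∀ y, P (j y) ∈ (q0 qD k).Dp ⊤ w w' := by
    intro y
    rw [QF.mem_Dp]
    refine ⟨trivial, fun i => ?_⟩
    rw [← (hPw i).1, ← (hPw i).2, hPh, hPh, frm_h_e0, frm_h_e0']
    exact ⟨rfl, rfl⟩
  have hDj : ∀ x ∈ (q0 qD k).Dp ⊤ w w', P.symm x = j (P.symm x).2.1 := by
    intro x hx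
    have h1 : P.symm x ∈ (q0 qD k).Dp ⊤ (e0 K D k) (e0' K D k) := by
      rw [QF.mem_Dp] at hx ⊢
      refine ⟨trivial, fun i => ?_⟩
      rw [← hPh, ← hPh (e0' K D k i), (hPw i).1, (hPw i).2, P.apply_symm_apply]
      exact hx.2 i
    rw [mem_Dp_e0] at h1
    exact Prod.ext h1.1 (Prod.ext rfl h1.2)
  have hGiso : (q0 qD k).Iso ⊤ ((g : V0 K D k ≃ₗ[K] V0 K D k) : V0 K D k →ₗ[K] V0 K D k) :=
    ⟨fun _ _ => trivial, fun x _ => g.2 x⟩
  have hsiso := mid_iso (q0 qD k) h hGiso hm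
  -- the middle block
  let pr : V0 K D k →ₗ[K] D := LinearMap.fst K D (Fin k → K) ∘ₗ
    LinearMap.snd K (Fin k → K) (D × (Fin k → K))
  let sl : D →ₗ[K] D := pr ∘ₗ (P.symm : V0 K D k →ₗ[K] V0 K D k) ∘ₗ s ∘ₗ
    (P : V0 K D k →ₗ[K] V0 K D k) ∘ₗ j
  have hsl : ∀ y, P.symm (s (P (j y))) = j (sl y) := fun y => hDj _ (hsiso.1 _ (hjD y))
  have hslQ : ∀ y, qD.Q (sl y) = qD.Q y := by
    intro y
    rw [← hjQ (sl y), ← hsl, ← hPQ, P.apply_symm_apply, hsiso.2 _ (hjD y), hPQ, hjQ]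
  have hinj : Function.Injective sl := by
    rw [← LinearMap.ker_eq_bot, LinearMap.ker_eq_bot']
    intro y hy
    exact iso_inj qD hD (G := sl) ⟨fun _ _ => trivial, fun x _ => hslQ x⟩ trivial hy
  let se : D ≃ₗ[K] D := LinearEquiv.ofInjectiveEndo sl hinj
  have hse : ∀ y, se y = sl y := fun y => rfl
  -- the coordinates in `W`
  have hW : ∀ x ∈ Submodule.span K (Set.range w), ∃ u : Fin k → K, P.symm x = (u, 0, 0) := by
    intro x hx
    induction hx using Submodule.span_induction with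
    | mem x hx =>
      obtain ⟨i, rfl⟩ := hx
      exact ⟨Pi.single i 1, by rw [← (hPw i).1, P.symm_apply_apply]; rfl⟩
    | zero => exact ⟨0, by rw [map_zero]; rfl⟩
    | add x y _ _ h1 h2 =>
      obtain ⟨u, hu⟩ := h1
      obtain ⟨v, hv⟩ := h2
      exact ⟨u + v, by rw [map_add, hu, hv]; simp⟩
    | smul c x _ h1 =>
      obtain ⟨u, hu⟩ := h1
      exact ⟨c • u, by rw [map_smul, hu]; simp⟩
  have hW' : ∀ x ∈ Submodule.span K (Set.range w'), ∃ u : Fin k → K, P.symm x = (0, 0, u) := by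
    intro x hx
    induction hx using Submodule.span_induction with
    | mem x hx =>
      obtain ⟨i, rfl⟩ := hx
      exact ⟨Pi.single i 1, by rw [← (hPw i).2, P.symm_apply_apply]; rfl⟩
    | zero => exact ⟨0, by rw [map_zero]; rfl⟩
    | add x y _ _ h1 h2 =>
      obtain ⟨u, hu⟩ := h1
      obtain ⟨v, hv⟩ := h2
      exact ⟨u + v, by rw [map_add, hu, hv]; simp⟩
    | smul c x _ h1 =>
      obtain ⟨u, hu⟩ := h1
      exact ⟨c • u, by rw [map_smul, hu]; simp⟩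
  have hgP : ∀ x, (((⟨P, hP⟩ : IG (q0 qD k))⁻¹ * g * ⟨P, hP⟩ : IG (q0 qD k)) :
      V0 K D k ≃ₗ[K] V0 K D k) x = P.symm ((g : V0 K D k ≃ₗ[K] V0 K D k) (P x)) := fun x => rfl
  refine ⟨⟨P, hP⟩, ⟨se, hslQ⟩, ⟨fun x => ?_, fun y => ?_⟩, fun hs => ?_⟩
  · rw [hgP]
    have hx : ((x, 0, 0) : V0 K D k) = ∑ j, x j • e0 K D k j := by
      refine Prod.ext ?_ (Prod.ext ?_ ?_)
      · rw [Prod.fst_sum]
        funext i
        simp [e0, Finset.sum_apply, Pi.single_apply]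
      · rw [Prod.snd_sum, Prod.fst_sum]
        simp [e0]
      · rw [Prod.snd_sum, Prod.snd_sum]
        simp [e0]
    funext i
    rw [← frm_h_e0' qD i (P.symm _), ← hPh, (hPw i).2, P.apply_symm_apply, hx, map_sum, map_sum,
      map_sum]
    show _ = ∑ j, a i j * x j
    refine Finset.sum_congr rfl fun j _ => ?_
    rw [map_smul, map_smul, map_smul, (hPw j).1, ha, smul_eq_mul, mul_comm]
  · obtain ⟨-, y1, hy1, y2, hy2, he⟩ := hm _ (hjD y)
    obtain ⟨u, hu⟩ := hW y1 hy1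
    obtain ⟨u', hu'⟩ := hW' y2 hy2
    refine ⟨u, u', ?_⟩
    rw [hgP]
    have h1 : P (u, y, 0) = P (j y) + y1 := by
      have h2 : ((u, y, 0) : V0 K D k) = j y + P.symm y1 := by
        rw [hu, hj]
        simp
      rw [h2, map_add, P.apply_symm_apply]
    have h3 : (g : V0 K D k ≃ₗ[K] V0 K D k) (P (j y) + y1) = s (P (j y)) + y2 := he
    rw [h1, h3, map_add, hsl, hu', hj]
    show ((0, sl y, 0) : V0 K D k) + (0, 0, u') = (0, sl y, u')
    simp
  · apply Subtype.ext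
    apply LinearEquiv.ext
    intro y
    show sl y = y
    have h1 := hsl y
    rw [hs, LinearMap.id_apply, P.symm_apply_apply, hj, hj] at h1
    exact (congrArg (fun v : V0 K D k => v.2.1) h1).symm

end ThQ
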