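import Pool.Agent.ThQ.RkH
import Pool.Agent.ThQ.Frm

/-! # Module Par: elements of the commutator subgroup are even -/

namespace ThQ
open Module

variable {K V : Type*} [Field K] [AddCommGroup V] [Module K V] (q : QF K V)

theorem IG_iso (g : IG q) : q.Iso ⊤ ((g : V ≃ₗ[K] V) : V →ₗ[K] V) :=
  ⟨fun _ _ => trivial, fun x _ => g.2 x⟩

/-- `g ↦ rk ⊤ g % 2` is a homomorphism to a commutative group by `par_mul` (`rk ⊤ 1 = 0`), so it is trivial on the commutator subgroup
(for example by `Subgroup.closure_induction`, or as a `MonoidHom` to `Multiplicative (ZMod 2)`). -/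
theorem comm_even [Finite K] [FiniteDimensional K V] (hV : q.ND ⊤) {n : ℕ}
    (hf : finrank K V = 2 * n + 2) {g : IG q} (hg : g ∈ commutator (IG q)) :
    rk ⊤ ((g : V ≃ₗ[K] V) : V →ₗ[K] V) % 2 = 0 := by
  have hf' : finrank K (⊤ : Submodule K V) = 2 * n + 2 := by rw [finrank_top, hf]
  let φ : IG q →* Multiplicative (ZMod 2) := MonoidHom.mk' (fun g =>
    Multiplicative.ofAdd ((rk ⊤ ((g : V ≃ₗ[K] V) : V →ₗ[K] V) : ℕ) : ZMod 2)) (fun g g' => by
      rw [← ofAdd_add, ← Nat.cast_add]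
      congr 1
      rw [ZMod.natCast_eq_natCast_iff]
      exact par_mul q hV hf' (IG_iso q g) (IG_iso q g'))
  have h1 : φ g = 1 := Abelianization.commutator_subset_ker φ hg
  have h2 : ((rk ⊤ ((g : V ≃ₗ[K] V) : V →ₗ[K] V) : ℕ) : ZMod 2) = 0 := h1
  rw [ZMod.natCast_eq_zero_iff] at h2
  exact Nat.mod_eq_zero_of_dvd h2

end ThQ
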