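import Pool.Agent.ThQ.Ldu

/-! # Module ConjL: the unipotent factors -/

namespace ThQ
open Matrix Module

variable {K D : Type*} [Field K] [AddCommGroup D] [Module K D] {k : ℕ}

/-- An element `u` of `Nm` has the form `(x, y, x') ↦ (x, y + α x, x' + β y + Z x)` with linear maps `α`, `β`, `Z`.  If it commutes with
`mL B`: `α (B x) = α x`, so `α = 0` (`B - 1` is onto by `n1`); the isometry property gives `x ⬝ β y = - hD y (α x) = 0`, so
`β = 0`; and `Z B = (B⁻¹)ᵀ Z` as matrices, so `Bᵀ Z B = Z` and `Z = 0` by `syl`. -/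
theorem cent_Nm (qD : QF K D) {B : (Matrix (Fin k) (Fin k) K)ˣ} (hB : SeedQ B) {u : IG (q0 qD k)}
    (hu : u ∈ Nm qD k) (hc : u * mL qD k B = mL qD k B * u) : u = 1 := by
  classical
  obtain ⟨h1, h2, h3⟩ := mem_Nm.1 hu
  set U : V0 K D k ≃ₗ[K] V0 K D k := (u : V0 K D k ≃ₗ[K] V0 K D k) with hU
  have hcom : ∀ v, U ((mL qD k B : V0 K D k ≃ₗ[K] V0 K D k) v) =
      (mL qD k B : V0 K D k ≃ₗ[K] V0 K D k) (U v) := fun v =>
    congrArg (fun g : IG (q0 qD k) => (g : V0 K D k ≃ₗ[K] V0 K D k) v) hc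
  let ι : (Fin k → K) →ₗ[K] V0 K D k := LinearMap.inl K (Fin k → K) (D × (Fin k → K))
  have hι : ∀ x, ι x = (x, 0, 0) := fun x => rfl
  let α : (Fin k → K) →ₗ[K] D := LinearMap.fst K D (Fin k → K) ∘ₗ
    LinearMap.snd K (Fin k → K) (D × (Fin k → K)) ∘ₗ (U : V0 K D k →ₗ[K] V0 K D k) ∘ₗ ι
  let Z : (Fin k → K) →ₗ[K] (Fin k → K) := LinearMap.snd K D (Fin k → K) ∘ₗ
    LinearMap.snd K (Fin k → K) (D × (Fin k → K)) ∘ₗ (U : V0 K D k →ₗ[K] V0 K D k) ∘ₗ ι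
  have hUx : ∀ x, U (x, 0, 0) = (x, α x, Z x) := fun x => Prod.ext (h1 _) rfl
  have hmx : ∀ x : Fin k → K, (mL qD k B : V0 K D k ≃ₗ[K] V0 K D k) (x, 0, 0) =
      ((B : Matrix (Fin k) (Fin k) K) *ᵥ x, 0, 0) := by
    intro x
    rw [mL_apply]
    simp
  have key : ∀ x, α ((B : Matrix (Fin k) (Fin k) K) *ᵥ x) = α x ∧
      Z ((B : Matrix (Fin k) (Fin k) K) *ᵥ x) =
        ((B⁻¹ : (Matrix (Fin k) (Fin k) K)ˣ) : Matrix (Fin k) (Fin k) K)ᵀ *ᵥ Z x := by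
    intro x
    have h4 := hcom (x, 0, 0)
    rw [hmx, hUx, hUx, mL_apply] at h4
    have h5 := congrArg (fun v : V0 K D k => v.2.1) h4
    have h6 := congrArg (fun v : V0 K D k => v.2.2) h4
    exact ⟨h5, h6⟩
  -- `α = 0`
  have hα : ∀ x, α x = 0 := by
    let L : (Fin k → K) →ₗ[K] (Fin k → K) :=
      Matrix.toLin' (B : Matrix (Fin k) (Fin k) K) - LinearMap.id
    have hL : Function.Injective L := by
      rw [← LinearMap.ker_eq_bot, LinearMap.ker_eq_bot']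
      intro x hx
      refine hB.n1 x ?_
      have h5 : (B : Matrix (Fin k) (Fin k) K) *ᵥ x - x = 0 := hx
      exact sub_eq_zero.1 h5
    have hLs : Function.Surjective L := LinearMap.injective_iff_surjective.1 hL
    intro x
    obtain ⟨y, rfl⟩ := hLs x
    have h6 : L y = (B : Matrix (Fin k) (Fin k) K) *ᵥ y - y := rfl
    rw [h6, map_sub, (key y).1, sub_self]
  -- `Z = 0`
  have hZ : ∀ x, Z x = 0 := by
    let M : Matrix (Fin k) (Fin k) K := LinearMap.toMatrix' Z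
    have hM : ∀ x, M *ᵥ x = Z x := fun x => by
      rw [← Matrix.toLin'_apply, Matrix.toLin'_toMatrix']
    have h7 : M * (B : Matrix (Fin k) (Fin k) K) =
        ((B⁻¹ : (Matrix (Fin k) (Fin k) K)ˣ) : Matrix (Fin k) (Fin k) K)ᵀ * M := by
      apply Matrix.toLin'.injective
      apply LinearMap.ext
      intro x
      rw [Matrix.toLin'_apply, Matrix.toLin'_apply, ← Matrix.mulVec_mulVec,
        ← Matrix.mulVec_mulVec, hM, hM]
      exact (key x).2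
    have h8 : (B : Matrix (Fin k) (Fin k) K)ᵀ * M * (B : Matrix (Fin k) (Fin k) K) = M := by
      rw [Matrix.mul_assoc, h7, ← Matrix.mul_assoc, ← Matrix.transpose_mul, Units.inv_mul,
        Matrix.transpose_one, Matrix.one_mul]
    have h9 := hB.syl M h8
    intro x
    rw [← hM, h9, Matrix.zero_mulVec]
  have hβ : ∀ y, U (0, y, 0) = (0, y, 0) := by
    intro y
    refine Prod.ext (h1 _) (Prod.ext (h2 y 0) ?_)
    have h10 : (q0 qD k).Iso ⊤ (U : V0 K D k →ₗ[K] V0 K D k) :=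
      ⟨fun _ _ => trivial, fun x _ => u.2 x⟩
    funext i
    have h11 : (q0 qD k).h (U (0, y, 0)) (U (Pi.single i 1, 0, 0)) =
        (q0 qD k).h (0, y, 0) (Pi.single i 1, 0, 0) :=
      h10.h (x := (0, y, 0)) (y := (Pi.single i 1, 0, 0)) trivial trivial
    rw [hUx, hα, hZ, q0_h, q0_h] at h11
    simpa using h11
  apply Subtype.ext
  apply LinearEquiv.ext
  intro v
  show U v = v
  have h12 : v = (v.1, 0, 0) + ((0, v.2.1, 0) + (0, 0, v.2.2)) := by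
    obtain ⟨a, b, c⟩ := v
    simp
  rw [h12, map_add, map_add, hUx, hα, hZ, hβ, h3]

/-- `x = mL B`.  The map `u ↦ u x u⁻¹ x⁻¹` from the finite group `Nm` to itself (`mL_Nm`) is injective by `cent_Nm`
(`u x u⁻¹ = v x v⁻¹` implies that `v⁻¹ u` commutes with `x`), hence onto. -/
theorem conj_low [Finite K] [Finite D] (qD : QF K D) {B : (Matrix (Fin k) (Fin k) K)ˣ}
    (hB : SeedQ B) {l : IG (q0 qD k)} (hl : l ∈ Nm qD k) :
    ∃ u ∈ Nm qD k, l * mL qD k B = u * mL qD k B * u⁻¹ := by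
  set x := mL qD k B with hx
  have hfinE : Finite (V0 K D k ≃ₗ[K] V0 K D k) := DFunLike.finite _
  have hN : ∀ u ∈ Nm qD k, u * x * u⁻¹ * x⁻¹ ∈ Nm qD k := by
    intro u hu
    have h1 := mL_Nm qD B ((Nm qD k).inv_mem hu)
    have h2 := (Nm qD k).mul_mem hu h1
    rw [← hx] at h2
    have h3 : u * x * u⁻¹ * x⁻¹ = u * (x * u⁻¹ * x⁻¹) := by group
    rw [h3]
    exact h2
  let φ : Nm qD k → Nm qD k := fun u => ⟨u * x * (u : IG (q0 qD k))⁻¹ * x⁻¹, hN _ u.2⟩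
  have hφ : Function.Injective φ := by
    intro u v huv
    have h4 : (u : IG (q0 qD k)) * x * (u : IG (q0 qD k))⁻¹ * x⁻¹ =
        v * x * (v : IG (q0 qD k))⁻¹ * x⁻¹ := congrArg Subtype.val huv
    have h5 : (u : IG (q0 qD k)) * x * (u : IG (q0 qD k))⁻¹ = v * x * (v : IG (q0 qD k))⁻¹ :=
      mul_right_cancel h4
    have h6 : ((v : IG (q0 qD k))⁻¹ * u) * x = x * ((v : IG (q0 qD k))⁻¹ * u) := by
      have h7 : (v : IG (q0 qD k))⁻¹ * (u * x * (u : IG (q0 qD k))⁻¹) * u =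
          (v : IG (q0 qD k))⁻¹ * (v * x * (v : IG (q0 qD k))⁻¹) * u := by rw [h5]
      calc ((v : IG (q0 qD k))⁻¹ * u) * x
          = (v : IG (q0 qD k))⁻¹ * (u * x * (u : IG (q0 qD k))⁻¹) * u := by group
        _ = (v : IG (q0 qD k))⁻¹ * (v * x * (v : IG (q0 qD k))⁻¹) * u := h7
        _ = x * ((v : IG (q0 qD k))⁻¹ * u) := by group
    have h8 := cent_Nm qD hB ((Nm qD k).mul_mem ((Nm qD k).inv_mem v.2) u.2) h6
    apply Subtype.ext
    rw [inv_mul_eq_one] at h8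
    exact h8.symm
  have hsurj : Function.Surjective φ := Finite.injective_iff_surjective.1 hφ
  obtain ⟨u, hu⟩ := hsurj ⟨l, hl⟩
  refine ⟨u, u.2, ?_⟩
  have h9 : (u : IG (q0 qD k)) * x * (u : IG (q0 qD k))⁻¹ * x⁻¹ = l := congrArg Subtype.val hu
  rw [← h9, inv_mul_cancel_right]

open scoped commutatorElement in
private theorem conjl_comm {G : Type*} [Group G] (a b : G) : a * b * a⁻¹ * b⁻¹ ∈ commutator G :=
  Subgroup.commutator_mem_commutator (Subgroup.mem_top a) (Subgroup.mem_top b)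

private theorem conjl_real (qD : QF K D) {C d : (Matrix (Fin k) (Fin k) K)ˣ}
    (h : (d : Matrix (Fin k) (Fin k) K) * C = (C : Matrix (Fin k) (Fin k) K)ᵀ * d) :
    (sw qD k * mL qD k d) * mL qD k C * (sw qD k * mL qD k d)⁻¹ = (mL qD k C)⁻¹ := by
  have h1 : ((d * C * d⁻¹ : (Matrix (Fin k) (Fin k) K)ˣ) : Matrix (Fin k) (Fin k) K) =
      (C : Matrix (Fin k) (Fin k) K)ᵀ := by
    rw [Units.val_mul, Units.val_mul, h, Matrix.mul_assoc, Units.mul_inv, Matrix.mul_one]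
  have h2 : (((d * C * d⁻¹)⁻¹ : (Matrix (Fin k) (Fin k) K)ˣ) : Matrix (Fin k) (Fin k) K) =
      ((C⁻¹ : (Matrix (Fin k) (Fin k) K)ˣ) : Matrix (Fin k) (Fin k) K)ᵀ := by
    apply Units.inv_eq_of_mul_eq_one_right
    rw [h1, ← Matrix.transpose_mul, Units.inv_mul, Matrix.transpose_one]
  have h3 := sw_mL qD (d * C * d⁻¹) C⁻¹ (by rw [h2, Matrix.transpose_transpose])
  rw [← map_inv, ← h3, map_mul, map_mul, map_inv]
  group

private theorem conjl_sw (qD : QF K D) : (sw qD k)⁻¹ = sw qD k := rfl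

/-- `l = (u x u⁻¹) x⁻¹` -/
theorem low_comm [Finite K] [Finite D] (qD : QF K D) {B : (Matrix (Fin k) (Fin k) K)ˣ}
    (hB : SeedQ B) {l : IG (q0 qD k)} (hl : l ∈ Nm qD k) : l ∈ commutator (IG (q0 qD k)) := by
  obtain ⟨u, -, h⟩ := conj_low qD hB hl
  have h1 : l = u * mL qD k B * u⁻¹ * (mL qD k B)⁻¹ := by
    rw [← h, mul_inv_cancel_right]
  rw [h1]
  exact conjl_comm _ _

/-- `sw v sw⁻¹ ∈ Nm`, the commutator subgroup is normal -/
theorem up_comm [Finite K] [Finite D] (qD : QF K D) {B : (Matrix (Fin k) (Fin k) K)ˣ}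
    (hB : SeedQ B) {v : IG (q0 qD k)} (hv : v ∈ Np qD k) : v ∈ commutator (IG (q0 qD k)) := by
  have h1 := low_comm qD hB (mem_Np.1 hv)
  have hn : (commutator (IG (q0 qD k))).Normal := inferInstance
  have h2 := hn.conj_mem _ h1 (sw qD k)⁻¹
  have h3 : (sw qD k)⁻¹ * (sw qD k * v * (sw qD k)⁻¹) * ((sw qD k)⁻¹)⁻¹ = v := by group
  rwa [h3] at h2

/-- `B = C * C`, `d C = Cᵀ d`.  `t = sw * mL d` satisfies `t (mL C) t⁻¹ = (mL C)⁻¹` (`sw_mL`), so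
`mL B = (mL C) ^ 2 = (mL C) (t⁻¹ (mL C)⁻¹ t)` is a commutator of `mL C` and `t⁻¹`. -/
theorem seed_comm (qD : QF K D) {B : (Matrix (Fin k) (Fin k) K)ˣ} (hB : SeedQ B) :
    mL qD k B ∈ commutator (IG (q0 qD k)) := by
  obtain ⟨C, d, hC, hd⟩ := hB.root
  set t := sw qD k * mL qD k d with ht
  have h1 : t * mL qD k C * t⁻¹ = (mL qD k C)⁻¹ := conjl_real qD hd
  have h2 : t⁻¹ * (mL qD k C)⁻¹ * t = mL qD k C := by
    rw [← h1]
    group
  have h3 : mL qD k B = mL qD k C * t⁻¹ * (mL qD k C)⁻¹ * (t⁻¹)⁻¹ := by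
    rw [inv_inv]
    calc mL qD k B = mL qD k C * mL qD k C := by rw [← map_mul, hC]
      _ = mL qD k C * (t⁻¹ * (mL qD k C)⁻¹ * t) := by rw [h2]
      _ = mL qD k C * t⁻¹ * (mL qD k C)⁻¹ * t := by group
  rw [h3]
  exact conjl_comm _ _

/-- `t = sw * mL d`, `d B = Bᵀ d` (from `root`): `t (mL B) t⁻¹ = (mL B)⁻¹`, and `t⁻¹ Np t = Nm` -/
theorem seed_real (qD : QF K D) {B : (Matrix (Fin k) (Fin k) K)ˣ} (hB : SeedQ B) :
    ∃ t : IG (q0 qD k), t * mL qD k B * t⁻¹ = (mL qD k B)⁻¹ ∧ ∀ v ∈ Np qD k, t⁻¹ * v * t ∈ Nm qD k := by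
  obtain ⟨C, d, hC, hd⟩ := hB.root
  have hdB : (d : Matrix (Fin k) (Fin k) K) * B = (B : Matrix (Fin k) (Fin k) K)ᵀ * d := by
    rw [← hC, Units.val_mul, Matrix.transpose_mul, ← Matrix.mul_assoc, hd, Matrix.mul_assoc, hd,
      Matrix.mul_assoc]
  refine ⟨sw qD k * mL qD k d, conjl_real qD hdB, fun v hv => ?_⟩
  have h1 := mL_Nm qD d⁻¹ (mem_Np.1 hv)
  have h2 : (sw qD k * mL qD k d)⁻¹ * v * (sw qD k * mL qD k d) =
      mL qD k d⁻¹ * (sw qD k * v * (sw qD k)⁻¹) * (mL qD k d⁻¹)⁻¹ := by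
    have h3 : (sw qD k)⁻¹ * v * sw qD k = sw qD k * v * (sw qD k)⁻¹ := by
      rw [conjl_sw]
    rw [← h3, map_inv]
    group
  rw [h2]
  exact h1

/-- The element `g = l * mL u * v` with `S u S⁻¹ = T B T⁻¹ B⁻¹` (as units: take `S`, `T` as units).  `u = (A B A⁻¹) (C B⁻¹ C⁻¹)` with `A = S⁻¹ T`,
`C = S⁻¹`.  With `x = mL B`: `l * mL (A B A⁻¹) = mL A * (l' * x) * (mL A)⁻¹`, `l' = (mL A)⁻¹ l (mL A) ∈ Nm`, which is a conjugate of `x` by
`conj_low`.  `mL (C B⁻¹ C⁻¹) * v = mL C * (x⁻¹ * v') * (mL C)⁻¹` with `v' ∈ Np`; by `seed_real`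
`x⁻¹ * v' = t * (x * v'') * t⁻¹` with `v'' = t⁻¹ v' t ∈ Nm`, and `x * v'' = (x v'' x⁻¹) * x` is a conjugate of `x` by `conj_low`
(`mL_Nm`). -/
theorem main_block [Finite K] [Finite D] (qD : QF K D) {B : (Matrix (Fin k) (Fin k) K)ˣ}
    (hB : SeedQ B) {l v : IG (q0 qD k)} (hl : l ∈ Nm qD k) (hv : v ∈ Np qD k)
    {u : (Matrix (Fin k) (Fin k) K)ˣ} {S T : Matrix (Fin k) (Fin k) K} (hS : IsUnit S.det)
    (hT : IsUnit T.det) (hST : S * (u : Matrix (Fin k) (Fin k) K) * S⁻¹ =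
      T * (B : Matrix (Fin k) (Fin k) K) * T⁻¹ * (B : Matrix (Fin k) (Fin k) K)⁻¹) :
    ∃ r r' : IG (q0 qD k), l * mL qD k u * v = r * mL qD k B * r⁻¹ * (r' * mL qD k B * r'⁻¹) := by
  have hSu := Matrix.isUnit_iff_isUnit_det S |>.2 hS
  have hTu := Matrix.isUnit_iff_isUnit_det T |>.2 hT
  obtain ⟨S, rfl⟩ := hSu
  obtain ⟨T, rfl⟩ := hTu
  have h1 : S * u * S⁻¹ = T * B * T⁻¹ * B⁻¹ := by
    apply Units.ext
    simp only [Units.val_mul, Matrix.coe_units_inv]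
    exact hST
  set x := mL qD k B with hx
  obtain ⟨t, ht1, ht2⟩ := seed_real qD hB
  set a := mL qD k (S⁻¹ * T) with ha
  set c := mL qD k S⁻¹ with hc
  have hu : mL qD k u = a * x * a⁻¹ * (c * x⁻¹ * c⁻¹) := by
    have h2 : u = (S⁻¹ * T) * B * (S⁻¹ * T)⁻¹ * (S⁻¹ * B⁻¹ * (S⁻¹)⁻¹) := by
      calc u = S⁻¹ * (S * u * S⁻¹) * S := by group
        _ = S⁻¹ * (T * B * T⁻¹ * B⁻¹) * S := by rw [h1]
        _ = _ := by group
    rw [h2]
    simp only [map_mul, map_inv, ha, hc, hx]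
  -- first factor
  have hl' : a⁻¹ * l * a ∈ Nm qD k := by
    have h3 := mL_Nm qD (S⁻¹ * T)⁻¹ hl
    rw [map_inv, ← ha, inv_inv] at h3
    exact h3
  obtain ⟨u1, -, hu1⟩ := conj_low qD hB hl'
  -- second factor
  have hv' : c⁻¹ * v * c ∈ Np qD k := by
    have h3 := mL_Np qD (S⁻¹)⁻¹ hv
    rw [map_inv, ← hc, inv_inv] at h3
    exact h3
  have hv'' := ht2 _ hv'
  obtain ⟨u2, -, hu2⟩ := conj_low qD hB (mL_Nm qD B hv'')
  rw [← hx] at hu1 hu2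
  rw [inv_mul_cancel_right] at hu2
  refine ⟨a * u1, c * t * u2, ?_⟩
  have e1 : l * (a * x * a⁻¹) = a * u1 * x * (a * u1)⁻¹ := by
    calc l * (a * x * a⁻¹) = a * ((a⁻¹ * l * a) * x) * a⁻¹ := by group
      _ = a * (u1 * x * u1⁻¹) * a⁻¹ := by rw [hu1]
      _ = _ := by group
  have e2 : (c * x⁻¹ * c⁻¹) * v = c * t * u2 * x * (c * t * u2)⁻¹ := by
    calc (c * x⁻¹ * c⁻¹) * v = c * (x⁻¹ * (c⁻¹ * v * c)) * c⁻¹ := by group
      _ = c * ((t * x * t⁻¹) * (c⁻¹ * v * c)) * c⁻¹ := by rw [ht1]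
      _ = c * (t * (x * (t⁻¹ * (c⁻¹ * v * c) * t)) * t⁻¹) * c⁻¹ := by group
      _ = c * (t * (u2 * x * u2⁻¹) * t⁻¹) * c⁻¹ := by rw [hu2]
      _ = _ := by group
  rw [hu]
  calc l * (a * x * a⁻¹ * (c * x⁻¹ * c⁻¹)) * v =
      (l * (a * x * a⁻¹)) * ((c * x⁻¹ * c⁻¹) * v) := by group
    _ = _ := by rw [e1, e2]

end ThQ
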