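import Pool.Agent.ThQ.SgnA
import Pool.Agent.ThQ.ConjL

/-! # Module SgnB: the block of a commutator has a square determinant -/

namespace ThQ
open Matrix Module

variable {K D : Type*} [Field K] [AddCommGroup D] [Module K D] {k : ℕ}

/-- In a finite field of odd characteristic a product is a square iff both or none of the factors is a square. -/
private theorem isSquare_mul_iff [Finite K] (h2 : (2 : K) ≠ 0) (a b : K) (ha : a ≠ 0) (hb : b ≠ 0) :
    IsSquare (a * b) ↔ (IsSquare a ↔ IsSquare b) := by
  classical
  let _ : Fintype K := Fintype.ofFinite K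
  have hc : ringChar K ≠ 2 := by
    intro h
    apply h2
    have := ringChar.spec K 2
    rw [h] at this
    exact_mod_cast this.mpr (dvd_refl 2)
  rw [← quadraticChar_one_iff_isSquare ha, ← quadraticChar_one_iff_isSquare hb,
    ← quadraticChar_one_iff_isSquare (mul_ne_zero ha hb), map_mul]
  rcases quadraticChar_dichotomy ha with h | h <;> rcases quadraticChar_dichotomy hb with h' | h' <;>
    rw [h, h'] <;> norm_num

/-- In characteristic not two: `sgnQ (mL u) = 1` iff `det u` is a square.  Apply `gl_ind` to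
`P u = (sgnQ (mL u) = 1 ↔ IsSquare u.det)` : commutators have sign `1` (`ℤˣ` is commutative) and determinant `1`; `dgU i t` has
determinant `t` (`sgn_dg`); products: `ℤˣ = {1, -1}` and in a finite field of odd characteristic `a b` is a square iff both
or none of `a`, `b ≠ 0` are squares (`quadraticChar` is multiplicative). -/
theorem sgn_mL [Finite K] [Finite D] (h2 : (2 : K) ≠ 0) (hk : 3 ≤ k) (qD : QF K D)
    (u : (Matrix (Fin k) (Fin k) K)ˣ) :
    sgnQ (q0 qD k) (mL qD k u) = 1 ↔ IsSquare (u : Matrix (Fin k) (Fin k) K).det := by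
  classical
  have hdet : ∀ u : (Matrix (Fin k) (Fin k) K)ˣ, (u : Matrix (Fin k) (Fin k) K).det ≠ 0 := fun u =>
    ((Matrix.isUnit_iff_isUnit_det _).mp u.isUnit).ne_zero
  refine gl_ind hk (P := fun u => sgnQ (q0 qD k) (mL qD k u) = 1 ↔
    IsSquare (u : Matrix (Fin k) (Fin k) K).det) ?_ ?_ ?_ u
  · intro u hu
    have h1 : sgnQ (q0 qD k) (mL qD k u) = 1 := by
      have : u ∈ ((sgnQ (q0 qD k)).comp (mL qD k)).ker := Abelianization.commutator_subset_ker _ hu
      exact this
    let dt : (Matrix (Fin k) (Fin k) K)ˣ →* Kˣ := Units.map (Matrix.detMonoidHom)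
    have h3 : dt u = 1 := by
      have : u ∈ dt.ker := Abelianization.commutator_subset_ker _ hu
      exact this
    have h4 : (u : Matrix (Fin k) (Fin k) K).det = 1 := congrArg Units.val h3
    rw [h4]
    exact ⟨fun _ => IsSquare.one, fun _ => h1⟩
  · intro i t
    rw [sgn_dg h2]
    have h1 : ((dgU i t : (Matrix (Fin k) (Fin k) K)ˣ) : Matrix (Fin k) (Fin k) K).det = (t : K) := by
      show (diagonal (Function.update 1 i (t : K))).det = _
      rw [det_diagonal, Finset.prod_update_of_mem (Finset.mem_univ i)]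
      simp
    rw [h1]
    constructor
    · rintro ⟨s, rfl⟩
      exact ⟨s, by rw [Units.val_mul]⟩
    · rintro ⟨s, hs⟩
      have hs0 : s ≠ 0 := by
        rintro rfl
        rw [mul_zero] at hs
        exact t.ne_zero hs
      exact ⟨Units.mk0 s hs0, Units.ext (by rw [Units.val_mul, Units.val_mk0]; exact hs)⟩
  · intro u v hu hv
    rw [map_mul, map_mul, Units.val_mul, det_mul, isSquare_mul_iff h2 _ _ (hdet u) (hdet v), ← hu, ← hv]
    rcases Int.units_eq_one_or (sgnQ (q0 qD k) (mL qD k u)) with h | h <;>
      rcases Int.units_eq_one_or (sgnQ (q0 qD k) (mL qD k v)) with h' | h' <;>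
      rw [h, h'] <;> decide

/-- `g = l * mL u * v` (`ldu`, `oD 1 = 1`), `l`, `v` are in the commutator subgroup (`low_comm`, `up_comm`), so `mL u` is; its sign is `1`.
In characteristic two all elements are squares. -/
theorem comm_square [Finite K] [Finite D] (hk : 3 ≤ k) (qD : QF K D)
    {B : (Matrix (Fin k) (Fin k) K)ˣ} (hB : SeedQ B) {g : IG (q0 qD k)}
    (hg : g ∈ commutator (IG (q0 qD k))) {a : Matrix (Fin k) (Fin k) K} (h : Std qD g a 1)
    (ha : IsUnit a.det) : IsSquare a.det := by
  classical
  let _ : Fintype K := Fintype.ofFinite K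
  by_cases h2 : (2 : K) = 0
  · have hc : ringChar K = 2 := by
      have h1 : ringChar K ∣ 2 := (ringChar.spec K 2).mp (by exact_mod_cast h2)
      rcases (Nat.dvd_prime Nat.prime_two).mp h1 with h3 | h3
      · exact absurd h3 CharP.ringChar_ne_one
      · exact h3
    exact FiniteField.isSquare_of_char_two hc _
  · obtain ⟨l, hl, v, hv, u, hu, hguv⟩ := ldu qD h ha
    rw [map_one, mul_one] at hguv
    have hl' := low_comm qD hB hl
    have hv' := up_comm qD hB hv
    have hm : mL qD k u ∈ commutator (IG (q0 qD k)) := by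
      have : mL qD k u = l⁻¹ * g * v⁻¹ := by
        rw [hguv]
        group
      rw [this]
      exact Subgroup.mul_mem _ (Subgroup.mul_mem _ (Subgroup.inv_mem _ hl') hg) (Subgroup.inv_mem _ hv')
    have h1 : sgnQ (q0 qD k) (mL qD k u) = 1 := by
      have : mL qD k u ∈ (sgnQ (q0 qD k)).ker := Abelianization.commutator_subset_ker _ hm
      exact this
    rw [← hu]
    exact (sgn_mL h2 hk qD u).mp h1

end ThQ
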