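import Pool.Agent.ThQ.AltA
import Pool.Agent.ThQ.AltC
import Pool.Agent.ThQ.AdjB
import Pool.Agent.ThQ.SgnB
import Pool.Agent.ThQ.Seed
import Pool.Agent.ThQ.Fac2
import Pool.Agent.ThQ.Par
import Pool.Agent.ThU.Fact

/-! # Module Main -/

namespace ThQ
open Matrix Polynomial Module

variable {K D : Type*} [Field K] [AddCommGroup D] [Module K D] {k : ℕ}

/-- the factorization property of a block -/
def Fac (f : K[X]) (k : ℕ) (a : Matrix (Fin k) (Fin k) K) : Prop :=
  ∃ S T : Matrix (Fin k) (Fin k) K, IsUnit S.det ∧ IsUnit T.det ∧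
    S * a * S⁻¹ = T * ThU.comp f k * T⁻¹ * (ThU.comp f k)⁻¹

theorem fac_one {f : K[X]} (hC : IsUnit (ThU.comp f k).det) : Fac f k (1 : Matrix (Fin k) (Fin k) K) := by
  refine ⟨1, 1, by simp, by simp, ?_⟩
  rw [inv_one, Matrix.mul_one, Matrix.mul_one, Matrix.mul_one, Matrix.one_mul, mul_nonsing_inv _ hC]

theorem Fac.unit {f : K[X]} {a : Matrix (Fin k) (Fin k) K} (hC : IsUnit (ThU.comp f k).det)
    (h : Fac f k a) : IsUnit a.det := by
  obtain ⟨S, T, hS, hT, h⟩ := h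
  have h1 := congrArg Matrix.det h
  have e : (S * a * S⁻¹).det = a.det := by
    rw [det_mul, det_mul, mul_comm S.det, mul_assoc, ← det_mul, mul_nonsing_inv _ hS, det_one, mul_one]
  rw [e] at h1
  rw [h1, det_mul, det_mul, det_mul]
  exact ((hT.mul hC).mul (isUnit_nonsing_inv_det _ hT)).mul (isUnit_nonsing_inv_det _ hC)

/-- a system with the middle block `1`, in standard position -/
theorem std_of_sys [FiniteDimensional K D] (qD : QF K D) (hD : qD.ND ⊤) (g : IG (q0 qD k))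
    {a : Matrix (Fin k) (Fin k) K}
    (h : (q0 qD k).Sys1 ⊤ ((g : V0 K D k ≃ₗ[K] V0 K D k) : V0 K D k →ₗ[K] V0 K D k) a) :
    ∃ P : IG (q0 qD k), Std qD (P⁻¹ * g * P) a 1 := by
  obtain ⟨w, w', hh, ha, hm⟩ := h
  obtain ⟨P, s', hP, hs⟩ := frame qD hD g hh hm (fun i j => ha i j)
  rw [hs rfl] at hP
  exact ⟨P, hP⟩

theorem prod_of_sys [Finite K] [Finite D] (hk : 3 ≤ k) (qD : QF K D) (hD : qD.ND ⊤)
    (hD2 : finrank K D = 2) {f : K[X]} {B : (Matrix (Fin k) (Fin k) K)ˣ}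
    (hf : (B : Matrix (Fin k) (Fin k) K) = ThU.comp f k) (hB : SeedQ B) (g : IG (q0 qD k))
    {a : Matrix (Fin k) (Fin k) K}
    (h : (q0 qD k).Sys1 ⊤ ((g : V0 K D k ≃ₗ[K] V0 K D k) : V0 K D k →ₗ[K] V0 K D k) a)
    (hfac : Fac f k a) : ∃ r ∈ commutator (IG (q0 qD k)), ∃ r' ∈ commutator (IG (q0 qD k)),
      g = r * mL qD k B * r⁻¹ * (r' * mL qD k B * r'⁻¹) := by
  have : FiniteDimensional K D := Module.Finite.of_finite
  have hC : IsUnit (ThU.comp f k).det := by
    rw [← hf]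
    exact (Matrix.isUnit_iff_isUnit_det _).1 B.isUnit
  obtain ⟨P, hP⟩ := std_of_sys qD hD g h
  obtain ⟨l, hl, v, hv, u, hu, hg⟩ := ldu qD hP (hfac.unit hC)
  obtain ⟨S, T, hS, hT, hST⟩ := hfac
  rw [← hu, ← hf] at hST
  obtain ⟨r, r', hr⟩ := main_block qD hB hl hv hS hT hST
  rw [map_one, mul_one, hr] at hg
  obtain ⟨r0, hr0, e0⟩ := adj hk qD hD hD2 hB (P * r)
  obtain ⟨r1, hr1, e1⟩ := adj hk qD hD hD2 hB (P * r')
  refine ⟨r0, hr0, r1, hr1, ?_⟩
  rw [← e0, ← e1]
  have e : g = P * (P⁻¹ * g * P) * P⁻¹ := by group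
  rw [e, hg]
  group

/-- the central element `-1` -/
def negI {V : Type*} [AddCommGroup V] [Module K V] (q : QF K V) : IG q :=
  ⟨LinearEquiv.neg K, fun x => q.Q_neg x⟩

theorem negI_apply {V : Type*} [AddCommGroup V] [Module K V] (q : QF K V) (x : V) :
    (negI q : V ≃ₗ[K] V) x = -x := rfl

theorem negI_comm {V : Type*} [AddCommGroup V] [Module K V] (q : QF K V) (y : IG q) :
    negI q * y = y * negI q := by
  apply Subtype.ext
  apply LinearEquiv.ext
  intro x
  show -((y : V ≃ₗ[K] V) x) = (y : V ≃ₗ[K] V) (-x)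
  rw [map_neg]

theorem negI_sq {V : Type*} [AddCommGroup V] [Module K V] (q : QF K V) : negI q * negI q = 1 := by
  apply Subtype.ext
  apply LinearEquiv.ext
  intro x
  show -(-x) = x
  rw [neg_neg]

/-- The main theorem for `V0`. -/
theorem main_V0 [Finite K] [Finite D] (h3 : ∃ c : K, c ≠ 0 ∧ c ≠ 1) (hk : 3 ≤ k) (qD : QF K D)
    (hD : qD.ND ⊤) (hD2 : finrank K D = 2) :
    ∃ x ∈ commutator (IG (q0 qD k)), ∀ g ∈ commutator (IG (q0 qD k)),
      ∃ z ∈ commutator (IG (q0 qD k)), (∀ y : IG (q0 qD k), z * y = y * z) ∧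
        ∃ r ∈ commutator (IG (q0 qD k)), ∃ r' ∈ commutator (IG (q0 qD k)),
          g = z * (r * x * r⁻¹ * (r' * x * r'⁻¹)) := by
  have : FiniteDimensional K D := Module.Finite.of_finite
  obtain ⟨f, B, hfm, hfi, hfn, hf0, hfB, hB⟩ := seed_ex (K := K) hk
  have hC : IsUnit (ThU.comp f k).det := by
    rw [← hfB]
    exact (Matrix.isUnit_iff_isUnit_det _).1 B.isUnit
  have hx := seed_comm qD hB
  refine ⟨mL qD k B, hx, fun g hg => ?_⟩
  have hV : (q0 qD k).ND ⊤ := q0_ND qD hD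
  have hfr : finrank K (V0 K D k) = 2 * k + 2 := by rw [V0_finrank, hD2]
  have hfrT : finrank K (⊤ : Submodule K (V0 K D k)) = 2 * k + 2 := by rw [finrank_top]; exact hfr
  have hGi := IG_iso (q0 qD k) g
  have key : ∀ a : Matrix (Fin k) (Fin k) K,
      (q0 qD k).Sys1 ⊤ ((g : V0 K D k ≃ₗ[K] V0 K D k) : V0 K D k →ₗ[K] V0 K D k) a → Fac f k a →
      ∃ z ∈ commutator (IG (q0 qD k)), (∀ y : IG (q0 qD k), z * y = y * z) ∧
        ∃ r ∈ commutator (IG (q0 qD k)), ∃ r' ∈ commutator (IG (q0 qD k)),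
          g = z * (r * mL qD k B * r⁻¹ * (r' * mL qD k B * r'⁻¹)) := fun a ha hfa => by
    obtain ⟨r, hr, r', hr', e⟩ := prod_of_sys hk qD hD hD2 hfB hB g ha hfa
    exact ⟨1, Subgroup.one_mem _, fun y => by rw [one_mul, mul_one], r, hr, r', hr', by
      rw [one_mul]; exact e⟩
  have hconj : ∀ P : IG (q0 qD k), P⁻¹ * g * P ∈ commutator (IG (q0 qD k)) := fun P => by
    have hn : (commutator (IG (q0 qD k))).Normal := inferInstance
    have h := hn.conj_mem g hg P⁻¹
    rwa [inv_inv] at h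
  by_cases hne : ∃ w ∈ (⊤ : Submodule K (V0 K D k)), (q0 qD k).Q w = 0 ∧
      (q0 qD k).h w ((g : V0 K D k ≃ₗ[K] V0 K D k) w) ≠ 0
  · -- the generic case
    obtain ⟨n, rfl⟩ : ∃ n, k = n + 1 := ⟨k - 1, by omega⟩
    obtain ⟨κ, hκ, l, hl, ⟨i, j, hij⟩, hsys⟩ := altA (q0 qD (n + 1)) h3 (by omega) hV hfrT hGi
      (comm_even (q0 qD (n + 1)) hV hfr hg) hne
    obtain ⟨a, ha, hau, had⟩ := hsys 1 one_ne_zero
    have hdet : ∀ (t : K) (a : Matrix (Fin (n + 1)) (Fin (n + 1)) K), (∀ i j, j < i → a i j = 0) →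
        (∀ i, a i i = (Fin.cons (t ^ 2 * κ) l : Fin (n + 1) → K) i) →
        a.det = t ^ 2 * (κ * ∏ i, l i) := fun t a h1 h2 => by
      rw [det_of_upperTriangular (fun i j hij => h1 i j hij), Fin.prod_univ_succ, h2 0, Fin.cons_zero]
      simp_rw [h2, Fin.cons_succ]
      ring
    have hp : κ * ∏ i, l i ≠ 0 := mul_ne_zero hκ (Finset.prod_ne_zero_iff.2 fun i _ => hl i)
    obtain ⟨P, hP⟩ := std_of_sys qD hD g ha
    have hsq := comm_square hk qD hB (hconj P) hP (by
      rw [hdet 1 a hau had, one_pow, one_mul]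
      exact isUnit_iff_ne_zero.2 hp)
    rw [hdet 1 a hau had, one_pow, one_mul] at hsq
    obtain ⟨u, hu⟩ := hsq
    have hu0 : u ≠ 0 := by
      rintro rfl
      exact hp (by rw [hu, mul_zero])
    obtain ⟨a', ha', hau', had'⟩ := hsys u⁻¹ (inv_ne_zero hu0)
    refine key a' ha' ?_
    obtain ⟨S, T, h⟩ := ThU.fact hfm hfn hf0 a' hau' (by
      rw [← det_of_upperTriangular (fun i j hij => hau' i j hij), hdet _ a' hau' had', hu]
      field_simp) ⟨i.succ, j.succ, by rw [had', had', Fin.cons_succ, Fin.cons_succ]; exact hij⟩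
    exact ⟨S, T, h⟩
  · -- exceptional isometries
    push Not at hne
    obtain ⟨c, hE⟩ := sym_exc5 (q0 qD k) hV (by rw [hfrT]; omega) hGi
      (fun w hw h0 => hne w hw h0)
    by_cases hc : c = 2
    · subst hc
      exact key 1 (exc_two (q0 qD k) k ⊤ _ hV hfrT hGi hE) (fac_one hC)
    by_cases hc' : c = -2
    · subst hc'
      -- pass to `-g`
      have hE' : (q0 qD k).Exc ⊤ (((negI (q0 qD k) * g : IG (q0 qD k)) : V0 K D k ≃ₗ[K] V0 K D k) :
          V0 K D k →ₗ[K] V0 K D k) 2 := fun x hx => by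
        have h := hE x hx
        show (q0 qD k).h x (-((g : V0 K D k ≃ₗ[K] V0 K D k) x)) = _
        rw [map_neg]
        have h' : (q0 qD k).h x ((g : V0 K D k ≃ₗ[K] V0 K D k) x) = -2 * (q0 qD k).Q x := h
        rw [h']
        ring
      obtain ⟨r, hr, r', hr', e⟩ := prod_of_sys hk qD hD hD2 hfB hB (negI (q0 qD k) * g)
        (exc_two (q0 qD k) k ⊤ _ hV hfrT (IG_iso _ _) hE') (fac_one hC)
      have hz : negI (q0 qD k) ∈ commutator (IG (q0 qD k)) := by
        have h1 : negI (q0 qD k) * g ∈ commutator (IG (q0 qD k)) := by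
          rw [e]
          exact Subgroup.mul_mem _ (Subgroup.mul_mem _ (Subgroup.mul_mem _ hr hx)
            (Subgroup.inv_mem _ hr)) (Subgroup.mul_mem _ (Subgroup.mul_mem _ hr' hx)
            (Subgroup.inv_mem _ hr'))
        have h2 := Subgroup.mul_mem _ h1 (Subgroup.inv_mem _ hg)
        rwa [mul_inv_cancel_right] at h2
      refine ⟨negI (q0 qD k), hz, negI_comm _, r, hr, r', hr', ?_⟩
      rw [← e, ← mul_assoc, negI_sq, one_mul]
    · rcases Nat.even_or_odd' k with ⟨j, hj | hj⟩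
      · -- `k` even
        obtain ⟨j', rfl⟩ : ∃ j', j = j' + 1 := ⟨j - 1, by omega⟩
        have hf6 : finrank K (⊤ : Submodule K (V0 K D k)) = 4 * j' + 6 := by rw [hfrT]; omega
        let e : Fin 2 ⊕ Fin (2 * j') ≃ Fin k := finSumFinEquiv.trans (finCongr (by omega))
        have hs1 := sys1_reindex (q0 qD k) e
          (exc_six (q0 qD k) j' ⊤ _ hc hc' one_ne_zero hV hf6 hGi hE)
        have hdet : ∀ κ : K, (Matrix.reindex e e (fromBlocks (blk6 c κ) 0 0 1 :
            Matrix (Fin 2 ⊕ Fin (2 * j')) (Fin 2 ⊕ Fin (2 * j')) K)).det = κ ^ 2 * (c + 2) := fun κ => by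
          rw [det_reindex_self, det_fromBlocks_zero₂₁, det_one, mul_one, blk6, det_fin_two_of]
          ring
        have hc2 : c + 2 ≠ 0 := fun h => hc' (by linear_combination h)
        obtain ⟨P, hP⟩ := std_of_sys qD hD g hs1
        have hsq := comm_square hk qD hB (hconj P) hP (by
          rw [hdet, one_pow, one_mul]
          exact isUnit_iff_ne_zero.2 hc2)
        rw [hdet, one_pow, one_mul] at hsq
        obtain ⟨ρ, hρ⟩ := hsq
        have hρ0 : ρ ≠ 0 := by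
          rintro rfl
          exact hc2 (by rw [hρ, mul_zero])
        have hs2 := sys1_reindex (q0 qD k) e
          (exc_six (q0 qD k) j' ⊤ _ hc hc' (inv_ne_zero hρ0) hV hf6 hGi hE)
        refine key _ hs2 ?_
        have hdB : (blk6 c ρ⁻¹).det = 1 := by
          rw [blk6, det_fin_two_of]
          have : -(ρ⁻¹ * (c + 1)) * -ρ⁻¹ - ρ⁻¹ * -ρ⁻¹ = ρ⁻¹ ^ 2 * (c + 2) := by ring
          rw [this, hρ]
          field_simp
        have hdB1 : (blk6 c ρ⁻¹ - 1).det = 2 + ρ := by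
          rw [det_fin_two]
          simp only [blk6, Matrix.sub_apply, of_apply, cons_val', cons_val_zero, cons_val_one,
            one_apply_eq, Matrix.one_apply_ne (zero_ne_one : (0 : Fin 2) ≠ 1),
            Matrix.one_apply_ne (one_ne_zero : (1 : Fin 2) ≠ 0)]
          have e2 : (-(ρ⁻¹ * (c + 1)) - 1) * (-ρ⁻¹ - 1) - (ρ⁻¹ - 0) * (-ρ⁻¹ - 0) =
              ρ⁻¹ ^ 2 * (c + 2) + ρ⁻¹ * (c + 2) + 1 := by ring
          have e3 : ρ⁻¹ ^ 2 * (ρ * ρ) + ρ⁻¹ * (ρ * ρ) + 1 = 2 + ρ := by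
            field_simp
            ring
          rw [← e3, ← hρ]
          exact e2
        obtain ⟨S, T, h⟩ := fac2 (j := 2 * j') (by omega) e hfm hfi hfn hf0 hdB (by
          rw [isUnit_iff_ne_zero, hdB1]
          intro h0
          refine hc ?_
          have h1 : ρ = -2 := by linear_combination h0
          rw [h1] at hρ
          linear_combination hρ) (by
          show -ρ⁻¹ ≠ 0
          exact neg_ne_zero.2 (inv_ne_zero hρ0))
        exact ⟨S, T, h⟩
      · -- `k` odd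
        have hf4 : finrank K (⊤ : Submodule K (V0 K D k)) = 4 * j + 4 := by rw [hfrT]; omega
        let e : Fin (2 * j + 1) ≃ Fin k := finCongr (by omega)
        have hs1 := sys1_reindex (q0 qD k) e (exc_four (q0 qD k) j ⊤ _ hc hc' hV hf4 hGi hE)
        have e1 : Matrix.reindex e e (1 : Matrix (Fin (2 * j + 1)) (Fin (2 * j + 1)) K) = 1 := by
          rw [reindex_apply, submatrix_one_equiv]
        rw [e1] at hs1
        exact key 1 hs1 (fac_one hC)

end ThQ
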