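import Pool.Agent.ThQ.RkB
import Pool.Agent.ThQ.Sing

/-! # Module RkH: the parity is a homomorphism -/

namespace ThQ
open Module

variable {K V : Type*} [Field K] [AddCommGroup V] [Module K V] (q : QF K V)
variable {U : Submodule K V} {G G' : V →ₗ[K] V}

/-- In a nondegenerate `U` every isometry can be changed by at most two reflections (in vectors of `U`) to an isometry
which fixes a given singular vector `w ≠ 0`.  `G w = v` is singular, not zero.
If `h w v ≠ 0`: `refl (v - w)` maps `v` to `w` (`refl_swap`).  Otherwise there is a singular `u ∈ U` with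
`h w u ≠ 0`, `h v u ≠ 0`: if `v = c • w` take the partner of `w`; if `w`, `v` are independent take `y ∈ U` with
`h y w = h y v = 1` (`two_val`) and `u = y - Q y • w`.  Then `refl (u - w) ∘ refl (v - u)` maps `v` to `w`. -/
theorem to_fix [FiniteDimensional K V] (hU : q.ND U) (hG : q.Iso U G) {w : V} (hw : w ∈ U)
    (h0 : q.Q w = 0) (hn : w ≠ 0) :
    (∃ f ∈ U, q.Q f ≠ 0 ∧ q.refl f (G w) = w) ∨
    (∃ f ∈ U, ∃ f' ∈ U, q.Q f ≠ 0 ∧ q.Q f' ≠ 0 ∧ q.refl f' (q.refl f (G w)) = w) := by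
  obtain ⟨v, hv⟩ : ∃ v, v = G w := ⟨_, rfl⟩
  have hvU : v ∈ U := by rw [hv]; exact hG.1 w hw
  have hQv : q.Q v = 0 := by rw [hv, hG.2 w hw, h0]
  have hv0 : v ≠ 0 := by
    intro h
    rw [hv] at h
    exact hn (iso_inj q hU hG hw h)
  rw [← hv]
  have hQ : ∀ a b : V, q.Q a = 0 → q.Q b = 0 → q.h a b ≠ 0 → q.Q (a - b) ≠ 0 := by
    intro a b ha hb hab
    rw [q.Q_sub, ha, hb, zero_add, zero_sub]
    exact neg_ne_zero.2 hab
  by_cases hwv : q.h w v = 0
  · right
    obtain ⟨u, huU, hQu, hwu, hvu⟩ : ∃ u ∈ U, q.Q u = 0 ∧ q.h w u ≠ 0 ∧ q.h v u ≠ 0 := by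
      by_cases hi : ∀ s t : K, s • w + t • v = 0 → s = 0 ∧ t = 0
      · obtain ⟨y, hy, hyw, hyv⟩ := two_val q hU hw hvU hi 1 1
        refine ⟨y - q.Q y • w, U.sub_mem hy (U.smul_mem _ hw), ?_, ?_, ?_⟩
        · rw [q.Q_sub, q.smul, h0, map_smul, hyw, smul_eq_mul]
          ring
        · rw [map_sub, map_smul, q.h_self_zero h0, smul_zero, sub_zero, q.symm y w, hyw]
          exact one_ne_zero
        · rw [map_sub, map_smul, q.symm w v, hwv, smul_zero, sub_zero, q.symm y v, hyv]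
          exact one_ne_zero
      · push Not at hi
        obtain ⟨s, t, hst, hne⟩ := hi
        have ht : t ≠ 0 := by
          intro ht
          rw [ht, zero_smul, add_zero] at hst
          rcases smul_eq_zero.1 hst with h | h
          · exact hne h ht
          · exact hn h
        obtain ⟨c, hc⟩ : ∃ c : K, v = c • w := by
          refine ⟨-(t⁻¹ * s), ?_⟩
          have h2 : t • v = -(s • w) := eq_neg_of_add_eq_zero_right hst
          have h3 : v = t⁻¹ • (t • v) := by rw [smul_smul, inv_mul_cancel₀ ht, one_smul]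
          rw [h3, h2]
          module
        have hc0 : c ≠ 0 := by
          intro hc0
          rw [hc0, zero_smul] at hc
          exact hv0 hc
        obtain ⟨w', hw', hQw', hww'⟩ := partner q hU hw h0 hn
        refine ⟨w', hw', hQw', ?_, ?_⟩
        · rw [q.symm w' w, hww']
          exact one_ne_zero
        · rw [hc, q.smul_left, q.symm w' w, hww', mul_one]
          exact hc0
    have huw : q.h u w ≠ 0 := by
      rw [q.symm w u]
      exact hwu
    refine ⟨v - u, U.sub_mem hvU huU, u - w, U.sub_mem huU hw, hQ _ _ hQv hQu hvu,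
      hQ _ _ hQu h0 huw, ?_⟩
    rw [refl_swap q hQv hQu hvu, refl_swap q hQu h0 huw]
  · left
    have hvw : q.h v w ≠ 0 := by
      rw [q.symm w v]
      exact hwv
    exact ⟨v - w, U.sub_mem hvU hw, hQ _ _ hQv h0 hvw, refl_swap q hQv h0 hvw⟩

private theorem RkH_r [FiniteDimensional K V] (hU : q.ND U) (hG : q.Iso U G) {f : V} (hf : f ∈ U)
    (h0 : q.Q f ≠ 0) : rk U (G ∘ₗ q.refl f) % 2 = (rk U G + 1) % 2 := by
  rw [rk_comm q hU hG (refl_iso q hf h0)]
  exact par_refl' q hU hG hf h0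

/-- The case of a plane.  An isometry `s` of the plane `D` is, on `D`, a product of at most two reflections in
vectors of `D`: `rk D s ≤ 2`.  If `rk D s = 0`: `s = 1` on `D`.  If `rk D s = 1`: `rk_one_refl`.  If
`rk D s = 2`: take `f ∈ D` with `Q f ≠ 0` (`nonsing_ex`); `rk D (refl f ∘ s) = 1` by `par_refl` (it is not 3), so
`refl f ∘ s = refl f'` on `D`.
Now write `G'` in this way and use `rk_comm`, `par_refl'`: `rk (G ∘ refl f) = rk (refl f ∘ G) ≡ rk G + 1`, in
particular `rk (refl f) ≡ 1`. -/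
theorem par_mul_plane [FiniteDimensional K V] (hU : q.ND U) (h2 : finrank K U = 2)
    (hG : q.Iso U G) (hG' : q.Iso U G') : rk U (G ∘ₗ G') % 2 = (rk U G + rk U G') % 2 := by
  have hle : rk U G' ≤ 2 := by
    rw [← h2]
    exact rk_le
  have hcases : rk U G' = 0 ∨ rk U G' = 1 ∨ rk U G' = 2 := by omega
  rcases hcases with h | h | h
  · have hm : U.map (G' - LinearMap.id) = ⊥ := by
      rw [rk] at h
      exact Submodule.finrank_eq_zero.1 h
    have hx : ∀ x ∈ U, (G ∘ₗ G') x = G x := by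
      intro x hx
      have h3 : G' x - x ∈ U.map (G' - LinearMap.id) := ⟨x, hx, rfl⟩
      rw [hm, Submodule.mem_bot, sub_eq_zero] at h3
      rw [LinearMap.comp_apply, h3]
    rw [rk_congr hx, h, add_zero]
  · obtain ⟨f, hf, hQ, hfx⟩ := rk_one_refl q hU hG' h
    have hx : ∀ x ∈ U, (G ∘ₗ G') x = (G ∘ₗ q.refl f) x := by
      intro x hx
      rw [LinearMap.comp_apply, LinearMap.comp_apply, hfx x hx]
    rw [rk_congr hx, RkH_r q hU hG hf hQ, h]
  · obtain ⟨f, hf, hQ⟩ := nonsing_ex q hU (by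
      intro h3
      rw [h3, finrank_bot] at h2
      omega)
    have h3 := par_refl q hU hG' hf hQ
    have hle2 : rk U (q.refl f ∘ₗ G') ≤ 2 := by
      rw [← h2]
      exact rk_le
    have h4 : rk U (q.refl f ∘ₗ G') = 1 := by omega
    obtain ⟨f', hf', hQ', hfx⟩ := rk_one_refl q hU (iso_comp q (refl_iso q hf hQ) hG') h4
    have hx : ∀ x ∈ U, (G ∘ₗ G') x = ((G ∘ₗ q.refl f) ∘ₗ q.refl f') x := by
      intro x hx
      have h5 := hfx x hx
      rw [LinearMap.comp_apply] at h5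
      rw [LinearMap.comp_apply, LinearMap.comp_apply, LinearMap.comp_apply, ← h5, refl_refl q hQ]
    have h6 := RkH_r q hU (iso_comp q hG (refl_iso q hf hQ)) hf' hQ'
    have h7 := RkH_r q hU hG hf hQ
    rw [rk_congr hx, h]
    omega

/-- change an isometry to one which fixes `w` -/
private theorem RkH_red [FiniteDimensional K V] (hU : q.ND U) (hG : q.Iso U G) {w : V} (hw : w ∈ U)
    (h0 : q.Q w = 0) (hn : w ≠ 0) :
    ∃ (G0 : V →ₗ[K] V) (j : ℕ), q.Iso U G0 ∧ G0 w = w ∧ rk U G0 % 2 = (rk U G + j) % 2 ∧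
      (∀ H, q.Iso U H → rk U (G0 ∘ₗ H) % 2 = (rk U (G ∘ₗ H) + j) % 2) ∧
      ∀ H, q.Iso U H → rk U (H ∘ₗ G0) % 2 = (rk U (H ∘ₗ G) + j) % 2 := by
  have key : ∀ (G : V →ₗ[K] V), q.Iso U G → ∀ f ∈ U, q.Q f ≠ 0 →
      q.Iso U (q.refl f ∘ₗ G) ∧ rk U (q.refl f ∘ₗ G) % 2 = (rk U G + 1) % 2 ∧
      (∀ H, q.Iso U H → rk U ((q.refl f ∘ₗ G) ∘ₗ H) % 2 = (rk U (G ∘ₗ H) + 1) % 2) ∧
      ∀ H, q.Iso U H → rk U (H ∘ₗ (q.refl f ∘ₗ G)) % 2 = (rk U (H ∘ₗ G) + 1) % 2 := by
    intro G hG f hf hQ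
    have hi := iso_comp q (refl_iso q hf hQ) hG
    refine ⟨hi, par_refl' q hU hG hf hQ, ?_, ?_⟩
    · intro H hH
      exact par_refl' q hU (iso_comp q hG hH) hf hQ
    · intro H hH
      rw [rk_comm q hU hH hi, rk_comm q hU hH hG]
      exact par_refl' q hU (iso_comp q hG hH) hf hQ
  rcases to_fix q hU hG hw h0 hn with ⟨f, hf, hQ, hfw⟩ | ⟨f, hf, f', hf', hQ, hQ', hfw⟩
  · obtain ⟨k1, k2, k3, k4⟩ := key G hG f hf hQ
    exact ⟨_, 1, k1, hfw, k2, k3, k4⟩
  · obtain ⟨k1, k2, k3, k4⟩ := key G hG f hf hQ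
    obtain ⟨l1, l2, l3, l4⟩ := key _ k1 f' hf' hQ'
    refine ⟨_, 2, l1, hfw, by omega, ?_, ?_⟩
    · intro H hH
      have := l3 H hH
      have := k3 H hH
      omega
    · intro H hH
      have := l4 H hH
      have := k4 H hH
      omega

/-- Induction on `n`; `n = 0` is `par_mul_plane`.  For `n + 1`: let `w ∈ U`, `w ≠ 0` be singular (`sing_ex`), `w'` its
partner.  By `to_fix` there are products `r`, `r'` of `j`, `j'` reflections in vectors of `U` such that
`G0 = r ∘ G` and `G0' = r' ∘ G'` fix `w`.  By `par_refl'` and `rk_comm` (move the reflections to the left):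
`rk (G0 ∘ G0') ≡ rk (G ∘ G') + j + j'`, `rk G0 ≡ rk G + j`, `rk G0' ≡ rk G' + j'`.  So we may assume that `G`, `G'` fix
`w`.  Then by `par_fix` we may pass to `g2 G w w'` etc. on `R = perp2 U w w'`, and
`g2 (G ∘ G') w w' = g2 G w w' ∘ g2 G' w w'` on `R`: `G (G' x) = G (g2 G' x + β • w) = G (g2 G' x) + β • w`.
`finrank R = 2 * n + 2`, `perp2_ND`, `iso_g2`. -/
theorem par_mul [Finite K] [FiniteDimensional K V] {n : ℕ} (hU : q.ND U)
    (hf : finrank K U = 2 * n + 2) (hG : q.Iso U G) (hG' : q.Iso U G') :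
    rk U (G ∘ₗ G') % 2 = (rk U G + rk U G') % 2 := by
  induction n generalizing U G G' with
  | zero => exact par_mul_plane q hU (by omega) hG hG'
  | succ n ih =>
    obtain ⟨w, hw, hn, h0⟩ := sing_ex q (U := U) (by omega)
    obtain ⟨w', hw', h0', h1⟩ := partner q hU hw h0 hn
    have h1' : q.h w w' ≠ 0 := by
      rw [q.symm w' w, h1]
      exact one_ne_zero
    -- the case of isometries which fix `w`
    have hfix : ∀ A B : V →ₗ[K] V, q.Iso U A → q.Iso U B → A w = w → B w = w →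
        rk U (A ∘ₗ B) % 2 = (rk U A + rk U B) % 2 := by
      intro A B hA hB hAw hBw
      have hAB := iso_comp q hA hB
      have hABw : (A ∘ₗ B) w = w := by rw [LinearMap.comp_apply, hBw, hAw]
      have p1 := par_fix q hU hA hw hw' h0 h0' h1 hAw
      have p2 := par_fix q hU hB hw hw' h0 h0' h1 hBw
      have p3 := par_fix q hU hAB hw hw' h0 h0' h1 hABw
      have hcong : rk (q.perp2 U w w') (q.g2 (A ∘ₗ B) w w') =
          rk (q.perp2 U w w') (q.g2 A w w' ∘ₗ q.g2 B w w') := by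
        refine rk_congr fun x hx => ?_
        obtain ⟨β, hβ⟩ : ∃ β : K, B x = q.g2 B w w' x + β • w :=
          ⟨q.h w' (B x), by rw [q.g2_apply]; abel⟩
        rw [LinearMap.comp_apply, q.g2_apply (A ∘ₗ B), LinearMap.comp_apply, hβ, map_add, map_smul,
          hAw, q.g2_apply A, map_add, map_smul, h1, smul_eq_mul, mul_one]
        module
      have hR : q.ND (q.perp2 U w w') := perp2_ND q hU hw hw' h0 h0' h1'
      have hfR := perp2_finrank q hw hw' h0 h0' h1'
      have iA := iso_g2 q hA hw hw' h0 h0' h1 one_ne_zero (by rw [hAw, one_smul])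
      have iB := iso_g2 q hB hw hw' h0 h0' h1 one_ne_zero (by rw [hBw, one_smul])
      have h3 := ih (U := q.perp2 U w w') hR (by omega) iA iB
      rw [hcong] at p3
      omega
    obtain ⟨A, j, a1, a2, a3, a4, a5⟩ := RkH_red q hU hG hw h0 hn
    obtain ⟨B, i, b1, b2, b3, b4, b5⟩ := RkH_red q hU hG' hw h0 hn
    have h3 := hfix A B a1 b1 a2 b2
    have h4 := a4 B b1
    have h5 := b5 G hG
    omega

end ThQ
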