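import Mathlib

/-! # Module GLT: generation of the general linear group -/

namespace ThQ
open Matrix
open scoped commutatorElement

variable {K : Type*} [Field K] {k : ℕ}

/-- the transvection as a unit -/
noncomputable def tvU (i j : Fin k) (h : i ≠ j) (c : K) : (Matrix (Fin k) (Fin k) K)ˣ where
  val := transvection i j c
  inv := transvection i j (-c)
  val_inv := by rw [transvection_mul_transvection_same _ _ h, add_neg_cancel, transvection_zero]
  inv_val := by rw [transvection_mul_transvection_same _ _ h, neg_add_cancel, transvection_zero]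

/-- the diagonal matrix with the entry `t` at `i` and `1` elsewhere, as a unit -/
noncomputable def dgU (i : Fin k) (t : Kˣ) : (Matrix (Fin k) (Fin k) K)ˣ where
  val := diagonal (Function.update 1 i (t : K))
  inv := diagonal (Function.update 1 i ((t⁻¹ : Kˣ) : K))
  val_inv := by
    rw [diagonal_mul_diagonal, ← diagonal_one]
    congr 1
    funext j
    by_cases h : j = i
    · subst h
      simp
    · simp [Function.update_of_ne h]
  inv_val := by
    rw [diagonal_mul_diagonal, ← diagonal_one]
    congr 1
    funext j
    by_cases h : j = i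
    · subst h
      simp
    · simp [Function.update_of_ne h]

/-- For `k ≥ 3` transvections are commutators: with `l ≠ i, j` :
`transvection i j c = A B A⁻¹ B⁻¹`, `A = transvection i l c`, `B = transvection l j 1`. -/
theorem tv_comm (hk : 3 ≤ k) (i j : Fin k) (h : i ≠ j) (c : K) :
    tvU i j h c ∈ commutator ((Matrix (Fin k) (Fin k) K)ˣ) := by
  obtain ⟨l, hl⟩ : ∃ l : Fin k, l ∉ ({i, j} : Finset (Fin k)) := by
    by_contra hcon
    push Not at hcon
    have h1 : (Finset.univ : Finset (Fin k)) ⊆ {i, j} := fun x _ => hcon x
    have h2 := Finset.card_le_card h1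
    rw [Finset.card_univ, Fintype.card_fin] at h2
    have h3 := Finset.card_le_two (a := i) (b := j)
    omega
  rw [Finset.mem_insert, Finset.mem_singleton, not_or] at hl
  obtain ⟨hli, hlj⟩ := hl
  have key : tvU i j h c * (tvU l j hlj (1 : K) * tvU i l (Ne.symm hli) c) =
      tvU i l (Ne.symm hli) c * tvU l j hlj (1 : K) := by
    apply Units.ext
    show transvection i j c * (transvection l j 1 * transvection i l c) =
      transvection i l c * transvection l j 1
    simp only [transvection, mul_add, add_mul, one_mul, mul_one, single_mul_single_same]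
    rw [single_mul_single_of_ne _ _ _ _ (Ne.symm h), single_mul_single_of_ne _ _ _ _ (Ne.symm hlj)]
    simp only [single_mul_single_of_ne _ _ _ _ (Ne.symm h), mul_zero, add_zero]
    abel
  have h2 : tvU i j h c = ⁅tvU i l (Ne.symm hli) c, tvU l j hlj (1 : K)⁆ := by
    rw [commutatorElement_def, ← key]
    group
  rw [h2]
  exact Subgroup.commutator_mem_commutator (Subgroup.mem_top _) (Subgroup.mem_top _)

/-- Every invertible matrix is a product of transvections and matrices `dgU i t`
(`Matrix.Pivot.exists_list_transvec_mul_diagonal_mul_list_transvec`; a diagonal invertible matrix is a product of matrices `dgU i t`). Therefore: a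
homomorphism to a commutative group, which is trivial on the commutators, is determined by the `dgU i t`.  Form used here: -/
theorem gl_ind (hk : 3 ≤ k) {P : (Matrix (Fin k) (Fin k) K)ˣ → Prop}
    (h1 : ∀ u ∈ commutator ((Matrix (Fin k) (Fin k) K)ˣ), P u) (h2 : ∀ i t, P (dgU i t))
    (hm : ∀ u v, P u → P v → P (u * v)) (u : (Matrix (Fin k) (Fin k) K)ˣ) : P u := by
  have hone : P 1 := h1 1 (one_mem _)
  obtain ⟨L, L', D, hD⟩ :=
    Matrix.Pivot.exists_list_transvec_mul_diagonal_mul_list_transvec (u : Matrix (Fin k) (Fin k) K)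
  have hL : ∀ L : List (TransvectionStruct (Fin k) K), ∃ v : (Matrix (Fin k) (Fin k) K)ˣ,
      (v : Matrix (Fin k) (Fin k) K) = (L.map TransvectionStruct.toMatrix).prod ∧ P v := by
    intro L
    induction L with
    | nil => exact ⟨1, by simp, hone⟩
    | cons t L ih =>
      obtain ⟨v, hv, hPv⟩ := ih
      refine ⟨tvU t.i t.j t.hij t.c * v, ?_, hm _ _ (h1 _ (tv_comm hk _ _ _ _)) hPv⟩
      rw [List.map_cons, List.prod_cons, Units.val_mul, hv]
      rfl
  obtain ⟨v, hv, hPv⟩ := hL L
  obtain ⟨v', hv', hPv'⟩ := hL L'
  have hDd : (diagonal D : Matrix (Fin k) (Fin k) K) =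
      ((v⁻¹ * u * v'⁻¹ : (Matrix (Fin k) (Fin k) K)ˣ) : Matrix (Fin k) (Fin k) K) := by
    rw [Units.val_mul, Units.val_mul, hD, ← hv, ← hv']
    simp only [mul_assoc, Units.mul_inv, mul_one]
    rw [← mul_assoc, Units.inv_mul, one_mul]
  have hDu : ∀ i, IsUnit (D i) := by
    have h3 : IsUnit (diagonal D : Matrix (Fin k) (Fin k) K) := by
      rw [hDd]
      exact Units.isUnit _
    rw [isUnit_diagonal, Pi.isUnit_iff] at h3
    exact h3
  have hs : ∀ s : Finset (Fin k), ∃ w : (Matrix (Fin k) (Fin k) K)ˣ,
      (w : Matrix (Fin k) (Fin k) K) = diagonal (fun i => if i ∈ s then D i else 1) ∧ P w := by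
    intro s
    induction s using Finset.induction_on with
    | empty =>
      refine ⟨1, ?_, hone⟩
      rw [Units.val_one, ← diagonal_one]
      congr 1
    | insert a s ha ih =>
      obtain ⟨w, hw, hPw⟩ := ih
      refine ⟨dgU a (hDu a).unit * w, ?_, hm _ _ (h2 _ _) hPw⟩
      rw [Units.val_mul, hw]
      show diagonal (Function.update 1 a (((hDu a).unit : Kˣ) : K)) * _ = _
      rw [diagonal_mul_diagonal]
      congr 1
      funext i
      by_cases hi : i = a
      · subst hi
        rw [Function.update_self, if_neg ha, mul_one, if_pos (Finset.mem_insert_self _ _)]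
        rfl
      · rw [Function.update_of_ne hi, Pi.one_apply, one_mul]
        by_cases his : i ∈ s
        · rw [if_pos his, if_pos (Finset.mem_insert_of_mem his)]
        · rw [if_neg his, if_neg]
          rw [Finset.mem_insert, not_or]
          exact ⟨hi, his⟩
  obtain ⟨w, hw, hPw⟩ := hs Finset.univ
  have hu : u = v * w * v' := by
    apply Units.ext
    rw [Units.val_mul, Units.val_mul, hD, ← hv, ← hv', hw]
    simp only [Finset.mem_univ, if_true]
  rw [hu]
  exact hm _ _ (hm _ _ hPv hPw) hPv'

end ThQ
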