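import Pool.Agent.ThQ.GDefs
import Pool.Agent.ThQ.GLT

/-! # Module SgnA: the sign of the permutation of the vectors with `Q v = 1` -/

namespace ThQ
open Matrix Module

variable {K D : Type*} [Field K] [AddCommGroup D] [Module K D] {k : ℕ}

/-- the action of the isometries on the vectors with `Q v = 1` -/
def actQ {V : Type*} [AddCommGroup V] [Module K V] (q : QF K V) :
    IG q →* Equiv.Perm {v : V // q.Q v = 1} where
  toFun g :=
    { toFun := fun v => ⟨(g : V ≃ₗ[K] V) v.1, by rw [g.2 v.1]; exact v.2⟩
      invFun := fun v => ⟨((g⁻¹ : IG q) : V ≃ₗ[K] V) v.1, by rw [(g⁻¹).2 v.1]; exact v.2⟩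
      left_inv := fun v => Subtype.ext ((g : V ≃ₗ[K] V).symm_apply_apply v.1)
      right_inv := fun v => Subtype.ext ((g : V ≃ₗ[K] V).apply_symm_apply v.1) }
  map_one' := rfl
  map_mul' g g' := rfl

/-- the sign of this permutation -/
noncomputable def sgnQ {V : Type*} [AddCommGroup V] [Module K V] [Finite V] (q : QF K V) :
    IG q →* ℤˣ := by
  classical
  letI : Fintype {v : V // q.Q v = 1} := Fintype.ofFinite _
  exact (Equiv.Perm.sign : Equiv.Perm {v : V // q.Q v = 1} →* ℤˣ).comp (actQ q)

/-- The sign of the multiplication by `t` on `Kˣ` (a cyclic group of even order): `1` iff `t` is a square.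
A generator `g` acts as a cycle of even length `q - 1` (sign `-1`), `t = g ^ n` has the sign `(-1) ^ n`, and `t` is a square iff `n` is even. -/
theorem sign_mulLeft [Finite K] (h2 : (2 : K) ≠ 0) (t : Kˣ) [Fintype Kˣ] [DecidableEq Kˣ] :
    Equiv.Perm.sign (MulAction.toPerm t : Equiv.Perm Kˣ) = 1 ↔ IsSquare t := by
  classical
  let _ : Fintype K := Fintype.ofFinite K
  obtain ⟨g, hg⟩ := IsCyclic.exists_generator (α := Kˣ)
  -- the homomorphism
  let φ : Kˣ →* ℤˣ := Equiv.Perm.sign.comp (MulAction.toPermHom Kˣ Kˣ)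
  have hφ : ∀ u : Kˣ, φ u = Equiv.Perm.sign (MulAction.toPerm u : Equiv.Perm Kˣ) := fun u => rfl
  have hcard : Fintype.card Kˣ = Fintype.card K - 1 := by
    rw [← Nat.card_eq_fintype_card (α := Kˣ), ← Nat.card_eq_fintype_card (α := K)]
    exact Nat.card_units K
  have hodd : Fintype.card K % 2 = 1 := by
    apply FiniteField.odd_card_of_char_ne_two
    intro h
    apply h2
    have := ringChar.spec K 2
    rw [h] at this
    exact_mod_cast this.mpr (dvd_refl 2)
  have hcK : 1 < Fintype.card K := Fintype.one_lt_card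
  have heven : Even (Fintype.card Kˣ) := by
    rw [hcard, Nat.even_iff]
    omega
  have hg1 : g ≠ 1 := by
    intro h
    have h3 : ∀ x : Kˣ, x = 1 := by
      intro x
      have hx := hg x
      rw [h, Subgroup.zpowers_one_eq_bot, Subgroup.mem_bot] at hx
      exact hx
    have h4 : Fintype.card Kˣ = 1 := Fintype.card_eq_one_iff.mpr ⟨1, h3⟩
    rw [h4] at heven
    exact absurd heven (by decide)
  have hpow : ∀ (n : ℤ) (x : Kˣ), ((MulAction.toPerm g : Equiv.Perm Kˣ) ^ n) x = g ^ n * x := by
    intro n x
    have : (MulAction.toPerm g : Equiv.Perm Kˣ) ^ n = MulAction.toPerm (g ^ n) :=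
      (map_zpow (MulAction.toPermHom Kˣ Kˣ) g n).symm
    rw [this]
    rfl
  have hcyc : (MulAction.toPerm g : Equiv.Perm Kˣ).IsCycle := by
    refine ⟨1, ?_, ?_⟩
    · show g * 1 ≠ 1
      rwa [mul_one]
    · intro y _
      obtain ⟨n, hn⟩ := hg y
      exact ⟨n, by rw [hpow, mul_one]; exact hn⟩
  have hsupp : (MulAction.toPerm g : Equiv.Perm Kˣ).support = Finset.univ := by
    rw [Finset.eq_univ_iff_forall]
    intro x
    rw [Equiv.Perm.mem_support]
    show g * x ≠ x
    intro h
    exact hg1 (mul_eq_right.mp h)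
  have hsg : φ g = -1 := by
    rw [hφ, hcyc.sign, hsupp, Finset.card_univ, heven.neg_one_pow]
  rw [← hφ]
  constructor
  · intro h
    obtain ⟨n, hn⟩ := hg t
    have hn' : g ^ n = t := hn
    rw [← hn', map_zpow, hsg] at h
    rcases Int.even_or_odd n with he | ho
    · obtain ⟨m, hm⟩ := he
      exact ⟨g ^ m, by rw [← hn', hm, _root_.zpow_add]⟩
    · rw [ho.neg_one_zpow] at h
      exact absurd h (by decide)
  · rintro ⟨s, rfl⟩
    rw [map_mul]
    exact Int.units_mul_self _

private theorem sgnQ_eq {V : Type*} [AddCommGroup V] [Module K V] [Finite V] (q : QF K V)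
    [Fintype {v : V // q.Q v = 1}] [DecidableEq {v : V // q.Q v = 1}] (g : IG q) :
    sgnQ q g = Equiv.Perm.sign (actQ q g) := by
  have key : ∀ (f1 f2 : Fintype {v : V // q.Q v = 1}) (d1 d2 : DecidableEq {v : V // q.Q v = 1})
      (p : Equiv.Perm {v : V // q.Q v = 1}),
      @Equiv.Perm.sign _ d1 f1 p = @Equiv.Perm.sign _ d2 f2 p := by
    intro f1 f2 d1 d2 p
    obtain rfl : f1 = f2 := Subsingleton.elim _ _
    obtain rfl : d1 = d2 := Subsingleton.elim _ _
    rfl
  exact key _ _ _ _ _

open Classical in
/-- `(α, β) ↦ (t α, t⁻¹ β)` on the pairs with `α β = c`, identity elsewhere -/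
private noncomputable def tauP (t : Kˣ) (c : K) : Equiv.Perm (K × K) where
  toFun p := if p.1 * p.2 = c then ((t : K) * p.1, ((t⁻¹ : Kˣ) : K) * p.2) else p
  invFun p := if p.1 * p.2 = c then (((t⁻¹ : Kˣ) : K) * p.1, (t : K) * p.2) else p
  left_inv p := by
    by_cases h : p.1 * p.2 = c
    · have h' : (t : K) * p.1 * (((t⁻¹ : Kˣ) : K) * p.2) = c := by
        rw [← h]
        have := t.mul_inv
        linear_combination (p.1 * p.2) * this
      simp only [h, if_true, h']
      ext
      · simp
      · simp
    · simp only [h, if_false]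
  right_inv p := by
    by_cases h : p.1 * p.2 = c
    · have h' : ((t⁻¹ : Kˣ) : K) * p.1 * ((t : K) * p.2) = c := by
        rw [← h]
        have := t.mul_inv
        linear_combination (p.1 * p.2) * this
      simp only [h, if_true, h']
      ext
      · simp
      · simp
    · simp only [h, if_false]

private theorem tauP_of {t : Kˣ} {c : K} {p : K × K} (h : p.1 * p.2 = c) :
    tauP t c p = ((t : K) * p.1, ((t⁻¹ : Kˣ) : K) * p.2) := by
  simp only [tauP, Equiv.coe_fn_mk, h, if_true]

private theorem tauP_not {t : Kˣ} {c : K} {p : K × K} (h : ¬ p.1 * p.2 = c) :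
    tauP t c p = p := by
  simp only [tauP, Equiv.coe_fn_mk, h, if_false]

open Classical in
private theorem sign_tauP_one [Fintype K] (t : Kˣ) [Fintype Kˣ] :
    Equiv.Perm.sign (tauP t 1) = Equiv.Perm.sign (MulAction.toPerm t : Equiv.Perm Kˣ) := by
  symm
  refine Equiv.Perm.sign_bij (fun u _ => ((u : K), ((u⁻¹ : Kˣ) : K))) ?_ ?_ ?_
  · intro u _ _
    have h : (u : K) * ((u⁻¹ : Kˣ) : K) = 1 := u.mul_inv
    rw [tauP_of (p := ((u : K), ((u⁻¹ : Kˣ) : K))) h]
    show (((t * u : Kˣ) : K), (((t * u)⁻¹ : Kˣ) : K)) = _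
    rw [_root_.mul_inv_rev, Units.val_mul, Units.val_mul, mul_comm (((u⁻¹ : Kˣ)) : K)]
  · intro u v _ _ h
    exact Units.ext (Prod.mk.inj h).1
  · intro y hy
    by_cases h : y.1 * y.2 = 1
    · refine ⟨⟨y.1, y.2, h, by rw [mul_comm]; exact h⟩, ?_, rfl⟩
      intro h'
      apply hy
      rw [tauP_of h]
      have h1 : (t : K) * y.1 = y.1 := congrArg Units.val h'
      have h2 : ((t⁻¹ : Kˣ) : K) * y.2 = y.2 := by
        have h3 : y.1 ≠ 0 := left_ne_zero_of_mul_eq_one h
        have h4 : (t : K) = 1 := mul_right_cancel₀ h3 (by rw [h1, one_mul])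
        have h5 : t = 1 := Units.ext h4
        rw [h5, inv_one, Units.val_one, one_mul]
      rw [h1, h2]
    · exact absurd (tauP_not h) hy

private theorem dot_upd (x y : Fin k → K) (i : Fin k) :
    x ⬝ᵥ y = x i * y i + (Function.update x i 0) ⬝ᵥ (Function.update y i 0) := by
  classical
  unfold dotProduct
  rw [← Finset.add_sum_erase _ _ (Finset.mem_univ i),
    ← Finset.add_sum_erase _ (fun j => Function.update x i 0 j * Function.update y i 0 j)
      (Finset.mem_univ i)]
  simp only [Function.update_self, mul_zero, zero_add]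
  congr 1
  refine Finset.sum_congr rfl fun j hj => ?_
  rw [Function.update_of_ne (Finset.ne_of_mem_erase hj), Function.update_of_ne (Finset.ne_of_mem_erase hj)]

private theorem dg_mulVec (i : Fin k) (t : Kˣ) (x : Fin k → K) :
    ((dgU i t : (Matrix (Fin k) (Fin k) K)ˣ) : Matrix (Fin k) (Fin k) K) *ᵥ x
      = Function.update x i ((t : K) * x i) := by
  show diagonal (Function.update 1 i (t : K)) *ᵥ x = _
  funext j
  rw [mulVec_diagonal]
  by_cases h : j = i
  · subst h
    rw [Function.update_self, Function.update_self]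
  · rw [Function.update_of_ne h, Function.update_of_ne h, Pi.one_apply, one_mul]

private theorem dg_inv_mulVec (i : Fin k) (t : Kˣ) (x : Fin k → K) :
    ((((dgU i t)⁻¹ : (Matrix (Fin k) (Fin k) K)ˣ)) : Matrix (Fin k) (Fin k) K)ᵀ *ᵥ x
      = Function.update x i (((t⁻¹ : Kˣ) : K) * x i) := by
  show (diagonal (Function.update 1 i ((t⁻¹ : Kˣ) : K)))ᵀ *ᵥ x = _
  rw [diagonal_transpose]
  funext j
  rw [mulVec_diagonal]
  by_cases h : j = i
  · subst h
    rw [Function.update_self, Function.update_self]
  · rw [Function.update_of_ne h, Function.update_of_ne h, Pi.one_apply, one_mul]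

/-- The sign of `mL (dgU i t)` is `1` iff `t` is a square.
Write `v = (α, β, r)`, `α = v.1 i`, `β = v.2.2 i`, `r` the other coordinates; `Q v = α β + ρ r`, and the element maps
`(α, β, r)` to `(t α, t⁻¹ β, r)`.  The set `{Q v = 1}` is the disjoint union of two invariant sets.
(a) `α β ≠ 0`: this set is `Kˣ × {r | ρ r ≠ 1}` (`(α, r)` determines `β = (1 - ρ r) / α`), the permutation is `(t * ·) × id`, its sign is
`sign (t * ·) ^ N` with `N = #{r | ρ r ≠ 1}`.  `N` is odd: the number of all `r` is a power of `q`, odd; the number of `r` with `ρ r = 1` is even as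
`r ↦ -r` has no fixed point there (`ρ 0 = 0`, `2 ≠ 0`).
(b) `α β = 0`, `ρ r = 1`: this set is `{(α, β) | α β = 0} × {r | ρ r = 1}`, the permutation is a product with the identity on a set with an
even number of elements: sign `1`. -/
theorem sgn_dg [Finite K] [Finite D] (h2 : (2 : K) ≠ 0) (qD : QF K D) (i : Fin k) (t : Kˣ) :
    sgnQ (q0 qD k) (mL qD k (dgU i t)) = 1 ↔ IsSquare t := by
  classical
  let _ : Fintype K := Fintype.ofFinite K
  let _ : Fintype Kˣ := Fintype.ofFinite _
  let _ : Fintype (V0 K D k) := Fintype.ofFinite _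
  let R : Type _ := {r : V0 K D k // r.1 i = 0 ∧ r.2.2 i = 0}
  let _ : Fintype R := Fintype.ofFinite _
  let _ : Fintype {v : V0 K D k // (q0 qD k).Q v = 1} := Fintype.ofFinite _
  let red : V0 K D k → R := fun v =>
    ⟨(Function.update v.1 i 0, v.2.1, Function.update v.2.2 i 0),
      by simp only [Function.update_self], by simp only [Function.update_self]⟩
  have hQ : ∀ v : V0 K D k, (q0 qD k).Q v = v.1 i * v.2.2 i + (q0 qD k).Q (red v).1 := by
    intro v
    rw [q0_Q, q0_Q, dot_upd v.1 v.2.2 i, add_assoc]
  let σ : R → Equiv.Perm (K × K) := fun r => tauP t (1 - (q0 qD k).Q r.1)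
  let G : Equiv.Perm (R × (K × K)) := Equiv.prodCongrRight σ
  let I : V0 K D k → R × (K × K) := fun v => (red v, (v.1 i, v.2.2 i))
  have hI : ∀ v : V0 K D k, (q0 qD k).Q v = 1 →
      I ((mL qD k (dgU i t) : V0 K D k ≃ₗ[K] V0 K D k) v) = G (I v) := by
    intro v hv
    have h1 : v.1 i * v.2.2 i = 1 - (q0 qD k).Q (red v).1 := by
      have := hQ v
      rw [hv] at this
      linear_combination -this
    have h3 : G (I v) = (red v, ((t : K) * v.1 i, ((t⁻¹ : Kˣ) : K) * v.2.2 i)) := by
      show (red v, tauP t (1 - (q0 qD k).Q (red v).1) (v.1 i, v.2.2 i)) = _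
      rw [tauP_of (p := (v.1 i, v.2.2 i)) h1]
    rw [h3, mL_apply, dg_mulVec, dg_inv_mulVec]
    show (red _, _) = _
    congr 1
    · apply Subtype.ext
      show (Function.update (Function.update v.1 i _) i 0, v.2.1,
        Function.update (Function.update v.2.2 i _) i 0) = _
      rw [Function.update_idem, Function.update_idem]
    · simp only [Function.update_self]
  have hIinj : Function.Injective I := by
    intro v w h
    have h1 : red v = red w := (Prod.mk.inj h).1
    have h2' : (v.1 i, v.2.2 i) = (w.1 i, w.2.2 i) := (Prod.mk.inj h).2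
    have h3 := (Prod.mk.inj h2').1
    have h4 := (Prod.mk.inj h2').2
    have h5 := congrArg Subtype.val h1
    have h6 : Function.update v.1 i 0 = Function.update w.1 i 0 := congrArg Prod.fst h5
    have h7 : v.2.1 = w.2.1 := congrArg (fun x => x.2.1) h5
    have h8 : Function.update v.2.2 i 0 = Function.update w.2.2 i 0 := congrArg (fun x => x.2.2) h5
    have key : ∀ a b : Fin k → K, Function.update a i 0 = Function.update b i 0 → a i = b i → a = b := by
      intro a b hab h
      funext j
      by_cases hj : j = i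
      · rw [hj, h]
      · have := congrFun hab j
        rwa [Function.update_of_ne hj, Function.update_of_ne hj] at this
    exact Prod.ext (key _ _ h6 h3) (Prod.ext h7 (key _ _ h8 h4))
  have s1 : sgnQ (q0 qD k) (mL qD k (dgU i t)) = Equiv.Perm.sign G := by
    rw [sgnQ_eq]
    refine Equiv.Perm.sign_bij (fun v _ => I v.1) ?_ ?_ ?_
    · intro v _ _
      exact hI v.1 v.2
    · intro v w _ _ h
      exact Subtype.ext (hIinj h)
    · rintro ⟨r, p⟩ hy
      have hp : p.1 * p.2 = 1 - (q0 qD k).Q r.1 := by
        by_contra h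
        apply hy
        show (r, tauP t (1 - (q0 qD k).Q r.1) p) = _
        rw [tauP_not h]
      let v : V0 K D k := (Function.update r.1.1 i p.1, r.1.2.1, Function.update r.1.2.2 i p.2)
      have hv : I v = (r, p) := by
        show (red v, (v.1 i, v.2.2 i)) = _
        have h1 : red v = r := by
          apply Subtype.ext
          show (Function.update (Function.update r.1.1 i p.1) i 0, r.1.2.1,
            Function.update (Function.update r.1.2.2 i p.2) i 0) = _
          rw [Function.update_idem, Function.update_idem]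
          have e0 : ∀ a : Fin k → K, a i = 0 → Function.update a i 0 = a := by
            intro a ha
            rw [← ha, Function.update_eq_self]
          have e1 : Function.update r.1.1 i 0 = r.1.1 := e0 _ r.2.1
          have e2 : Function.update r.1.2.2 i 0 = r.1.2.2 := e0 _ r.2.2
          rw [e1, e2]
        rw [h1]
        show (r, (Function.update r.1.1 i p.1 i, Function.update r.1.2.2 i p.2 i)) = _
        rw [Function.update_self, Function.update_self]
      have hvQ : (q0 qD k).Q v = 1 := by
        rw [hQ v]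
        have h1 : red v = r := (Prod.mk.inj hv).1
        rw [h1]
        show Function.update r.1.1 i p.1 i * Function.update r.1.2.2 i p.2 i + _ = 1
        rw [Function.update_self, Function.update_self, hp]
        ring
      refine ⟨⟨v, hvQ⟩, ?_, hv⟩
      intro h
      apply hy
      rw [← hv, ← hI v hvQ]
      exact congrArg I (congrArg Subtype.val h)
  have s2 : Equiv.Perm.sign G = ∏ r, Equiv.Perm.sign (σ r) := Equiv.Perm.sign_prodCongrRight σ
  let z : R := ⟨0, rfl, rfl⟩
  have s3 : ∏ r, Equiv.Perm.sign (σ r) = Equiv.Perm.sign (σ z) := by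
    rw [← Finset.mul_prod_erase _ _ (Finset.mem_univ z)]
    have : ∏ r ∈ Finset.univ.erase z, Equiv.Perm.sign (σ r) = 1 := by
      refine Finset.prod_involution (fun r _ => ⟨-r.1, by
        show -(r.1.1 i) = 0
        rw [r.2.1, neg_zero], by
        show -(r.1.2.2 i) = 0
        rw [r.2.2, neg_zero]⟩) ?_ ?_ ?_ ?_
      · intro r _
        show Equiv.Perm.sign (tauP t (1 - (q0 qD k).Q r.1)) *
          Equiv.Perm.sign (tauP t (1 - (q0 qD k).Q (-r.1))) = 1
        rw [QF.Q_neg]
        exact Int.units_mul_self _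
      · intro r hr _ h
        apply Finset.ne_of_mem_erase hr
        apply Subtype.ext
        have h1 : -r.1 = r.1 := congrArg Subtype.val h
        show r.1 = 0
        have h3 : (2 : K) • r.1 = 0 := by
          rw [two_smul]
          nth_rewrite 1 [← h1]
          exact neg_add_cancel _
        exact (smul_eq_zero.mp h3).resolve_left h2
      · intro r hr
        rw [Finset.mem_erase]
        refine ⟨?_, Finset.mem_univ _⟩
        intro h
        apply Finset.ne_of_mem_erase hr
        apply Subtype.ext
        have h1 : -r.1 = 0 := congrArg Subtype.val h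
        exact neg_eq_zero.mp h1
      · intro r _
        exact Subtype.ext (neg_neg r.1)
    rw [this, mul_one]
  have s4 : σ z = tauP t 1 := by
    show tauP t (1 - (q0 qD k).Q 0) = _
    rw [QF.Q_zero, sub_zero]
  rw [s1, s2, s3, s4, sign_tauP_one]
  exact sign_mulLeft h2 t

end ThQ
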