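import Pool.Agent.ThQ.Frm

/-! # Module Ldu: the big cell -/

namespace ThQ
open Matrix Module

variable {K D : Type*} [Field K] [AddCommGroup D] [Module K D] {k : ℕ}

private theorem Ldu_Np {qD : QF K D} {v : IG (q0 qD k)}
    (h1 : ∀ w, ((v : V0 K D k ≃ₗ[K] V0 K D k) w).2.2 = w.2.2)
    (h2 : ∀ x y, ((v : V0 K D k ≃ₗ[K] V0 K D k) (x, y, 0)).2.1 = y)
    (h3 : ∀ x, (v : V0 K D k ≃ₗ[K] V0 K D k) (x, 0, 0) = (x, 0, 0)) : v ∈ Np qD k := by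
  rw [mem_Np, mem_Nm]
  refine ⟨fun w => ?_, fun y x' => ?_, fun x' => ?_⟩
  · show ((v : V0 K D k ≃ₗ[K] V0 K D k) (w.2.2, w.2.1, w.1)).2.2 = w.1
    rw [h1]
  · show ((v : V0 K D k ≃ₗ[K] V0 K D k) (x', y, 0)).2.1 = y
    rw [h2]
  · show (sw qD k : V0 K D k ≃ₗ[K] V0 K D k) ((v : V0 K D k ≃ₗ[K] V0 K D k) (x', 0, 0)) = (0, 0, x')
    rw [h3, sw_apply]

private theorem Ldu_Np' {qD : QF K D} {v : IG (q0 qD k)} (h : v ∈ Np qD k) :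
    (∀ w, ((v : V0 K D k ≃ₗ[K] V0 K D k) w).2.2 = w.2.2) ∧
    (∀ x y, ((v : V0 K D k ≃ₗ[K] V0 K D k) (x, y, 0)).2.1 = y) ∧
    ∀ x, (v : V0 K D k ≃ₗ[K] V0 K D k) (x, 0, 0) = (x, 0, 0) := by
  rw [mem_Np, mem_Nm] at h
  obtain ⟨h1, h2, h3⟩ := h
  refine ⟨fun w => ?_, fun x y => ?_, fun x => ?_⟩
  · have h := h1 (w.2.2, w.2.1, w.1)
    exact h
  · exact h2 y x
  · have h : (sw qD k : V0 K D k ≃ₗ[K] V0 K D k) ((v : V0 K D k ≃ₗ[K] V0 K D k) (x, 0, 0)) =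
        (0, 0, x) := h3 x
    have h' := congrArg (sw qD k : V0 K D k ≃ₗ[K] V0 K D k) h
    rw [sw_apply, sw_apply, sw_apply] at h'
    exact h'

private theorem Ldu_h {V : Type*} [AddCommGroup V] [Module K V] {q : QF K V} (g : IG q) (x y : V) :
    q.h ((g : V ≃ₗ[K] V) x) ((g : V ≃ₗ[K] V) y) = q.h x y := by
  have h1 := q.add ((g : V ≃ₗ[K] V) x) ((g : V ≃ₗ[K] V) y)
  rw [← map_add, g.2, g.2, g.2, q.add] at h1
  linear_combination -h1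

private theorem Ldu_dot {x y : Fin k → K} (h : ∀ z : Fin k → K, x ⬝ᵥ z = y ⬝ᵥ z) : x = y := by
  funext i
  have h1 := h (Pi.single i 1)
  simpa using h1

/-- the element `l` -/
private theorem Ldu_l (qD : QF K D) (α : (Fin k → K) →ₗ[K] D) (Z : (Fin k → K) →ₗ[K] (Fin k → K))
    (h : ∀ x, x ⬝ᵥ Z x + qD.Q (α x) = 0) :
    ∃ β : D →ₗ[K] (Fin k → K), ∃ l ∈ Nm qD k, ∀ v,
      (l : V0 K D k ≃ₗ[K] V0 K D k) v = (v.1, v.2.1 + α v.1, v.2.2 + β v.2.1 + Z v.1) := by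
  obtain ⟨β, hβ⟩ : ∃ β : D →ₗ[K] (Fin k → K), ∀ y i, β y i = - qD.h (α (Pi.single i 1)) y :=
    ⟨LinearMap.pi fun i => -(qD.h (α (Pi.single i 1))), fun y i => rfl⟩
  have hxβ : ∀ (x : Fin k → K) (y : D), x ⬝ᵥ β y = - qD.h y (α x) := by
    intro x y
    have h1 : x = ∑ i, x i • (Pi.single i (1 : K) : Fin k → K) := by
      funext j
      simp [Finset.sum_apply, Pi.single_apply]
    conv_rhs => rw [h1]
    rw [map_sum, map_sum, ← Finset.sum_neg_distrib]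
    refine Finset.sum_congr rfl fun i _ => ?_
    rw [hβ, map_smul, map_smul, smul_eq_mul, qD.symm]
    ring
  refine ⟨β, ⟨{ toFun := fun v => (v.1, v.2.1 + α v.1, v.2.2 + β v.2.1 + Z v.1)
                map_add' := fun v w => ?_
                map_smul' := fun c v => ?_
                invFun := fun v => (v.1, v.2.1 - α v.1, v.2.2 - β (v.2.1 - α v.1) - Z v.1)
                left_inv := fun v => ?_
                right_inv := fun v => ?_ }, fun v => ?_⟩, ?_, fun v => rfl⟩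
  · refine Prod.ext rfl (Prod.ext ?_ ?_)
    · show v.2.1 + w.2.1 + α (v.1 + w.1) = v.2.1 + α v.1 + (w.2.1 + α w.1)
      rw [map_add]
      abel
    · show v.2.2 + w.2.2 + β (v.2.1 + w.2.1) + Z (v.1 + w.1) =
        v.2.2 + β v.2.1 + Z v.1 + (w.2.2 + β w.2.1 + Z w.1)
      rw [map_add, map_add]
      abel
  · refine Prod.ext rfl (Prod.ext ?_ ?_)
    · show c • v.2.1 + α (c • v.1) = c • (v.2.1 + α v.1)
      rw [map_smul, smul_add]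
    · show c • v.2.2 + β (c • v.2.1) + Z (c • v.1) = c • (v.2.2 + β v.2.1 + Z v.1)
      rw [map_smul, map_smul, smul_add, smul_add]
  · refine Prod.ext rfl (Prod.ext ?_ ?_)
    · show v.2.1 + α v.1 - α v.1 = v.2.1
      abel
    · show v.2.2 + β v.2.1 + Z v.1 - β (v.2.1 + α v.1 - α v.1) - Z v.1 = v.2.2
      rw [add_sub_cancel_right]
      abel
  · refine Prod.ext rfl (Prod.ext ?_ ?_)
    · show v.2.1 - α v.1 + α v.1 = v.2.1
      abel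
    · show v.2.2 - β (v.2.1 - α v.1) - Z v.1 + β (v.2.1 - α v.1) + Z v.1 = v.2.2
      abel
  · show (v.1 ⬝ᵥ (v.2.2 + β v.2.1 + Z v.1)) + qD.Q (v.2.1 + α v.1) = v.1 ⬝ᵥ v.2.2 + qD.Q v.2.1
    rw [dotProduct_add, dotProduct_add, qD.add, hxβ]
    linear_combination h v.1
  · rw [mem_Nm]
    refine ⟨fun v => rfl, fun y x' => ?_, fun x' => ?_⟩
    · show y + α 0 = y
      rw [map_zero, add_zero]
    · refine Prod.ext rfl (Prod.ext ?_ ?_)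
      · show (0 : D) + α 0 = 0
        rw [map_zero, add_zero]
      · show x' + β 0 + Z 0 = x'
        rw [map_zero, map_zero, add_zero, add_zero]

/-- Let `g (a⁻¹ x, 0, 0) = (x, α x, Z x)` with linear maps `α`, `Z`; so `x ⬝ Z x + QD (α x) = 0`.  Let `β : D → K^k` be the linear map
with `x ⬝ β y = - hD y (α x)` (`(β y) i = - hD y (α (Pi.single i 1))`).  Then `l (x, y, x') = (x, y + α x, x' + β y + Z x)` is in `Nm`
(isometry: direct computation; inverse: it is injective by triangularity, or write down the inverse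
`(x, y - α x, x' - β (y - α x) - Z x)`).  `g1 = l⁻¹ * g` satisfies `g1 (x, 0, 0) = (a x, 0, 0)`.  For `y ∈ D` there are `x`, `x'` with
`g (x, y, 0) = (0, s y, x')`, so `g1 (x, y, 0) = (0, s y, x'')` (as `l (0, y, x') = (0, y, *)`), and `x'' = 0` as this vector is orthogonal to
`g1 (x1, 0, 0) = (a x1, 0, 0)` for all `x1`.  So `g1 (0, y, 0) = (- a x, s y, 0)`.  Put
`v = (mL a * oD s)⁻¹ * g1`: `v (x, 0, 0) = (x, 0, 0)`, `v (0, y, 0) = (*, y, 0)`, and `(v (0, 0, x')).2.2 = x'` as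
`h (v (0, 0, x')) (v (x, 0, 0)) = x' ⬝ x`.  So `v ∈ Np`. -/
theorem ldu (qD : QF K D) {g : IG (q0 qD k)} {a : Matrix (Fin k) (Fin k) K} {s : IG qD}
    (h : Std qD g a s) (ha : IsUnit a.det) : ∃ l ∈ Nm qD k, ∃ v ∈ Np qD k,
      ∃ u : (Matrix (Fin k) (Fin k) K)ˣ, (u : Matrix (Fin k) (Fin k) K) = a ∧
        g = l * mL qD k u * oD qD k s * v := by
  obtain ⟨h1, h2⟩ := h
  obtain ⟨u, hu⟩ := (Matrix.isUnit_iff_isUnit_det a).2 ha
  -- the linear maps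
  obtain ⟨γ, hγ⟩ : ∃ γ : (Fin k → K) →ₗ[K] V0 K D k, ∀ x, γ x =
      (g : V0 K D k ≃ₗ[K] V0 K D k)
        (((u⁻¹ : (Matrix (Fin k) (Fin k) K)ˣ) : Matrix (Fin k) (Fin k) K) *ᵥ x, 0, 0) := by
    refine ⟨((g : V0 K D k ≃ₗ[K] V0 K D k) : V0 K D k →ₗ[K] V0 K D k) ∘ₗ
      (LinearMap.inl K (Fin k → K) (D × (Fin k → K))) ∘ₗ
      (Matrix.mulVecLin ((u⁻¹ : (Matrix (Fin k) (Fin k) K)ˣ) : Matrix (Fin k) (Fin k) K)), fun x => rfl⟩
  have hγ1 : ∀ x, (γ x).1 = x := by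
    intro x
    rw [hγ, h1, ← hu, mulVec_mulVec, Units.mul_inv, one_mulVec]
  have hQ : ∀ x, x ⬝ᵥ (γ x).2.2 + qD.Q (γ x).2.1 = 0 := by
    intro x
    have e : (q0 qD k).Q (γ x) = 0 := by
      rw [hγ, g.2, q0_Q]
      show _ ⬝ᵥ (0 : Fin k → K) + qD.Q 0 = 0
      rw [dotProduct_zero, qD.Q_zero, add_zero]
    rw [q0_Q, hγ1] at e
    exact e
  obtain ⟨β, l, hl, hlv⟩ := Ldu_l qD
    (LinearMap.fst K D (Fin k → K) ∘ₗ LinearMap.snd K (Fin k → K) (D × (Fin k → K)) ∘ₗ γ)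
    (LinearMap.snd K D (Fin k → K) ∘ₗ LinearMap.snd K (Fin k → K) (D × (Fin k → K)) ∘ₗ γ) hQ
  have hlv' : ∀ v, (l : V0 K D k ≃ₗ[K] V0 K D k) v =
      (v.1, v.2.1 + (γ v.1).2.1, v.2.2 + β v.2.1 + (γ v.1).2.2) := hlv
  have hli : ∀ v, ((l⁻¹ : IG (q0 qD k)) : V0 K D k ≃ₗ[K] V0 K D k)
      ((l : V0 K D k ≃ₗ[K] V0 K D k) v) = v :=
    fun v => (l : V0 K D k ≃ₗ[K] V0 K D k).symm_apply_apply v
  -- `g1`
  obtain ⟨g1, hg1⟩ : ∃ g1, g1 = l⁻¹ * g := ⟨_, rfl⟩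
  have hg1v : ∀ v, (g1 : V0 K D k ≃ₗ[K] V0 K D k) v =
      ((l⁻¹ : IG (q0 qD k)) : V0 K D k ≃ₗ[K] V0 K D k) ((g : V0 K D k ≃ₗ[K] V0 K D k) v) := by
    intro v
    rw [hg1]
    rfl
  have hx : ∀ x, (g1 : V0 K D k ≃ₗ[K] V0 K D k) (x, 0, 0) = (a *ᵥ x, 0, 0) := by
    intro x
    have e : (g : V0 K D k ≃ₗ[K] V0 K D k) (x, 0, 0) = γ (a *ᵥ x) := by
      rw [hγ, ← hu, mulVec_mulVec, Units.inv_mul, one_mulVec]
    have e2 : γ (a *ᵥ x) = (l : V0 K D k ≃ₗ[K] V0 K D k) (a *ᵥ x, 0, 0) := by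
      rw [hlv']
      refine Prod.ext (hγ1 _) (Prod.ext ?_ ?_)
      · show _ = 0 + _
        rw [zero_add]
      · show _ = 0 + β 0 + _
        rw [map_zero, zero_add, zero_add]
    rw [hg1v, e, e2, hli]
  have hy : ∀ y, ∃ x, (g1 : V0 K D k ≃ₗ[K] V0 K D k) (x, y, 0) = (0, (s : D ≃ₗ[K] D) y, 0) := by
    intro y
    obtain ⟨x, x', hxx⟩ := h2 y
    refine ⟨x, ?_⟩
    have e : (0, (s : D ≃ₗ[K] D) y, x') =
        (l : V0 K D k ≃ₗ[K] V0 K D k) (0, (s : D ≃ₗ[K] D) y, x' - β ((s : D ≃ₗ[K] D) y)) := by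
      rw [hlv']
      refine Prod.ext rfl (Prod.ext ?_ ?_)
      · show _ = _ + (γ 0).2.1
        rw [map_zero]
        exact (add_zero _).symm
      · show x' = x' - β ((s : D ≃ₗ[K] D) y) + β ((s : D ≃ₗ[K] D) y) + (γ 0).2.2
        rw [map_zero]
        show x' = x' - β ((s : D ≃ₗ[K] D) y) + β ((s : D ≃ₗ[K] D) y) + 0
        abel
    have e1 : (g1 : V0 K D k ≃ₗ[K] V0 K D k) (x, y, 0) =
        (0, (s : D ≃ₗ[K] D) y, x' - β ((s : D ≃ₗ[K] D) y)) := by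
      rw [hg1v, hxx, e, hli]
    rw [e1]
    have e3 : x' - β ((s : D ≃ₗ[K] D) y) = 0 := by
      apply Ldu_dot
      intro z
      have e4 := Ldu_h g1 (x, y, 0)
        (((u⁻¹ : (Matrix (Fin k) (Fin k) K)ˣ) : Matrix (Fin k) (Fin k) K) *ᵥ z, 0, 0)
      rw [hx, e1, q0_h, q0_h, ← hu, mulVec_mulVec, Units.mul_inv, one_mulVec] at e4
      have e5 : (0 : Fin k → K) ⬝ᵥ (0 : Fin k → K) + (x' - β ((s : D ≃ₗ[K] D) y)) ⬝ᵥ z +
          qD.h ((s : D ≃ₗ[K] D) y) 0 = x ⬝ᵥ (0 : Fin k → K) + (0 : Fin k → K) ⬝ᵥ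
            (((u⁻¹ : (Matrix (Fin k) (Fin k) K)ˣ) : Matrix (Fin k) (Fin k) K) *ᵥ z) + qD.h y 0 := e4
      rw [map_zero, map_zero, dotProduct_zero, dotProduct_zero, zero_dotProduct, zero_add, add_zero,
        add_zero, add_zero] at e5
      rw [e5, zero_dotProduct]
    rw [e3]
  -- `v`
  obtain ⟨v, hv⟩ : ∃ v, v = (mL qD k u * oD qD k s)⁻¹ * g1 := ⟨_, rfl⟩
  have hmi : ∀ w, (((mL qD k u * oD qD k s)⁻¹ : IG (q0 qD k)) : V0 K D k ≃ₗ[K] V0 K D k)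
      (((mL qD k u * oD qD k s : IG (q0 qD k)) : V0 K D k ≃ₗ[K] V0 K D k) w) = w :=
    fun w => ((mL qD k u * oD qD k s : IG (q0 qD k)) : V0 K D k ≃ₗ[K] V0 K D k).symm_apply_apply w
  have hmv : ∀ w, ((mL qD k u * oD qD k s : IG (q0 qD k)) : V0 K D k ≃ₗ[K] V0 K D k) w =
      (a *ᵥ w.1, (s : D ≃ₗ[K] D) w.2.1,
        ((u⁻¹ : (Matrix (Fin k) (Fin k) K)ˣ) : Matrix (Fin k) (Fin k) K)ᵀ *ᵥ w.2.2) := by
    intro w
    rw [← hu]
    rfl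
  have hvv : ∀ w, (v : V0 K D k ≃ₗ[K] V0 K D k) w =
      (((mL qD k u * oD qD k s)⁻¹ : IG (q0 qD k)) : V0 K D k ≃ₗ[K] V0 K D k)
        ((g1 : V0 K D k ≃ₗ[K] V0 K D k) w) := by
    intro w
    rw [hv]
    rfl
  have hvx : ∀ x, (v : V0 K D k ≃ₗ[K] V0 K D k) (x, 0, 0) = (x, 0, 0) := by
    intro x
    have e : ((mL qD k u * oD qD k s : IG (q0 qD k)) : V0 K D k ≃ₗ[K] V0 K D k) (x, 0, 0) =
        (a *ᵥ x, 0, 0) := by
      rw [hmv]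
      refine Prod.ext rfl (Prod.ext ?_ ?_)
      · show (s : D ≃ₗ[K] D) 0 = 0
        rw [map_zero]
      · show _ *ᵥ (0 : Fin k → K) = 0
        rw [mulVec_zero]
    rw [hvv, hx, ← e, hmi]
  have hvy : ∀ y, ∃ x, (v : V0 K D k ≃ₗ[K] V0 K D k) (x, y, 0) = (0, y, 0) := by
    intro y
    obtain ⟨x, hxy⟩ := hy y
    refine ⟨x, ?_⟩
    have e : ((mL qD k u * oD qD k s : IG (q0 qD k)) : V0 K D k ≃ₗ[K] V0 K D k) (0, y, 0) =
        (0, (s : D ≃ₗ[K] D) y, 0) := by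
      rw [hmv]
      refine Prod.ext ?_ (Prod.ext rfl ?_)
      · show _ *ᵥ (0 : Fin k → K) = 0
        rw [mulVec_zero]
      · show _ *ᵥ (0 : Fin k → K) = 0
        rw [mulVec_zero]
    rw [hvv, hxy, ← e, hmi]
  have hvxy : ∀ x y, ∃ z, (v : V0 K D k ≃ₗ[K] V0 K D k) (x, y, 0) = (z, y, 0) := by
    intro x y
    obtain ⟨x1, h1'⟩ := hvy y
    refine ⟨x - x1, ?_⟩
    have e : ((x, y, 0) : V0 K D k) = (x1, y, 0) + (x - x1, 0, 0) := by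
      refine Prod.ext ?_ (Prod.ext ?_ ?_)
      · show x = x1 + (x - x1)
        abel
      · show y = y + 0
        rw [add_zero]
      · show (0 : Fin k → K) = 0 + 0
        rw [add_zero]
    rw [e, map_add, h1', hvx]
    refine Prod.ext ?_ (Prod.ext ?_ ?_)
    · show 0 + (x - x1) = x - x1
      rw [zero_add]
    · show y + 0 = y
      rw [add_zero]
    · show (0 : Fin k → K) + 0 = 0
      rw [add_zero]
  have hv3 : ∀ w, ((v : V0 K D k ≃ₗ[K] V0 K D k) w).2.2 = w.2.2 := by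
    intro w
    apply Ldu_dot
    intro z
    have e4 := Ldu_h v w (z, 0, 0)
    rw [hvx, q0_h, q0_h] at e4
    have e5 : ((v : V0 K D k ≃ₗ[K] V0 K D k) w).1 ⬝ᵥ (0 : Fin k → K) +
        ((v : V0 K D k ≃ₗ[K] V0 K D k) w).2.2 ⬝ᵥ z +
        qD.h ((v : V0 K D k ≃ₗ[K] V0 K D k) w).2.1 0 = w.1 ⬝ᵥ (0 : Fin k → K) + w.2.2 ⬝ᵥ z +
          qD.h w.2.1 0 := e4
    rw [map_zero, map_zero, dotProduct_zero, dotProduct_zero, add_zero, add_zero, zero_add,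
      zero_add] at e5
    exact e5
  refine ⟨l, hl, v, Ldu_Np hv3 ?_ hvx, u, hu, ?_⟩
  · intro x y
    obtain ⟨z, hz⟩ := hvxy x y
    rw [hz]
  · rw [hv, hg1, mul_assoc l]
    group

/-- the standard position is inherited: for `P`, `a` etc.; `oD` commutes with `mL` -/
theorem oD_mL (qD : QF K D) (s : IG qD) (u : (Matrix (Fin k) (Fin k) K)ˣ) :
    oD qD k s * mL qD k u = mL qD k u * oD qD k s := by
  apply Subtype.ext
  apply LinearEquiv.ext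
  intro v
  rfl

private theorem Ldu_conj (qD : QF K D) (u : (Matrix (Fin k) (Fin k) K)ˣ) (l : IG (q0 qD k))
    (v : V0 K D k) : ((mL qD k u * l * (mL qD k u)⁻¹ : IG (q0 qD k)) : V0 K D k ≃ₗ[K] V0 K D k) v =
      (mL qD k u : V0 K D k ≃ₗ[K] V0 K D k) ((l : V0 K D k ≃ₗ[K] V0 K D k)
        (((u⁻¹ : (Matrix (Fin k) (Fin k) K)ˣ) : Matrix (Fin k) (Fin k) K) *ᵥ v.1, v.2.1,
          (u : Matrix (Fin k) (Fin k) K)ᵀ *ᵥ v.2.2)) := rfl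

/-- `mL` normalizes `Nm` -/
theorem mL_Nm (qD : QF K D) (u : (Matrix (Fin k) (Fin k) K)ˣ) {l : IG (q0 qD k)}
    (hl : l ∈ Nm qD k) : mL qD k u * l * (mL qD k u)⁻¹ ∈ Nm qD k := by
  rw [mem_Nm] at hl ⊢
  obtain ⟨h1, h2, h3⟩ := hl
  refine ⟨fun v => ?_, fun y x' => ?_, fun x' => ?_⟩
  · rw [Ldu_conj, mL_apply, h1]
    show (u : Matrix (Fin k) (Fin k) K) *ᵥ (_ *ᵥ v.1) = v.1
    rw [mulVec_mulVec, Units.mul_inv, one_mulVec]
  · rw [Ldu_conj, mL_apply]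
    show ((l : V0 K D k ≃ₗ[K] V0 K D k) (_ *ᵥ (0 : Fin k → K), y, _)).2.1 = y
    rw [mulVec_zero, h2]
  · rw [Ldu_conj]
    show (mL qD k u : V0 K D k ≃ₗ[K] V0 K D k) ((l : V0 K D k ≃ₗ[K] V0 K D k)
      (_ *ᵥ (0 : Fin k → K), 0, _ *ᵥ x')) = _
    rw [mulVec_zero, h3, mL_apply]
    refine Prod.ext ?_ (Prod.ext rfl ?_)
    · show _ *ᵥ (0 : Fin k → K) = 0
      rw [mulVec_zero]
    · show ((u⁻¹ : (Matrix (Fin k) (Fin k) K)ˣ) : Matrix (Fin k) (Fin k) K)ᵀ *ᵥ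
        ((u : Matrix (Fin k) (Fin k) K)ᵀ *ᵥ x') = x'
      rw [mulVec_mulVec, ← transpose_mul, Units.mul_inv, transpose_one, one_mulVec]

theorem mL_Np (qD : QF K D) (u : (Matrix (Fin k) (Fin k) K)ˣ) {v : IG (q0 qD k)}
    (hv : v ∈ Np qD k) : mL qD k u * v * (mL qD k u)⁻¹ ∈ Np qD k := by
  obtain ⟨h1, h2, h3⟩ := Ldu_Np' hv
  refine Ldu_Np (fun w => ?_) (fun x y => ?_) (fun x => ?_)
  · rw [Ldu_conj, mL_apply]
    show _ *ᵥ ((v : V0 K D k ≃ₗ[K] V0 K D k) _).2.2 = w.2.2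
    rw [h1]
    show _ *ᵥ (_ *ᵥ w.2.2) = w.2.2
    rw [mulVec_mulVec, ← transpose_mul, Units.mul_inv, transpose_one, one_mulVec]
  · rw [Ldu_conj, mL_apply]
    show ((v : V0 K D k ≃ₗ[K] V0 K D k) (_, y, _ *ᵥ (0 : Fin k → K))).2.1 = y
    rw [mulVec_zero, h2]
  · rw [Ldu_conj]
    show (mL qD k u : V0 K D k ≃ₗ[K] V0 K D k) ((v : V0 K D k ≃ₗ[K] V0 K D k)
      (_ *ᵥ x, 0, _ *ᵥ (0 : Fin k → K))) = _
    rw [mulVec_zero, h3, mL_apply]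
    refine Prod.ext ?_ (Prod.ext rfl ?_)
    · show (u : Matrix (Fin k) (Fin k) K) *ᵥ
        (((u⁻¹ : (Matrix (Fin k) (Fin k) K)ˣ) : Matrix (Fin k) (Fin k) K) *ᵥ x) = x
      rw [mulVec_mulVec, Units.mul_inv, one_mulVec]
    · show _ *ᵥ (0 : Fin k → K) = 0
      rw [mulVec_zero]

/-- `sw * mL u * sw⁻¹ = mL (transpose inverse of u)` -/
theorem sw_mL (qD : QF K D) (u u' : (Matrix (Fin k) (Fin k) K)ˣ)
    (h : (u' : Matrix (Fin k) (Fin k) K) = ((u⁻¹ : (Matrix (Fin k) (Fin k) K)ˣ) : Matrix (Fin k) (Fin k) K)ᵀ) :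
    sw qD k * mL qD k u * (sw qD k)⁻¹ = mL qD k u' := by
  have h' : ((u'⁻¹ : (Matrix (Fin k) (Fin k) K)ˣ) : Matrix (Fin k) (Fin k) K) =
      (u : Matrix (Fin k) (Fin k) K)ᵀ := by
    rw [← Units.mul_right_inj u', Units.mul_inv, h, ← transpose_mul, Units.mul_inv, transpose_one]
  apply Subtype.ext
  apply LinearEquiv.ext
  intro v
  rw [mL_apply, h, h', transpose_transpose]
  rfl

end ThQ
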