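import Pool.Agent.ThQ.Sym

/-! # Module BlkA: the 4-dimensional blocks of exceptional isometries -/

namespace ThQ
open Module

variable {K V : Type*} [Field K] [AddCommGroup V] [Module K V] (q : QF K V)
variable {U : Submodule K V} {G : V →ₗ[K] V} {c : K} {w1 w2 : V}

/-- `w1`, `w2`, `G w1`, `G w2` span a nondegenerate `G`-invariant subspace of dimension 4 -/
structure Blk (U : Submodule K V) (G : V →ₗ[K] V) (w1 w2 : V) : Prop where
  m1 : w1 ∈ U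
  m2 : w2 ∈ U
  s1 : q.Q w1 = 0
  s2 : q.Q w2 = 0
  o : q.h w1 w2 = 0
  d : q.h w2 (G w1) = 1

/-- the orthogonal complement of the block -/
def cmp4 (U : Submodule K V) (G : V →ₗ[K] V) (w1 w2 : V) : Submodule K V :=
  q.perp2 (q.perp2 U w1 w2) (G w1) (G w2)

theorem mem_cmp4 {x : V} : x ∈ cmp4 q U G w1 w2 ↔ x ∈ U ∧ q.h w1 x = 0 ∧ q.h w2 x = 0 ∧
    q.h (G w1) x = 0 ∧ q.h (G w2) x = 0 := by
  simp only [cmp4, q.mem_perp2, and_assoc]

/-- The values of the form: `h w1 (G w1) = c Q w1 = 0`, `h w1 (G w2) = c h w1 w2 - h w2 (G w1) = -1` (`exc_polar`). -/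
theorem blk_h (hG : q.Iso U G) (hE : q.Exc U G c) (hb : Blk q U G w1 w2) :
    q.h w1 (G w1) = 0 ∧ q.h w1 (G w2) = -1 ∧ q.h w2 (G w2) = 0 ∧ q.h (G w1) (G w2) = 0 ∧
      q.Q (G w1) = 0 ∧ q.Q (G w2) = 0 := by
  have h1 := hE w1 hb.m1
  have h2 := hE w2 hb.m2
  have h3 := exc_polar q hE hb.m1 hb.m2
  have h4 := hG.h hb.m1 hb.m2
  rw [hb.s1, mul_zero] at h1
  rw [hb.s2, mul_zero] at h2
  rw [hb.d, hb.o, mul_zero] at h3
  rw [hb.o] at h4
  exact ⟨h1, by linear_combination h3, h2, h4, by rw [hG.2 _ hb.m1, hb.s1],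
    by rw [hG.2 _ hb.m2, hb.s2]⟩

/-- `w1`, `G w1` are independent and `h w1 (G w1) = 0` (`Exc`).  Take `y ∈ U` with `h y w1 = 0`, `h y (G w1) = 1` (`two_val`) and
`w2 = y - Q y • G w1`. -/
theorem blk_ex [FiniteDimensional K V] (hU : q.ND U) (hG : q.Iso U G) (hE : q.Exc U G c)
    (h1 : w1 ∈ U) (h0 : q.Q w1 = 0) (hne : ∀ t : K, G w1 ≠ t • w1) : ∃ w2, Blk q U G w1 w2 := by
  have hw0 : w1 ≠ 0 := by
    intro h
    exact hne 0 (by rw [h, map_zero, smul_zero])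
  have hi : ∀ s t : K, s • w1 + t • G w1 = 0 → s = 0 ∧ t = 0 := by
    intro s t hst
    have ht : t = 0 := by
      by_contra ht
      apply hne (-(t⁻¹ * s))
      have h2 : t • G w1 = -(s • w1) := by
        rw [eq_neg_iff_add_eq_zero, add_comm]
        exact hst
      calc G w1 = t⁻¹ • (t • G w1) := by rw [smul_smul, inv_mul_cancel₀ ht, one_smul]
        _ = -(t⁻¹ * s) • w1 := by rw [h2, smul_neg, smul_smul, neg_smul]
    rw [ht, zero_smul, add_zero] at hst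
    exact ⟨(smul_eq_zero.1 hst).resolve_right hw0, ht⟩
  obtain ⟨y, hy, hy1, hy2⟩ := two_val q hU h1 (hG.1 _ h1) hi 0 1
  have hE1 : q.h w1 (G w1) = 0 := by rw [hE w1 h1, h0, mul_zero]
  have hQG : q.Q (G w1) = 0 := by rw [hG.2 _ h1, h0]
  refine ⟨y - q.Q y • G w1, h1, U.sub_mem hy (U.smul_mem _ (hG.1 _ h1)), h0, ?_, ?_, ?_⟩
  · rw [q.Q_sub, q.smul, hQG, map_smul, smul_eq_mul, hy2]
    ring
  · rw [map_sub, map_smul, hE1, smul_zero, sub_zero, q.symm, hy1]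
  · rw [q.sub_left, q.smul_left, hy2, q.h_self_zero hQG, mul_zero, sub_zero]

/-- the coefficients are determined by `blk_h` -/
theorem blk_dec (hG : q.Iso U G) (hE : q.Exc U G c) (hb : Blk q U G w1 w2) {x : V} (hx : x ∈ U) :
    x - ((-q.h (G w2) x) • w1 + q.h (G w1) x • w2 + q.h w2 x • G w1 + (-q.h w1 x) • G w2) ∈
      cmp4 q U G w1 w2 := by
  obtain ⟨a1, a2, a3, a4, a5, a6⟩ := blk_h q hG hE hb
  have b1 : q.h (G w1) w1 = 0 := by rw [q.symm, a1]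
  have b2 : q.h (G w2) w1 = -1 := by rw [q.symm, a2]
  have b3 : q.h (G w2) w2 = 0 := by rw [q.symm, a3]
  have b4 : q.h (G w2) (G w1) = 0 := by rw [q.symm, a4]
  have b5 : q.h w2 w1 = 0 := by rw [q.symm, hb.o]
  have b6 : q.h (G w1) w2 = 1 := by rw [q.symm, hb.d]
  have hGw1 := hG.1 _ hb.m1
  have hGw2 := hG.1 _ hb.m2
  rw [mem_cmp4]
  refine ⟨U.sub_mem hx (U.add_mem (U.add_mem (U.add_mem (U.smul_mem _ hb.m1) (U.smul_mem _ hb.m2))
    (U.smul_mem _ hGw1)) (U.smul_mem _ hGw2)), ?_, ?_, ?_, ?_⟩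
  · simp only [map_sub, map_add, map_smul, smul_eq_mul, q.h_self_zero hb.s1, hb.o, a1, a2]
    ring
  · simp only [map_sub, map_add, map_smul, smul_eq_mul, q.h_self_zero hb.s2, b5, hb.d, a3]
    ring
  · simp only [map_sub, map_add, map_smul, smul_eq_mul, q.h_self_zero a5, b1, b6, a4]
    ring
  · simp only [map_sub, map_add, map_smul, smul_eq_mul, q.h_self_zero a6, b2, b3, b4]
    ring

/-- `h (G x) (G w1) = h x w1 = 0`; and `w1 = c • G w1 - G (G w1) = G (c • w1 - G w1)` (`exc_sq`), so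
`h (G x) w1 = h x (c • w1 - G w1) = 0`; the same for `w2` -/
theorem blk_iso (hU : q.ND U) (hG : q.Iso U G) (hE : q.Exc U G c) (hb : Blk q U G w1 w2) :
    q.Iso (cmp4 q U G w1 w2) G := by
  refine ⟨fun x hx => ?_, fun x hx => hG.2 x ((mem_cmp4 q).1 hx).1⟩
  obtain ⟨hxU, h1, h2, h3, h4⟩ := (mem_cmp4 q).1 hx
  rw [mem_cmp4]
  have aux : ∀ w ∈ U, q.h w x = 0 → q.h (G w) x = 0 → q.h w (G x) = 0 := by
    intro w hw e1 e2
    have e3 := exc_polar q hE hw hxU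
    rw [e1, ← q.symm x (G w)] at e3
    rw [e2, mul_zero, add_zero] at e3
    exact e3
  exact ⟨hG.1 _ hxU, aux w1 hb.m1 h1 h3, aux w2 hb.m2 h2 h4, by rw [hG.h hb.m1 hxU, h1],
    by rw [hG.h hb.m2 hxU, h2]⟩

/-- from `blk_dec` -/
theorem blk_ND (hU : q.ND U) (hG : q.Iso U G) (hE : q.Exc U G c) (hb : Blk q U G w1 w2) :
    q.ND (cmp4 q U G w1 w2) := by
  intro x hx hxy
  obtain ⟨hxU, h1, h2, h3, h4⟩ := (mem_cmp4 q).1 hx
  refine hU x hxU fun y hy => ?_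
  have e1 := hxy _ (blk_dec q hG hE hb hy)
  simp only [map_sub, map_add, map_smul, smul_eq_mul] at e1
  rw [← q.symm x w1, ← q.symm x w2, ← q.symm x (G w1), ← q.symm x (G w2), h1, h2, h3, h4] at e1
  linear_combination e1

theorem blk_exc (hE : q.Exc U G c) : q.Exc (cmp4 q U G w1 w2) G c :=
  fun x hx => hE x ((mem_cmp4 q).1 hx).1

/-- the map `x ↦ (h w1 x, h w2 x, h (G w1) x, h (G w2) x)` from `U` to `K ^ 4` is onto (`blk_h`) -/
theorem blk_finrank [FiniteDimensional K V] (hG : q.Iso U G) (hE : q.Exc U G c)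
    (hb : Blk q U G w1 w2) : finrank K U = finrank K (cmp4 q U G w1 w2) + 4 := by
  obtain ⟨a1, a2, a3, a4, a5, a6⟩ := blk_h q hG hE hb
  have b1 : q.h (G w1) w1 = 0 := by rw [q.symm, a1]
  have b2 : q.h (G w2) w1 = -1 := by rw [q.symm, a2]
  have b3 : q.h (G w2) w2 = 0 := by rw [q.symm, a3]
  have b4 : q.h (G w2) (G w1) = 0 := by rw [q.symm, a4]
  have b5 : q.h w2 w1 = 0 := by rw [q.symm, hb.o]
  have b6 : q.h (G w1) w2 = 1 := by rw [q.symm, hb.d]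
  have hGw1 := hG.1 _ hb.m1
  have hGw2 := hG.1 _ hb.m2
  let φ : U →ₗ[K] (K × K) × (K × K) :=
    (((q.h w1).prod (q.h w2)).prod ((q.h (G w1)).prod (q.h (G w2)))).comp U.subtype
  have hφ : ∀ x : U, φ x = ((q.h w1 x.1, q.h w2 x.1), (q.h (G w1) x.1, q.h (G w2) x.1)) :=
    fun x => rfl
  have hsurj : Function.Surjective φ := by
    rintro ⟨⟨p1, p2⟩, ⟨p3, p4⟩⟩
    refine ⟨⟨(-p4) • w1 + p3 • w2 + p2 • G w1 + (-p1) • G w2,
      U.add_mem (U.add_mem (U.add_mem (U.smul_mem _ hb.m1) (U.smul_mem _ hb.m2))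
    (U.smul_mem _ hGw1)) (U.smul_mem _ hGw2)⟩, ?_⟩
    rw [hφ]
    simp only [map_add, map_smul, smul_eq_mul, q.h_self_zero hb.s1, q.h_self_zero hb.s2,
      q.h_self_zero a5, q.h_self_zero a6, hb.o, hb.d, a1, a2, a3, a4, b1, b2, b3, b4, b5, b6]
    refine Prod.ext (Prod.ext ?_ ?_) (Prod.ext ?_ ?_) <;> simp
  have hle : cmp4 q U G w1 w2 ≤ U := fun x hx => ((mem_cmp4 q).1 hx).1
  have hker : LinearMap.ker φ = (cmp4 q U G w1 w2).comap U.subtype := by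
    ext x
    rw [LinearMap.mem_ker, hφ, Submodule.mem_comap, Submodule.subtype_apply, mem_cmp4,
      Prod.mk_eq_zero, Prod.mk_eq_zero, Prod.mk_eq_zero]
    exact ⟨fun h => ⟨x.2, h.1.1, h.1.2, h.2.1, h.2.2⟩,
      fun h => ⟨⟨h.2.1, h.2.2.1⟩, ⟨h.2.2.2.1, h.2.2.2.2⟩⟩⟩
  have h1 := φ.finrank_range_add_finrank_ker
  rw [LinearMap.range_eq_top.2 hsurj, finrank_top, hker,
    (Submodule.comapSubtypeEquivOfLe hle).finrank_eq, Module.finrank_prod, Module.finrank_prod,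
    finrank_self] at h1
  omega

/-- A scalar exceptional isometry: take `x ∈ U` with `Q x ≠ 0` (`nonsing_ex`): `Q (l • x) = Q x` and
`h x (l • x) = 2 l Q x = c Q x`. -/
theorem exc_scal [FiniteDimensional K V] (hU : q.ND U) (hne : U ≠ ⊥) (hG : q.Iso U G)
    (hE : q.Exc U G c) {l : K} (hl : ∀ x ∈ U, G x = l • x) : l ^ 2 = 1 ∧ c = 2 * l := by
  obtain ⟨e, he, h0⟩ := nonsing_ex q hU hne
  have h1 := hG.2 e he
  have h2 := hE e he
  rw [hl e he, q.smul] at h1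
  rw [hl e he, map_smul, smul_eq_mul, q.h_self] at h2
  constructor
  · exact mul_right_cancel₀ h0 (by rw [h1, one_mul])
  · exact mul_right_cancel₀ h0 (by rw [← h2]; ring)

end ThQ
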