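import Pool.Agent.ThQ.Hyps

/-! # Module Witt: transitivity on hyperbolic systems -/

namespace ThQ
open Module

variable {K V : Type*} [Field K] [AddCommGroup V] [Module K V] (q : QF K V)
variable {U : Submodule K V}

/-- the reflection as an element of the isometry group -/
theorem refl_equiv {f : V} (h0 : q.Q f ≠ 0) : ∃ P : V ≃ₗ[K] V, P ∈ IG q ∧ ∀ x, P x = q.refl f x := by
  have h1 : ∀ x, q.Q (q.refl f x) = q.Q x := fun x =>
    (refl_iso q (U := ⊤) Submodule.mem_top h0).2 x Submodule.mem_top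
  refine ⟨LinearEquiv.ofInvolutive (q.refl f) (fun x => refl_refl q h0 x), ?_, fun x => rfl⟩
  exact fun x => h1 x

private noncomputable def eich (w u : V) : V →ₗ[K] V :=
  LinearMap.id + (q.h w).smulRight u - (q.h u).smulRight w - (q.h w).smulRight (q.Q u • w)

private theorem eich_apply (w u x : V) : eich q w u x =
    x + q.h x w • u - q.h x u • w - (q.Q u * q.h x w) • w := by
  rw [q.symm w x, q.symm u x]
  simp only [eich, LinearMap.sub_apply, LinearMap.add_apply, LinearMap.id_apply,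
    LinearMap.smulRight_apply, smul_smul]
  rw [mul_comm (q.Q u)]

private theorem eich_inv {w u : V} (h0 : q.Q w = 0) (h1 : q.h u w = 0) (x : V) :
    eich q w (-u) (eich q w u x) = x := by
  have h2 : q.h w u = 0 := by rw [q.symm u w, h1]
  have e1 : q.h (eich q w u x) w = q.h x w := by
    rw [eich_apply, q.sub_left, q.sub_left, q.add_left, q.smul_left, q.smul_left, q.smul_left,
      q.h_self_zero h0, h1]
    ring
  have e2 : q.h (eich q w u x) u = q.h x u + 2 * q.Q u * q.h x w := by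
    rw [eich_apply, q.sub_left, q.sub_left, q.add_left, q.smul_left, q.smul_left, q.smul_left,
      q.h_self, h2]
    ring
  rw [eich_apply q w (-u), e1, map_neg, e2, q.Q_neg, eich_apply]
  module

private theorem eich_Q {w u : V} (h0 : q.Q w = 0) (h1 : q.h u w = 0) (x : V) :
    q.Q (eich q w u x) = q.Q x := by
  have h2 : q.h w u = 0 := by rw [q.symm u w, h1]
  rw [eich_apply, q.Q_sub, q.Q_sub, q.add]
  simp only [q.smul, map_smul, smul_eq_mul, q.sub_left, q.add_left, q.smul_left, h0, h1,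
    q.h_self_zero h0]
  ring

/-- the Eichler transformation `x ↦ x + h x w • u - h x u • w - (Q u * h x w) • w` for `Q w = 0`, `h u w = 0`;
the inverse is the one for `-u` -/
theorem eichler_equiv {w u : V} (h0 : q.Q w = 0) (h1 : q.h u w = 0) : ∃ P : V ≃ₗ[K] V, P ∈ IG q ∧
    ∀ x, P x = x + q.h x w • u - q.h x u • w - (q.Q u * q.h x w) • w := by
  have h1' : q.h (-u) w = 0 := by rw [q.neg_left, h1, neg_zero]
  refine ⟨LinearEquiv.ofLinearMap (eich q w u) (eich q w (-u)) ?_ ?_, ?_, fun x => eich_apply q w u x⟩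
  · ext x
    have := eich_inv q h0 h1' x
    rw [neg_neg] at this
    exact this
  · ext x
    exact eich_inv q h0 h1 x
  · exact fun x => eich_Q q h0 h1 x

private def Gd (U : Submodule K V) (P : V ≃ₗ[K] V) : Prop :=
  P ∈ IG q ∧ (∀ x ∈ U, P x ∈ U) ∧ ∀ x, (∀ u ∈ U, q.h u x = 0) → P x = x

private theorem gd_mul {P P' : V ≃ₗ[K] V} (h : Gd q U P) (h' : Gd q U P') : Gd q U (P * P') :=
  ⟨(IG q).mul_mem h.1 h'.1, fun x hx => h.2.1 _ (h'.2.1 x hx), fun x hx => by
    show P (P' x) = x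
    rw [h'.2.2 x hx, h.2.2 x hx]⟩

private theorem gd_refl {f : V} (hf : f ∈ U) (h0 : q.Q f ≠ 0) :
    ∃ P : V ≃ₗ[K] V, Gd q U P ∧ ∀ x, P x = q.refl f x := by
  obtain ⟨P, hP, hPx⟩ := refl_equiv q h0
  refine ⟨P, ⟨hP, fun x hx => ?_, fun x hx => ?_⟩, hPx⟩
  · rw [hPx, q.refl_apply]
    exact U.sub_mem hx (U.smul_mem _ hf)
  · rw [hPx, refl_fix q (hx f hf)]

private theorem gd_swap {w v : V} (hw : w ∈ U) (hv : v ∈ U) (h0 : q.Q w = 0) (k0 : q.Q v = 0)
    (h : q.h w v ≠ 0) : ∃ P : V ≃ₗ[K] V, Gd q U P ∧ P w = v := by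
  have hQ : q.Q (w - v) ≠ 0 := by
    rw [q.Q_sub, h0, k0]
    simpa using h
  obtain ⟨P, hP, hPx⟩ := gd_refl q (U.sub_mem hw hv) hQ
  exact ⟨P, hP, by rw [hPx, refl_swap q h0 k0 h]⟩

private theorem ig_h {P : V ≃ₗ[K] V} (hP : P ∈ IG q) (x y : V) : q.h (P x) (P y) = q.h x y := by
  have h : q.Iso ⊤ (P : V →ₗ[K] V) := ⟨fun _ _ => Submodule.mem_top, fun x _ => hP x⟩
  exact h.h Submodule.mem_top Submodule.mem_top

private theorem gd_one [FiniteDimensional K V] (hU : q.ND U) {w w' v v' : V} (hw : w ∈ U)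
    (hw' : w' ∈ U) (hv : v ∈ U) (h0 : q.Q w = 0) (h0' : q.Q w' = 0) (k0 : q.Q v = 0)
    (h1 : q.h w' w = 1) (k1 : q.h v' v = 1) : ∃ P : V ≃ₗ[K] V, Gd q U P ∧ P w = v := by
  by_cases hwv : q.h w v = 0
  · obtain ⟨u, hu, hu0, hu1, hu2⟩ : ∃ u ∈ U, q.Q u = 0 ∧ q.h w u ≠ 0 ∧ q.h u v ≠ 0 := by
      by_cases hi : ∀ s t : K, s • w + t • v = 0 → s = 0 ∧ t = 0
      · obtain ⟨y, hy, hy1, hy2⟩ := two_val q hU hw hv hi 1 1
        refine ⟨y - q.Q y • w, U.sub_mem hy (U.smul_mem _ hw), ?_, ?_, ?_⟩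
        · rw [q.Q_sub, q.smul, map_smul, smul_eq_mul, h0, hy1]
          ring
        · rw [map_sub, map_smul, q.h_self_zero h0, smul_zero, sub_zero, q.symm y w, hy1]
          exact one_ne_zero
        · rw [q.sub_left, q.smul_left, hwv, hy2, mul_zero, sub_zero]
          exact one_ne_zero
      · push Not at hi
        obtain ⟨s, t, hst, hne⟩ := hi
        have hw0 : q.h w w' ≠ 0 := by
          rw [q.symm w' w, h1]
          exact one_ne_zero
        refine ⟨w', hw', h0', hw0, ?_⟩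
        have e1 : t * q.h w' v = - s := by
          have := congrArg (q.h w') hst
          rw [map_add, map_smul, map_smul, h1, map_zero, smul_eq_mul, smul_eq_mul, mul_one] at this
          linear_combination this
        have e2 : t = - (s * q.h v' w) := by
          have := congrArg (q.h v') hst
          rw [map_add, map_smul, map_smul, k1, map_zero, smul_eq_mul, smul_eq_mul, mul_one] at this
          linear_combination this
        intro h3
        rw [h3, mul_zero] at e1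
        have hs : s = 0 := by linear_combination e1
        rw [hs, zero_mul, neg_zero] at e2
        exact hne hs e2
    obtain ⟨P, hP, hPw⟩ := gd_swap q hw hu h0 hu0 hu1
    obtain ⟨P', hP', hPu⟩ := gd_swap q hu hv hu0 k0 hu2
    refine ⟨P' * P, gd_mul q hP' hP, ?_⟩
    show P' (P w) = v
    rw [hPw, hPu]
  · exact gd_swap q hw hv h0 k0 hwv

/-- Two hyperbolic pairs `w, w'` and `v, v'` of `U` are conjugate under an isometry of `V` which fixes the orthogonal
complement of `U` pointwise.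
(i) `w` to `v`: if `h w v ≠ 0`, the reflection in `w - v` (`refl_swap`).  If `h w v = 0`, there is a singular `u ∈ U` with
`h w u ≠ 0` and `h v u ≠ 0` : `u = w'` if `v` is a multiple of `w`; otherwise take `y ∈ U` with `h y w = h y v = 1`
(`two_val`) and `u = y - Q y • w`; then two reflections (in `w - u` and `u - v`).
(ii) now `w = v`; `v' = w' + u + μ • w` with `u = v' - w' - h w' v' • w`, `u ⊥ w, w'`, `μ = h w' v' = - Q u` (from
`Q v' = 0`); the Eichler transformation for `w`, `u` maps `w` to `w` and `w'` to `v'`. -/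
theorem witt1 [FiniteDimensional K V] (hU : q.ND U) {w w' v v' : V} (hw : w ∈ U) (hw' : w' ∈ U)
    (hv : v ∈ U) (hv' : v' ∈ U) (h0 : q.Q w = 0) (h0' : q.Q w' = 0) (k0 : q.Q v = 0)
    (k0' : q.Q v' = 0) (h1 : q.h w' w = 1) (k1 : q.h v' v = 1) :
    ∃ P : V ≃ₗ[K] V, P ∈ IG q ∧ P w = v ∧ P w' = v' ∧ ∀ x, (∀ u ∈ U, q.h u x = 0) → P x = x := by
  obtain ⟨P, hP, hPw⟩ := gd_one q hU hw hw' hv h0 h0' k0 h1 k1
  have hz : P w' ∈ U := hP.2.1 _ hw'
  have hz0 : q.Q (P w') = 0 := by rw [hP.1, h0']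
  have hz1 : q.h (P w') v = 1 := by rw [← hPw, ig_h q hP.1, h1]
  set z := P w' with hzdef
  have hvv : q.h v v = 0 := q.h_self_zero k0
  have k1' : q.h v v' = 1 := by rw [q.symm v' v, k1]
  have hvz : q.h v z = 1 := by rw [q.symm z v, hz1]
  obtain ⟨u, hu⟩ : ∃ u, u = v' - z - q.h z v' • v := ⟨_, rfl⟩
  have huU : u ∈ U := by
    rw [hu]
    exact U.sub_mem (U.sub_mem hv' hz) (U.smul_mem _ hv)
  have hu1 : q.h u v = 0 := by
    rw [hu, q.sub_left, q.sub_left, q.smul_left, k1, hz1, hvv]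
    ring
  have hu1' : q.h v u = 0 := by rw [q.symm u v, hu1]
  have huQ : q.Q u = - q.h z v' := by
    rw [hu, q.Q_sub, q.Q_sub, q.smul, map_smul, q.sub_left, k0', hz0, k0, k1, hz1, q.symm z v',
      smul_eq_mul]
    ring
  have hzu : q.h z u = 0 := by
    rw [hu, map_sub, map_sub, map_smul, q.h_self_zero hz0, hz1, smul_eq_mul]
    ring
  obtain ⟨E, hE, hEx⟩ := eichler_equiv q k0 hu1
  refine ⟨E * P, (IG q).mul_mem hE hP.1, ?_, ?_, fun x hx => ?_⟩
  · show E (P w) = v
    rw [hPw, hEx, hvv, hu1']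
    module
  · show E z = v'
    rw [hEx, hz1, hzu, huQ, hu]
    module
  · show E (P x) = x
    rw [hP.2.2 x hx, hEx, ← q.symm x v, ← q.symm x u, hx v hv, hx u huU]
    module

/-- Induction on `k`: by induction there is `P` with `P (w i.castSucc) = v i.castSucc` etc.; the last pairs `P (w last), P (w' last)` and
`v last, v' last` are in `U = Dp ⊤ (v ∘ castSucc) (v' ∘ castSucc)` (nondegenerate by `Dp_ND`); `witt1` gives `P'` which fixes the
`v i.castSucc`, `v' i.castSucc` (they are orthogonal to `U`).  Take `P' * P`. -/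
theorem witt [FiniteDimensional K V] (hV : q.ND ⊤) {k : ℕ} {w w' v v' : Fin k → V}
    (h : q.Hyp ⊤ w w') (h' : q.Hyp ⊤ v v') :
    ∃ P : V ≃ₗ[K] V, P ∈ IG q ∧ ∀ i, P (w i) = v i ∧ P (w' i) = v' i := by
  induction k with
  | zero => exact ⟨1, (IG q).one_mem, fun i => i.elim0⟩
  | succ k ih =>
    have hr : ∀ {a a' : Fin (k + 1) → V}, q.Hyp ⊤ a a' →
        q.Hyp ⊤ (fun i : Fin k => a i.castSucc) (fun i : Fin k => a' i.castSucc) := by
      intro a a' ha
      refine ⟨fun i => ha.mem _, fun i => ha.mem' _, fun i => ha.sing _, fun i => ha.sing' _,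
        fun i j => ha.iso _ _, fun i j => ha.iso' _ _, fun i j => ?_⟩
      rw [ha.dual]
      simp only [Fin.castSucc_inj]
    obtain ⟨P, hP, hPi⟩ := ih (hr h) (hr h')
    have hv := hr h'
    have hDp : ∀ {a a' : Fin (k + 1) → V}, q.Hyp ⊤ a a' → ∀ (x : V),
        (x = a (Fin.last k) ∨ x = a' (Fin.last k)) → ∀ i : Fin k,
          q.h (a i.castSucc) x = 0 ∧ q.h (a' i.castSucc) x = 0 := by
      intro a a' ha x hx i
      have hne : i.castSucc ≠ Fin.last k := (Fin.castSucc_lt_last i).ne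
      rcases hx with rfl | rfl
      · exact ⟨ha.iso _ _, by rw [ha.dual, if_neg hne]⟩
      · exact ⟨by rw [q.symm (a' _) (a _), ha.dual, if_neg hne.symm], ha.iso' _ _⟩
    have hDw : ∀ x : V, (x = w (Fin.last k) ∨ x = w' (Fin.last k)) →
        P x ∈ q.Dp ⊤ (fun i : Fin k => v i.castSucc) (fun i : Fin k => v' i.castSucc) := by
      intro x hx
      rw [q.mem_Dp]
      refine ⟨Submodule.mem_top, fun i => ?_⟩
      have h3 := hDp h x hx i
      have h4 := hPi i
      refine ⟨?_, ?_⟩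
      · show q.h (v i.castSucc) (P x) = 0
        rw [← h4.1, ig_h q hP, h3.1]
      · show q.h (v' i.castSucc) (P x) = 0
        rw [← h4.2, ig_h q hP, h3.2]
    have hDv : ∀ x : V, (x = v (Fin.last k) ∨ x = v' (Fin.last k)) →
        x ∈ q.Dp ⊤ (fun i : Fin k => v i.castSucc) (fun i : Fin k => v' i.castSucc) := by
      intro x hx
      rw [q.mem_Dp]
      exact ⟨Submodule.mem_top, fun i => hDp h' x hx i⟩
    obtain ⟨P', hP', e1, e2, e3⟩ := witt1 q (Dp_ND q hV hv) (hDw _ (Or.inl rfl)) (hDw _ (Or.inr rfl))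
      (hDv _ (Or.inl rfl)) (hDv _ (Or.inr rfl)) (by rw [hP, h.sing]) (by rw [hP, h.sing'])
      (h'.sing _) (h'.sing' _) (by rw [ig_h q hP, h.dual, if_pos rfl])
      (by rw [h'.dual, if_pos rfl])
    refine ⟨P' * P, (IG q).mul_mem hP' hP, fun i => ?_⟩
    refine Fin.lastCases ?_ (fun i => ?_) i
    · exact ⟨e1, e2⟩
    · have h4 := hPi i
      refine ⟨?_, ?_⟩
      · show P' (P (w i.castSucc)) = v i.castSucc
        rw [h4.1]
        refine e3 _ fun u hu => ?_
        rw [q.symm (v i.castSucc) u]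
        exact ((q.mem_Dp.1 hu).2 i).1
      · show P' (P (w' i.castSucc)) = v' i.castSucc
        rw [h4.2]
        refine e3 _ fun u hu => ?_
        rw [q.symm (v' i.castSucc) u]
        exact ((q.mem_Dp.1 hu).2 i).2

end ThQ
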