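import Pool.Agent.ThQ.ConjL
import Pool.Agent.ThQ.GLT
import Pool.Agent.ThQ.Sing

/-! # Module AdjA: the Levi subgroup modulo commutators -/

namespace ThQ
open Matrix Module

variable {K D : Type*} [Field K] [AddCommGroup D] [Module K D] {k : ℕ}

/-- the isometries which are products of a commutator and of an element of `oD`, up to order -/
def HH (qD : QF K D) (k : ℕ) : Subgroup (IG (q0 qD k)) where
  carrier := {g | ∃ s : IG qD, g * oD qD k s ∈ commutator (IG (q0 qD k))}
  one_mem' := ⟨1, by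
    rw [map_one, mul_one]
    exact Subgroup.one_mem _⟩
  mul_mem' := by
    rintro g g' ⟨s, hs⟩ ⟨s', hs'⟩
    refine ⟨s' * s, ?_⟩
    have e : g * g' * oD qD k (s' * s) =
        (g * ((g' * oD qD k s') * g⁻¹)) * (g * oD qD k s) := by
      rw [map_mul]
      group
    rw [e]
    have hn : (commutator (IG (q0 qD k))).Normal := inferInstance
    refine Subgroup.mul_mem _ ?_ hs
    rw [← mul_assoc]
    exact hn.conj_mem _ hs' g
  inv_mem' := by
    rintro g ⟨s, hs⟩
    refine ⟨s⁻¹, ?_⟩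
    have hn : (commutator (IG (q0 qD k))).Normal := inferInstance
    have e : g⁻¹ * oD qD k s⁻¹ = g⁻¹ * (g * oD qD k s)⁻¹ * (g⁻¹)⁻¹ := by
      rw [map_inv]
      group
    rw [e]
    exact hn.conj_mem _ (Subgroup.inv_mem _ hs) _

theorem mem_HH {qD : QF K D} {g : IG (q0 qD k)} :
    g ∈ HH qD k ↔ ∃ s : IG qD, g * oD qD k s ∈ commutator (IG (q0 qD k)) := Iff.rfl

theorem comm_le_HH (qD : QF K D) : commutator (IG (q0 qD k)) ≤ HH qD k := fun g hg =>
  ⟨1, by rw [map_one, mul_one]; exact hg⟩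

theorem HH_normal (qD : QF K D) : (HH qD k).Normal := by
  refine ⟨fun g hg h => ?_⟩
  have e : h * g * h⁻¹ = (h * g * h⁻¹ * g⁻¹) * g := by group
  rw [e]
  refine Subgroup.mul_mem _ (comm_le_HH qD ?_) hg
  exact Subgroup.commutator_mem_commutator (Subgroup.mem_top h) (Subgroup.mem_top g)

open scoped commutatorElement in
private theorem adj_comm {G : Type*} [Group G] (a b : G) : a * b * a⁻¹ * b⁻¹ ∈ commutator G :=
  Subgroup.commutator_mem_commutator (Subgroup.mem_top a) (Subgroup.mem_top b)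

private theorem adj_refl_map {V : Type*} [AddCommGroup V] [Module K V] (q : QF K V) {f g : V}
    (hfg : q.Q f = q.Q g) (h : q.Q (f - g) ≠ 0) : q.refl (f - g) f = g := by
  have e : q.h (f - g) f = q.Q (f - g) := by
    rw [q.sub_left, q.Q_sub, q.h_self, ← hfg, q.symm f g]
    ring
  rw [q.refl_apply, e, mul_inv_cancel₀ h, one_smul, sub_sub_cancel]

private theorem adj_refl_conj {V : Type*} [AddCommGroup V] [Module K V] (q : QF K V) (p : IG q)
    (f x : V) : (p : V ≃ₗ[K] V) (q.refl f x) = q.refl ((p : V ≃ₗ[K] V) f) ((p : V ≃ₗ[K] V) x) := by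
  have hiso : q.Iso ⊤ ((p : V ≃ₗ[K] V) : V →ₗ[K] V) := ⟨fun _ _ => trivial, fun x _ => p.2 x⟩
  have e1 : q.h ((p : V ≃ₗ[K] V) f) ((p : V ≃ₗ[K] V) x) = q.h f x :=
    hiso.h (x := f) (y := x) trivial trivial
  have e2 : q.Q ((p : V ≃ₗ[K] V) f) = q.Q f := p.2 f
  rw [q.refl_apply, q.refl_apply, map_sub, map_smul, e1, e2]

/-- Characteristic not two: for a nonsingular `f ∈ V0` the reflection in `f` is in `HH`.  Let `e ∈ D` with `Q e = Q f` (`univ2`),
`e' = (0, e, 0)`.  `Q (f - e') + Q (f + e') = 4 Q f ≠ 0`; so `Q (f - e') ≠ 0` and `p = refl (f - e')` maps `f` to `e'`, or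
`Q (f + e') ≠ 0` and `p = refl (f + e')` maps `f` to `- e'`.  So `refl f = p⁻¹ * refl e' * p` and `refl e' = oD (refl e)`; modulo the
commutator subgroup, `refl f` is `oD (refl e)`.  (`refl_equiv` gives the reflections as elements of the groups.) -/
theorem refl_HH [Finite K] [FiniteDimensional K D] (h2 : (2 : K) ≠ 0) (qD : QF K D)
    (hD : qD.ND ⊤) (hD2 : finrank K D = 2) {f : V0 K D k} (hf : (q0 qD k).Q f ≠ 0)
    {r : IG (q0 qD k)} (hr : ∀ x, (r : V0 K D k ≃ₗ[K] V0 K D k) x = (q0 qD k).refl f x) :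
    r ∈ HH qD k := by
  obtain ⟨e, -, he⟩ := univ2 qD (D := ⊤) hD (by rw [finrank_top]; exact hD2) ((q0 qD k).Q f)
  have he0 : qD.Q e ≠ 0 := by rw [he]; exact hf
  obtain ⟨R, hR, hRx⟩ := refl_equiv qD he0
  let s : IG qD := ⟨R, hR⟩
  let e' : V0 K D k := (0, e, 0)
  have hQe' : (q0 qD k).Q e' = (q0 qD k).Q f := by
    rw [← he, q0_Q]
    show (0 : Fin k → K) ⬝ᵥ (0 : Fin k → K) + qD.Q e = qD.Q e
    rw [zero_dotProduct, zero_add]
  have hhe' : ∀ x : V0 K D k, (q0 qD k).h e' x = qD.h e x.2.1 := by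
    intro x
    rw [q0_h]
    show (0 : Fin k → K) ⬝ᵥ x.2.2 + (0 : Fin k → K) ⬝ᵥ x.1 + qD.h e x.2.1 = _
    rw [zero_dotProduct, zero_dotProduct, zero_add, zero_add]
  have hoD : ∀ x, (oD qD k s : V0 K D k ≃ₗ[K] V0 K D k) x = (q0 qD k).refl e' x := by
    intro x
    rw [oD_apply, QF.refl_apply, hhe', hQe', ← he]
    show (x.1, R x.2.1, x.2.2) = x - (qD.h e x.2.1 * (qD.Q e)⁻¹) • ((0, e, 0) : V0 K D k)
    rw [hRx, QF.refl_apply]
    ext j <;> simp
  have key : ∃ g : V0 K D k, (∀ x, (q0 qD k).refl g x = (q0 qD k).refl e' x) ∧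
      (q0 qD k).Q f = (q0 qD k).Q g ∧ (q0 qD k).Q (f - g) ≠ 0 := by
    by_cases h1 : (q0 qD k).Q (f - e') = 0
    · refine ⟨-e', fun x => ?_, ?_, ?_⟩
      · rw [QF.refl_apply, QF.refl_apply, QF.neg_left, QF.Q_neg]
        rw [neg_mul, neg_smul, smul_neg, neg_neg]
      · rw [QF.Q_neg, hQe']
      · rw [sub_neg_eq_add, QF.add, hQe']
        rw [QF.Q_sub, hQe'] at h1
        have h3 : (q0 qD k).h f e' = 2 * (q0 qD k).Q f := by linear_combination -h1
        rw [h3]
        have h4 : (q0 qD k).Q f + (q0 qD k).Q f + 2 * (q0 qD k).Q f = 2 * 2 * (q0 qD k).Q f := by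
          ring
        rw [h4]
        exact mul_ne_zero (mul_ne_zero h2 h2) hf
    · exact ⟨e', fun _ => rfl, hQe'.symm, h1⟩
  obtain ⟨g, hg1, hg2, hg3⟩ := key
  obtain ⟨P, hP, hPx⟩ := refl_equiv (q0 qD k) hg3
  let p : IG (q0 qD k) := ⟨P, hP⟩
  have hpf : (p : V0 K D k ≃ₗ[K] V0 K D k) f = g := by
    show P f = g
    rw [hPx]
    exact adj_refl_map _ hg2 hg3
  have hrp : r = p⁻¹ * oD qD k s * p := by
    have h5 : p * r = oD qD k s * p := by
      apply Subtype.ext
      apply LinearEquiv.ext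
      intro x
      show (p : V0 K D k ≃ₗ[K] V0 K D k) ((r : V0 K D k ≃ₗ[K] V0 K D k) x) =
        (oD qD k s : V0 K D k ≃ₗ[K] V0 K D k) ((p : V0 K D k ≃ₗ[K] V0 K D k) x)
      rw [hr, adj_refl_conj, hpf, hg1, hoD]
    rw [mul_assoc, ← h5, inv_mul_cancel_left]
  rw [mem_HH]
  refine ⟨s⁻¹, ?_⟩
  have e1 : r * oD qD k s⁻¹ = p⁻¹ * oD qD k s * (p⁻¹)⁻¹ * (oD qD k s)⁻¹ := by
    rw [hrp, map_inv, inv_inv]
  rw [e1]
  exact adj_comm _ _

private theorem adj_e0_Q (qD : QF K D) (i : Fin k) (c : K) :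
    (q0 qD k).Q (e0 K D k i - c • e0' K D k i) = -c := by
  rw [q0_Q]
  have e1 : (e0 K D k i - c • e0' K D k i).1 = Pi.single i 1 := by
    simp [e0, e0']
  have e2 : (e0 K D k i - c • e0' K D k i).2.1 = 0 := by
    simp [e0, e0']
  have e3 : (e0 K D k i - c • e0' K D k i).2.2 = -(c • Pi.single i 1) := by
    simp [e0, e0']
  rw [e1, e2, e3, qD.Q_zero, single_one_dotProduct]
  simp

private theorem adj_refl_ww (qD : QF K D) (i : Fin k) {c : K} (hc : c ≠ 0) (v : V0 K D k) :
    (q0 qD k).refl (e0 K D k i - c • e0' K D k i) v =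
      (Function.update v.1 i (c⁻¹ * v.2.2 i), v.2.1, Function.update v.2.2 i (c * v.1 i)) := by
  have e0h : (q0 qD k).h (e0 K D k i - c • e0' K D k i) v = v.2.2 i - c * v.1 i := by
    rw [QF.sub_left, QF.smul_left, q0_h, q0_h]
    simp [e0, e0', qD.zero_left]
  rw [QF.refl_apply, e0h, adj_e0_Q]
  refine Prod.ext ?_ (Prod.ext ?_ ?_)
  · funext j
    by_cases hj : j = i
    · subst hj
      simp [e0, e0']
      field_simp
      ring
    · simp [e0, e0', hj]
  · simp [e0, e0']
  · funext j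
    by_cases hj : j = i
    · subst hj
      simp [e0, e0']
      field_simp
      ring
    · simp [e0, e0', hj]

private theorem adj_dg_apply (qD : QF K D) (i : Fin k) (t : Kˣ) (v : V0 K D k) :
    (mL qD k (dgU i t) : V0 K D k ≃ₗ[K] V0 K D k) v =
      (Function.update v.1 i (t * v.1 i), v.2.1,
        Function.update v.2.2 i (((t⁻¹ : Kˣ) : K) * v.2.2 i)) := by
  rw [mL_apply]
  have e1 : ((dgU i t : (Matrix (Fin k) (Fin k) K)ˣ) : Matrix (Fin k) (Fin k) K) =
      diagonal (Function.update 1 i (t : K)) := rfl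
  have e2 : (((dgU i t)⁻¹ : (Matrix (Fin k) (Fin k) K)ˣ) : Matrix (Fin k) (Fin k) K) =
      diagonal (Function.update 1 i ((t⁻¹ : Kˣ) : K)) := rfl
  rw [e1, e2, diagonal_transpose]
  refine Prod.ext ?_ (Prod.ext rfl ?_)
  · funext j
    show (diagonal (Function.update 1 i (t : K)) *ᵥ v.1) j = _
    rw [mulVec_diagonal]
    by_cases hj : j = i
    · subst hj
      simp
    · simp [hj]
  · funext j
    show (diagonal (Function.update 1 i ((t⁻¹ : Kˣ) : K)) *ᵥ v.2.2) j = _
    rw [mulVec_diagonal]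
    by_cases hj : j = i
    · subst hj
      simp
    · simp [hj]

private theorem adj_swp (qD : QF K D) (i : Fin k) {c : K} (hc : c ≠ 0) :
    ∃ σ : IG (q0 qD k), (∀ v, (σ : V0 K D k ≃ₗ[K] V0 K D k) v =
      (Function.update v.1 i (c⁻¹ * v.2.2 i), v.2.1, Function.update v.2.2 i (c * v.1 i))) ∧
      ∀ v, (σ : V0 K D k ≃ₗ[K] V0 K D k) v =
        (q0 qD k).refl (e0 K D k i - c • e0' K D k i) v := by
  have h0 : (q0 qD k).Q (e0 K D k i - c • e0' K D k i) ≠ 0 := by
    rw [adj_e0_Q]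
    exact neg_ne_zero.2 hc
  obtain ⟨P, hP, hPx⟩ := refl_equiv (q0 qD k) h0
  exact ⟨⟨P, hP⟩, fun v => (hPx v).trans (adj_refl_ww qD i hc v), hPx⟩


/-- Let `w = e0 i`, `w' = e0' i`.
(1) `t = s ^ 2`: let `m = mL (dgU i s)` and `σ` the isometry which exchanges the coordinate `i` of the two vectors of `K^k`; then
`σ m σ⁻¹ = m⁻¹`, so `mL (dgU i t) = m ^ 2 = m (σ⁻¹ m⁻¹ σ)` is a commutator.
(2) Characteristic not two, any `t`: `mL (dgU i t) = refl (w - w') * refl (w - t • w')` (check on `w`, `w'`, and both sides fix the vectors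
orthogonal to `w`, `w'`), and `refl_HH`.
In characteristic two every `t` is a square (`FiniteField.isSquare_of_char_two`). -/
theorem dg_HH [Finite K] [FiniteDimensional K D] (qD : QF K D) (hD : qD.ND ⊤)
    (hD2 : finrank K D = 2) (i : Fin k) (t : Kˣ) : mL qD k (dgU i t) ∈ HH qD k := by
  obtain ⟨σ, hσ, hσr⟩ := adj_swp (D := D) qD i (one_ne_zero (α := K))
  by_cases h2 : (2 : K) = 0
  · -- characteristic two
    have hchar : ringChar K = 2 := by
      have h3 : ringChar K ∣ 2 := ringChar.dvd (by exact_mod_cast h2)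
      rcases (Nat.dvd_prime Nat.prime_two).1 h3 with h4 | h4
      · exact absurd h4 (CharP.ringChar_ne_one)
      · exact h4
    obtain ⟨s0, hs0⟩ := FiniteField.isSquare_of_char_two hchar (t : K)
    have hs00 : s0 ≠ 0 := by
      rintro rfl
      rw [mul_zero] at hs0
      exact t.ne_zero hs0
    let s : Kˣ := Units.mk0 s0 hs00
    have hts : t = s * s := Units.ext hs0
    let m : IG (q0 qD k) := mL qD k (dgU i s)
    have hm2 : mL qD k (dgU i t) = m * m := by
      have e1 : (dgU i t : (Matrix (Fin k) (Fin k) K)ˣ) = dgU i s * dgU i s := by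
        apply Units.ext
        show diagonal (Function.update 1 i (t : K)) =
          diagonal (Function.update 1 i (s : K)) * diagonal (Function.update 1 i (s : K))
        rw [diagonal_mul_diagonal]
        congr 1
        funext j
        by_cases hj : j = i
        · subst hj
          simp [hts]
        · simp [hj]
      rw [e1, map_mul]
    have hms : m * σ * m = σ := by
      apply Subtype.ext
      apply LinearEquiv.ext
      intro v
      show (m : V0 K D k ≃ₗ[K] V0 K D k) ((σ : V0 K D k ≃ₗ[K] V0 K D k)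
        ((m : V0 K D k ≃ₗ[K] V0 K D k) v)) = (σ : V0 K D k ≃ₗ[K] V0 K D k) v
      rw [hσ, hσ, adj_dg_apply, adj_dg_apply]
      refine Prod.ext ?_ (Prod.ext rfl ?_)
      · funext j
        by_cases hj : j = i
        · subst hj
          simp
        · simp [hj]
      · funext j
        by_cases hj : j = i
        · subst hj
          simp
        · simp [hj]
    have e2 : m * m = m * σ⁻¹ * m⁻¹ * (σ⁻¹)⁻¹ := by
      have e3 : σ * m = m⁻¹ * σ := by
        rw [eq_inv_mul_iff_mul_eq, ← mul_assoc, hms]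
      rw [inv_inv]
      have e4 : m = σ⁻¹ * m⁻¹ * σ := by
        rw [mul_assoc, ← e3, inv_mul_cancel_left]
      calc m * m = m * (σ⁻¹ * m⁻¹ * σ) := by rw [← e4]
        _ = m * σ⁻¹ * m⁻¹ * σ := by group
    rw [hm2, e2]
    exact comm_le_HH qD (adj_comm _ _)
  · obtain ⟨τ, hτ, hτr⟩ := adj_swp (D := D) qD i t.ne_zero
    have hm : mL qD k (dgU i t) = σ * τ := by
      apply Subtype.ext
      apply LinearEquiv.ext
      intro v
      show (mL qD k (dgU i t) : V0 K D k ≃ₗ[K] V0 K D k) v =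
        (σ : V0 K D k ≃ₗ[K] V0 K D k) ((τ : V0 K D k ≃ₗ[K] V0 K D k) v)
      rw [hσ, hτ, adj_dg_apply]
      refine Prod.ext ?_ (Prod.ext rfl ?_)
      · funext j
        by_cases hj : j = i
        · subst hj
          simp
        · simp [hj]
      · funext j
        by_cases hj : j = i
        · subst hj
          simp
        · simp [hj]
    rw [hm]
    refine Subgroup.mul_mem _ ?_ ?_
    · refine refl_HH h2 qD hD hD2 (f := e0 K D k i - (1 : K) • e0' K D k i) ?_ hσr
      rw [adj_e0_Q]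
      exact neg_ne_zero.2 one_ne_zero
    · refine refl_HH h2 qD hD hD2 (f := e0 K D k i - (t : K) • e0' K D k i) ?_ hτr
      rw [adj_e0_Q]
      exact neg_ne_zero.2 t.ne_zero

/-- `gl_ind`: `mL` maps commutators to commutators -/
theorem mL_HH [Finite K] [FiniteDimensional K D] (hk : 3 ≤ k) (qD : QF K D) (hD : qD.ND ⊤)
    (hD2 : finrank K D = 2) (u : (Matrix (Fin k) (Fin k) K)ˣ) : mL qD k u ∈ HH qD k := by
  refine gl_ind hk (P := fun u => mL qD k u ∈ HH qD k) ?_ ?_ ?_ u
  · intro u hu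
    refine comm_le_HH qD ?_
    have h1 : mL qD k u ∈ (commutator ((Matrix (Fin k) (Fin k) K)ˣ)).map (mL qD k) :=
      Subgroup.mem_map_of_mem _ hu
    rw [commutator_def, Subgroup.map_commutator] at h1
    exact Subgroup.commutator_mono le_top le_top h1
  · exact fun i t => dg_HH qD hD hD2 i t
  · intro u v hu hv
    show mL qD k (u * v) ∈ HH qD k
    rw [map_mul]
    exact Subgroup.mul_mem _ hu hv

end ThQ
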