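import Pool.Agent.ThQ.TriEx
import Pool.Agent.ThQ.ExcP

/-! # Module AltA: nonexceptional isometries -/

namespace ThQ
open Matrix Module

variable {K V : Type*} [Field K] [AddCommGroup V] [Module K V] (q : QF K V)

/-- Let `w` be as in `hne`, `U1 = perp2 U w (G w)`, `G1 = g1 G w`; `finrank U1 = 2 n + 2 ≥ 6`, `rk U1 G1` is odd
(`par_g1`).  There is a singular `w1 ∈ U1` with `h w1 (G1 w1) ≠ 0`: otherwise `G1` is exceptional on `U1`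
(`sym_exc5`), and `rk U1 G1` is even (`par_exc`).  Let `U2 = perp2 U1 w1 (G1 w1)`, `G2 = g1 G1 w1`,
`finrank U2 = 2 (n - 1) + 2`, and (`tri_ex`) `Tri U2 G2 (n - 1) l' ε`, all `l' i ≠ 0`, `ε = rk U2 G2`.  Choose
`l1 ≠ 0` with `l1 ≠ l' 0` (`h3`; `n - 1 ≥ 1`).  `tri_g1`: `Tri U1 G1 n (Fin.cons l1 l') (ε + 1)` and
`ε + 1` is odd (`par_g1`).  Now `sysA`. -/
theorem altA [Finite K] [FiniteDimensional K V] (h3 : ∃ c : K, c ≠ 0 ∧ c ≠ 1) {n : ℕ} (hn : 2 ≤ n)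
    {U : Submodule K V} {G : V →ₗ[K] V} (hU : q.ND U) (hf : finrank K U = 2 * (n + 1) + 2)
    (hG : q.Iso U G) (hpar : rk U G % 2 = 0) (hne : ∃ w ∈ U, q.Q w = 0 ∧ q.h w (G w) ≠ 0) :
    ∃ κ : K, κ ≠ 0 ∧ ∃ l : Fin n → K, (∀ i, l i ≠ 0) ∧ (∃ i j, l i ≠ l j) ∧
      ∀ t : K, t ≠ 0 → ∃ a : Matrix (Fin (n + 1)) (Fin (n + 1)) K, q.Sys1 U G a ∧
        (∀ i j, j < i → a i j = 0) ∧ ∀ i, a i i = (Fin.cons (t ^ 2 * κ) l : Fin (n + 1) → K) i := by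
  obtain ⟨w, hw, h0, hz⟩ := hne
  obtain ⟨m, rfl⟩ : ∃ m, n = m + 2 := ⟨n - 2, by omega⟩
  have hGw : G w ∈ U := hG.1 w hw
  have hQw : q.Q (G w) = 0 := by rw [hG.2 w hw, h0]
  have hU1 : q.ND (q.perp2 U w (G w)) := perp2_ND q hU hw hGw h0 hQw hz
  have hf1 := perp2_finrank q hw hGw h0 hQw hz
  have hf1' : finrank K (q.perp2 U w (G w)) = 2 * ((m + 1) + 1) + 2 := by omega
  have hG1 : q.Iso (q.perp2 U w (G w)) (q.g1 G w) := iso_g1 q hG hw h0 hz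
  have hp1 := par_g1 q hU hG hw h0 hz
  obtain ⟨w1, hw1, h01, hz1⟩ : ∃ w1 ∈ q.perp2 U w (G w), q.Q w1 = 0 ∧
      q.h w1 (q.g1 G w w1) ≠ 0 := by
    by_contra hcon
    push Not at hcon
    obtain ⟨c, hc⟩ := sym_exc5 q hU1 (by omega) hG1 hcon
    have := par_exc q (m + 3) _ _ c hU1 (by omega) hG1 hc
    omega
  have hGw1 := hG1.1 w1 hw1
  have hQw1 : q.Q (q.g1 G w w1) = 0 := by rw [hG1.2 w1 hw1, h01]
  have hU2 := perp2_ND q hU1 hw1 hGw1 h01 hQw1 hz1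
  have hf2 := perp2_finrank q hw1 hGw1 h01 hQw1 hz1
  have hG2 := iso_g1 q hG1 hw1 h01 hz1
  have hp2 := par_g1 q hU1 hG1 hw1 h01 hz1
  obtain ⟨l', hl', htri⟩ := tri_ex q (m + 1) _ _ hU2 (by omega) hG2
  obtain ⟨c, hc0, hc1⟩ := h3
  have hl1 : c * l' 0 ≠ 0 := mul_ne_zero hc0 (hl' 0)
  have htri1 := tri_g1 q hU1 hG1 hw1 h01 hz1 hf1' htri hl1
  obtain ⟨κ, hκ, hfin⟩ := sysA q hU hG hw h0 hz hf htri1 (by omega)
  refine ⟨κ, hκ, Fin.cons (c * l' 0) l', ?_, ⟨0, 1, ?_⟩, hfin⟩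
  · intro i
    refine Fin.cases ?_ (fun i => ?_) i
    · exact hl1
    · exact hl' i
  · have e1 : (1 : Fin (m + 2)) = Fin.succ 0 := rfl
    rw [e1, Fin.cons_zero, Fin.cons_succ]
    intro h
    apply hc1
    exact mul_right_cancel₀ (hl' 0) (h.trans (one_mul _).symm)

end ThQ
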