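import Mathlib

/-!
# Thompson's conjecture for even dimensional orthogonal groups: definitions

`K` is a field (finite, of any characteristic).  Quadratic forms are given by the structure `QF`: the form `Q` and its
polar form `h`.  The proofs of the modules are sketched in the docstrings of the statements.
-/

namespace ThQ
open Matrix Module

section Geometry

/-- a quadratic form `Q` with its polar form `h` -/
structure QF (K V : Type*) [Field K] [AddCommGroup V] [Module K V] where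
  h : V → V →ₗ[K] K
  Q : V → K
  symm : ∀ x y, h y x = h x y
  add : ∀ x y, Q (x + y) = Q x + Q y + h x y
  smul : ∀ (c : K) (x : V), Q (c • x) = c ^ 2 * Q x

variable {K V : Type*} [Field K] [AddCommGroup V] [Module K V] (q : QF K V)

namespace QF

theorem add_left (x y z : V) : q.h (x + y) z = q.h x z + q.h y z := by
  rw [q.symm z (x + y), map_add, q.symm x z, q.symm y z]

theorem smul_left (c : K) (x y : V) : q.h (c • x) y = c * q.h x y := by
  rw [q.symm y (c • x), map_smul, smul_eq_mul, q.symm x y]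

theorem zero_left (y : V) : q.h 0 y = 0 := by
  rw [q.symm y 0, map_zero]

theorem neg_left (x y : V) : q.h (-x) y = -q.h x y := by
  rw [q.symm y (-x), map_neg, q.symm x y]

theorem sub_left (x y z : V) : q.h (x - y) z = q.h x z - q.h y z := by
  rw [sub_eq_add_neg, q.add_left, q.neg_left, sub_eq_add_neg]

theorem Q_zero : q.Q 0 = 0 := by
  have h := q.smul 0 0
  rwa [zero_smul, zero_pow two_ne_zero, zero_mul] at h

theorem Q_neg (x : V) : q.Q (-x) = q.Q x := by
  have h := q.smul (-1) x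
  rwa [neg_one_smul, neg_one_sq, one_mul] at h

theorem Q_sub (x y : V) : q.Q (x - y) = q.Q x + q.Q y - q.h x y := by
  rw [sub_eq_add_neg, q.add, q.Q_neg, map_neg, sub_eq_add_neg]

theorem h_self (x : V) : q.h x x = 2 * q.Q x := by
  have h := q.add x x
  rw [← two_smul K x, q.smul] at h
  linear_combination -h

theorem h_self_zero {x : V} (hx : q.Q x = 0) : q.h x x = 0 := by
  rw [q.h_self, hx, mul_zero]

/-- the polar form is nondegenerate on the subspace `U` -/
def ND (U : Submodule K V) : Prop := ∀ x ∈ U, (∀ y ∈ U, q.h x y = 0) → x = 0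

/-- `G` maps `U` to `U` and preserves the form on `U` -/
def Iso (U : Submodule K V) (G : V →ₗ[K] V) : Prop :=
  (∀ x ∈ U, G x ∈ U) ∧ ∀ x ∈ U, q.Q (G x) = q.Q x

theorem Iso.h {q : QF K V} {U : Submodule K V} {G : V →ₗ[K] V} (hG : q.Iso U G) {x y : V}
    (hx : x ∈ U) (hy : y ∈ U) : q.h (G x) (G y) = q.h x y := by
  have h1 := q.add (G x) (G y)
  rw [← map_add, hG.2 _ (U.add_mem hx hy), hG.2 _ hx, hG.2 _ hy, q.add] at h1
  linear_combination -h1

/-- the vectors of `U` which are orthogonal to `a` and `b` -/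
def perp2 (U : Submodule K V) (a b : V) : Submodule K V :=
  U ⊓ (LinearMap.ker (q.h a) ⊓ LinearMap.ker (q.h b))

theorem mem_perp2 {U : Submodule K V} {a b x : V} :
    x ∈ q.perp2 U a b ↔ x ∈ U ∧ q.h a x = 0 ∧ q.h b x = 0 := by
  simp [perp2]

/-- The isometry induced by `G` on `perp2 U w (G w)` (where `Q w = 0`, `h w (G w) ≠ 0`):
`G x = g1 x + β x • G w` with `β x = h w (G x) / h w (G w)`. -/
noncomputable def g1 (G : V →ₗ[K] V) (w : V) : V →ₗ[K] V :=
  G - ((q.h w).comp G).smulRight ((q.h w (G w))⁻¹ • G w)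

theorem g1_apply (G : V →ₗ[K] V) (w x : V) :
    q.g1 G w x = G x - (q.h w (G x) * (q.h w (G w))⁻¹) • G w := by
  simp [g1, smul_smul]

/-- The isometry induced by `G` on `perp2 U w w'` (where `w` is a singular eigenvector, `w'` is
singular and `h w' w = 1`): `G x = g2 x + h w' (G x) • w`. -/
noncomputable def g2 (G : V →ₗ[K] V) (w w' : V) : V →ₗ[K] V :=
  G - ((q.h w').comp G).smulRight w

theorem g2_apply (G : V →ₗ[K] V) (w w' x : V) : q.g2 G w w' x = G x - q.h w' (G x) • w := by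
  simp [g2]

/-- the reflection in the nonsingular vector `f` -/
noncomputable def refl (f : V) : V →ₗ[K] V :=
  LinearMap.id - (q.h f).smulRight ((q.Q f)⁻¹ • f)

theorem refl_apply (f x : V) : q.refl f x = x - (q.h f x * (q.Q f)⁻¹) • f := by
  simp [refl, smul_smul]

/-- a hyperbolic system of pairs `w i`, `w' i` in `U` -/
structure Hyp (U : Submodule K V) {ι : Type*} [DecidableEq ι] (w w' : ι → V) : Prop where
  mem : ∀ i, w i ∈ U
  mem' : ∀ i, w' i ∈ U
  sing : ∀ i, q.Q (w i) = 0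
  sing' : ∀ i, q.Q (w' i) = 0
  iso : ∀ i j, q.h (w i) (w j) = 0
  iso' : ∀ i j, q.h (w' i) (w' j) = 0
  dual : ∀ i j, q.h (w' i) (w j) = if i = j then 1 else 0

/-- the vectors of `U` which are orthogonal to all `w i` and `w' i` -/
def Dp (U : Submodule K V) {ι : Type*} (w w' : ι → V) : Submodule K V :=
  U ⊓ ⨅ i, (LinearMap.ker (q.h (w i)) ⊓ LinearMap.ker (q.h (w' i)))

theorem mem_Dp {U : Submodule K V} {ι : Type*} {w w' : ι → V} {x : V} :
    x ∈ q.Dp U w w' ↔ x ∈ U ∧ ∀ i, q.h (w i) x = 0 ∧ q.h (w' i) x = 0 := by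
  simp [Dp]

/-- `s` is the middle block of `G` with respect to the hyperbolic system `w`, `w'` (the Schur complement of the
block of `span w`) -/
def Mid (U : Submodule K V) (G : V →ₗ[K] V) {ι : Type*} (w w' : ι → V) (s : V →ₗ[K] V) : Prop :=
  ∀ x ∈ q.Dp U w w', s x ∈ q.Dp U w w' ∧ ∃ y ∈ Submodule.span K (Set.range w),
    ∃ y' ∈ Submodule.span K (Set.range w'), G (x + y) = s x + y'

/-- `G` has the block `a` in the hyperbolic system `w`, `w'` and the middle block `1` -/
def Sys1 (U : Submodule K V) (G : V →ₗ[K] V) {ι : Type*} [DecidableEq ι] (a : Matrix ι ι K) : Prop :=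
  ∃ w w' : ι → V, q.Hyp U w w' ∧ (∀ i j, q.h (w' i) (G (w j)) = a i j) ∧
    q.Mid U G w w' LinearMap.id

/-- `h x (G x) = c * Q x` on `U` (this implies `G ^ 2 = c G - 1` on `U`) -/
def Exc (U : Submodule K V) (G : V →ₗ[K] V) (c : K) : Prop := ∀ x ∈ U, q.h x (G x) = c * q.Q x

end QF

/-- the rank of `G - 1` on `U`; it is considered modulo 2 -/
noncomputable def rk (U : Submodule K V) (G : V →ₗ[K] V) : ℕ :=
  finrank K (U.map (G - LinearMap.id))

/-- `G` has a triangular block with diagonal `l`, and the middle block has the parity `ε` -/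
def QF.Tri (U : Submodule K V) (G : V →ₗ[K] V) (n : ℕ) (l : Fin n → K) (ε : ℕ) : Prop :=
  ∃ w w' : Fin n → V, ∃ s : V →ₗ[K] V, q.Hyp U w w' ∧ (∀ i j, j < i → q.h (w' i) (G (w j)) = 0) ∧
    (∀ i, q.h (w' i) (G (w i)) = l i) ∧ q.Mid U G w w' s ∧ rk (q.Dp U w w') s % 2 = ε % 2

/-- `G` is a scalar on `U` -/
def Scal (U : Submodule K V) (G : V →ₗ[K] V) : Prop := ∃ c : K, ∀ x ∈ U, G x = c • x

end Geometry

section Group

variable {K D : Type*} [Field K] [AddCommGroup D] [Module K D]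

/-- the underlying space: coordinates in `W`, vector of `D`, coordinates in `W'` -/
abbrev V0 (K D : Type*) (k : ℕ) : Type _ := (Fin k → K) × D × (Fin k → K)

/-- the hyperbolic form plus the form on `D` -/
def q0 (qD : QF K D) (k : ℕ) : QF K (V0 K D k) where
  h a :=
    { toFun := fun b => a.1 ⬝ᵥ b.2.2 + a.2.2 ⬝ᵥ b.1 + qD.h a.2.1 b.2.1
      map_add' := fun b c => by
        simp only [Prod.fst_add, Prod.snd_add, dotProduct_add, map_add]
        ring
      map_smul' := fun c b => by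
        simp only [Prod.smul_fst, Prod.smul_snd, dotProduct_smul, map_smul, smul_eq_mul, RingHom.id_apply]
        ring }
  Q a := a.1 ⬝ᵥ a.2.2 + qD.Q a.2.1
  symm a b := by
    show b.1 ⬝ᵥ a.2.2 + b.2.2 ⬝ᵥ a.1 + qD.h b.2.1 a.2.1 = a.1 ⬝ᵥ b.2.2 + a.2.2 ⬝ᵥ b.1 + qD.h a.2.1 b.2.1
    rw [qD.symm, dotProduct_comm b.1, dotProduct_comm b.2.2]
    ring
  add a b := by
    show (a.1 + b.1) ⬝ᵥ (a.2.2 + b.2.2) + qD.Q (a.2.1 + b.2.1) =
      a.1 ⬝ᵥ a.2.2 + qD.Q a.2.1 + (b.1 ⬝ᵥ b.2.2 + qD.Q b.2.1) +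
        (a.1 ⬝ᵥ b.2.2 + a.2.2 ⬝ᵥ b.1 + qD.h a.2.1 b.2.1)
    rw [qD.add, add_dotProduct, dotProduct_add, dotProduct_add, dotProduct_comm a.2.2]
    ring
  smul c a := by
    show (c • a.1) ⬝ᵥ (c • a.2.2) + qD.Q (c • a.2.1) = c ^ 2 * (a.1 ⬝ᵥ a.2.2 + qD.Q a.2.1)
    rw [qD.smul, smul_dotProduct, dotProduct_smul, smul_eq_mul, smul_eq_mul]
    ring

theorem q0_h (qD : QF K D) (k : ℕ) (a b : V0 K D k) :
    (q0 qD k).h a b = a.1 ⬝ᵥ b.2.2 + a.2.2 ⬝ᵥ b.1 + qD.h a.2.1 b.2.1 := rfl

theorem q0_Q (qD : QF K D) (k : ℕ) (a : V0 K D k) : (q0 qD k).Q a = a.1 ⬝ᵥ a.2.2 + qD.Q a.2.1 := rfl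

/-- the isometry group -/
def IG {V : Type*} [AddCommGroup V] [Module K V] (q : QF K V) : Subgroup (V ≃ₗ[K] V) where
  carrier := {g | ∀ x, q.Q (g x) = q.Q x}
  one_mem' := fun x => rfl
  mul_mem' := fun {g g'} h h' x => by
    show q.Q (g (g' x)) = q.Q x
    rw [h, h']
  inv_mem' := fun {g} h x => by
    rw [← h (g⁻¹ x)]
    show q.Q (g (g.symm x)) = q.Q x
    rw [g.apply_symm_apply]

end Group

end ThQ
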