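import Pool.Agent.ThQ.Defs

/-! # Module Spq -/

namespace ThQ
open Module

variable {K V : Type*} [Field K] [AddCommGroup V] [Module K V] (q : QF K V)
variable {U : Submodule K V} {a b : V}

/-- `s = h b x / h b a`, `t = h a x / h a b` -/
theorem perp2_dec (ha : a ∈ U) (hb : b ∈ U) (haa : q.Q a = 0) (hbb : q.Q b = 0)
    (hab : q.h a b ≠ 0) (x : V) (hx : x ∈ U) : ∃ s t : K, x - s • a - t • b ∈ q.perp2 U a b := by
  have hba : q.h b a ≠ 0 := by rwa [q.symm]
  refine ⟨q.h b x / q.h b a, q.h a x / q.h a b, ?_⟩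
  rw [q.mem_perp2]
  refine ⟨U.sub_mem (U.sub_mem hx (U.smul_mem _ ha)) (U.smul_mem _ hb), ?_, ?_⟩
  · rw [map_sub, map_sub, map_smul, map_smul, q.h_self_zero haa, smul_eq_mul, smul_eq_mul, mul_zero,
      sub_zero, div_mul_cancel₀ _ hab, sub_self]
  · rw [map_sub, map_sub, map_smul, map_smul, q.h_self_zero hbb, smul_eq_mul, smul_eq_mul, mul_zero,
      sub_zero, div_mul_cancel₀ _ hba, sub_self]

/-- see `Pool/Agent/ThU/Spc.lean` (the same for Hermitian forms) -/
theorem perp2_ND (hU : q.ND U) (ha : a ∈ U) (hb : b ∈ U) (haa : q.Q a = 0) (hbb : q.Q b = 0)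
    (hab : q.h a b ≠ 0) : q.ND (q.perp2 U a b) := by
  intro x hx hxy
  have hx' := (q.mem_perp2).1 hx
  refine hU x hx'.1 fun y hy => ?_
  obtain ⟨s, t, hst⟩ := perp2_dec q ha hb haa hbb hab y hy
  have h1 := hxy _ hst
  have h2 : q.h x a = 0 := by rw [q.symm]; exact hx'.2.1
  have h3 : q.h x b = 0 := by rw [q.symm]; exact hx'.2.2
  rw [map_sub, map_sub, map_smul, map_smul, h2, h3, smul_zero, smul_zero, sub_zero, sub_zero] at h1
  exact h1

/-- see `Pool/Agent/ThU/Spc.lean` -/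
theorem perp2_finrank [FiniteDimensional K V] (ha : a ∈ U) (hb : b ∈ U) (haa : q.Q a = 0)
    (hbb : q.Q b = 0) (hab : q.h a b ≠ 0) : finrank K U = finrank K (q.perp2 U a b) + 2 := by
  have hba : q.h b a ≠ 0 := by rwa [q.symm]
  let φ : U →ₗ[K] K × K := ((q.h a).prod (q.h b)).comp U.subtype
  have hφ : ∀ x : U, φ x = (q.h a x.1, q.h b x.1) := fun x => rfl
  have hsurj : Function.Surjective φ := by
    rintro ⟨p, r⟩
    refine ⟨⟨(r / q.h b a) • a + (p / q.h a b) • b,
      U.add_mem (U.smul_mem _ ha) (U.smul_mem _ hb)⟩, ?_⟩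
    rw [hφ]
    simp only [map_add, map_smul, smul_eq_mul, q.h_self_zero haa, q.h_self_zero hbb, mul_zero,
      zero_add, add_zero]
    rw [div_mul_cancel₀ _ hab, div_mul_cancel₀ _ hba]
  have hle : q.perp2 U a b ≤ U := inf_le_left
  have hker : LinearMap.ker φ = (q.perp2 U a b).comap U.subtype := by
    ext x
    rw [LinearMap.mem_ker, hφ, Submodule.mem_comap, Submodule.subtype_apply, q.mem_perp2,
      Prod.mk_eq_zero]
    exact ⟨fun h => ⟨x.2, h⟩, fun h => h.2⟩
  have h1 := φ.finrank_range_add_finrank_ker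
  rw [LinearMap.range_eq_top.2 hsurj, finrank_top, hker,
    (Submodule.comapSubtypeEquivOfLe hle).finrank_eq, Module.finrank_prod, finrank_self] at h1
  omega

/-- Riesz; see `Pool/Agent/ThU/Spc.lean` -/
theorem riesz [FiniteDimensional K V] (hU : q.ND U) (φ : V →ₗ[K] K) :
    ∃ b ∈ U, ∀ x ∈ U, φ x = q.h b x := by
  let N : Submodule K (Dual K U) :=
    { carrier := {ψ | ∃ b ∈ U, ∀ x : U, ψ x = q.h b x.1}
      add_mem' := by
        rintro ψ ψ' ⟨b, hb, h1⟩ ⟨b', hb', h1'⟩
        exact ⟨b + b', U.add_mem hb hb', fun x => by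
          rw [LinearMap.add_apply, h1, h1', q.add_left]⟩
      zero_mem' := ⟨0, U.zero_mem, fun x => by rw [q.zero_left]; rfl⟩
      smul_mem' := by
        rintro c ψ ⟨b, hb, h1⟩
        exact ⟨c • b, U.smul_mem _ hb, fun x => by
          rw [LinearMap.smul_apply, h1, q.smul_left, smul_eq_mul]⟩ }
  have hN : N = ⊤ := by
    by_contra hne
    obtain ⟨f, hf, hle⟩ := Submodule.exists_le_ker_of_lt_top N (lt_top_iff_ne_top.2 hne)
    obtain ⟨x, rfl⟩ := (Module.evalEquiv K U).surjective f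
    apply hf
    have hx : x = 0 := by
      apply Subtype.ext
      refine hU x.1 x.2 fun y hy => ?_
      rw [← q.symm]
      have hmem : ((q.h y).comp U.subtype) ∈ N := ⟨y, hy, fun z => rfl⟩
      have := hle hmem
      rw [LinearMap.mem_ker] at this
      exact this
    rw [hx, map_zero]
  have h1 : φ.comp U.subtype ∈ N := by rw [hN]; exact Submodule.mem_top
  obtain ⟨b, hb, h2⟩ := h1
  exact ⟨b, hb, fun x hx => h2 ⟨x, hx⟩⟩

/-- `a`, `b` independent: there is a functional with the values `α`, `β` at `a`, `b`; now `riesz` -/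
theorem two_val [FiniteDimensional K V] (hU : q.ND U) (ha : a ∈ U) (hb : b ∈ U)
    (hi : ∀ s t : K, s • a + t • b = 0 → s = 0 ∧ t = 0) (α β : K) :
    ∃ y ∈ U, q.h y a = α ∧ q.h y b = β := by
  have hli : LinearIndependent K ![a, b] := by
    rw [LinearIndependent.pair_iff]
    exact hi
  obtain ⟨φ, hφ⟩ : ∃ φ : V →ₗ[K] K, φ a = α ∧ φ b = β := by
    let B := Basis.extend (hli.linearIndepOn_id)
    have hia : a ∈ Set.range ![a, b] := ⟨0, rfl⟩
    have hib : b ∈ Set.range ![a, b] := ⟨1, rfl⟩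
    have hea := hli.linearIndepOn_id.subset_extend (Set.subset_univ _) hia
    have heb := hli.linearIndepOn_id.subset_extend (Set.subset_univ _) hib
    have hne : a ≠ b := by
      intro h
      have := hi 1 (-1) (by rw [h]; simp)
      exact one_ne_zero this.1
    classical
    let φ := B.constr K (fun v => if (v : V) = a then α else if (v : V) = b then β else 0)
    refine ⟨φ, ?_, ?_⟩
    · have h1 : B ⟨a, hea⟩ = a := by simp [B, Basis.extend_apply_self]
      have h2 := B.constr_basis K (fun v => if (v : V) = a then α else if (v : V) = b then β else 0)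
        ⟨a, hea⟩
      rw [h1] at h2
      exact h2.trans (if_pos rfl)
    · have h1 : B ⟨b, heb⟩ = b := by simp [B, Basis.extend_apply_self]
      have h2 := B.constr_basis K (fun v => if (v : V) = a then α else if (v : V) = b then β else 0)
        ⟨b, heb⟩
      rw [h1] at h2
      exact h2.trans ((if_neg hne.symm).trans (if_pos rfl))
  obtain ⟨y, hy, h⟩ := riesz q hU φ
  exact ⟨y, hy, by rw [← h a ha, hφ.1], by rw [← h b hb, hφ.2]⟩

/-- take `y ∈ U` with `h y w = 1` (nondegeneracy, scaling) and `w' = y - Q y • w` -/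
theorem partner (hU : q.ND U) {w : V} (hw : w ∈ U) (h0 : q.Q w = 0) (hn : w ≠ 0) :
    ∃ w' ∈ U, q.Q w' = 0 ∧ q.h w' w = 1 := by
  obtain ⟨y, hy, hne⟩ : ∃ y ∈ U, q.h w y ≠ 0 := by
    by_contra hcon
    push Not at hcon
    exact hn (hU w hw hcon)
  obtain ⟨z, hzU, h1⟩ : ∃ z ∈ U, q.h z w = 1 := ⟨(q.h w y)⁻¹ • y, U.smul_mem _ hy, by
    rw [q.smul_left, q.symm w y, inv_mul_cancel₀ hne]⟩
  refine ⟨z - q.Q z • w, U.sub_mem hzU (U.smul_mem _ hw), ?_, ?_⟩
  · rw [q.Q_sub, q.smul, h0, mul_zero, map_smul, h1, smul_eq_mul, mul_one]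
    ring
  · rw [q.sub_left, q.smul_left, q.h_self_zero h0, h1, mul_zero, sub_zero]

theorem iso_id : q.Iso U LinearMap.id := ⟨fun _ h => h, fun _ _ => rfl⟩

theorem iso_comp {G G' : V →ₗ[K] V} (hG : q.Iso U G) (hG' : q.Iso U G') : q.Iso U (G ∘ₗ G') := by
  refine ⟨fun x hx => hG.1 _ (hG'.1 x hx), fun x hx => ?_⟩
  rw [LinearMap.comp_apply, hG.2 _ (hG'.1 x hx), hG'.2 x hx]

/-- `G` is injective on `U` by nondegeneracy (`h (G x) (G y) = h x y`) -/
theorem iso_inj (hU : q.ND U) {G : V →ₗ[K] V} (hG : q.Iso U G) {x : V} (hx : x ∈ U) (h : G x = 0) :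
    x = 0 := by
  refine hU x hx fun y hy => ?_
  rw [← hG.h hx hy, h, q.zero_left]

/-- `iso_inj` and finite dimension -/
theorem iso_surj [FiniteDimensional K V] (hU : q.ND U) {G : V →ₗ[K] V} (hG : q.Iso U G) {y : V}
    (hy : y ∈ U) : ∃ x ∈ U, G x = y := by
  let g : U →ₗ[K] U := G.restrict hG.1
  have hinj : Function.Injective g := by
    rw [← LinearMap.ker_eq_bot, LinearMap.ker_eq_bot']
    intro x hx
    have h1 : G x.1 = 0 := by
      have := congrArg Subtype.val hx
      simpa [g] using this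
    exact Subtype.ext (iso_inj q hU hG x.2 h1)
  obtain ⟨x, hx⟩ := (LinearMap.injective_iff_surjective.1 hinj) ⟨y, hy⟩
  refine ⟨x.1, x.2, ?_⟩
  have := congrArg Subtype.val hx
  simpa [g] using this

/-- `Q (x - c f) = Q x - c h f x + c^2 Q f` with `c = h f x / Q f` -/
theorem refl_iso {f : V} (hf : f ∈ U) (h0 : q.Q f ≠ 0) : q.Iso U (q.refl f) := by
  refine ⟨fun x hx => ?_, fun x hx => ?_⟩
  · rw [q.refl_apply]
    exact U.sub_mem hx (U.smul_mem _ hf)
  · rw [q.refl_apply, q.Q_sub, q.smul, map_smul, smul_eq_mul, q.symm f x]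
    field_simp
    ring

/-- `h f (refl f x) = - h f x` as `h f f = 2 Q f` -/
theorem refl_refl {f : V} (h0 : q.Q f ≠ 0) (x : V) : q.refl f (q.refl f x) = x := by
  rw [q.refl_apply f (q.refl f x), q.refl_apply, map_sub, map_smul, smul_eq_mul, q.h_self,
    sub_sub, ← add_smul]
  have : q.h f x * (q.Q f)⁻¹ + (q.h f x - q.h f x * (q.Q f)⁻¹ * (2 * q.Q f)) * (q.Q f)⁻¹ = 0 := by
    field_simp
    ring
  rw [this, zero_smul, sub_zero]

theorem refl_smul (f : V) {t : K} (ht : t ≠ 0) : q.refl (t • f) = q.refl f := by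
  ext x
  rw [q.refl_apply, q.refl_apply, q.smul_left, q.smul, smul_smul]
  congr 2
  by_cases h0 : q.Q f = 0
  · rw [h0]; simp
  · field_simp

/-- a vector orthogonal to `f` is fixed -/
theorem refl_fix {f x : V} (h : q.h f x = 0) : q.refl f x = x := by
  rw [q.refl_apply, h, zero_mul, zero_smul, sub_zero]

/-- `Q w = Q v`, `h w v ≠ 0` and `w`, `v` singular: the reflection in `w - v` maps `w` to `v`
(`Q (w - v) = - h w v`) -/
theorem refl_swap {w v : V} (hw : q.Q w = 0) (hv : q.Q v = 0) (h : q.h w v ≠ 0) :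
    q.refl (w - v) w = v := by
  rw [q.refl_apply, q.sub_left, q.Q_sub, hw, hv, q.h_self_zero hw, q.symm w v]
  have : (0 - q.h w v) * (0 + 0 - q.h w v)⁻¹ = 1 := by
    rw [zero_add, mul_inv_cancel₀]
    simpa using h
  rw [this, one_smul, sub_sub_cancel]

end ThQ
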