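import Pool.Agent.ThQ.Sing

/-! # Module Sym: isometries with `h w (G w) = 0` for all singular `w` -/

namespace ThQ
open Module

variable {K V : Type*} [Field K] [AddCommGroup V] [Module K V] (q : QF K V)
variable {U : Submodule K V} {G : V →ₗ[K] V} {c : K}

/-- Put `p x = h x (G x)` and `b x y = h x (G y) + h y (G x)` (so `p (x + y) = p x + p y + b x y`).
`p = 0` on the singular vectors of `U`.  Let `w` be as given and `w'` its partner (`partner`, `h w' w = 1`),
`R = perp2 U w w'`.  The vector `r' = r - h w' r • w` is in `R`, singular (`Q r = 0`, `h w r = 0`) and not `0`.  So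
`R` is spanned by its singular vectors (`perp2_ND`, `span_sing` for `R`).  For a singular `u ∈ R` the vector
`w + u` is singular, so `0 = p (w + u) = b w u`; so `b w u = 0` for all `u ∈ R` (linear in `u`).  In the same way
`b w' u = 0` for all `u ∈ R`.  Let `c = b w w'`.  For `u ∈ R` the vector `w - Q u • w' + u` is singular, so
`0 = p u - Q u b w w' = p u - c Q u`.  Finally for `x = α w + β w' + u` (`perp2_dec`): `Q x = α β + Q u` and
`p x = α β c + c Q u = c Q x`. -/
theorem sym_exc [FiniteDimensional K V] (hU : q.ND U) (hG : q.Iso U G)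
    (hz : ∀ w ∈ U, q.Q w = 0 → q.h w (G w) = 0) {w r : V} (hw : w ∈ U) (hr : r ∈ U)
    (hw0 : q.Q w = 0) (hr0 : q.Q r = 0) (hwr : q.h w r = 0)
    (hi : ∀ s t : K, s • w + t • r = 0 → s = 0 ∧ t = 0) : ∃ c : K, q.Exc U G c := by
  have hn : w ≠ 0 := by
    intro h
    exact one_ne_zero (hi 1 0 (by rw [h, smul_zero, zero_smul, add_zero])).1
  obtain ⟨w', hw', hQ', hww⟩ := partner q hU hw hw0 hn
  have hww' : q.h w w' = 1 := by rw [q.symm]; exact hww
  have hne : q.h w w' ≠ 0 := by rw [hww']; exact one_ne_zero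
  -- the vector `r'`
  have hr' : r - q.h w' r • w ∈ q.perp2 U w w' := by
    rw [q.mem_perp2]
    refine ⟨U.sub_mem hr (U.smul_mem _ hw), ?_, ?_⟩
    · rw [map_sub, map_smul, q.h_self_zero hw0, smul_zero, sub_zero, hwr]
    · rw [map_sub, map_smul, hww, smul_eq_mul, mul_one, sub_self]
  have hQr' : q.Q (r - q.h w' r • w) = 0 := by
    rw [q.Q_sub, q.smul, hr0, hw0, map_smul, q.symm w r, hwr]
    simp
  have hrn : r - q.h w' r • w ≠ 0 := by
    intro h
    have := (hi (-q.h w' r) 1 (by rw [neg_smul, one_smul, neg_add_eq_sub]; exact h)).2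
    exact one_ne_zero this
  have hRND := perp2_ND q hU hw hw' hw0 hQ' hne
  have hspan : ∀ u ∈ q.perp2 U w w',
      u ∈ Submodule.span K {u | u ∈ q.perp2 U w w' ∧ q.Q u = 0} := fun u hu =>
    span_sing q hRND hr' hQr' hrn hu
  -- `p w = 0`, `p w' = 0`
  have hpw := hz w hw hw0
  have hpw' := hz w' hw' hQ'
  have hbw : ∀ u ∈ q.perp2 U w w', q.h w (G u) + q.h u (G w) = 0 := by
    intro u hu
    have h1 := hspan u hu
    induction h1 using Submodule.span_induction with
    | mem z hz' =>
      obtain ⟨hzR, hzQ⟩ := hz'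
      obtain ⟨hzU, hz1, hz2⟩ := q.mem_perp2.1 hzR
      have h2 := hz (w + z) (U.add_mem hw hzU) (by rw [q.add, hw0, hzQ, hz1]; ring)
      have h3 := hz z hzU hzQ
      rw [map_add, map_add, q.add_left, q.add_left, hpw, h3] at h2
      linear_combination h2
    | zero => rw [map_zero, map_zero, q.zero_left, add_zero]
    | add a b ha hb iha ihb =>
      have ha' : a ∈ q.perp2 U w w' :=
        (Submodule.span_le (p := q.perp2 U w w')).2 (fun z hz => hz.1) ha
      have hb' : b ∈ q.perp2 U w w' :=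
        (Submodule.span_le (p := q.perp2 U w w')).2 (fun z hz => hz.1) hb
      rw [map_add, map_add, q.add_left]
      linear_combination iha ha' + ihb hb'
    | smul c a ha iha =>
      have ha' : a ∈ q.perp2 U w w' :=
        (Submodule.span_le (p := q.perp2 U w w')).2 (fun z hz => hz.1) ha
      rw [map_smul, map_smul, q.smul_left, smul_eq_mul]
      linear_combination c * iha ha'
  have hbw' : ∀ u ∈ q.perp2 U w w', q.h w' (G u) + q.h u (G w') = 0 := by
    intro u hu
    have h1 := hspan u hu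
    induction h1 using Submodule.span_induction with
    | mem z hz' =>
      obtain ⟨hzR, hzQ⟩ := hz'
      obtain ⟨hzU, hz1, hz2⟩ := q.mem_perp2.1 hzR
      have h2 := hz (w' + z) (U.add_mem hw' hzU) (by rw [q.add, hQ', hzQ, hz2]; ring)
      have h3 := hz z hzU hzQ
      rw [map_add, map_add, q.add_left, q.add_left, hpw', h3] at h2
      linear_combination h2
    | zero => rw [map_zero, map_zero, q.zero_left, add_zero]
    | add a b ha hb iha ihb =>
      have ha' : a ∈ q.perp2 U w w' :=
        (Submodule.span_le (p := q.perp2 U w w')).2 (fun z hz => hz.1) ha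
      have hb' : b ∈ q.perp2 U w w' :=
        (Submodule.span_le (p := q.perp2 U w w')).2 (fun z hz => hz.1) hb
      rw [map_add, map_add, q.add_left]
      linear_combination iha ha' + ihb hb'
    | smul c a ha iha =>
      have ha' : a ∈ q.perp2 U w w' :=
        (Submodule.span_le (p := q.perp2 U w w')).2 (fun z hz => hz.1) ha
      rw [map_smul, map_smul, q.smul_left, smul_eq_mul]
      linear_combination c * iha ha'
  refine ⟨q.h w (G w') + q.h w' (G w), ?_⟩
  obtain ⟨c, hc⟩ : ∃ c, c = q.h w (G w') + q.h w' (G w) := ⟨_, rfl⟩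
  rw [← hc]
  have hpu : ∀ u ∈ q.perp2 U w w', q.h u (G u) = c * q.Q u := by
    intro u hu
    obtain ⟨huU, hu1, hu2⟩ := q.mem_perp2.1 hu
    have h2 := hz (w - q.Q u • w' + u) (U.add_mem (U.sub_mem hw (U.smul_mem _ hw')) huU) (by
      rw [q.add, q.Q_sub, q.smul, hw0, hQ', map_smul, smul_eq_mul, hww', q.sub_left, q.smul_left,
        hu1, hu2]
      ring)
    simp only [map_add, map_sub, map_smul, smul_eq_mul, q.add_left, q.sub_left, q.smul_left, hpw,
      hpw'] at h2
    have h3 := hbw u hu
    have h4 := hbw' u hu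
    rw [hc]
    linear_combination h2 - h3 + q.Q u * h4
  intro x hx
  obtain ⟨s, t, hr2⟩ := perp2_dec q hw hw' hw0 hQ' hne x hx
  obtain ⟨u, hudef⟩ : ∃ u, u = x - s • w - t • w' := ⟨_, rfl⟩
  rw [← hudef] at hr2
  obtain ⟨huU, hu1, hu2⟩ := q.mem_perp2.1 hr2
  have hx' : x = s • w + t • w' + u := by rw [hudef]; abel
  have h3 := hbw u hr2
  have h4 := hbw' u hr2
  have h5 := hpu u hr2
  rw [hx', q.add, q.add, q.smul, q.smul, hw0, hQ']
  simp only [map_add, map_smul, smul_eq_mul, q.add_left, q.smul_left, hpw, hpw', h5, hww', hu1, hu2]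
  rw [hc] at h5 ⊢
  linear_combination s * h3 + t * h4

/-- expand `Exc` at `x + y` -/
theorem exc_polar (hE : q.Exc U G c) {x y : V} (hx : x ∈ U) (hy : y ∈ U) :
    q.h x (G y) + q.h y (G x) = c * q.h x y := by
  have h1 := hE (x + y) (U.add_mem hx hy)
  rw [map_add, map_add, q.add_left, q.add_left, q.add, hE x hx, hE y hy] at h1
  linear_combination h1

/-- `exc_polar` for `G x`, `y`: `h (G x) (G y) = h x y`, so `h y (x + G (G x) - c G x) = 0` for all `y ∈ U` -/
theorem exc_sq (hU : q.ND U) (hG : q.Iso U G) (hE : q.Exc U G c) {x : V} (hx : x ∈ U) :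
    G (G x) = c • G x - x := by
  have h1 : x + G (G x) - c • G x = 0 := by
    refine hU _ (U.sub_mem (U.add_mem hx (hG.1 _ (hG.1 _ hx))) (U.smul_mem _ (hG.1 _ hx)))
      fun y hy => ?_
    have h2 := exc_polar q hE (hG.1 _ hx) hy
    rw [hG.h hx hy] at h2
    rw [q.sub_left, q.add_left, q.smul_left, ← q.symm (G (G x)) y]
    rw [q.symm (G (G x)) y]
    rw [q.symm y (G (G x))]
    linear_combination h2
  have h2 : G (G x) = (x + G (G x) - c • G x) + c • G x - x := by abel
  rw [h2, h1, zero_add]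

/-- In dimension at least 5 two independent orthogonal singular vectors exist: `w` (`sing_ex`), its partner `w'`,
`r` singular in `perp2 U w w'` (`sing_ex`); then `sym_exc`. -/
theorem sym_exc5 [Finite K] [FiniteDimensional K V] (hU : q.ND U) (h5 : 5 ≤ finrank K U)
    (hG : q.Iso U G) (hz : ∀ w ∈ U, q.Q w = 0 → q.h w (G w) = 0) : ∃ c : K, q.Exc U G c := by
  obtain ⟨w, hw, hn, h0⟩ := sing_ex q (by omega : 3 ≤ finrank K U)
  obtain ⟨w', hw', hQ', hww⟩ := partner q hU hw h0 hn
  have hww' : q.h w w' = 1 := by rw [q.symm]; exact hww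
  have hne : q.h w w' ≠ 0 := by rw [hww']; exact one_ne_zero
  have hfr := perp2_finrank q hw hw' h0 hQ' hne
  obtain ⟨r, hr, hrn, hr0⟩ := sing_ex q (by omega : 3 ≤ finrank K (q.perp2 U w w'))
  obtain ⟨hrU, hr1, hr2⟩ := q.mem_perp2.1 hr
  refine sym_exc q hU hG hz hw hrU h0 hr0 hr1 fun s t hst => ?_
  have hs : s = 0 := by
    have h1 := congrArg (q.h w') hst
    rw [map_add, map_smul, map_smul, hww, hr2, map_zero, smul_zero, add_zero, smul_eq_mul,
      mul_one] at h1
    exact h1
  rw [hs, zero_smul, zero_add] at hst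
  exact ⟨hs, (smul_eq_zero.1 hst).resolve_right hrn⟩

end ThQ
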