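import Pool.Agent.ThQ.StepI
import Pool.Agent.ThQ.RkA
import Pool.Agent.ThQ.Sing

/-! # Module TriS: the step for `Tri`, and the last step -/

namespace ThQ
open Matrix Module

variable {K V : Type*} [Field K] [AddCommGroup V] [Module K V] (q : QF K V)
variable {U : Submodule K V} {G : V →ₗ[K] V} {w : V}

private theorem TriS_ofD (h0 : q.Q w = 0) (hz : q.h w (G w) ≠ 0)
    {n : ℕ} {v v' : Fin n → V} (hv : q.Hyp (q.perp2 U w (G w)) v v') (hw : w ∈ U) {e : V} {x : V}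
    (hx : x ∈ q.Dp U (Fin.cons w v : Fin (n + 1) → V)
      (Fin.cons (newv q G w e) v' : Fin (n + 1) → V)) :
    tau q w (-e) x ∈ q.Dp (q.perp2 U w (G w)) v v' := by
  have hww : q.h w w = 0 := q.h_self_zero h0
  have hGw' : q.h (G w) w = q.h w (G w) := q.symm _ _
  have m := fun i => (q.mem_perp2).1 (hv.mem i)
  have m' := fun i => (q.mem_perp2).1 (hv.mem' i)
  have s1 : ∀ i, q.h (v i) w = 0 := fun i => by rw [q.symm w, (m i).2.1]
  have s1' : ∀ i, q.h (v' i) w = 0 := fun i => by rw [q.symm w, (m' i).2.1]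
  obtain ⟨xU, hx2⟩ := q.mem_Dp.1 hx
  have x1 : q.h w x = 0 := (hx2 0).1
  have x2 : q.h (newv q G w e) x = 0 := (hx2 0).2
  have x3 : ∀ i, q.h (v i) x = 0 := fun i => (hx2 i.succ).1
  have x4 : ∀ i, q.h (v' i) x = 0 := fun i => (hx2 i.succ).2
  rw [newv, q.add_left, q.sub_left, q.smul_left, q.smul_left, x1, mul_zero, sub_zero] at x2
  rw [q.mem_Dp, q.mem_perp2, tau_apply]
  refine ⟨⟨U.sub_mem xU (U.smul_mem _ hw), ?_, ?_⟩, fun i => ⟨?_, ?_⟩⟩
  · rw [map_sub, map_smul, x1, hww, smul_zero, sub_zero]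
  · rw [map_sub, map_smul, smul_eq_mul, hGw', q.neg_left]
    have h3 : q.h (G w) x + q.h e x * q.h w (G w) = 0 := by
      have h4 : q.h w (G w) * ((q.h w (G w))⁻¹ * q.h (G w) x + q.h e x) = 0 := by
        rw [x2, mul_zero]
      rw [mul_add, ← mul_assoc, mul_inv_cancel₀ hz, one_mul] at h4
      linear_combination h4
    linear_combination h3
  · rw [map_sub, map_smul, x3 i, s1 i, smul_zero, sub_zero]
  · rw [map_sub, map_smul, x4 i, s1' i, smul_zero, sub_zero]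

private theorem TriS_tt {e : V} (he : q.h e w = 0) (x : V) :
    tau q w e (tau q w (-e) x) = x := by
  have h1 : ∀ y, tau q w (-e) y = y + q.h e y • w := fun y => by
    rw [tau_apply, q.neg_left, neg_smul, sub_neg_eq_add]
  rw [tau_apply, h1, map_add, map_smul, he, smul_zero, add_zero, add_sub_cancel_right]

/-- the plane `D1` -/
private theorem TriS_plane [FiniteDimensional K V] (hU : q.ND U) (hG : q.Iso U G) (hw : w ∈ U)
    (h0 : q.Q w = 0) (hz : q.h w (G w) ≠ 0) {n : ℕ} (hf : finrank K U = 2 * (n + 1) + 2)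
    {v v' : Fin n → V} (hv : q.Hyp (q.perp2 U w (G w)) v v') :
    q.ND (q.Dp (q.perp2 U w (G w)) v v') ∧ finrank K (q.Dp (q.perp2 U w (G w)) v v') = 2 := by
  have hGw : G w ∈ U := hG.1 w hw
  have hQG : q.Q (G w) = 0 := by rw [hG.2 w hw, h0]
  have h1 := perp2_ND q hU hw hGw h0 hQG hz
  have h2 := perp2_finrank q hw hGw h0 hQG hz
  have h3 := Dp_finrank q hv
  rw [Fintype.card_fin] at h3
  exact ⟨Dp_ND q h1 hv, by omega⟩

/-- `D1 = Dp (perp2 U w (G w)) v v'` is a nondegenerate plane (`Dp_ND`, `Dp_finrank`, `perp2_ND`, `perp2_finrank`), so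
there is `e ∈ D1` with `Q e = - l0 / h w (G w)` (`univ2`).  Now `stepI`, and `par_refl'` on `D1` (`mid_iso`). -/
theorem tri_g1 [Finite K] [FiniteDimensional K V] (hU : q.ND U) (hG : q.Iso U G) (hw : w ∈ U)
    (h0 : q.Q w = 0) (hz : q.h w (G w) ≠ 0) {n : ℕ} (hf : finrank K U = 2 * (n + 1) + 2)
    {l : Fin n → K} {ε : ℕ} (h : q.Tri (q.perp2 U w (G w)) (q.g1 G w) n l ε) {l0 : K}
    (hl : l0 ≠ 0) : q.Tri U G (n + 1) (Fin.cons l0 l) (ε + 1) := by
  obtain ⟨v, v', s, hv, ht, hd, hs, hr⟩ := h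
  obtain ⟨hD, hD2⟩ := TriS_plane q hU hG hw h0 hz hf hv
  obtain ⟨e, he, hQe⟩ := univ2 q hD hD2 (-(l0 / q.h w (G w)))
  have hQ : q.Q e ≠ 0 := by
    rw [hQe]
    exact neg_ne_zero.2 (div_ne_zero hl hz)
  obtain ⟨k1, k2, k3, k4, k5, k6⟩ := stepI q hG hw h0 hz hv hs he hQ
  refine ⟨_, _, _, k1, ?_, ?_, k5, ?_⟩
  · intro i j
    refine Fin.cases ?_ (fun i => ?_) i <;> refine Fin.cases ?_ (fun j => ?_) j
    · intro hij
      exact absurd hij (lt_irrefl _)
    · intro hij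
      exact absurd hij (Fin.not_lt_zero _)
    · intro _
      exact k3 i
    · intro hij
      rw [Fin.cons_succ, Fin.cons_succ, k4]
      exact ht i j (Fin.succ_lt_succ_iff.1 hij)
  · intro i
    refine Fin.cases ?_ (fun i => ?_) i
    · rw [Fin.cons_zero, Fin.cons_zero, Fin.cons_zero, k2, hQe]
      field_simp
    · rw [Fin.cons_succ, Fin.cons_succ, Fin.cons_succ, k4]
      exact hd i
  · rw [k6]
    have h3 := par_refl' q hD (mid_iso q hv (iso_g1 q hG hw h0 hz) hs) he hQ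
    omega

/-- The last step.  The middle block `s` on the plane `D1` has odd rank `rk D1 s ≤ 2`, so it is a reflection:
`s x = refl f x` for `x ∈ D1`, `f ∈ D1`, `Q f ≠ 0` (`rk_one_refl`, `mid_iso`).  Put `κ = - Q f * h w (G w)` and apply `stepI` with
`e = t • f`: the new middle block is the identity on the new `Dp` (`refl_smul`, `refl_refl`; the conclusion of `stepI` on `Mid`
describes the new `Dp`: for `x` in it, `tau q w (-e) x ∈ D1`, which is also seen directly), and the first diagonal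
entry is `- Q (t • f) * h w (G w) = t ^ 2 * κ`. -/
theorem sysA [Finite K] [FiniteDimensional K V] (hU : q.ND U) (hG : q.Iso U G) (hw : w ∈ U)
    (h0 : q.Q w = 0) (hz : q.h w (G w) ≠ 0) {n : ℕ} (hf : finrank K U = 2 * (n + 1) + 2)
    {l : Fin n → K} {ε : ℕ} (h : q.Tri (q.perp2 U w (G w)) (q.g1 G w) n l ε) (hε : ε % 2 = 1) :
    ∃ κ : K, κ ≠ 0 ∧ ∀ t : K, t ≠ 0 → ∃ a : Matrix (Fin (n + 1)) (Fin (n + 1)) K, q.Sys1 U G a ∧
      (∀ i j, j < i → a i j = 0) ∧ ∀ i, a i i = (Fin.cons (t ^ 2 * κ) l : Fin (n + 1) → K) i := by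
  obtain ⟨v, v', s, hv, ht, hd, hs, hr⟩ := h
  obtain ⟨hD, hD2⟩ := TriS_plane q hU hG hw h0 hz hf hv
  have hsi := mid_iso q hv (iso_g1 q hG hw h0 hz) hs
  have hle : rk (q.Dp (q.perp2 U w (G w)) v v') s ≤ 2 := by
    rw [← hD2]
    exact rk_le
  obtain ⟨f, hfD, hQf, hfx⟩ := rk_one_refl q hD hsi (by omega)
  refine ⟨-(q.Q f * q.h w (G w)), neg_ne_zero.2 (mul_ne_zero hQf hz), fun t ht0 => ?_⟩
  have heD : t • f ∈ q.Dp (q.perp2 U w (G w)) v v' := Submodule.smul_mem _ _ hfD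
  have hQe : q.Q (t • f) = t ^ 2 * q.Q f := q.smul _ _
  have hQ : q.Q (t • f) ≠ 0 := by
    rw [hQe]
    exact mul_ne_zero (pow_ne_zero 2 ht0) hQf
  obtain ⟨k1, k2, k3, k4, k5, k6⟩ := stepI q hG hw h0 hz hv hs heD hQ
  have hew : q.h (t • f) w = 0 := by
    rw [q.symm w (t • f)]
    exact (q.mem_perp2.1 (q.mem_Dp.1 heD).1).2.1
  refine ⟨Matrix.of fun i j => q.h ((Fin.cons (newv q G w (t • f)) v' : Fin (n + 1) → V) i)
    (G ((Fin.cons w v : Fin (n + 1) → V) j)), ⟨_, _, k1, fun i j => rfl, ?_⟩, ?_, ?_⟩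
  · intro x hx
    have hx1 := TriS_ofD q h0 hz hv hw hx
    obtain ⟨-, y, hy, y', hy', hG2⟩ := k5 x hx
    refine ⟨hx, y, hy, y', hy', ?_⟩
    rw [hG2, LinearMap.comp_apply, LinearMap.comp_apply, LinearMap.comp_apply, hfx _ hx1,
      refl_smul q f ht0, refl_refl q hQf, TriS_tt q hew, LinearMap.id_apply]
  · intro i j
    rw [Matrix.of_apply]
    refine Fin.cases ?_ (fun i => ?_) i <;> refine Fin.cases ?_ (fun j => ?_) j
    · intro hij
      exact absurd hij (lt_irrefl _)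
    · intro hij
      exact absurd hij (Fin.not_lt_zero _)
    · intro _
      exact k3 i
    · intro hij
      rw [Fin.cons_succ, Fin.cons_succ, k4]
      exact ht i j (Fin.succ_lt_succ_iff.1 hij)
  · intro i
    rw [Matrix.of_apply]
    refine Fin.cases ?_ (fun i => ?_) i
    · rw [Fin.cons_zero, Fin.cons_zero, Fin.cons_zero, k2, hQe]
      ring
    · rw [Fin.cons_succ, Fin.cons_succ, Fin.cons_succ, k4]
      exact hd i

end ThQ
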